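import Pool.Agent.Lib.MP_ea42c6_pr.W0

/-!
# A0 — choice of the parameters

`locB q θ k₀ ℓ w μ = w² (((k₀ℓ+1)(k₀ℓ+2))²/(μ/2-1) + k₀ (1-q/20)^ℓ)/(θ/2) + w² 40/μ + exp(-(μ w p2 θ/324000))`.
`params_block`: `w = 3b`, `b = 4(2 k₀ ℓ + 1)`: first choose `ℓ` with
`w² k₀ (1-q/20)^ℓ/(θ/2) ≤ p/4` (polynomial times exponential:
`tendsto_pow_const_mul_const_pow_of_abs_lt_one`), then let `μ → ∞`: all other terms tend to 0
(and each is antitone in `μ`; eventually in `μ` is enough: `Filter.eventually_atTop`).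
`params_torus`: `w = M ≤ M₁`: bound `w` by `M₁` except in the exponential, where `w ≥ 1`; choose
`ℓ` with also `M₁ ≤ 100 k₀ ℓ`.
-/

namespace EA42

open scoped Classical

theorem A0_tend {q θ δ : ℝ} (hq : 0 < q) (hq1 : q ≤ 1) (hθ : 0 < θ) (hδ : 0 < δ) (k₀ ℓ w : ℕ)
    (hw : 1 ≤ w) (c : ℝ) :
    Filter.Tendsto (fun μ : ℝ => locB q θ k₀ ℓ w μ + c * (2 * Real.exp (-(δ ^ 2 * μ / 4))))
      Filter.atTop (nhds ((w : ℝ) ^ 2 * ((k₀ * (1 - q / 20) ^ ℓ) / (θ / 2)))) := by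
  have hw' : (0 : ℝ) < w := by exact_mod_cast hw
  have hp2 := p2_pos hq hq1
  have hid : Filter.Tendsto (fun μ : ℝ => μ) Filter.atTop Filter.atTop := Filter.tendsto_id
  have h1 : Filter.Tendsto (fun μ : ℝ => μ / 2 - 1) Filter.atTop Filter.atTop := by
    have := Filter.tendsto_atTop_add_const_right Filter.atTop (-1 : ℝ)
      (hid.atTop_div_const (by norm_num : (0 : ℝ) < 2))
    simpa [sub_eq_add_neg] using this
  have h2 : Filter.Tendsto (fun μ : ℝ => ((k₀ * ℓ + 1 : ℝ) * (k₀ * ℓ + 2)) ^ 2 / (μ / 2 - 1))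
      Filter.atTop (nhds 0) := tendsto_const_nhds.div_atTop h1
  have h3 : Filter.Tendsto (fun μ : ℝ => 40 / μ) Filter.atTop (nhds 0) :=
    tendsto_const_nhds.div_atTop hid
  have h4 : Filter.Tendsto (fun μ : ℝ => Real.exp (-(μ * w * p2 q * θ / 324000)))
      Filter.atTop (nhds 0) := by
    have h5 : Filter.Tendsto (fun μ : ℝ => μ * w * p2 q * θ / 324000) Filter.atTop
        Filter.atTop := by
      have h6 : Filter.Tendsto (fun μ : ℝ => (w * p2 q * θ / 324000) * μ) Filter.atTop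
          Filter.atTop := hid.const_mul_atTop (by positivity)
      refine h6.congr fun μ => ?_
      ring
    exact Real.tendsto_exp_neg_atTop_nhds_zero.comp h5
  have h5 : Filter.Tendsto (fun μ : ℝ => Real.exp (-(δ ^ 2 * μ / 4))) Filter.atTop
      (nhds 0) := by
    have h6 : Filter.Tendsto (fun μ : ℝ => δ ^ 2 * μ / 4) Filter.atTop Filter.atTop := by
      have h7 : Filter.Tendsto (fun μ : ℝ => (δ ^ 2 / 4) * μ) Filter.atTop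
          Filter.atTop := hid.const_mul_atTop (by positivity)
      refine h7.congr fun μ => ?_
      ring
    exact Real.tendsto_exp_neg_atTop_nhds_zero.comp h6
  have h6 := (((((h2.add_const ((k₀ : ℝ) * (1 - q / 20) ^ ℓ)).div_const (θ / 2)).add
    h3).const_mul ((w : ℝ) ^ 2)).add h4).add ((h5.const_mul 2).const_mul c)
  unfold locB
  simpa using h6

theorem A0_ell {q θ p : ℝ} (hq : 0 < q) (hq1 : q ≤ 1) (hθ : 0 < θ) (hp : 0 < p) (k₀ : ℕ)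
    (A B C : ℝ) (N : ℕ) : ∃ ℓ : ℕ, N ≤ ℓ ∧
      (A * (ℓ : ℝ) ^ 2 + B * ℓ + C) * ((k₀ * (1 - q / 20) ^ ℓ) / (θ / 2)) < p := by
  have ha : |1 - q / 20| < 1 := by
    rw [abs_lt]
    constructor <;> linarith
  have t2 := tendsto_pow_const_mul_const_pow_of_abs_lt_one 2 ha
  have t1 := tendsto_pow_const_mul_const_pow_of_abs_lt_one 1 ha
  have t0 := tendsto_pow_const_mul_const_pow_of_abs_lt_one 0 ha
  have t := (((t2.const_mul A).add (t1.const_mul B)).add (t0.const_mul C)).const_mul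
    ((k₀ : ℝ) / (θ / 2))
  have t' : Filter.Tendsto (fun ℓ : ℕ =>
      (A * (ℓ : ℝ) ^ 2 + B * ℓ + C) * ((k₀ * (1 - q / 20) ^ ℓ) / (θ / 2))) Filter.atTop
      (nhds 0) := by
    have e : (k₀ : ℝ) / (θ / 2) * (A * 0 + B * 0 + C * 0) = 0 := by ring
    rw [e] at t
    refine t.congr fun ℓ => ?_
    ring
  obtain ⟨ℓ, h1, h2⟩ := ((t'.eventually_lt_const hp).and (Filter.eventually_ge_atTop N)).exists
  exact ⟨ℓ, h2, h1⟩

theorem params_block {q θ δ p : ℝ} (hq : 0 < q) (hq1 : q ≤ 1) (hθ : 0 < θ) (hδ : 0 < δ)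
    (hp : 0 < p) (k₀ : ℕ) : ∃ ℓ : ℕ, 1 ≤ ℓ ∧ ∃ μ₀ : ℝ, 1000 / θ ≤ μ₀ ∧ ∀ μ ≥ μ₀,
      locB q θ k₀ ℓ (3 * (4 * (2 * (k₀ * ℓ) + 1))) μ +
        25 * ((4 * (2 * (k₀ * ℓ) + 1) : ℕ) : ℝ) ^ 2 * (2 * Real.exp (-(δ ^ 2 * μ / 4))) ≤ p := by
  obtain ⟨ℓ, hℓ, h1⟩ := A0_ell hq hq1 hθ hp k₀ (576 * (k₀ : ℝ) ^ 2) (576 * k₀) 144 1
  refine ⟨ℓ, hℓ, ?_⟩
  have h2 := A0_tend hq hq1 hθ hδ k₀ ℓ (3 * (4 * (2 * (k₀ * ℓ) + 1))) (by omega)
    (25 * ((4 * (2 * (k₀ * ℓ) + 1) : ℕ) : ℝ) ^ 2)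
  have h3 : ((3 * (4 * (2 * (k₀ * ℓ) + 1)) : ℕ) : ℝ) ^ 2 *
      ((k₀ * (1 - q / 20) ^ ℓ) / (θ / 2)) < p := by
    have e : ((3 * (4 * (2 * (k₀ * ℓ) + 1)) : ℕ) : ℝ) ^ 2 =
        576 * (k₀ : ℝ) ^ 2 * (ℓ : ℝ) ^ 2 + 576 * k₀ * ℓ + 144 := by
      push_cast
      ring
    rw [e]
    exact h1
  obtain ⟨N, hN⟩ := Filter.eventually_atTop.1 (h2.eventually_lt_const h3)
  refine ⟨max (1000 / θ) N, le_max_left _ _, fun μ hμ => ?_⟩
  exact (hN μ ((le_max_right _ _).trans hμ)).le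

theorem params_torus {q θ δ η : ℝ} (hq : 0 < q) (hq1 : q ≤ 1) (hθ : 0 < θ) (hδ : 0 < δ)
    (hη : 0 < η) (k₀ : ℕ) (hk : 0 < k₀) (M₁ : ℕ) : ∃ ℓ : ℕ, 1 ≤ ℓ ∧ M₁ ≤ 100 * (k₀ * ℓ) ∧
      ∃ μ₀ : ℝ, 1000 / θ ≤ μ₀ ∧ ∀ μ ≥ μ₀, ∀ M : ℕ, 1 ≤ M → M ≤ M₁ →
        locB q θ k₀ ℓ M μ + (M : ℝ) ^ 2 * (2 * Real.exp (-(δ ^ 2 * μ / 4))) ≤ η := by
  obtain ⟨ℓ, hℓ, h1⟩ := A0_ell hq hq1 hθ hη k₀ 0 0 ((M₁ : ℝ) ^ 2) (M₁ + 1)
  refine ⟨ℓ, by omega, ?_, ?_⟩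
  · nlinarith [Nat.le_mul_of_pos_left ℓ hk]
  · have h2 : ∀ M ∈ Finset.range (M₁ + 1), ∀ᶠ μ : ℝ in Filter.atTop, 1 ≤ M →
        locB q θ k₀ ℓ M μ + (M : ℝ) ^ 2 * (2 * Real.exp (-(δ ^ 2 * μ / 4))) ≤ η := by
      intro M hM
      by_cases hM1 : 1 ≤ M
      · have h3 := A0_tend hq hq1 hθ hδ k₀ ℓ M hM1 ((M : ℝ) ^ 2)
        have h4 : (M : ℝ) ^ 2 * ((k₀ * (1 - q / 20) ^ ℓ) / (θ / 2)) < η := by
          refine lt_of_le_of_lt ?_ h1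
          refine mul_le_mul_of_nonneg_right ?_ ?_
          · have h5 : (M : ℝ) ≤ M₁ := by
              exact_mod_cast Nat.lt_succ_iff.1 (Finset.mem_range.1 hM)
            have h6 : (0 : ℝ) ≤ M := Nat.cast_nonneg _
            nlinarith
          · have h7 : 0 ≤ 1 - q / 20 := by linarith
            positivity
        filter_upwards [h3.eventually_lt_const h4] with μ hμ _
        exact hμ.le
      · exact Filter.Eventually.of_forall fun μ h => absurd h hM1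
    obtain ⟨N, hN⟩ := Filter.eventually_atTop.1 ((Filter.eventually_all_finset _).2 h2)
    refine ⟨max (1000 / θ) N, le_max_left _ _, fun μ hμ M hM1 hM2 => ?_⟩
    exact hN μ ((le_max_right _ _).trans hμ) M (Finset.mem_range.2 (by omega)) hM1

theorem locB_nonneg {q θ μ : ℝ} (hq : 0 ≤ q) (hq1 : q ≤ 1) (hθ : 0 < θ) (hμ : 2 < μ)
    (k₀ ℓ w : ℕ) : 0 ≤ locB q θ k₀ ℓ w μ := by
  unfold locB
  have h1 : 0 < μ / 2 - 1 := by linarith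
  have h2 : 0 ≤ 1 - q / 20 := by linarith
  have h3 : 0 < μ := by linarith
  have h4 := Real.exp_pos (-(μ * w * p2 q * θ / 324000))
  have h5 : 0 ≤ (w : ℝ) ^ 2 * ((((k₀ * ℓ + 1 : ℝ) * (k₀ * ℓ + 2)) ^ 2 / (μ / 2 - 1)
      + k₀ * (1 - q / 20) ^ ℓ) / (θ / 2) + 40 / μ) := by positivity
  linarith

end EA42
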