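import Mathlib

/-!
# A0s — choice of the scale

`scale`: choose `K` maximal with `5·12^K ≤ A = 3/(r b)` and `m = ⌈A/12^K⌉`:
`5 ≤ m ≤ 60`, `A ≤ m 12^K`, `m 12^K + 4 ≤ A + A/5 + 4 ≤ 4A/3` if `A ≥ 30`.  `K ≥ K₀` if
`A ≥ 5·12^K₀` (`K ≥ K₀` by maximality).
-/

namespace EA42

theorem scale (b : ℕ) (hb : 0 < b) (K₀ : ℕ) : ∃ r₁ : ℝ, 0 < r₁ ∧ ∀ r : ℝ, 0 < r → r ≤ r₁ →
    ∃ K m M : ℕ, K₀ ≤ K ∧ 5 ≤ m ∧ m ≤ 60 ∧ M = b * (m * 12 ^ K + 4) ∧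
      3 / (M : ℝ) ≤ r ∧ r ≤ 4 / (M : ℝ) := by
  have hb' : (0 : ℝ) < b := by exact_mod_cast hb
  have h12 : (1 : ℝ) ≤ 12 ^ K₀ := one_le_pow₀ (by norm_num)
  refine ⟨3 / (b * (30 * 12 ^ K₀)), by positivity, ?_⟩
  intro r hr hr1
  obtain ⟨A, hA⟩ : ∃ A : ℝ, A = 3 / (r * b) := ⟨_, rfl⟩
  have hrb : 0 < r * b := mul_pos hr hb'
  have hA1 : A * (r * b) = 3 := by rw [hA]; field_simp
  have hA0 : 30 * 12 ^ K₀ ≤ A := by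
    rw [hA, le_div_iff₀ hrb]
    rw [le_div_iff₀ (by positivity)] at hr1
    linarith
  obtain ⟨K, hK1, hK2⟩ := exists_nat_pow_near (x := A / 5) (y := 12)
    (by rw [le_div_iff₀ (by norm_num)]; linarith) (by norm_num)
  have h12K : (0 : ℝ) < 12 ^ K := by positivity
  have hK1' : 5 * 12 ^ K ≤ A := by
    rw [le_div_iff₀ (by norm_num)] at hK1; linarith
  have hK2' : A < 60 * 12 ^ K := by
    rw [div_lt_iff₀ (by norm_num), pow_succ] at hK2; linarith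
  have hK0 : K₀ ≤ K := by
    have h1 : (12 : ℝ) ^ K₀ < 12 ^ (K + 1) := by
      refine lt_of_le_of_lt ?_ hK2
      rw [le_div_iff₀ (by norm_num)]; linarith
    have h2 := (pow_lt_pow_iff_right₀ (by norm_num : (1 : ℝ) < 12)).mp h1
    omega
  have hm1 : A / 12 ^ K ≤ ⌈A / 12 ^ K⌉₊ := Nat.le_ceil _
  have hm2 : (⌈A / 12 ^ K⌉₊ : ℝ) < A / 12 ^ K + 1 := Nat.ceil_lt_add_one (div_nonneg (by linarith) h12K.le)
  have hm3 : A ≤ (⌈A / 12 ^ K⌉₊ : ℝ) * 12 ^ K := by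
    rwa [div_le_iff₀ h12K] at hm1
  have hm4 : (⌈A / 12 ^ K⌉₊ : ℝ) * 12 ^ K ≤ A + 12 ^ K := by
    have h := mul_le_mul_of_nonneg_right hm2.le h12K.le
    rwa [add_mul, one_mul, div_mul_cancel₀ _ h12K.ne'] at h
  refine ⟨K, ⌈A / 12 ^ K⌉₊, b * (⌈A / 12 ^ K⌉₊ * 12 ^ K + 4), hK0, ?_, ?_, rfl, ?_, ?_⟩
  · have h5 : (5 : ℝ) ≤ ⌈A / 12 ^ K⌉₊ := by
      refine le_trans ?_ hm1
      rw [le_div_iff₀ h12K]; exact hK1'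
    exact_mod_cast h5
  · refine Nat.ceil_le.mpr ?_
    rw [div_le_iff₀ h12K]
    push_cast
    exact hK2'.le
  · push_cast
    rw [div_le_iff₀ (by positivity)]
    have h6 : A * (r * b) ≤ ((⌈A / 12 ^ K⌉₊ : ℝ) * 12 ^ K + 4) * (r * b) :=
      mul_le_mul_of_nonneg_right (by linarith) hrb.le
    calc (3 : ℝ) = A * (r * b) := hA1.symm
      _ ≤ ((⌈A / 12 ^ K⌉₊ : ℝ) * 12 ^ K + 4) * (r * b) := h6
      _ = r * (b * ((⌈A / 12 ^ K⌉₊ : ℝ) * 12 ^ K + 4)) := by ring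
  · push_cast
    rw [le_div_iff₀ (by positivity)]
    have h7 : (⌈A / 12 ^ K⌉₊ : ℝ) * 12 ^ K + 4 ≤ 4 / 3 * A := by
      nlinarith
    have h6 : ((⌈A / 12 ^ K⌉₊ : ℝ) * 12 ^ K + 4) * (r * b) ≤ 4 / 3 * A * (r * b) :=
      mul_le_mul_of_nonneg_right h7 hrb.le
    calc r * (b * ((⌈A / 12 ^ K⌉₊ : ℝ) * 12 ^ K + 4))
        = ((⌈A / 12 ^ K⌉₊ : ℝ) * 12 ^ K + 4) * (r * b) := by ring
      _ ≤ 4 / 3 * A * (r * b) := h6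
      _ = 4 / 3 * (A * (r * b)) := by ring
      _ = 4 := by rw [hA1]; norm_num

end EA42
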