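import Mathlib

/-!
# A1n — the final numbers for small radius

`M = b (s+4)`, `μ = n/M²`: `b² μ s² = n (s/(s+4))²`; for `s ≥ 64/ε`, `(s/(s+4))² ≥ 1 - 8/(s+4) ≥ 1 - ε/8`.
`(1-ε/8) (1-ε/8) ((1-ε/8) - 9θ(1+ε/8)) ≥ (1-ε/8)² (1 - ε/8 - 0.225 ε) ≥ 1 - ε`
(`θ ≤ ε/80`, `1+ε/8 ≤ 2`: `9θ(1+ε/8) ≤ 18 ε/80 = 0.225 ε`).
-/

namespace EA42

theorem final_num {ε θ : ℝ} (hε : 0 < ε) (hε1 : ε < 1) (hθ0 : 0 < θ) (hθ : θ ≤ ε / 80)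
    (b s M n : ℕ) (hb : 0 < b) (hM : M = b * (s + 4)) (hs : 64 / ε ≤ s) (C : ℝ)
    (hC : (1 - ε / 8) * (s : ℝ) ^ 2 ≤ C) :
    (1 - ε) * (n : ℝ) ≤
      C * ((b : ℝ) ^ 2 * ((n : ℝ) / (M : ℝ) ^ 2) * ((1 - ε / 8) - 9 * θ * (1 + ε / 8))) := by
  have hs0 : (0 : ℝ) ≤ (s : ℝ) := Nat.cast_nonneg s
  have hn0 : (0 : ℝ) ≤ (n : ℝ) := Nat.cast_nonneg n
  have hb0 : (0 : ℝ) < (b : ℝ) := by exact_mod_cast hb
  have hMr : (M : ℝ) = b * (s + 4) := by rw [hM]; push_cast; ring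
  have h64 : 64 ≤ ((s : ℝ) + 4) * ε := by
    rw [div_le_iff₀ hε] at hs
    nlinarith
  have hQ : (0 : ℝ) < ((s : ℝ) + 4) ^ 2 := by positivity
  have key : (1 - ε / 8) * ((s : ℝ) + 4) ^ 2 ≤ (s : ℝ) ^ 2 := by
    have h1 : ((s : ℝ) + 4) * 64 ≤ ((s : ℝ) + 4) * (((s : ℝ) + 4) * ε) :=
      mul_le_mul_of_nonneg_left h64 (by linarith)
    nlinarith
  have e1 : (b : ℝ) ^ 2 * ((n : ℝ) / (M : ℝ) ^ 2) = (n : ℝ) / ((s : ℝ) + 4) ^ 2 := by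
    rw [hMr]
    field_simp
  rw [e1]
  set K : ℝ := (1 - ε / 8) - 9 * θ * (1 + ε / 8) with hK
  have hK1 : 1 - ε / 2 ≤ K := by
    have h1 : 9 * θ * (1 + ε / 8) ≤ 9 * (ε / 80) * 2 := by
      have h2 : 9 * θ * (1 + ε / 8) ≤ 9 * (ε / 80) * (1 + ε / 8) :=
        mul_le_mul_of_nonneg_right (by linarith) (by linarith)
      have h3 : 9 * (ε / 80) * (1 + ε / 8) ≤ 9 * (ε / 80) * 2 :=
        mul_le_mul_of_nonneg_left (by linarith) (by linarith)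
      linarith
    rw [hK]
    linarith
  have hK0 : 0 ≤ K := by linarith
  have h8 : 0 ≤ 1 - ε / 8 := by linarith
  set N : ℝ := (n : ℝ) / ((s : ℝ) + 4) ^ 2 with hN
  have hN0 : 0 ≤ N := div_nonneg hn0 hQ.le
  have hNQ : N * ((s : ℝ) + 4) ^ 2 = n := by
    rw [hN]
    field_simp
  have h1 : (1 - ε / 8) * ((1 - ε / 8) * ((s : ℝ) + 4) ^ 2) ≤ C :=
    (mul_le_mul_of_nonneg_left key h8).trans hC
  have h2 : (1 - ε / 8) * ((1 - ε / 8) * ((s : ℝ) + 4) ^ 2) * (N * K) ≤ C * (N * K) :=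
    mul_le_mul_of_nonneg_right h1 (mul_nonneg hN0 hK0)
  have h3 : (1 - ε / 8) * ((1 - ε / 8) * ((s : ℝ) + 4) ^ 2) * (N * K) =
      (n : ℝ) * ((1 - ε / 8) * (1 - ε / 8) * K) := by
    rw [← hNQ]
    ring
  have h4 : 1 - ε ≤ (1 - ε / 8) * (1 - ε / 8) * K := by
    have h5 : 1 - ε / 4 ≤ (1 - ε / 8) * (1 - ε / 8) := by nlinarith [sq_nonneg ε]
    have h6 : (1 - ε / 4) * K ≤ (1 - ε / 8) * (1 - ε / 8) * K :=
      mul_le_mul_of_nonneg_right h5 hK0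
    have h7 : (1 - ε / 4) * (1 - ε / 2) ≤ (1 - ε / 4) * K :=
      mul_le_mul_of_nonneg_left hK1 (by linarith)
    nlinarith [sq_nonneg ε]
  have h5 : (1 - ε) * (n : ℝ) ≤ (n : ℝ) * ((1 - ε / 8) * (1 - ε / 8) * K) := by
    rw [mul_comm]
    exact mul_le_mul_of_nonneg_left h4 hn0
  rw [← h3] at h5
  exact h5.trans h2

end EA42
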