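import Pool.Agent.Lib.MP_ea42c6_pr.Defs

/-!
# L3a — distances between cells

`Near` composes (`abs_add`), is reflexive and monotone; `reach` by induction with `Valid.near`.
`card_ball_lo`: the ball contains the whole cell (`Valid.touch`, `Touch c c`).
`card_ball_hi`: the ball is contained in the vertices of the cells `Near 4`; these cells are the
image of `(i,j) ∈ [-4,4]²`, at most 81.
-/

namespace EA42

open scoped Classical

theorem near_refl {M : ℕ} (t : ℕ) (c : Cell M) : Near t c c := by
  refine ⟨0, 0, by simp, by simp, ?_⟩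
  simp

theorem near_mono {M : ℕ} {s t : ℕ} (h : s ≤ t) {c c' : Cell M} (hn : Near s c c') :
    Near t c c' := by
  obtain ⟨i, j, hi, hj, he⟩ := hn
  have h' : (s : ℤ) ≤ (t : ℤ) := by exact_mod_cast h
  exact ⟨i, j, hi.trans h', hj.trans h', he⟩

theorem near_trans {M : ℕ} {s t : ℕ} {c c' c'' : Cell M} (h : Near s c c') (h' : Near t c' c'') :
    Near (s + t) c c'' := by
  obtain ⟨i, j, hi, hj, he⟩ := h
  obtain ⟨i', j', hi', hj', he'⟩ := h'
  refine ⟨i + i', j + j', ?_, ?_, ?_⟩
  · push_cast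
    exact (abs_add_le i i').trans (add_le_add hi hi')
  · push_cast
    exact (abs_add_le j j').trans (add_le_add hj hj')
  · rw [he', he]
    ext
    · simp [add_assoc]
    · simp [add_assoc]

/-- `reach` stays within cell distance `4 j`. -/
theorem reach_near {V : Type*} {M : ℕ} (d : Datum V M) (hd : Valid d) (j : ℕ) (v u : V)
    (h : u ∈ reach d.2 j v) : Near (4 * j) (d.1 v) (d.1 u) := by
  induction j generalizing u with
  | zero =>
    have h1 : u = v := by
      unfold reach at h
      exact Finset.mem_singleton.mp h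
    rw [h1]
    exact near_refl _ _
  | succ j ih =>
    unfold reach at h
    obtain ⟨x, hx, hu⟩ := Finset.mem_biUnion.mp h
    have h1 := near_trans (ih x hx) (hd.near x u hu)
    have h2 : 4 * (j + 1) = 4 * j + 4 := by ring
    rw [h2]
    exact h1

theorem card_ball_lo {V : Type*} [Fintype V] {M : ℕ} (d : Datum V M) (hd : Valid d) (u : V) :
    cnt d.1 (d.1 u) ≤ (d.2 u).card := by
  unfold cnt
  refine Finset.card_le_card fun v hv => ?_
  rw [Finset.mem_filter] at hv
  exact hd.touch u v (Or.inl hv.2)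

theorem l3a_near_card {M : ℕ} [NeZero M] (c : Cell M) :
    ((Finset.univ : Finset (Cell M)).filter fun c' => Near 4 c c').card ≤ 81 := by
  have hsub : ((Finset.univ : Finset (Cell M)).filter fun c' => Near 4 c c') ⊆
      ((Finset.Icc (-4 : ℤ) 4 ×ˢ Finset.Icc (-4 : ℤ) 4).image
        fun ij : ℤ × ℤ => c + ((ij.1 : ZMod M), (ij.2 : ZMod M))) := by
    intro c' hc'
    rw [Finset.mem_filter] at hc'
    obtain ⟨i, j, hi, hj, he⟩ := hc'.2
    rw [Finset.mem_image]
    refine ⟨(i, j), ?_, he.symm⟩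
    rw [Finset.mem_product, Finset.mem_Icc, Finset.mem_Icc]
    have hi' := abs_le.mp hi
    have hj' := abs_le.mp hj
    push_cast at hi' hj'
    exact ⟨hi', hj'⟩
  refine (Finset.card_le_card hsub).trans (Finset.card_image_le.trans ?_)
  rw [Finset.card_product, Int.card_Icc]
  decide

theorem card_ball_hi {V : Type*} [Fintype V] {M : ℕ} [NeZero M] (d : Datum V M) (hd : Valid d)
    (u : V) {K : ℝ} (hK : 0 ≤ K) (h : ∀ c, Near 4 (d.1 u) c → (cnt d.1 c : ℝ) ≤ K) :
    ((d.2 u).card : ℝ) ≤ 81 * K := by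
  set S : Finset (Cell M) := Finset.univ.filter fun c' => Near 4 (d.1 u) c' with hS
  have hcard : S.card ≤ 81 := l3a_near_card (d.1 u)
  have hsub : d.2 u ⊆ S.biUnion fun c => Finset.univ.filter fun v => d.1 v = c := by
    intro v hv
    rw [Finset.mem_biUnion]
    refine ⟨d.1 v, ?_, ?_⟩
    · rw [hS, Finset.mem_filter]
      exact ⟨Finset.mem_univ _, hd.near u v hv⟩
    · rw [Finset.mem_filter]
      exact ⟨Finset.mem_univ _, rfl⟩
  have h1 : ((d.2 u).card : ℝ) ≤ ∑ c ∈ S, (cnt d.1 c : ℝ) := by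
    have h2 : (d.2 u).card ≤ ∑ c ∈ S, cnt d.1 c :=
      (Finset.card_le_card hsub).trans Finset.card_biUnion_le
    exact_mod_cast h2
  have h3 : ∑ c ∈ S, (cnt d.1 c : ℝ) ≤ ∑ _c ∈ S, K := by
    refine Finset.sum_le_sum fun c hc => h c ?_
    rw [hS, Finset.mem_filter] at hc
    exact hc.2
  rw [Finset.sum_const, nsmul_eq_mul] at h3
  have h4 : (S.card : ℝ) * K ≤ 81 * K := by
    refine mul_le_mul_of_nonneg_right ?_ hK
    exact_mod_cast hcard
  linarith

end EA42
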