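import Pool.Agent.Lib.MP_ea42c6_pr.L7
import Pool.Agent.Lib.MP_ea42c6_pr.L3a

/-!
# H0a — geometry of the block regions

`M = b (s+4)`, `β ∈ grid s`.  `blkR` is the planar rectangle of cells with coordinates
`[b β.1, b (β.1+5)) × [b β.2, b (β.2+5))`, and `b (s+4) = M`, so nothing wraps around: a cell is in
`sq (corner M b t β) (k b)` (`t + k ≤ 5`) iff `b (β.1+t) ≤ c.1.val < b (β.1+t+k)` and the same
for the second coordinate (`mem_sq_corner`; `ZMod.val_natCast_of_lt`, `ZMod.natCast_zmod_val`).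
* `blkW_near`: a cell at distance `≤ b` of `blkW` is in `blkR` (integers: `c.1.val + i` is in
  `[0, M)`, so it is the `val` of the new coordinate).
* `blk_disjoint`: the blocks themselves, for different `β`.
* `blkW_inter`: for adjacent blocks the intersection of the two `blkW` has at least `6b²` cells
  (e.g. it contains an injective image of `Fin (2b) × Fin (3b)` or a
  `Finset.Ico ×ˢ Finset.Ico` of values; it is the rectangle of `val`s).
-/

namespace EA42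

open scoped Classical

theorem h0a_one {M : ℕ} [NeZero M] {A w : ℕ} (h : A + w ≤ M) (x : ZMod M) :
    (∃ i : Fin w, ((A : ℕ) : ZMod M) + ((i : ℕ) : ZMod M) = x) ↔ A ≤ x.val ∧ x.val < A + w := by
  constructor
  · rintro ⟨i, hi⟩
    have hi2 := i.2
    have h1 : ((A + (i : ℕ) : ℕ) : ZMod M) = x := by
      rw [Nat.cast_add]
      exact hi
    have h2 : x.val = A + (i : ℕ) := by
      rw [← h1]
      exact ZMod.val_natCast_of_lt (by omega)
    omega
  · rintro ⟨h1, h2⟩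
    refine ⟨⟨x.val - A, by omega⟩, ?_⟩
    show ((A : ℕ) : ZMod M) + ((x.val - A : ℕ) : ZMod M) = x
    rw [← Nat.cast_add, Nat.add_sub_cancel' h1]
    exact ZMod.natCast_zmod_val x

theorem h0a_sq {M : ℕ} [NeZero M] {A B w : ℕ} (hA : A + w ≤ M) (hB : B + w ≤ M) (c : Cell M) :
    c ∈ sq (((A : ℕ) : ZMod M), ((B : ℕ) : ZMod M)) w ↔
      (A ≤ c.1.val ∧ c.1.val < A + w) ∧ (B ≤ c.2.val ∧ c.2.val < B + w) := by
  rw [← h0a_one hA c.1, ← h0a_one hB c.2]
  unfold sq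
  rw [Finset.mem_image]
  constructor
  · rintro ⟨ij, _, h⟩
    have h1 := congrArg Prod.fst h
    have h2 := congrArg Prod.snd h
    exact ⟨⟨ij.1, h1⟩, ⟨ij.2, h2⟩⟩
  · rintro ⟨⟨i, hi⟩, ⟨j, hj⟩⟩
    exact ⟨(i, j), Finset.mem_univ _, Prod.ext hi hj⟩

theorem h0a_lt {M b s : ℕ} (hM : M = b * (s + 4)) {x : ℕ} (hx : x < s) :
    b * x + 5 * b ≤ M := by
  have h := Nat.mul_le_mul_left b (show x + 1 ≤ s from hx)
  rw [hM]
  linarith

theorem h0a_grid {s : ℕ} {β : ℕ × ℕ} (hβ : β ∈ grid s) : β.1 < s ∧ β.2 < s := by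
  unfold grid at hβ
  rw [Finset.mem_product, Finset.mem_range, Finset.mem_range] at hβ
  exact hβ

theorem mem_sq_corner {M b s t k : ℕ} [NeZero M] (hM : M = b * (s + 4)) {β : ℕ × ℕ}
    (hβ : β ∈ grid s) (htk : t + k ≤ 5) (c : Cell M) :
    c ∈ sq (corner M b t β) (k * b) ↔
      (b * (β.1 + t) ≤ c.1.val ∧ c.1.val < b * (β.1 + t + k)) ∧
      (b * (β.2 + t) ≤ c.2.val ∧ c.2.val < b * (β.2 + t + k)) := by
  obtain ⟨h1, h2⟩ := h0a_grid hβ
  have e1 : ∀ x : ℕ, b * (x + t) + k * b = b * (x + t + k) := by intro x; ring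
  have e2 : ∀ x : ℕ, x < s → b * (x + t) + k * b ≤ M := by
    intro x hx
    have h3 := h0a_lt hM hx
    have h4 : (t + k) * b ≤ 5 * b := Nat.mul_le_mul_right b htk
    have h5 : b * (x + t) + k * b = b * x + (t + k) * b := by ring
    omega
  rw [← e1, ← e1]
  exact h0a_sq (e2 _ h1) (e2 _ h2) c

theorem h0a_blk {M b s : ℕ} [NeZero M] (hM : M = b * (s + 4)) {β : ℕ × ℕ}
    (hβ : β ∈ grid s) (c : Cell M) : c ∈ blk M b β ↔
      (b * β.1 + 2 * b ≤ c.1.val ∧ c.1.val < b * β.1 + 3 * b) ∧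
      (b * β.2 + 2 * b ≤ c.2.val ∧ c.2.val < b * β.2 + 3 * b) := by
  have h := mem_sq_corner (t := 2) (k := 1) hM hβ (by norm_num) c
  rw [one_mul] at h
  unfold blk
  rw [h]
  have e : ∀ x : ℕ, b * (x + 2) = b * x + 2 * b := by intro x; ring
  have e' : ∀ x : ℕ, b * (x + 2 + 1) = b * x + 3 * b := by intro x; ring
  rw [e, e', e, e']

theorem h0a_blkW {M b s : ℕ} [NeZero M] (hM : M = b * (s + 4)) {β : ℕ × ℕ}
    (hβ : β ∈ grid s) (c : Cell M) : c ∈ blkW M b β ↔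
      (b * β.1 + b ≤ c.1.val ∧ c.1.val < b * β.1 + 4 * b) ∧
      (b * β.2 + b ≤ c.2.val ∧ c.2.val < b * β.2 + 4 * b) := by
  have h := mem_sq_corner (t := 1) (k := 3) hM hβ (by norm_num) c
  unfold blkW
  rw [h]
  have e : ∀ x : ℕ, b * (x + 1) = b * x + b := by intro x; ring
  have e' : ∀ x : ℕ, b * (x + 1 + 3) = b * x + 4 * b := by intro x; ring
  rw [e, e', e, e']

theorem h0a_blkR {M b s : ℕ} [NeZero M] (hM : M = b * (s + 4)) {β : ℕ × ℕ}
    (hβ : β ∈ grid s) (c : Cell M) : c ∈ blkR M b β ↔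
      (b * β.1 ≤ c.1.val ∧ c.1.val < b * β.1 + 5 * b) ∧
      (b * β.2 ≤ c.2.val ∧ c.2.val < b * β.2 + 5 * b) := by
  have h := mem_sq_corner (t := 0) (k := 5) hM hβ (by norm_num) c
  unfold blkR
  rw [h]
  have e' : ∀ x : ℕ, b * (x + 0 + 5) = b * x + 5 * b := by intro x; ring
  rw [add_zero, add_zero, show b * (β.1 + 5) = b * β.1 + 5 * b by ring,
    show b * (β.2 + 5) = b * β.2 + 5 * b by ring]

theorem blkW_subset {M b s : ℕ} [NeZero M] (hM : M = b * (s + 4)) {β : ℕ × ℕ}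
    (hβ : β ∈ grid s) : blk M b β ⊆ blkW M b β ∧ blkW M b β ⊆ blkR M b β := by
  constructor
  · intro c hc
    rw [h0a_blk hM hβ] at hc
    rw [h0a_blkW hM hβ]
    omega
  · intro c hc
    rw [h0a_blkW hM hβ] at hc
    rw [h0a_blkR hM hβ]
    omega

theorem card_blk {M b s : ℕ} [NeZero M] (hM : M = b * (s + 4)) (β : ℕ × ℕ) :
    (blk M b β).card = b ^ 2 ∧ (blkW M b β).card = (3 * b) ^ 2 ∧
      (blkR M b β).card ≤ (5 * b) ^ 2 := by
  have h4 : 4 * b ≤ M := by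
    rw [hM]
    have : b * (s + 4) = b * s + 4 * b := by ring
    omega
  refine ⟨card_sq _ (by omega), card_sq _ (by omega), ?_⟩
  unfold blkR sq
  refine Finset.card_image_le.trans ?_
  rw [Finset.card_univ, Fintype.card_prod, Fintype.card_fin, pow_two]

theorem h0a_add {M : ℕ} [NeZero M] (x : ZMod M) (i : ℤ) (h0 : 0 ≤ (x.val : ℤ) + i)
    (h1 : (x.val : ℤ) + i < M) : ((x + (i : ZMod M)).val : ℤ) = (x.val : ℤ) + i := by
  obtain ⟨n, hn⟩ := Int.eq_ofNat_of_zero_le h0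
  have h2 : x + (i : ZMod M) = ((n : ℕ) : ZMod M) := by
    have h3 : (((x.val : ℤ) + i : ℤ) : ZMod M) = (((n : ℕ) : ℤ) : ZMod M) := by
      rw [hn]
    rw [Int.cast_add, Int.cast_natCast, Int.cast_natCast, ZMod.natCast_zmod_val] at h3
    exact h3
  rw [h2, ZMod.val_natCast_of_lt (by omega), hn]

theorem blkW_near {M b s : ℕ} [NeZero M] (hM : M = b * (s + 4)) {β : ℕ × ℕ} (hβ : β ∈ grid s)
    (c c' : Cell M) (hc : c ∈ blkW M b β) (hn : Near b c c') : c' ∈ blkR M b β := by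
  obtain ⟨h1, h2⟩ := h0a_grid hβ
  have h3 := h0a_lt hM h1
  have h4 := h0a_lt hM h2
  rw [h0a_blkW hM hβ] at hc
  rw [h0a_blkR hM hβ]
  obtain ⟨i, j, hi, hj, he⟩ := hn
  rw [abs_le] at hi hj
  have e1 : c'.1 = c.1 + (i : ZMod M) := by rw [he]; rfl
  have e2 : c'.2 = c.2 + (j : ZMod M) := by rw [he]; rfl
  have v1 := h0a_add c.1 i (by omega) (by omega)
  have v2 := h0a_add c.2 j (by omega) (by omega)
  rw [← e1] at v1
  rw [← e2] at v2
  omega

theorem blk_disjoint {M b s : ℕ} [NeZero M] (hM : M = b * (s + 4)) {β γ : ℕ × ℕ}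
    (hβ : β ∈ grid s) (hγ : γ ∈ grid s) (h : β ≠ γ) : Disjoint (blk M b β) (blk M b γ) := by
  rw [Finset.disjoint_left]
  intro c hc hc'
  rw [h0a_blk hM hβ] at hc
  rw [h0a_blk hM hγ] at hc'
  have key : ∀ x y : ℕ, b * x < b * y + b → b * y < b * x + b → x = y := by
    intro x y hxy hyx
    have h1 : b * x < b * (y + 1) := by
      rw [Nat.mul_succ]
      exact hxy
    have h2 : b * y < b * (x + 1) := by
      rw [Nat.mul_succ]
      exact hyx
    have h3 := Nat.lt_of_mul_lt_mul_left h1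
    have h4 := Nat.lt_of_mul_lt_mul_left h2
    omega
  exact h (Prod.ext (key _ _ (by omega) (by omega)) (key _ _ (by omega) (by omega)))

theorem blkR_disjoint {M b s : ℕ} [NeZero M] (hM : M = b * (s + 4)) {β γ : ℕ × ℕ}
    (hβ : β ∈ grid s) (hγ : γ ∈ grid s) (h : Far β γ) : Disjoint (blkR M b β) (blkR M b γ) := by
  rw [Finset.disjoint_left]
  intro c hc hc'
  rw [h0a_blkR hM hβ] at hc
  rw [h0a_blkR hM hγ] at hc'
  have key : ∀ x y : ℕ, x + 5 ≤ y → b * x + 5 * b ≤ b * y := by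
    intro x y hxy
    have h1 := Nat.mul_le_mul_left b hxy
    linarith
  rcases h with h | h | h | h
  · have := key _ _ h
    omega
  · have := key _ _ h
    omega
  · have := key _ _ h
    omega
  · have := key _ _ h
    omega

theorem h0a_rect {M : ℕ} [NeZero M] {A B u v : ℕ} (hA : A + u ≤ M) (hB : B + v ≤ M)
    (S : Finset (Cell M)) (h : ∀ c : Cell M, A ≤ c.1.val → c.1.val < A + u → B ≤ c.2.val →
      c.2.val < B + v → c ∈ S) : u * v ≤ S.card := by
  have h1 : (Finset.Ico A (A + u) ×ˢ Finset.Ico B (B + v)).card = u * v := by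
    rw [Finset.card_product, Nat.card_Ico, Nat.card_Ico, Nat.add_sub_cancel_left,
      Nat.add_sub_cancel_left]
  rw [← h1]
  refine Finset.card_le_card_of_injOn
    (fun p : ℕ × ℕ => (((p.1 : ℕ) : ZMod M), ((p.2 : ℕ) : ZMod M))) ?_ ?_
  · intro p hp
    have hp' := Finset.mem_product.mp (Finset.mem_coe.mp hp)
    rw [Finset.mem_Ico, Finset.mem_Ico] at hp'
    have v1 : ((p.1 : ℕ) : ZMod M).val = p.1 := ZMod.val_natCast_of_lt (by omega)
    have v2 : ((p.2 : ℕ) : ZMod M).val = p.2 := ZMod.val_natCast_of_lt (by omega)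
    refine Finset.mem_coe.mpr (h _ ?_ ?_ ?_ ?_)
    · show A ≤ ((p.1 : ℕ) : ZMod M).val
      omega
    · show ((p.1 : ℕ) : ZMod M).val < A + u
      omega
    · show B ≤ ((p.2 : ℕ) : ZMod M).val
      omega
    · show ((p.2 : ℕ) : ZMod M).val < B + v
      omega
  · intro p hp q hq hpq
    have hp' := Finset.mem_product.mp (Finset.mem_coe.mp hp)
    have hq' := Finset.mem_product.mp (Finset.mem_coe.mp hq)
    rw [Finset.mem_Ico, Finset.mem_Ico] at hp' hq'
    have v1 : ((p.1 : ℕ) : ZMod M).val = p.1 := ZMod.val_natCast_of_lt (by omega)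
    have v2 : ((p.2 : ℕ) : ZMod M).val = p.2 := ZMod.val_natCast_of_lt (by omega)
    have w1 : ((q.1 : ℕ) : ZMod M).val = q.1 := ZMod.val_natCast_of_lt (by omega)
    have w2 : ((q.2 : ℕ) : ZMod M).val = q.2 := ZMod.val_natCast_of_lt (by omega)
    have e1 : ((p.1 : ℕ) : ZMod M) = ((q.1 : ℕ) : ZMod M) := congrArg Prod.fst hpq
    have e2 : ((p.2 : ℕ) : ZMod M) = ((q.2 : ℕ) : ZMod M) := congrArg Prod.snd hpq
    rw [e1] at v1
    rw [e2] at v2
    exact Prod.ext (v1.symm.trans w1) (v2.symm.trans w2)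

theorem blkW_inter {M b s : ℕ} [NeZero M] (hM : M = b * (s + 4)) {β γ : ℕ × ℕ}
    (hβ : β ∈ grid s) (hγ : γ ∈ grid s) (h : Adj4 β γ) :
    6 * b ^ 2 ≤ (blkW M b β ∩ blkW M b γ).card := by
  obtain ⟨h1, h2⟩ := h0a_grid hβ
  obtain ⟨h3, h4⟩ := h0a_grid hγ
  have g1 := h0a_lt hM h1
  have g2 := h0a_lt hM h2
  have g3 := h0a_lt hM h3
  have g4 := h0a_lt hM h4
  have e32 : 3 * b * (2 * b) = 6 * b ^ 2 := by ring
  have e23 : 2 * b * (3 * b) = 6 * b ^ 2 := by ring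
  have es : ∀ x y : ℕ, x + 1 = y → b * y = b * x + b := by
    intro x y hxy
    rw [← hxy, Nat.mul_succ]
  rcases h with ⟨ha, hb | hb⟩ | ⟨ha, hb | hb⟩
  · have hb' := es _ _ hb
    rw [← e32]
    refine h0a_rect (A := b * β.1 + b) (B := b * β.2 + 2 * b) (by omega) (by omega) _ ?_
    intro c c1 c2 c3 c4
    rw [Finset.mem_inter, h0a_blkW hM hβ, h0a_blkW hM hγ, ← ha, hb']
    omega
  · have hb' := es _ _ hb
    rw [← e32]
    refine h0a_rect (A := b * β.1 + b) (B := b * γ.2 + 2 * b) (by omega) (by omega) _ ?_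
    intro c c1 c2 c3 c4
    rw [Finset.mem_inter, h0a_blkW hM hβ, h0a_blkW hM hγ, ← ha, hb']
    omega
  · have hb' := es _ _ hb
    rw [← e23]
    refine h0a_rect (A := b * β.1 + 2 * b) (B := b * β.2 + b) (by omega) (by omega) _ ?_
    intro c c1 c2 c3 c4
    rw [Finset.mem_inter, h0a_blkW hM hβ, h0a_blkW hM hγ, ← ha, hb']
    omega
  · have hb' := es _ _ hb
    rw [← e23]
    refine h0a_rect (A := b * γ.1 + 2 * b) (B := b * β.2 + b) (by omega) (by omega) _ ?_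
    intro c c1 c2 c3 c4
    rw [Finset.mem_inter, h0a_blkW hM hβ, h0a_blkW hM hγ, ← ha, hb']
    omega

end EA42
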