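import Pool.Agent.Lib.MP_ea42c6_pr.L9
import Pool.Agent.Lib.MP_ea42c6_pr.H0a

/-!
# H0 — the local theorem for one block

`local_le` with `o = corner M b 1 β`, `w = 3 b ≤ M`, `R = blkR M b β`: `blkW_near` (`b = 4 (2 (k₀ ℓ) + 1)`),
`|blkR| ≤ 25 b² ≤ 100 (k₀ ℓ) (3 b)` since `b = 8 k₀ ℓ + 4 ≤ 12 k₀ ℓ` (`k₀ ≥ 1` by `hk`, `ℓ ≥ 1`);
`Reg δ μ` with `δ ≤ 1/2` gives `μ/2 ≤ N ≤ 2μ`.
-/

namespace EA42

open scoped Classical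

theorem block_local {n M b s : ℕ} [NeZero M] (hM : M = b * (s + 4)) {q θ μ δ : ℝ} (h0 : 0 < q)
    (h1 : q ≤ 1) (hθ : 0 < θ) (hθ1 : θ ≤ 1 / 13) (hμ : 1000 / θ ≤ μ) (hδ : δ ≤ 1 / 2)
    (d : Datum (Fin n) M) (hd : Valid d) (k₀ ℓ : ℕ) (hℓ : 1 ≤ ℓ)
    (hk : (10 : ℝ) ^ 8 ≤ k₀ * (p2 q * θ)) (hb : b = 4 * (2 * (k₀ * ℓ) + 1))
    (β : ℕ × ℕ) (hβ : β ∈ grid s) (hreg : Reg d.1 (blkR M b β) δ μ) :
    pr (prodW (wt q d.2)) {ω | ¬ GoodLoc d.1 ω (blkW M b β) (blkR M b β) θ} ≤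
      locB q θ k₀ ℓ (3 * b) μ := by
  have hμ0 : 0 < μ := lt_of_lt_of_le (by positivity) hμ
  have hk0 : 1 ≤ k₀ := by
    rcases Nat.eq_zero_or_pos k₀ with h | h
    · rw [h] at hk; norm_num at hk
    · exact h
  have hkl : 1 ≤ k₀ * ℓ := Nat.mul_pos hk0 hℓ
  have hb0 : 0 < b := by omega
  refine local_le h0 h1 hθ hθ1 hμ d hd k₀ ℓ hℓ hk (corner M b 1 β) (by omega) ?_ (blkR M b β) ?_
    ?_ ?_
  · rw [hM, mul_comm 3 b]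
    exact Nat.mul_le_mul_left _ (by omega)
  · intro c hc c' hn
    rw [← hb] at hn
    exact blkW_near hM hβ c c' hc hn
  · refine ((card_blk hM β).2.2).trans ?_
    have h2 : b ≤ 12 * (k₀ * ℓ) := by omega
    calc (5 * b) ^ 2 = 25 * b * b := by ring
      _ ≤ 25 * b * (12 * (k₀ * ℓ)) := Nat.mul_le_mul_left _ h2
      _ = 100 * (k₀ * ℓ) * (3 * b) := by ring
  · intro c hc
    have h3 := hreg c hc
    rw [abs_le] at h3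
    have h4 : δ * μ ≤ 1 / 2 * μ := mul_le_mul_of_nonneg_right hδ hμ0.le
    constructor <;> linarith [h3.1, h3.2]

end EA42
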