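import Pool.Agent.Lib.MP_ea42c6_pr.L4
import Pool.Agent.Lib.MP_ea42c6_pr.L3a

/-!
# L9c — the number of big components, and the union bound in numbers

`card_inR`: `|inR cl R| = ∑_{c ∈ R} cnt cl c ≤ |R| K`.
`two_pow_le`: `n_big · t ≤ |U| ≤ 2μ |R| ≤ 200 μ k₀ ℓ w`, `t = k₀ (k₀ ℓ)`, so `n_big ≤ 200 μ w/k₀`,
`2^n_big ≤ exp (0.7 n_big) ≤ exp(140 μ w/k₀) ≤ exp(μ w p2 θ/324000)` by
`10^8 ≤ k₀ (p2 q θ)` (`log 2 < 0.6931471808`: `Real.log_two_lt_d9`), and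
`exp(μ w p2 θ/324000) · exp(-p2 θ w μ/162000) = exp(-μ w p2 θ/324000)`.
-/

namespace EA42

open scoped Classical

theorem card_inR {V : Type*} [Fintype V] {M : ℕ} (cl : V → Cell M) (R : Finset (Cell M)) :
    (inR cl R).card = ∑ c ∈ R, cnt cl c := by
  unfold inR
  rw [Finset.card_eq_sum_card_fiberwise (f := cl) (t := R) (by
    intro v hv
    simpa using hv)]
  refine Finset.sum_congr rfl fun c hc => ?_
  unfold cnt
  congr 1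
  ext v
  simp only [Finset.mem_filter, Finset.mem_univ, true_and]
  exact ⟨fun h => h.2, fun h => ⟨h ▸ hc, h⟩⟩

theorem card_inR_le {V : Type*} [Fintype V] {M : ℕ} (cl : V → Cell M) (R : Finset (Cell M))
    {K : ℝ} (h : ∀ c ∈ R, (cnt cl c : ℝ) ≤ K) : ((inR cl R).card : ℝ) ≤ R.card * K := by
  rw [card_inR]
  push_cast
  calc ∑ c ∈ R, (cnt cl c : ℝ) ≤ ∑ c ∈ R, K := Finset.sum_le_sum h
    _ = R.card * K := by rw [Finset.sum_const, nsmul_eq_mul]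

theorem card_inR_ge {V : Type*} [Fintype V] {M : ℕ} (cl : V → Cell M) (R : Finset (Cell M))
    {K : ℝ} (h : ∀ c ∈ R, K ≤ (cnt cl c : ℝ)) : R.card * K ≤ ((inR cl R).card : ℝ) := by
  rw [card_inR]
  push_cast
  calc R.card * K = ∑ c ∈ R, K := by rw [Finset.sum_const, nsmul_eq_mul]
    _ ≤ ∑ c ∈ R, (cnt cl c : ℝ) := Finset.sum_le_sum h

theorem two_pow_le {q θ μ : ℝ} (hμ : 0 < μ) (hθ : 0 < θ) (hp : 0 < p2 q) (k₀ ℓ w nb u rc : ℕ)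
    (hℓ : 1 ≤ ℓ) (hk : (10 : ℝ) ^ 8 ≤ k₀ * (p2 q * θ)) (hnb : nb * (k₀ * (k₀ * ℓ)) ≤ u)
    (hu : (u : ℝ) ≤ rc * (2 * μ)) (hrc : rc ≤ 100 * (k₀ * ℓ) * w) :
    (2 : ℝ) ^ nb * Real.exp (-(p2 q * (θ * w * μ ^ 2 / 1000) / (162 * μ))) ≤
      Real.exp (-(μ * w * p2 q * θ / 324000)) := by
  set A : ℝ := p2 q * θ with hA
  have hA0 : 0 < A := mul_pos hp hθ
  have hk0 : 0 < (k₀ : ℝ) := by
    by_contra hcon
    have h1 : (k₀ : ℝ) = 0 := le_antisymm (not_lt.mp hcon) (Nat.cast_nonneg _)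
    rw [h1, zero_mul] at hk
    norm_num at hk
  have hℓ0 : (0 : ℝ) < (ℓ : ℝ) := by exact_mod_cast hℓ
  have hnb0 : (0 : ℝ) ≤ (nb : ℝ) := Nat.cast_nonneg _
  have h1 : (nb : ℝ) * (k₀ * (k₀ * ℓ)) ≤ u := by exact_mod_cast hnb
  have h2 : (rc : ℝ) ≤ 100 * (k₀ * ℓ) * w := by exact_mod_cast hrc
  have h3 : (rc : ℝ) * (2 * μ) ≤ 100 * (k₀ * ℓ) * w * (2 * μ) :=
    mul_le_mul_of_nonneg_right h2 (by linarith)
  have h4 : ((nb : ℝ) * k₀) * (k₀ * ℓ) ≤ (200 * μ * w) * (k₀ * ℓ) := by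
    calc ((nb : ℝ) * k₀) * (k₀ * ℓ) = (nb : ℝ) * (k₀ * (k₀ * ℓ)) := by ring
      _ ≤ 100 * (k₀ * ℓ) * w * (2 * μ) := h1.trans (hu.trans h3)
      _ = (200 * μ * w) * (k₀ * ℓ) := by ring
  have h5 : (nb : ℝ) * k₀ ≤ 200 * μ * w := le_of_mul_le_mul_right h4 (mul_pos hk0 hℓ0)
  have h6 : (nb : ℝ) * 10 ^ 8 ≤ 200 * μ * w * A := by
    calc (nb : ℝ) * 10 ^ 8 ≤ nb * (k₀ * A) := mul_le_mul_of_nonneg_left hk hnb0
      _ = (nb * k₀) * A := by ring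
      _ ≤ 200 * μ * w * A := mul_le_mul_of_nonneg_right h5 hA0.le
  have h7 : (nb : ℝ) * Real.log 2 ≤ nb * (7 / 10) :=
    mul_le_mul_of_nonneg_left (by have := Real.log_two_lt_d9; linarith) hnb0
  have h8 : 0 ≤ μ * w * A := by positivity
  have e1 : (2 : ℝ) ^ nb = Real.exp (nb * Real.log 2) := by
    rw [Real.exp_nat_mul, Real.exp_log two_pos]
  have e2 : p2 q * (θ * w * μ ^ 2 / 1000) / (162 * μ) = μ * w * A / 162000 := by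
    rw [hA]
    field_simp
    ring
  have e3 : μ * w * p2 q * θ / 324000 = μ * w * A / 324000 := by
    rw [hA]
    ring
  rw [e1, ← Real.exp_add, e2, e3]
  apply Real.exp_le_exp.mpr
  have h9 : (nb : ℝ) * 10 ^ 8 ≤ 200 * (μ * w * A) := by
    calc (nb : ℝ) * 10 ^ 8 ≤ 200 * μ * w * A := h6
      _ = 200 * (μ * w * A) := by ring
  norm_num at h9
  linarith

end EA42
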