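import Pool.Agent.Lib.MP_ea42c6_pr.H0a
import Pool.Agent.Lib.MP_ea42c6_pr.L9c

/-!
# H1 — a connected set of good blocks gives a giant component

`M = b (s+4)`.  For a block `β` that is not bad: `Reg` on `blkR`, and a vertex `x_β` such that
`{v ∈ V(blkW β) | Reachable x_β v}` (in `gr ω (inR blkR) ≤ gr ω univ`) misses at most
`θ |V(blkW)| ≤ θ 9 b² (1+δ) μ` of the vertices in `blkW β`.
* `β, β'` adjacent: `blkW β ∩ blkW β'` contains at least `6 b²` cells (`blkW_inter`), so at least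
  `6 b² (1-δ) μ ≥ 3 b² μ` vertices (`card_inR_ge`), more than the
  `2 · θ · 9 b² (1+δ) μ ≤ 27 θ b² μ < 3 b² μ` missed ones; so `x_β`, `x_β'` are joined in `gr ω univ`.
* By `Conn C` all `x_β`, `β ∈ C`, are in one component of `gr ω univ`.  It contains at least
  `|V(blk β)| - θ |V(blkW β)| ≥ b² (1-δ) μ - 9 θ b² (1+δ) μ` vertices of the block `β`
  (`blk β ⊆ blkW β`), and the blocks `blk β` are disjoint (`blk_disjoint`).
`largest G ≥ #{w | Reachable v w}` for every `v` (`Finset.le_sup`).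
-/

namespace EA42

open scoped Classical

theorem gr_mono {V : Type*} (ω : V → Co V) {U U' : Finset V} (h : U ⊆ U') :
    gr ω U ≤ gr ω U' := by
  intro a b hab
  unfold gr at hab ⊢
  rw [SimpleGraph.fromRel_adj] at hab ⊢
  refine ⟨hab.1, ?_⟩
  rcases hab.2 with h1 | h1
  · exact Or.inl ⟨h h1.1, h1.2⟩
  · exact Or.inr ⟨h h1.1, h1.2⟩

theorem H1_inR_mono {V : Type*} [Fintype V] {M : ℕ} (cl : V → Cell M) {R R' : Finset (Cell M)}
    (h : R ⊆ R') : inR cl R ⊆ inR cl R' := by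
  intro v hv
  unfold inR at hv ⊢
  rw [Finset.mem_filter] at hv ⊢
  exact ⟨hv.1, h hv.2⟩

theorem H1_mem_inR {V : Type*} [Fintype V] {M : ℕ} {cl : V → Cell M} {R : Finset (Cell M)}
    {v : V} : v ∈ inR cl R ↔ cl v ∈ R := by
  unfold inR
  rw [Finset.mem_filter]
  exact ⟨fun h => h.2, fun h => ⟨Finset.mem_univ _, h⟩⟩

/-- the vertices of the wide block which are joined to `x` -/
noncomputable def H1_A {V : Type*} [Fintype V] {M : ℕ} (cl : V → Cell M) (G : SimpleGraph V)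
    (W : Finset (Cell M)) (x : V) : Finset V := (inR cl W).filter fun v => G.Reachable x v

theorem H1_mem_A {V : Type*} [Fintype V] {M : ℕ} {cl : V → Cell M} {G : SimpleGraph V}
    {W : Finset (Cell M)} {x v : V} : v ∈ H1_A cl G W x ↔ cl v ∈ W ∧ G.Reachable x v := by
  unfold H1_A
  rw [Finset.mem_filter, H1_mem_inR]

theorem H1_A_subset {V : Type*} [Fintype V] {M : ℕ} (cl : V → Cell M) (G : SimpleGraph V)
    (W : Finset (Cell M)) (x : V) : H1_A cl G W x ⊆ inR cl W := fun _ hv =>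
  H1_mem_inR.mpr (H1_mem_A.mp hv).1

theorem H1_largest {V : Type*} [Fintype V] (G : SimpleGraph V) (v : V) :
    ∃ A : Finset V, (∀ w, w ∈ A ↔ G.Reachable v w) ∧ A.card ≤ largest G := by
  refine ⟨Finset.univ.filter fun w => G.Reachable v w, fun w => by simp, ?_⟩
  unfold largest
  exact Finset.le_sup (f := fun v => (Finset.univ.filter fun w => G.Reachable v w).card)
    (Finset.mem_univ v)

theorem H1_goodLoc {V : Type*} [Fintype V] {M : ℕ} {cl : V → Cell M} {ω : V → Co V}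
    {W R : Finset (Cell M)} {θ : ℝ} (h : GoodLoc cl ω W R θ) :
    ∃ x : V, (1 - θ) * ((inR cl W).card : ℝ) ≤ ((H1_A cl (gr ω Finset.univ) W x).card : ℝ) := by
  obtain ⟨x, hx⟩ := h
  refine ⟨x, hx.trans ?_⟩
  have h2 : ((inR cl W).filter fun v => (gr ω (inR cl R)).Reachable x v) ⊆
      H1_A cl (gr ω Finset.univ) W x := by
    intro v hv
    rw [Finset.mem_filter] at hv
    exact H1_mem_A.mpr ⟨H1_mem_inR.mp hv.1, hv.2.mono (gr_mono ω (Finset.subset_univ _))⟩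
  exact_mod_cast Finset.card_le_card h2

theorem H1_block {n M b s : ℕ} [NeZero M] (hM : M = b * (s + 4))
    {θ μ δ : ℝ} (hθ : 0 < θ)
    (d : Datum (Fin n) M) (ω : Fin n → Co (Fin n)) {β : ℕ × ℕ} (hβ : β ∈ grid s)
    (hgood : ¬ BadB b δ θ μ d ω β) :
    (∀ c ∈ blkR M b β, (1 - δ) * μ ≤ (cnt d.1 c : ℝ) ∧ (cnt d.1 c : ℝ) ≤ (1 + δ) * μ) ∧
      ∃ x : Fin n, ((inR d.1 (blkW M b β) \ H1_A d.1 (gr ω Finset.univ) (blkW M b β) x).card : ℝ) ≤
        9 * θ * (b : ℝ) ^ 2 * (1 + δ) * μ := by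
  unfold BadB at hgood
  rw [not_or, not_not, not_not] at hgood
  obtain ⟨hreg, hloc⟩ := hgood
  obtain ⟨x, h3⟩ := H1_goodLoc hloc
  have hcnt : ∀ c ∈ blkR M b β, (1 - δ) * μ ≤ (cnt d.1 c : ℝ) ∧ (cnt d.1 c : ℝ) ≤ (1 + δ) * μ := by
    intro c hc
    have h1 := abs_le.mp (hreg c hc)
    constructor <;> linarith [h1.1, h1.2]
  refine ⟨hcnt, x, ?_⟩
  have hW := (blkW_subset hM hβ).2
  have h1 : ((inR d.1 (blkW M b β)).card : ℝ) ≤ ((blkW M b β).card : ℝ) * ((1 + δ) * μ) :=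
    card_inR_le d.1 _ (fun c hc => (hcnt c (hW hc)).2)
  rw [(card_blk hM β).2.1] at h1
  have hsub : H1_A d.1 (gr ω Finset.univ) (blkW M b β) x ⊆ inR d.1 (blkW M b β) :=
    H1_A_subset _ _ _ _
  have h4 : ((inR d.1 (blkW M b β) \ H1_A d.1 (gr ω Finset.univ) (blkW M b β) x).card : ℝ) =
      ((inR d.1 (blkW M b β)).card : ℝ) -
        ((H1_A d.1 (gr ω Finset.univ) (blkW M b β) x).card : ℝ) := by
    rw [Finset.card_sdiff_of_subset hsub, Nat.cast_sub (Finset.card_le_card hsub)]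
  rw [h4]
  have h5 : θ * ((inR d.1 (blkW M b β)).card : ℝ) ≤
      θ * ((((3 * b) ^ 2 : ℕ) : ℝ) * ((1 + δ) * μ)) := mul_le_mul_of_nonneg_left h1 hθ.le
  have h6 : θ * ((((3 * b) ^ 2 : ℕ) : ℝ) * ((1 + δ) * μ)) =
      9 * θ * (b : ℝ) ^ 2 * (1 + δ) * μ := by
    push_cast
    ring
  linarith

theorem H1_joined {n M b s : ℕ} [NeZero M] (hM : M = b * (s + 4)) (hb : 0 < b)
    {θ μ δ : ℝ} (hθ : 0 < θ) (hθ1 : θ ≤ 1 / 13) (hμ : 0 < μ) (hδ : δ ≤ 1 / 2)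
    (hδ0 : 0 ≤ δ)
    (d : Datum (Fin n) M) (G : SimpleGraph (Fin n)) {β γ : ℕ × ℕ} (hβ : β ∈ grid s)
    (hγ : γ ∈ grid s) (hadj : Adj4 β γ)
    (hcnt : ∀ c ∈ blkR M b β, (1 - δ) * μ ≤ (cnt d.1 c : ℝ) ∧ (cnt d.1 c : ℝ) ≤ (1 + δ) * μ)
    {x y : Fin n}
    (hx : ((inR d.1 (blkW M b β) \ H1_A d.1 G (blkW M b β) x).card : ℝ) ≤
        9 * θ * (b : ℝ) ^ 2 * (1 + δ) * μ)
    (hy : ((inR d.1 (blkW M b γ) \ H1_A d.1 G (blkW M b γ) y).card : ℝ) ≤
        9 * θ * (b : ℝ) ^ 2 * (1 + δ) * μ) : G.Reachable x y := by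
  by_contra hcon
  have hI := blkW_inter hM hβ hγ hadj
  have h1 : (((blkW M b β ∩ blkW M b γ).card : ℕ) : ℝ) * ((1 - δ) * μ) ≤
      ((inR d.1 (blkW M b β ∩ blkW M b γ)).card : ℝ) :=
    card_inR_ge d.1 _ (fun c hc =>
      (hcnt c ((blkW_subset hM hβ).2 (Finset.mem_inter.mp hc).1)).1)
  have h2 : inR d.1 (blkW M b β ∩ blkW M b γ) ⊆
      (inR d.1 (blkW M b β) \ H1_A d.1 G (blkW M b β) x) ∪
        (inR d.1 (blkW M b γ) \ H1_A d.1 G (blkW M b γ) y) := by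
    intro v hv
    rw [H1_mem_inR, Finset.mem_inter] at hv
    rw [Finset.mem_union, Finset.mem_sdiff, Finset.mem_sdiff]
    by_contra hno
    push Not at hno
    have h3 := hno.1 (H1_mem_inR.mpr hv.1)
    have h4 := hno.2 (H1_mem_inR.mpr hv.2)
    exact hcon ((H1_mem_A.mp h3).2.trans (H1_mem_A.mp h4).2.symm)
  have h3 : ((inR d.1 (blkW M b β ∩ blkW M b γ)).card : ℝ) ≤
      ((inR d.1 (blkW M b β) \ H1_A d.1 G (blkW M b β) x).card : ℝ) +
        ((inR d.1 (blkW M b γ) \ H1_A d.1 G (blkW M b γ) y).card : ℝ) := by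
    exact_mod_cast (Finset.card_le_card h2).trans (Finset.card_union_le _ _)
  have hbr : (0 : ℝ) < (b : ℝ) ^ 2 := by
    have : (0 : ℝ) < b := by exact_mod_cast hb
    positivity
  have h4 : (6 * (b : ℝ) ^ 2) ≤ (((blkW M b β ∩ blkW M b γ).card : ℕ) : ℝ) := by
    exact_mod_cast hI
  have h5 : 0 ≤ (1 - δ) * μ := mul_nonneg (by linarith) hμ.le
  have h6 : (6 * (b : ℝ) ^ 2) * ((1 - δ) * μ) ≤ 2 * (9 * θ * (b : ℝ) ^ 2 * (1 + δ) * μ) := by
    calc (6 * (b : ℝ) ^ 2) * ((1 - δ) * μ) ≤ _ := mul_le_mul_of_nonneg_right h4 h5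
      _ ≤ _ := h1
      _ ≤ _ := h3
      _ ≤ _ := by linarith
  have h7 : (0 : ℝ) < (b : ℝ) ^ 2 * μ := mul_pos hbr hμ
  have h8 : ((b : ℝ) ^ 2 * μ) * (6 * (1 - δ)) ≤ ((b : ℝ) ^ 2 * μ) * (18 * θ * (1 + δ)) := by
    linarith
  have h9 := le_of_mul_le_mul_left h8 h7
  have h10 : θ * (1 + δ) ≤ 1 / 13 * (3 / 2) :=
    mul_le_mul hθ1 (by linarith) (by linarith) (by norm_num)
  linarith

theorem giant_of_core {n M b s : ℕ} [NeZero M] (hM : M = b * (s + 4)) (hb : 0 < b)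
    {θ μ δ : ℝ} (hθ : 0 < θ) (hθ1 : θ ≤ 1 / 13) (hμ : 0 < μ) (hδ0 : 0 ≤ δ) (hδ : δ ≤ 1 / 2)
    (d : Datum (Fin n) M) (ω : Fin n → Co (Fin n)) (C : Finset (ℕ × ℕ)) (hC : C ⊆ grid s)
    (hconn : Conn C) (hgood : ∀ β ∈ C, ¬ BadB b δ θ μ d ω β) :
    (C.card : ℝ) * ((b : ℝ) ^ 2 * μ * ((1 - δ) - 9 * θ * (1 + δ))) ≤
      (largest (gr ω Finset.univ) : ℝ) := by
  rcases C.eq_empty_or_nonempty with hemp | ⟨β₀, hβ₀⟩
  · rw [hemp]
    simp
  have hbl : ∀ β : C, (∀ c ∈ blkR M b β, (1 - δ) * μ ≤ (cnt d.1 c : ℝ) ∧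
      (cnt d.1 c : ℝ) ≤ (1 + δ) * μ) ∧
      ∃ x : Fin n, ((inR d.1 (blkW M b β) \
        H1_A d.1 (gr ω Finset.univ) (blkW M b β) x).card : ℝ) ≤
        9 * θ * (b : ℝ) ^ 2 * (1 + δ) * μ :=
    fun β => H1_block hM hθ d ω (hC β.2) (hgood β β.2)
  choose hcnt x hx using hbl
  -- all `x β` are in one component
  have hreach : ∀ γ : C, (gr ω Finset.univ).Reachable (x ⟨β₀, hβ₀⟩) (x γ) := by
    intro γ
    have hstep : ∀ y : ℕ × ℕ, Relation.ReflTransGen (fun a b => a ∈ C ∧ b ∈ C ∧ Adj4 a b) β₀ y →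
        ∀ hy : y ∈ C, (gr ω Finset.univ).Reachable (x ⟨β₀, hβ₀⟩) (x ⟨y, hy⟩) := by
      intro y hy
      induction hy with
      | refl => intro _; exact SimpleGraph.Reachable.refl _
      | tail _ hab ih =>
        intro hyC
        refine (ih hab.1).trans ?_
        exact H1_joined hM hb hθ hθ1 hμ hδ hδ0 d _ (hC hab.1) (hC hyC) hab.2.2
          (hcnt ⟨_, hab.1⟩) (hx ⟨_, hab.1⟩) (hx ⟨_, hyC⟩)
    exact hstep γ (hconn β₀ hβ₀ γ γ.2) γ.2
  -- the vertices in the blocks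
  obtain ⟨comp, hcomp, hlarge'⟩ := H1_largest (gr ω Finset.univ) (x ⟨β₀, hβ₀⟩)
  have hlarge : (comp.card : ℝ) ≤ (largest (gr ω Finset.univ) : ℝ) := by
    exact_mod_cast hlarge'
  refine le_trans ?_ hlarge
  have hpart : ∀ β : C, (b : ℝ) ^ 2 * μ * ((1 - δ) - 9 * θ * (1 + δ)) ≤
      ((comp.filter fun v => d.1 v ∈ blk M b β).card : ℝ) := by
    intro β
    have hsub := blkW_subset hM (hC β.2)
    have h1 : ((blk M b β).card : ℝ) * ((1 - δ) * μ) ≤ ((inR d.1 (blk M b β)).card : ℝ) :=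
      card_inR_ge d.1 _ (fun c hc => (hcnt β c (hsub.2 (hsub.1 hc))).1)
    rw [(card_blk hM (β : ℕ × ℕ)).1] at h1
    have h2 : inR d.1 (blk M b β) ⊆ (comp.filter fun v => d.1 v ∈ blk M b β) ∪
        (inR d.1 (blkW M b β) \ H1_A d.1 (gr ω Finset.univ) (blkW M b β) (x β)) := by
      intro v hv
      rw [H1_mem_inR] at hv
      rw [Finset.mem_union]
      by_cases hr : (gr ω Finset.univ).Reachable (x β) v
      · left
        rw [Finset.mem_filter, hcomp]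
        exact ⟨(hreach β).trans hr, hv⟩
      · right
        rw [Finset.mem_sdiff]
        refine ⟨H1_mem_inR.mpr (hsub.1 hv), ?_⟩
        exact fun h => hr (H1_mem_A.mp h).2
    have h3 : ((inR d.1 (blk M b β)).card : ℝ) ≤
        ((comp.filter fun v => d.1 v ∈ blk M b β).card : ℝ) +
        ((inR d.1 (blkW M b β) \ H1_A d.1 (gr ω Finset.univ) (blkW M b β) (x β)).card : ℝ) := by
      exact_mod_cast (Finset.card_le_card h2).trans (Finset.card_union_le _ _)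
    have h4 := hx β
    push_cast at h1
    nlinarith
  have hdisj : ∀ β ∈ C, ∀ γ ∈ C, β ≠ γ →
      Disjoint (comp.filter fun v => d.1 v ∈ blk M b β) (comp.filter fun v => d.1 v ∈ blk M b γ) := by
    intro β hβ γ hγ hne
    rw [Finset.disjoint_left]
    intro v hv hv'
    rw [Finset.mem_filter] at hv hv'
    exact (Finset.disjoint_left.mp (blk_disjoint hM (hC hβ) (hC hγ) hne)) hv.2 hv'.2
  have hun : C.biUnion (fun β => comp.filter fun v => d.1 v ∈ blk M b β) ⊆ comp := by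
    intro v hv
    obtain ⟨β, -, hv'⟩ := Finset.mem_biUnion.mp hv
    exact (Finset.mem_filter.mp hv').1
  calc (C.card : ℝ) * ((b : ℝ) ^ 2 * μ * ((1 - δ) - 9 * θ * (1 + δ)))
      = ∑ β ∈ C, ((b : ℝ) ^ 2 * μ * ((1 - δ) - 9 * θ * (1 + δ))) := by
        rw [Finset.sum_const, nsmul_eq_mul]
    _ ≤ ∑ β ∈ C, ((comp.filter fun v => d.1 v ∈ blk M b β).card : ℝ) :=
        Finset.sum_le_sum (fun β hβ => hpart ⟨β, hβ⟩)
    _ = ((C.biUnion (fun β => comp.filter fun v => d.1 v ∈ blk M b β)).card : ℝ) := by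
        rw [Finset.card_biUnion hdisj]
        push_cast
        rfl
    _ ≤ (comp.card : ℝ) := by exact_mod_cast Finset.card_le_card hun

end EA42
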