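import Pool.Agent.Lib.MP_ea42c6_pr.Defs

/-!
# G1 — geometry of cells

Let `x, y ∈ [0,1]`.  `cdist x y = min_{k ∈ {-1,0,1}} |x - y - k|`; if `|x - y - k| ≤ t` for some
integer `k` then `cdist x y ≤ t`; if `cdist x y < t` then `|x - y - k| < t` for some
`k ∈ {-1,0,1}`; and `0 ≤ cdist x y`.

* (touch) If the cells of `x, y ∈ [0,1]²` touch, then the two coordinates have floors of
  `M x.i`, `M y.i` that differ by a multiple of `M` in one coordinate and by a multiple of `M`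
  plus `0` or `±1` in the other.  So one `cdist` is `≤ 1/M` and the other `≤ 2/M`, and
  `tdist ≤ √5/M < 3/M ≤ r`.
* (near) If `tdist < r ≤ 4/M` then both `cdist < 4/M`, so `|M x.i - M y.i - M k| < 4` and the
  floors differ by a multiple of `M` plus something of absolute value `≤ 4`.
  (`ZMod`: `(M : ZMod M) = 0`, `ZMod.intCast_cast`, `ZMod.intCast_eq_intCast_iff`.)
* (self) `tdist x x = 0 < r` since `cdist a a = min 0 1 = 0`.

`datW_valid`: if `datW n M r d ≠ 0` then the set `{X | datum M r X = d}` is not null for the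
product of `unif`, and almost every `X` has all `X u ∈ [0,1]²`; so some such `X` has
`datum M r X = d`.
-/

namespace EA42

open MeasureTheory
open scoped Classical ENNReal

theorem cdist_le (a b : ℝ) (k : ℤ) : cdist a b ≤ |b - a - k| := by
  unfold cdist
  by_cases hk : k = 0
  · subst hk
    refine (min_le_left _ _).trans (le_of_eq ?_)
    rw [Int.cast_zero, sub_zero, abs_sub_comm]
  · refine (min_le_right _ _).trans ?_
    have h1 : (1 : ℝ) ≤ |(k : ℝ)| := by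
      rw [← Int.cast_abs]
      exact_mod_cast Int.one_le_abs hk
    have h2 : |(k : ℝ)| ≤ |b - a - k| + |a - b| := by
      have h3 : (k : ℝ) = -(b - a - k) - (a - b) := by ring
      calc |(k : ℝ)| = |-(b - a - k) - (a - b)| := by rw [← h3]
        _ ≤ |-(b - a - k)| + |a - b| := abs_sub _ _
        _ = |b - a - k| + |a - b| := by rw [abs_neg]
    linarith

theorem cdist_nonneg {a b : ℝ} (ha : a ∈ Set.Icc (0 : ℝ) 1) (hb : b ∈ Set.Icc (0 : ℝ) 1) :
    0 ≤ cdist a b := by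
  unfold cdist
  have h1 : |a - b| ≤ 1 := by
    rw [abs_le]
    constructor <;> linarith [ha.1, ha.2, hb.1, hb.2]
  exact le_min (abs_nonneg _) (by linarith)

theorem cdist_of_cell {M : ℕ} [NeZero M] {a b : ℝ} (δ : ℤ)
    (h : ((⌊b * M⌋ : ℤ) : ZMod M) = ((⌊a * M⌋ : ℤ) : ZMod M) + (δ : ZMod M)) :
    cdist a b ≤ (|(δ : ℝ)| + 1) / M := by
  have hM : (0 : ℝ) < M := by exact_mod_cast Nat.pos_of_ne_zero (NeZero.ne M)
  have h1 : ((⌊b * M⌋ : ℤ) : ZMod M) = ((⌊a * M⌋ + δ : ℤ) : ZMod M) := by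
    rw [h]
    push_cast
    rfl
  rw [ZMod.intCast_eq_intCast_iff] at h1
  obtain ⟨k, hk⟩ := h1.symm.dvd
  have h2 : (⌊b * M⌋ : ℝ) - (⌊a * M⌋ : ℝ) = δ + M * k := by
    have h3 : ⌊b * M⌋ = ⌊a * M⌋ + δ + M * k := by linarith
    rw [h3]
    push_cast
    ring
  have ha1 := Int.floor_le (a * (M : ℝ))
  have ha2 := Int.lt_floor_add_one (a * (M : ℝ))
  have hb1 := Int.floor_le (b * (M : ℝ))
  have hb2 := Int.lt_floor_add_one (b * (M : ℝ))
  have h4 : |(b - a - k) * M| ≤ |(δ : ℝ)| + 1 := by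
    have h5 := abs_le.mp (le_refl |(δ : ℝ)|)
    rw [abs_le]
    constructor
    · have : (b - a - k) * M = b * M - a * M - M * k := by ring
      rw [this]
      linarith [h5.1]
    · have : (b - a - k) * M = b * M - a * M - M * k := by ring
      rw [this]
      linarith [h5.2]
  rw [abs_mul, abs_of_pos hM] at h4
  refine (cdist_le a b k).trans ?_
  rw [le_div_iff₀ hM]
  exact h4

theorem cell_of_cdist {M : ℕ} [NeZero M] {a b : ℝ} (ha : a ∈ Set.Icc (0 : ℝ) 1)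
    (hb : b ∈ Set.Icc (0 : ℝ) 1) (h : cdist a b < 4 / (M : ℝ)) :
    ∃ i : ℤ, |i| ≤ 4 ∧
      ((⌊b * M⌋ : ℤ) : ZMod M) = ((⌊a * M⌋ : ℤ) : ZMod M) + (i : ZMod M) := by
  have hM : (0 : ℝ) < M := by exact_mod_cast Nat.pos_of_ne_zero (NeZero.ne M)
  have hk : ∃ k : ℤ, |b - a - k| < 4 / (M : ℝ) := by
    unfold cdist at h
    rcases min_lt_iff.mp h with h1 | h1
    · refine ⟨0, ?_⟩
      rw [Int.cast_zero, sub_zero, abs_sub_comm]
      exact h1
    · rcases le_total b a with hab | hab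
      · refine ⟨-1, ?_⟩
        rw [abs_of_nonneg (by linarith)] at h1
        have h2 : 0 ≤ b - a - ((-1 : ℤ) : ℝ) := by
          push_cast
          linarith [ha.2, hb.1]
        rw [abs_of_nonneg h2]
        push_cast
        linarith
      · refine ⟨1, ?_⟩
        rw [abs_of_nonpos (by linarith)] at h1
        have h2 : b - a - ((1 : ℤ) : ℝ) ≤ 0 := by
          push_cast
          linarith [hb.2, ha.1]
        rw [abs_of_nonpos h2]
        push_cast
        linarith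
  obtain ⟨k, hk⟩ := hk
  refine ⟨⌊b * M⌋ - ⌊a * M⌋ - k * M, ?_, ?_⟩
  · rw [lt_div_iff₀ hM] at hk
    have h1 : |(b - a - k) * M| < 4 := by
      rw [abs_mul, abs_of_pos hM]
      exact hk
    have h2 := abs_lt.mp h1
    have ha1 := Int.floor_le (a * (M : ℝ))
    have ha2 := Int.lt_floor_add_one (a * (M : ℝ))
    have hb1 := Int.floor_le (b * (M : ℝ))
    have hb2 := Int.lt_floor_add_one (b * (M : ℝ))
    have e : (b - a - k) * M = b * M - a * M - k * M := by ring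
    rw [e] at h2
    have h5 : ((⌊b * M⌋ - ⌊a * M⌋ - k * M : ℤ) : ℝ) < 5 := by
      push_cast
      linarith [h2.2]
    have h6 : (-5 : ℝ) < ((⌊b * M⌋ - ⌊a * M⌋ - k * M : ℤ) : ℝ) := by
      push_cast
      linarith [h2.1]
    have h7 : (⌊b * M⌋ - ⌊a * M⌋ - k * M : ℤ) < 5 := by exact_mod_cast h5
    have h8 : (-5 : ℤ) < (⌊b * M⌋ - ⌊a * M⌋ - k * M : ℤ) := by exact_mod_cast h6
    rw [abs_le]
    constructor <;> omega
  · push_cast
    rw [ZMod.natCast_self]
    ring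

theorem tdist_lt {x y : Pt} {r : ℝ} (hr : 0 < r) (h : cdist x.1 y.1 ^ 2 + cdist x.2 y.2 ^ 2 < r ^ 2) :
    tdist x y < r := by
  unfold tdist
  rwa [Real.sqrt_lt' hr]

theorem touch_lt {M : ℕ} [NeZero M] {r : ℝ} (h3 : 3 / (M : ℝ) ≤ r) {x y : Pt}
    (hx : x ∈ Set.Icc (0 : ℝ) 1 ×ˢ Set.Icc (0 : ℝ) 1)
    (hy : y ∈ Set.Icc (0 : ℝ) 1 ×ˢ Set.Icc (0 : ℝ) 1) (δ ε : ℤ)
    (hδ : ((⌊y.1 * M⌋ : ℤ) : ZMod M) = ((⌊x.1 * M⌋ : ℤ) : ZMod M) + (δ : ZMod M))
    (hε : ((⌊y.2 * M⌋ : ℤ) : ZMod M) = ((⌊x.2 * M⌋ : ℤ) : ZMod M) + (ε : ZMod M))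
    (hs : (|(δ : ℝ)| + 1) ^ 2 + (|(ε : ℝ)| + 1) ^ 2 ≤ 5) : tdist x y < r := by
  have hM : (0 : ℝ) < M := by exact_mod_cast Nat.pos_of_ne_zero (NeZero.ne M)
  have hr : 0 < r := lt_of_lt_of_le (by positivity) h3
  apply tdist_lt hr
  have h1 := cdist_of_cell δ hδ
  have h2 := cdist_of_cell ε hε
  have h1' := cdist_nonneg hx.1 hy.1
  have h2' := cdist_nonneg hx.2 hy.2
  have h5 : cdist x.1 y.1 ^ 2 ≤ ((|(δ : ℝ)| + 1) / M) ^ 2 := pow_le_pow_left₀ h1' h1 2
  have h6 : cdist x.2 y.2 ^ 2 ≤ ((|(ε : ℝ)| + 1) / M) ^ 2 := pow_le_pow_left₀ h2' h2 2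
  have h7 : (3 / (M : ℝ)) ^ 2 ≤ r ^ 2 := pow_le_pow_left₀ (by positivity) h3 2
  have h8 : ((|(δ : ℝ)| + 1) / M) ^ 2 + ((|(ε : ℝ)| + 1) / M) ^ 2 < (3 / (M : ℝ)) ^ 2 := by
    rw [div_pow, div_pow, div_pow, ← add_div]
    apply div_lt_div_of_pos_right _ (by positivity)
    linarith
  linarith

theorem datum_valid {n M : ℕ} [NeZero M] {r : ℝ} (h3 : 3 / (M : ℝ) ≤ r) (h4 : r ≤ 4 / (M : ℝ))
    (X : Fin n → Pt) (hX : ∀ u, X u ∈ Set.Icc (0 : ℝ) 1 ×ˢ Set.Icc (0 : ℝ) 1) :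
    Valid (datum M r X) := by
  have hM : (0 : ℝ) < M := by exact_mod_cast Nat.pos_of_ne_zero (NeZero.ne M)
  have hr : 0 < r := lt_of_lt_of_le (by positivity) h3
  have htouch : ∀ u v, Touch ((datum M r X).1 u) ((datum M r X).1 v) → tdist (X u) (X v) < r := by
    intro u v h
    change Touch (cell M (X u)) (cell M (X v)) at h
    unfold Touch cell at h
    simp only [Prod.mk_add_mk, Prod.mk.injEq] at h
    rcases h with h | h | h | h | h
    · exact touch_lt h3 (hX u) (hX v) 0 0 (by rw [h.1]; simp) (by rw [h.2]; simp) (by norm_num)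
    · exact touch_lt h3 (hX u) (hX v) 1 0 (by rw [h.1]; simp) (by rw [h.2]; simp) (by norm_num)
    · exact touch_lt h3 (hX u) (hX v) 0 1 (by rw [h.1]; simp) (by rw [h.2]; simp) (by norm_num)
    · exact touch_lt h3 (hX u) (hX v) (-1) 0 (by rw [h.1]; push_cast; ring)
        (by rw [h.2]; push_cast; ring) (by norm_num)
    · exact touch_lt h3 (hX u) (hX v) 0 (-1) (by rw [h.1]; push_cast; ring)
        (by rw [h.2]; push_cast; ring) (by norm_num)
  refine ⟨fun u => ?_, fun u v h => ?_, fun u v h => ?_⟩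
  · exact Finset.mem_filter.mpr ⟨Finset.mem_univ _, htouch u u (Or.inl rfl)⟩
  · exact Finset.mem_filter.mpr ⟨Finset.mem_univ _, htouch u v h⟩
  · have h1 : tdist (X u) (X v) < r := (Finset.mem_filter.mp h).2
    have hn1 := cdist_nonneg (hX u).1 (hX v).1
    have hn2 := cdist_nonneg (hX u).2 (hX v).2
    have h2 : cdist (X u).1 (X v).1 ^ 2 + cdist (X u).2 (X v).2 ^ 2 < r ^ 2 := by
      unfold tdist at h1
      rwa [Real.sqrt_lt' hr] at h1
    have h5 : cdist (X u).1 (X v).1 < 4 / (M : ℝ) := by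
      refine lt_of_lt_of_le ?_ h4
      refine lt_of_pow_lt_pow_left₀ 2 hr.le ?_
      nlinarith
    have h6 : cdist (X u).2 (X v).2 < 4 / (M : ℝ) := by
      refine lt_of_lt_of_le ?_ h4
      refine lt_of_pow_lt_pow_left₀ 2 hr.le ?_
      nlinarith
    obtain ⟨i, hi, hi'⟩ := cell_of_cdist (hX u).1 (hX v).1 h5
    obtain ⟨j, hj, hj'⟩ := cell_of_cdist (hX u).2 (hX v).2 h6
    exact ⟨i, j, by exact_mod_cast hi, by exact_mod_cast hj, Prod.ext hi' hj'⟩

theorem datW_valid {n M : ℕ} [NeZero M] {r : ℝ} (h3 : 3 / (M : ℝ) ≤ r) (h4 : r ≤ 4 / (M : ℝ))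
    (d : Datum (Fin n) M) (hd : datW n M r d ≠ 0) : Valid d := by
  by_contra hcon
  apply hd
  unfold datW
  have hσ : SigmaFinite unif := by
    unfold unif
    infer_instance
  have hae : ∀ᵐ X ∂(Measure.pi fun _ : Fin n => unif),
      ∀ u, X u ∈ Set.Icc (0 : ℝ) 1 ×ˢ Set.Icc (0 : ℝ) 1 := by
    rw [ae_all_iff]
    intro u
    have h1 : ∀ᵐ x ∂unif, x ∈ Set.Icc (0 : ℝ) 1 ×ˢ Set.Icc (0 : ℝ) 1 := by
      unfold unif
      exact ae_restrict_mem (measurableSet_Icc.prod measurableSet_Icc)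
    exact (Measure.quasiMeasurePreserving_eval (μ := fun _ : Fin n => unif) u).ae h1
  have hz : (Measure.pi fun _ : Fin n => unif) {X | datum M r X = d} = 0 := by
    refine measure_mono_null ?_ hae
    intro X hX hall
    apply hcon
    have h5 : datum M r X = d := hX
    rw [← h5]
    exact datum_valid h3 h4 X hall
  rw [hz]
  simp

end EA42
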