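import Pool.Agent.Lib.MP_ea42c6_pr.Defs

/-!
# M1 — measurability

`cdist`, `tdist` are measurable (continuous) functions; `datum` takes finitely many values
and every level set is a finite intersection of sets `{tdist (X u) (X v) < r}` (or complements)
and `{cell M (X u) = c}` (a countable union of `{⌊x.1 M⌋ = i} ∩ {⌊x.2 M⌋ = j}`).
`unif_prob`: the volume of `[0,1]²` is 1.
-/

namespace EA42

open MeasureTheory
open scoped Classical ENNReal

theorem M1_cont_cdist : Continuous fun z : ℝ × ℝ => cdist z.1 z.2 := by
  unfold cdist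
  fun_prop

theorem measurable_tdist : Measurable fun z : Pt × Pt => tdist z.1 z.2 := by
  have h1 : Continuous fun z : Pt × Pt => cdist z.1.1 z.2.1 :=
    M1_cont_cdist.comp (by fun_prop : Continuous fun z : Pt × Pt => (z.1.1, z.2.1))
  have h2 : Continuous fun z : Pt × Pt => cdist z.1.2 z.2.2 :=
    M1_cont_cdist.comp (by fun_prop : Continuous fun z : Pt × Pt => (z.1.2, z.2.2))
  have h3 : Continuous fun z : Pt × Pt => tdist z.1 z.2 := by
    unfold tdist
    exact Real.continuous_sqrt.comp ((h1.pow 2).add (h2.pow 2))
  exact h3.measurable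

theorem measurableSet_cell (M : ℕ) (c : Cell M) : MeasurableSet {x : Pt | cell M x = c} := by
  have e : {x : Pt | cell M x = c} =
      (fun x : Pt => ⌊x.1 * M⌋) ⁻¹' {k : ℤ | (k : ZMod M) = c.1} ∩
      (fun x : Pt => ⌊x.2 * M⌋) ⁻¹' {k : ℤ | (k : ZMod M) = c.2} := by
    ext x
    simp only [Set.mem_ofPred_eq, Set.mem_inter_iff, Set.mem_preimage, cell, Prod.ext_iff]
  rw [e]
  refine MeasurableSet.inter ?_ ?_
  · exact (Int.measurable_floor.comp (measurable_fst.mul_const _)) (MeasurableSet.of_discrete)
  · exact (Int.measurable_floor.comp (measurable_snd.mul_const _)) (MeasurableSet.of_discrete)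

theorem measurableSet_ball (n : ℕ) (r : ℝ) (b : Fin n → Finset (Fin n)) :
    MeasurableSet {X : Fin n → Pt | ball X r = b} := by
  have e : {X : Fin n → Pt | ball X r = b} =
      ⋂ u : Fin n, ⋂ v : Fin n, {X : Fin n → Pt | tdist (X u) (X v) < r ↔ v ∈ b u} := by
    ext X
    simp only [Set.mem_ofPred_eq, Set.mem_iInter]
    constructor
    · rintro rfl u v
      simp [ball]
    · intro h
      funext u
      ext v
      rw [← h u v]
      simp [ball]
  rw [e]
  refine MeasurableSet.iInter fun u => MeasurableSet.iInter fun v => ?_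
  have h1 : MeasurableSet {X : Fin n → Pt | tdist (X u) (X v) < r} := by
    have h3 : Measurable fun X : Fin n → Pt => (X u, X v) :=
      (measurable_pi_apply u).prodMk (measurable_pi_apply v)
    have h2 : Measurable fun X : Fin n → Pt => tdist (X u) (X v) := measurable_tdist.comp h3
    exact measurableSet_lt h2 measurable_const
  by_cases hv : v ∈ b u
  · simpa only [hv, iff_true] using h1
  · have e2 : {X : Fin n → Pt | tdist (X u) (X v) < r ↔ v ∈ b u} =
        {X : Fin n → Pt | tdist (X u) (X v) < r}ᶜ := by
      ext X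
      simp [hv]
    rw [e2]
    exact h1.compl

theorem measurableSet_datum (n M : ℕ) (r : ℝ) (d : Datum (Fin n) M) :
    MeasurableSet {X : Fin n → Pt | datum M r X = d} := by
  have e : {X : Fin n → Pt | datum M r X = d} =
      (⋂ u : Fin n, {X : Fin n → Pt | cell M (X u) = d.1 u}) ∩ {X : Fin n → Pt | ball X r = d.2} := by
    ext X
    simp only [Set.mem_ofPred_eq, Set.mem_inter_iff, Set.mem_iInter, datum]
    constructor
    · rintro rfl
      exact ⟨fun _ => rfl, rfl⟩
    · rintro ⟨h1, h2⟩
      exact Prod.ext (funext h1) h2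
  rw [e]
  refine MeasurableSet.inter (MeasurableSet.iInter fun u => ?_) (measurableSet_ball n r d.2)
  have h3 : Measurable fun X : Fin n → Pt => X u := measurable_pi_apply u
  exact h3 (measurableSet_cell M (d.1 u))

instance unif_prob : IsProbabilityMeasure unif := by
  refine ⟨?_⟩
  unfold unif
  rw [Measure.restrict_apply_univ, Measure.volume_eq_prod, Measure.prod_prod, Real.volume_Icc]
  norm_num

instance permLaw_prob (n : ℕ) : IsProbabilityMeasure (permLaw n) := by
  unfold permLaw
  infer_instance

instance law_prob (ξ : PMF ℕ) (n : ℕ) : IsProbabilityMeasure (law ξ n) := by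
  unfold law
  infer_instance

end EA42
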