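import Pool.Agent.Lib.MP_ea42c6_pr.FP1
import Pool.Agent.Lib.MP_ea42c6_pr.M1

/-!
# G2 — the cells are i.i.d. uniform

`unif_cell`: `{x ∈ [0,1]² | cell M x = c}` is, up to the null set where a coordinate is `1`, the
rectangle `[i/M, (i+1)/M) × [j/M, (j+1)/M)` with `i = c.1.val`, `j = c.2.val`.
`datW_cells`: the set `{X | ∀ u, cell M (X u) ∈ ...}`: `Measure.pi_pi`; the level sets of `datum`
with `d.1 = f` partition `{X | ∀ u, cell M (X u) = f u}`.
`datW_pr`: push-forward along `d ↦ d.1` (`pr_map`) and `prodW (fun _ _ => 1/M²) f = (1/M²)^n`.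
-/

namespace EA42

open MeasureTheory
open scoped Classical ENNReal

theorem G2_mem (M : ℕ) [NeZero M] (i : ZMod M) {t : ℝ} (h0 : 0 ≤ t) (h1 : t < 1) :
    ((⌊t * M⌋ : ℤ) : ZMod M) = i ↔ t ∈ Set.Ico ((i.val : ℝ) / M) (((i.val : ℝ) + 1) / M) := by
  have hM : (0 : ℝ) < M := Nat.cast_pos.2 (Nat.pos_of_ne_zero (NeZero.ne M))
  have hk0 : 0 ≤ ⌊t * M⌋ := Int.floor_nonneg.2 (mul_nonneg h0 hM.le)
  have hk1 : ⌊t * M⌋ < (M : ℤ) := by
    rw [Int.floor_lt]
    push_cast
    nlinarith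
  have h2 : ((⌊t * M⌋ : ℤ) : ZMod M) = i ↔ ⌊t * M⌋ = (i.val : ℤ) := by
    constructor
    · intro h
      have h3 : (((⌊t * M⌋ : ℤ) : ZMod M).val : ℤ) = ⌊t * M⌋ % M := ZMod.val_intCast _
      rw [h, Int.emod_eq_of_lt hk0 hk1] at h3
      exact h3.symm
    · intro h
      rw [h]
      simp
  rw [h2, Int.floor_eq_iff, Set.mem_Ico, div_le_iff₀ hM, lt_div_iff₀ hM]
  push_cast
  rfl

theorem G2_vol (M : ℕ) [NeZero M] (i : ZMod M) :
    (volume : Measure ℝ) ({t : ℝ | ((⌊t * M⌋ : ℤ) : ZMod M) = i} ∩ Set.Icc 0 1) =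
      ENNReal.ofReal (1 / (M : ℝ)) := by
  have hM : (0 : ℝ) < M := Nat.cast_pos.2 (Nat.pos_of_ne_zero (NeZero.ne M))
  have hv : volume (Set.Ico ((i.val : ℝ) / M) (((i.val : ℝ) + 1) / M)) =
      ENNReal.ofReal (1 / (M : ℝ)) := by
    rw [Real.volume_Ico]
    congr 1
    field_simp
    ring
  have hi : (i.val : ℝ) + 1 ≤ M := by
    have := ZMod.val_lt i
    exact_mod_cast this
  apply le_antisymm
  · calc (volume : Measure ℝ) ({t : ℝ | ((⌊t * M⌋ : ℤ) : ZMod M) = i} ∩ Set.Icc 0 1)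
        ≤ volume (Set.Ico ((i.val : ℝ) / M) (((i.val : ℝ) + 1) / M) ∪ {1}) := by
          apply measure_mono
          rintro t ⟨ht, h0, h1⟩
          rcases lt_or_eq_of_le h1 with h2 | h2
          · exact Or.inl ((G2_mem M i h0 h2).1 ht)
          · exact Or.inr h2
      _ ≤ volume (Set.Ico ((i.val : ℝ) / M) (((i.val : ℝ) + 1) / M)) + volume ({1} : Set ℝ) :=
          measure_union_le _ _
      _ = ENNReal.ofReal (1 / (M : ℝ)) := by rw [hv, Real.volume_singleton, add_zero]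
  · rw [← hv]
    apply measure_mono
    intro t ht
    have h0 : 0 ≤ t := le_trans (by positivity) ht.1
    have h1 : t < 1 := lt_of_lt_of_le ht.2 (by rw [div_le_one hM]; exact hi)
    exact ⟨(G2_mem M i h0 h1).2 ht, h0, h1.le⟩

theorem unif_cell (M : ℕ) [NeZero M] (c : Cell M) :
    unif {x | cell M x = c} = ENNReal.ofReal (1 / (M : ℝ) ^ 2) := by
  have hM : (0 : ℝ) < M := Nat.cast_pos.2 (Nat.pos_of_ne_zero (NeZero.ne M))
  unfold unif
  rw [Measure.restrict_apply (measurableSet_cell M c)]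
  have h1 : {x : Pt | cell M x = c} ∩ Set.Icc (0 : ℝ) 1 ×ˢ Set.Icc (0 : ℝ) 1 =
      ({t : ℝ | ((⌊t * M⌋ : ℤ) : ZMod M) = c.1} ∩ Set.Icc 0 1) ×ˢ
        ({t : ℝ | ((⌊t * M⌋ : ℤ) : ZMod M) = c.2} ∩ Set.Icc 0 1) := by
    ext x
    simp only [Set.mem_inter_iff, Set.mem_setOf_eq, Set.mem_prod, cell, Prod.ext_iff]
    tauto
  rw [h1, Measure.volume_eq_prod, Measure.prod_prod, G2_vol, G2_vol,
    ← ENNReal.ofReal_mul (by positivity)]
  congr 1
  field_simp

/-- the weight `datW` of a set -/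
theorem G2_pr (n M : ℕ) [NeZero M] (r : ℝ) (E : Set (Datum (Fin n) M)) :
    pr (datW n M r) E = ((Measure.pi fun _ : Fin n => unif) {X | datum M r X ∈ E}).toReal := by
  have h1 : {X : Fin n → Pt | datum M r X ∈ E} =
      ⋃ d ∈ (Finset.univ.filter fun d : Datum (Fin n) M => d ∈ E),
        {X : Fin n → Pt | datum M r X = d} := by
    ext X
    simp
  rw [h1, measure_biUnion_finset, ENNReal.toReal_sum, pr, Finset.sum_filter]
  · rfl
  · intro d _
    exact measure_ne_top _ _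
  · intro d _ d' _ hdd
    rw [Function.onFun, Set.disjoint_left]
    intro X hX hX'
    exact hdd (hX.symm.trans hX')
  · intro d _
    exact measurableSet_datum n M r d

theorem datW_cells (n M : ℕ) [NeZero M] (r : ℝ) (f : Fin n → Cell M) :
    pr (datW n M r) {d | d.1 = f} = (1 / (M : ℝ) ^ 2) ^ n := by
  rw [G2_pr]
  have h1 : {X : Fin n → Pt | datum M r X ∈ {d : Datum (Fin n) M | d.1 = f}} =
      Set.univ.pi fun u => {x | cell M x = f u} := by
    ext X
    simp only [datum, Set.mem_setOf_eq, Set.mem_pi, Set.mem_univ, true_implies]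
    exact funext_iff
  rw [h1, Measure.pi_pi]
  simp only [unif_cell]
  rw [Finset.prod_const, Finset.card_univ, Fintype.card_fin, ENNReal.toReal_pow,
    ENNReal.toReal_ofReal (by positivity)]

theorem datW_pr (n M : ℕ) [NeZero M] (r : ℝ) (E : Set (Fin n → Cell M)) :
    pr (datW n M r) {d | d.1 ∈ E} =
      pr (prodW fun (_ : Fin n) (_ : Cell M) => 1 / (M : ℝ) ^ 2) E := by
  rw [← pr_map (datW n M r) (fun d : Datum (Fin n) M => d.1) E]
  congr 1
  funext f
  rw [datW_cells]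
  unfold prodW
  rw [Finset.prod_const, Finset.card_univ, Fintype.card_fin]

end EA42
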