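import Pool.Agent.Lib.MP_ea42c6_pr.FP1

/-!
# G3 — Chernoff bound for several cells at once

`w = fun _ _ => 1/M²` on `V → Cell M`, `n = |V|`, `μ = n/M²`, `N_c = cnt f c`.
For `θ : Cell M → ℝ`: `∑_f prodW w f * ∏_{c ∈ T} exp (θ c * N_c) = ((1/M²) ∑_c exp (θ'_c))^n`
with `θ'_c = θ c` on `T` and `0` off `T`, which is
`(1 + (1/M²) ∑_{c ∈ T} (exp (θ c) - 1))^n ≤ ∏_{c ∈ T} exp (μ (exp (θ c) - 1))`.
Pointwise, `1{δμ < |N_c - μ|} ≤ exp (h (N_c - μ) - hδμ) + exp (-h (N_c - μ) - hδμ)`, `h = δ/2`.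
Multiply over `c ∈ T` and expand (`Finset.prod_add`): a sum over subsets of `T`, each term at
most `∏_{c∈T} exp(-δ² μ/4)` by `exp h - 1 ≤ h + h²` (`|h| ≤ 1`), i.e.
`μ(h + h²) - hμ - hδμ = -δ²μ/4`, and the same for `-h`.
There are `2^|T|` subsets.
-/

namespace EA42

open scoped Classical

theorem g3_prod {V C : Type*} [Fintype V] [DecidableEq V] [Fintype C] (w : ℝ) (g : C → ℝ) :
    ∑ f : V → C, prodW (fun (_ : V) (_ : C) => w) f * ∏ v, g (f v) =
      (∑ c, w * g c) ^ Fintype.card V := by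
  have h1 : (∑ c, w * g c) ^ Fintype.card V = ∏ _v : V, ∑ c, w * g c := by
    rw [Finset.prod_const, Finset.card_univ]
  rw [h1, Finset.prod_univ_sum, Fintype.piFinset_univ]
  refine Finset.sum_congr rfl fun f _ => ?_
  unfold prodW
  rw [← Finset.prod_mul_distrib]

theorem g3_count {V C : Type*} [Fintype V] [DecidableEq V] [DecidableEq C] (f : V → C) (T : Finset C) (θ : C → ℝ) :
    ∑ c ∈ T, θ c * ((Finset.univ.filter fun v => f v = c).card : ℝ) =
      ∑ v, (if f v ∈ T then θ (f v) else 0) := by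
  have h1 : ∀ c ∈ T, θ c * ((Finset.univ.filter fun v => f v = c).card : ℝ) =
      ∑ v, (if f v = c then θ c else 0) := by
    intro c _
    rw [Finset.card_filter, Nat.cast_sum, Finset.mul_sum]
    refine Finset.sum_congr rfl fun v _ => ?_
    split_ifs <;> simp
  rw [Finset.sum_congr rfl h1, Finset.sum_comm]
  refine Finset.sum_congr rfl fun v _ => ?_
  rw [Finset.sum_ite_eq T (f v) θ]

theorem g3_exp {x : ℝ} (hx : |x| ≤ 1) : Real.exp x - 1 ≤ x + x ^ 2 := by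
  have h := Real.abs_exp_sub_one_sub_id_le hx
  have h2 := (abs_le.mp h).2
  linarith

theorem g3_term {V : Type*} [Fintype V] [DecidableEq V] (M : ℕ) [NeZero M] {δ : ℝ} (h0 : 0 < δ) (h1 : δ ≤ 1)
    (T : Finset (Cell M)) (θ : Cell M → ℝ) (hθ : ∀ c ∈ T, |θ c| = δ / 2) :
    ∑ f : V → Cell M, prodW (fun (_ : V) (_ : Cell M) => 1 / (M : ℝ) ^ 2) f *
      ∏ c ∈ T, Real.exp (θ c * ((cnt f c : ℝ) - (Fintype.card V : ℝ) / (M : ℝ) ^ 2) -
        δ / 2 * δ * ((Fintype.card V : ℝ) / (M : ℝ) ^ 2)) ≤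
      Real.exp (-(δ ^ 2 * ((Fintype.card V : ℝ) / (M : ℝ) ^ 2) / 4)) ^ T.card := by
  have hM : (0 : ℝ) < (M : ℝ) ^ 2 := by
    have : (0 : ℝ) < (M : ℝ) := by exact_mod_cast Nat.pos_of_ne_zero (NeZero.ne M)
    positivity
  set m : ℝ := (M : ℝ) ^ 2 with hm
  set n : ℕ := Fintype.card V with hn
  set μ : ℝ := (n : ℝ) / m with hμ
  have hμ0 : 0 ≤ μ := by positivity
  have hcard : ((Finset.univ : Finset (Cell M)).card : ℝ) = m := by
    rw [Finset.card_univ, Fintype.card_prod, ZMod.card, hm]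
    push_cast
    ring
  set K : ℝ := ∑ c ∈ T, (-(θ c * μ) - δ / 2 * δ * μ) with hK
  have e1 : ∀ f : V → Cell M, ∏ c ∈ T, Real.exp (θ c * ((cnt f c : ℝ) - μ) - δ / 2 * δ * μ) =
      Real.exp K * ∏ v, Real.exp (if f v ∈ T then θ (f v) else 0) := by
    intro f
    rw [← Real.exp_sum, ← Real.exp_sum, ← g3_count f T θ, hK, ← Real.exp_add,
      ← Finset.sum_add_distrib]
    congr 1
    refine Finset.sum_congr rfl fun c _ => ?_
    unfold cnt
    ring
  have e2 : ∑ f : V → Cell M, prodW (fun (_ : V) (_ : Cell M) => 1 / m) f *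
      ∏ c ∈ T, Real.exp (θ c * ((cnt f c : ℝ) - μ) - δ / 2 * δ * μ) =
      Real.exp K * (∑ c : Cell M, 1 / m * Real.exp (if c ∈ T then θ c else 0)) ^ n := by
    rw [← g3_prod (V := V) (1 / m) (fun c : Cell M => Real.exp (if c ∈ T then θ c else 0)),
      Finset.mul_sum]
    refine Finset.sum_congr rfl fun f _ => ?_
    rw [e1 f]
    ring
  rw [e2]
  have e3 : ∑ c : Cell M, 1 / m * Real.exp (if c ∈ T then θ c else 0) =
      1 / m * (∑ c ∈ T, (Real.exp (θ c) - 1)) + 1 := by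
    have h2 : ∀ c : Cell M, 1 / m * Real.exp (if c ∈ T then θ c else 0) =
        1 / m * (if c ∈ T then Real.exp (θ c) - 1 else 0) + 1 / m := by
      intro c
      by_cases hc : c ∈ T
      · rw [if_pos hc, if_pos hc]
        ring
      · rw [if_neg hc, if_neg hc, Real.exp_zero]
        ring
    rw [Finset.sum_congr rfl (fun c _ => h2 c), Finset.sum_add_distrib, ← Finset.mul_sum,
      Finset.sum_const, nsmul_eq_mul, hcard, mul_one_div_cancel hM.ne', Finset.sum_ite_mem,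
      Finset.univ_inter]
  have e4 : (∑ c : Cell M, 1 / m * Real.exp (if c ∈ T then θ c else 0)) ^ n ≤
      Real.exp (μ * ∑ c ∈ T, (Real.exp (θ c) - 1)) := by
    have h3 : 0 ≤ ∑ c : Cell M, 1 / m * Real.exp (if c ∈ T then θ c else 0) :=
      Finset.sum_nonneg fun c _ => mul_nonneg (by positivity) (Real.exp_pos _).le
    have h4 : ∑ c : Cell M, 1 / m * Real.exp (if c ∈ T then θ c else 0) ≤
        Real.exp (1 / m * (∑ c ∈ T, (Real.exp (θ c) - 1))) := by
      rw [e3]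
      exact Real.add_one_le_exp _
    refine (pow_le_pow_left₀ h3 h4 n).trans (le_of_eq ?_)
    rw [← Real.exp_nat_mul]
    congr 1
    rw [hμ]
    ring
  have e5 : K + μ * ∑ c ∈ T, (Real.exp (θ c) - 1) ≤ (T.card : ℝ) * (-(δ ^ 2 * μ / 4)) := by
    rw [hK, Finset.mul_sum, ← Finset.sum_add_distrib, ← nsmul_eq_mul, ← Finset.sum_const]
    refine Finset.sum_le_sum fun c hc => ?_
    have h5 : |θ c| ≤ 1 := by rw [hθ c hc]; linarith
    have h6 := g3_exp h5
    have h7 : θ c ^ 2 = (δ / 2) ^ 2 := by rw [← sq_abs, hθ c hc]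
    rw [h7] at h6
    have h8 := mul_le_mul_of_nonneg_left h6 hμ0
    have h9 : μ * (θ c + (δ / 2) ^ 2) = μ * θ c + δ ^ 2 * μ / 4 := by ring
    have h10 : δ / 2 * δ * μ = δ ^ 2 * μ / 2 := by ring
    rw [h9] at h8
    rw [h10]
    linarith
  calc Real.exp K * (∑ c : Cell M, 1 / m * Real.exp (if c ∈ T then θ c else 0)) ^ n
      ≤ Real.exp K * Real.exp (μ * ∑ c ∈ T, (Real.exp (θ c) - 1)) :=
        mul_le_mul_of_nonneg_left e4 (Real.exp_pos _).le
    _ = Real.exp (K + μ * ∑ c ∈ T, (Real.exp (θ c) - 1)) := (Real.exp_add _ _).symm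
    _ ≤ Real.exp ((T.card : ℝ) * (-(δ ^ 2 * μ / 4))) := Real.exp_le_exp.mpr e5
    _ = Real.exp (-(δ ^ 2 * μ / 4)) ^ T.card := Real.exp_nat_mul _ _

theorem chernoff {V : Type*} [Fintype V] [DecidableEq V] (M : ℕ) [NeZero M] {δ : ℝ} (h0 : 0 < δ) (h1 : δ ≤ 1)
    (T : Finset (Cell M)) :
    pr (prodW fun (_ : V) (_ : Cell M) => 1 / (M : ℝ) ^ 2)
      {f | ∀ c ∈ T, δ * ((Fintype.card V : ℝ) / (M : ℝ) ^ 2) <
        |(cnt f c : ℝ) - (Fintype.card V : ℝ) / (M : ℝ) ^ 2|} ≤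
      (2 * Real.exp (-(δ ^ 2 * ((Fintype.card V : ℝ) / (M : ℝ) ^ 2) / 4))) ^ T.card := by
  set μ : ℝ := (Fintype.card V : ℝ) / (M : ℝ) ^ 2 with hμ
  have hμ0 : 0 ≤ μ := by positivity
  have hw : ∀ f : V → Cell M, 0 ≤ prodW (fun (_ : V) (_ : Cell M) => 1 / (M : ℝ) ^ 2) f := by
    intro f
    unfold prodW
    exact Finset.prod_nonneg fun v _ => by positivity
  have hle : pr (prodW fun (_ : V) (_ : Cell M) => 1 / (M : ℝ) ^ 2)
      {f | ∀ c ∈ T, δ * μ < |(cnt f c : ℝ) - μ|} ≤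
      ∑ f : V → Cell M, prodW (fun (_ : V) (_ : Cell M) => 1 / (M : ℝ) ^ 2) f *
        ∏ c ∈ T, (Real.exp (δ / 2 * ((cnt f c : ℝ) - μ) - δ / 2 * δ * μ) +
          Real.exp (-(δ / 2) * ((cnt f c : ℝ) - μ) - δ / 2 * δ * μ)) := by
    unfold pr
    refine Finset.sum_le_sum fun f _ => ?_
    have hpos : 0 ≤ ∏ c ∈ T, (Real.exp (δ / 2 * ((cnt f c : ℝ) - μ) - δ / 2 * δ * μ) +
          Real.exp (-(δ / 2) * ((cnt f c : ℝ) - μ) - δ / 2 * δ * μ)) :=
      Finset.prod_nonneg fun c _ => add_nonneg (Real.exp_pos _).le (Real.exp_pos _).le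
    split_ifs with hf
    · have h2 : (1 : ℝ) ≤ ∏ c ∈ T, (Real.exp (δ / 2 * ((cnt f c : ℝ) - μ) - δ / 2 * δ * μ) +
          Real.exp (-(δ / 2) * ((cnt f c : ℝ) - μ) - δ / 2 * δ * μ)) := by
        have hone : (1 : ℝ) = ∏ _c ∈ T, (1 : ℝ) := by rw [Finset.prod_const_one]
        rw [hone]
        refine Finset.prod_le_prod (fun _ _ => zero_le_one) ?_
        intro c hc
        have h3 : δ * μ < |(cnt f c : ℝ) - μ| := hf c hc
        rcases lt_abs.mp h3 with h4 | h4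
        · have h5 : (1 : ℝ) ≤ Real.exp (δ / 2 * ((cnt f c : ℝ) - μ) - δ / 2 * δ * μ) := by
            apply Real.one_le_exp
            have := mul_le_mul_of_nonneg_left h4.le (show (0 : ℝ) ≤ δ / 2 by linarith)
            linarith
          have h6 := (Real.exp_pos (-(δ / 2) * ((cnt f c : ℝ) - μ) - δ / 2 * δ * μ)).le
          linarith
        · have h5 : (1 : ℝ) ≤ Real.exp (-(δ / 2) * ((cnt f c : ℝ) - μ) - δ / 2 * δ * μ) := by
            apply Real.one_le_exp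
            have := mul_le_mul_of_nonneg_left h4.le (show (0 : ℝ) ≤ δ / 2 by linarith)
            linarith
          have h6 := (Real.exp_pos (δ / 2 * ((cnt f c : ℝ) - μ) - δ / 2 * δ * μ)).le
          linarith
      have h7 := mul_le_mul_of_nonneg_left h2 (hw f)
      rw [mul_one] at h7
      exact h7
    · exact mul_nonneg (hw f) hpos
  refine hle.trans ?_
  have e1 : ∀ f : V → Cell M, prodW (fun (_ : V) (_ : Cell M) => 1 / (M : ℝ) ^ 2) f *
        ∏ c ∈ T, (Real.exp (δ / 2 * ((cnt f c : ℝ) - μ) - δ / 2 * δ * μ) +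
          Real.exp (-(δ / 2) * ((cnt f c : ℝ) - μ) - δ / 2 * δ * μ)) =
      ∑ S ∈ T.powerset, prodW (fun (_ : V) (_ : Cell M) => 1 / (M : ℝ) ^ 2) f *
        ∏ c ∈ T, Real.exp ((if c ∈ S then δ / 2 else -(δ / 2)) * ((cnt f c : ℝ) - μ) -
          δ / 2 * δ * μ) := by
    intro f
    rw [Finset.prod_add, Finset.mul_sum]
    refine Finset.sum_congr rfl fun S hS => ?_
    congr 1
    rw [← Finset.prod_sdiff (Finset.mem_powerset.mp hS), mul_comm]
    congr 1
    · refine Finset.prod_congr rfl fun c hc => ?_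
      rw [if_neg (Finset.mem_sdiff.mp hc).2]
    · refine Finset.prod_congr rfl fun c hc => ?_
      rw [if_pos hc]
  rw [Finset.sum_congr rfl (fun f _ => e1 f), Finset.sum_comm]
  have e2 : ∀ S ∈ T.powerset, ∑ f : V → Cell M,
      prodW (fun (_ : V) (_ : Cell M) => 1 / (M : ℝ) ^ 2) f *
        ∏ c ∈ T, Real.exp ((if c ∈ S then δ / 2 else -(δ / 2)) * ((cnt f c : ℝ) - μ) -
          δ / 2 * δ * μ) ≤ Real.exp (-(δ ^ 2 * μ / 4)) ^ T.card := by
    intro S _
    refine g3_term M h0 h1 T (fun c => if c ∈ S then δ / 2 else -(δ / 2)) ?_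
    intro c _
    show |if c ∈ S then δ / 2 else -(δ / 2)| = δ / 2
    split_ifs
    · exact abs_of_pos (by linarith)
    · rw [abs_neg]
      exact abs_of_pos (by linarith)
  refine (Finset.sum_le_sum e2).trans (le_of_eq ?_)
  rw [Finset.sum_const, Finset.card_powerset, nsmul_eq_mul, mul_pow]
  push_cast
  ring

end EA42
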