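import Pool.Agent.Lib.MP_ea42c6_pr.Defs

/-!
# T1a — the first two members of `B` in a uniform order

Counting: for `(a,s)` and `(a',s')` in `B.offDiag` there is a permutation `g` of `Fin n` with
`g a = a'`, `g s = s'` and `g '' B = B` (e.g. a product of two swaps inside `B`), and
`π ↦ π * g⁻¹` (that is `π.trans` / `g.symm.trans π`) maps
`{π | rk B π a = 0 ∧ rk B π s = 1}` bijectively onto the same set for `(a', s')`.
For each `π` exactly one pair `(a,s)` in `B.offDiag` has ranks `0, 1` (the ranks `rk B π v`,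
`v ∈ B`, are a bijection of `B` with `range |B|`, since they count the smaller values of an
injective function).  So `|{π | ...}| * (|B| (|B|-1)) = n!`.

`perm_pair`: `permLaw n` of a set is `card / n!` (`PMF.toMeasure_uniformOfFintype_apply`).
`rk_first_of_card_one`: not needed.
-/

namespace EA42

open MeasureTheory
open scoped Classical ENNReal

theorem rk_lt_rk {n : ℕ} (B : Finset (Fin n)) (π : Equiv.Perm (Fin n)) {v w : Fin n}
    (hv : v ∈ B) (h : π v < π w) : rk B π v < rk B π w := by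
  unfold rk
  refine Finset.card_lt_card ?_
  rw [Finset.ssubset_iff_of_subset]
  · refine ⟨v, Finset.mem_filter.mpr ⟨hv, h⟩, ?_⟩
    intro hm
    exact lt_irrefl _ (Finset.mem_filter.mp hm).2
  · intro x hx
    obtain ⟨hx1, hx2⟩ := Finset.mem_filter.mp hx
    exact Finset.mem_filter.mpr ⟨hx1, hx2.trans h⟩

theorem rk_inj {n : ℕ} (B : Finset (Fin n)) (π : Equiv.Perm (Fin n)) {v w : Fin n}
    (hv : v ∈ B) (hw : w ∈ B) (h : rk B π v = rk B π w) : v = w := by
  rcases lt_trichotomy (π v) (π w) with h1 | h1 | h1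
  · exact absurd h (rk_lt_rk B π hv h1).ne
  · exact π.injective h1
  · exact absurd h (rk_lt_rk B π hw h1).ne'

/-- Every order has exactly one first and one second member of `B`, if `2 ≤ |B|`. -/
theorem exists_first_second {n : ℕ} (B : Finset (Fin n)) (hB : 2 ≤ B.card)
    (π : Equiv.Perm (Fin n)) :
    ∃! z : Fin n × Fin n, z.1 ∈ B ∧ z.2 ∈ B ∧ rk B π z.1 = 0 ∧ rk B π z.2 = 1 := by
  obtain ⟨a, ha, hamin⟩ := Finset.exists_min_image B π (Finset.card_pos.mp (by omega))
  have hB' : (B.erase a).Nonempty := by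
    rw [← Finset.card_pos, Finset.card_erase_of_mem ha]
    omega
  obtain ⟨s, hs, hsmin⟩ := Finset.exists_min_image (B.erase a) π hB'
  have hsa : s ≠ a := (Finset.mem_erase.mp hs).1
  have hsB : s ∈ B := (Finset.mem_erase.mp hs).2
  have h0 : rk B π a = 0 := by
    unfold rk
    rw [Finset.card_eq_zero, Finset.filter_eq_empty_iff]
    intro w hw hlt
    exact absurd (hamin w hw) (not_le.mpr hlt)
  have h1 : rk B π s = 1 := by
    unfold rk
    rw [Finset.card_eq_one]
    refine ⟨a, ?_⟩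
    ext w
    rw [Finset.mem_filter, Finset.mem_singleton]
    constructor
    · rintro ⟨hw, hlt⟩
      by_contra hwa
      exact absurd (hsmin w (Finset.mem_erase.mpr ⟨hwa, hw⟩)) (not_le.mpr hlt)
    · rintro rfl
      refine ⟨ha, lt_of_le_of_ne (hamin s hsB) ?_⟩
      intro he
      exact hsa (π.injective he).symm
  refine ⟨(a, s), ⟨ha, hsB, h0, h1⟩, ?_⟩
  rintro ⟨a', s'⟩ ⟨ha', hs', h0', h1'⟩
  refine Prod.ext ?_ ?_
  · exact rk_inj B π ha' ha (h0'.trans h0.symm)
  · exact rk_inj B π hs' hsB (h1'.trans h1.symm)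

/-- The number of orders in which `a`, `s` are first and second. -/
noncomputable def nFS {n : ℕ} (B : Finset (Fin n)) (a s : Fin n) : ℕ :=
  (Finset.univ.filter fun π : Equiv.Perm (Fin n) => rk B π a = 0 ∧ rk B π s = 1).card

theorem rk_mul {n : ℕ} (B : Finset (Fin n)) (g : Equiv.Perm (Fin n))
    (hg : ∀ v, g v ∈ B ↔ v ∈ B) (π : Equiv.Perm (Fin n)) (v : Fin n) :
    rk B (π * g⁻¹) (g v) = rk B π v := by
  unfold rk
  symm
  refine Finset.card_bij (fun w _ => g w) ?_ ?_ ?_
  · intro w hw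
    obtain ⟨h1, h2⟩ := Finset.mem_filter.mp hw
    refine Finset.mem_filter.mpr ⟨(hg w).mpr h1, ?_⟩
    simpa [Equiv.Perm.mul_apply] using h2
  · intro w _ w' _ h
    exact g.injective h
  · intro w hw
    obtain ⟨h1, h2⟩ := Finset.mem_filter.mp hw
    refine ⟨g⁻¹ w, Finset.mem_filter.mpr ⟨?_, ?_⟩, ?_⟩
    · rw [← hg]
      simpa using h1
    · simpa [Equiv.Perm.mul_apply] using h2
    · simp

theorem nFS_inv {n : ℕ} (B : Finset (Fin n)) (g : Equiv.Perm (Fin n))
    (hg : ∀ v, g v ∈ B ↔ v ∈ B) (a s : Fin n) : nFS B a s = nFS B (g a) (g s) := by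
  unfold nFS
  refine Finset.card_bij (fun π _ => π * g⁻¹) ?_ ?_ ?_
  · intro π hπ
    have h := (Finset.mem_filter.mp hπ).2
    refine Finset.mem_filter.mpr ⟨Finset.mem_univ _, ?_⟩
    rw [rk_mul B g hg, rk_mul B g hg]
    exact h
  · intro π _ π' _ h
    exact mul_right_cancel h
  · intro π hπ
    have h := (Finset.mem_filter.mp hπ).2
    refine ⟨π * g, Finset.mem_filter.mpr ⟨Finset.mem_univ _, ?_⟩, ?_⟩
    · have e1 : π * g * g⁻¹ = π := by group
      have h1 := rk_mul B g hg (π * g) a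
      have h2 := rk_mul B g hg (π * g) s
      rw [e1] at h1 h2
      rw [← h1, ← h2]
      exact h
    · group

theorem swap_mem_iff {n : ℕ} (B : Finset (Fin n)) {x y : Fin n} (hx : x ∈ B) (hy : y ∈ B)
    (v : Fin n) : Equiv.swap x y v ∈ B ↔ v ∈ B := by
  by_cases h1 : v = x
  · subst h1
    rw [Equiv.swap_apply_left]
    exact ⟨fun _ => hx, fun _ => hy⟩
  · by_cases h2 : v = y
    · subst h2
      rw [Equiv.swap_apply_right]
      exact ⟨fun _ => hy, fun _ => hx⟩
    · rw [Equiv.swap_apply_of_ne_of_ne h1 h2]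

theorem nFS_eq {n : ℕ} (B : Finset (Fin n)) {a s a' s' : Fin n} (ha : a ∈ B) (hs : s ∈ B)
    (h : a ≠ s) (ha' : a' ∈ B) (hs' : s' ∈ B) (h' : a' ≠ s') : nFS B a s = nFS B a' s' := by
  have h1 := nFS_inv B (Equiv.swap a a') (swap_mem_iff B ha ha') a s
  rw [Equiv.swap_apply_left] at h1
  set s1 := Equiv.swap a a' s with hs1
  have hs1B : s1 ∈ B := (swap_mem_iff B ha ha' s).mpr hs
  have hs1a : a' ≠ s1 := by
    intro he
    apply h
    have : Equiv.swap a a' a = Equiv.swap a a' s := by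
      rw [Equiv.swap_apply_left]
      exact he
    exact (Equiv.swap a a').injective this
  have h2 := nFS_inv B (Equiv.swap s1 s') (swap_mem_iff B hs1B hs') a' s1
  rw [Equiv.swap_apply_left, Equiv.swap_apply_of_ne_of_ne hs1a h'] at h2
  exact h1.trans h2

theorem sum_nFS {n : ℕ} (B : Finset (Fin n)) (hB : 2 ≤ B.card) :
    ∑ z ∈ B.offDiag, nFS B z.1 z.2 = Nat.factorial n := by
  unfold nFS
  simp_rw [Finset.card_filter]
  rw [Finset.sum_comm]
  have h1 : ∀ π ∈ (Finset.univ : Finset (Equiv.Perm (Fin n))),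
      ∑ z ∈ B.offDiag, (if rk B π z.1 = 0 ∧ rk B π z.2 = 1 then 1 else 0) = 1 := by
    intro π _
    rw [← Finset.card_filter, Finset.card_eq_one]
    obtain ⟨z, hz, huniq⟩ := exists_first_second B hB π
    refine ⟨z, ?_⟩
    ext w
    rw [Finset.mem_filter, Finset.mem_singleton, Finset.mem_offDiag]
    constructor
    · rintro ⟨⟨h1, h2, _⟩, h3, h4⟩
      exact huniq w ⟨h1, h2, h3, h4⟩
    · rintro rfl
      refine ⟨⟨hz.1, hz.2.1, ?_⟩, hz.2.2.1, hz.2.2.2⟩
      intro he
      have h5 := hz.2.2.1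
      have h6 := hz.2.2.2
      rw [he, h6] at h5
      exact absurd h5 one_ne_zero
  rw [Finset.sum_congr rfl h1, Finset.sum_const, Finset.card_univ, Fintype.card_perm,
    Fintype.card_fin, smul_eq_mul, mul_one]

theorem perm_count {n : ℕ} (B : Finset (Fin n)) {a s : Fin n} (ha : a ∈ B) (hs : s ∈ B)
    (h : a ≠ s) :
    (Finset.univ.filter fun π : Equiv.Perm (Fin n) => rk B π a = 0 ∧ rk B π s = 1).card
      * (B.card * (B.card - 1)) = Nat.factorial n := by
  have hB : 2 ≤ B.card := by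
    have h1 : ({a, s} : Finset (Fin n)) ⊆ B := by
      intro x hx
      rcases Finset.mem_insert.mp hx with rfl | hx
      · exact ha
      · rw [Finset.mem_singleton.mp hx]
        exact hs
    have h2 := Finset.card_le_card h1
    rwa [Finset.card_pair h] at h2
  have h1 := sum_nFS B hB
  have h2 : ∀ z ∈ B.offDiag, nFS B z.1 z.2 = nFS B a s := by
    intro z hz
    obtain ⟨hz1, hz2, hz3⟩ := Finset.mem_offDiag.mp hz
    exact nFS_eq B hz1 hz2 hz3 ha hs h
  rw [Finset.sum_congr rfl h2, Finset.sum_const, Finset.offDiag_card, smul_eq_mul] at h1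
  have h3 : B.card * B.card - B.card = B.card * (B.card - 1) := by
    rw [Nat.mul_sub, mul_one]
  rw [h3] at h1
  rw [← h1, mul_comm]
  rfl

theorem perm_pair {n : ℕ} (B : Finset (Fin n)) {a s : Fin n} (ha : a ∈ B) (hs : s ∈ B)
    (h : a ≠ s) :
    permLaw n {π | rk B π a = 0 ∧ rk B π s = 1} =
      ENNReal.ofReal (1 / ((B.card : ℝ) * ((B.card : ℝ) - 1))) := by
  have hc := perm_count B ha hs h
  have hB : 2 ≤ B.card := by
    have h1 : ({a, s} : Finset (Fin n)) ⊆ B := by
      intro x hx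
      rcases Finset.mem_insert.mp hx with rfl | hx
      · exact ha
      · rw [Finset.mem_singleton.mp hx]
        exact hs
    have h2 := Finset.card_le_card h1
    rwa [Finset.card_pair h] at h2
  unfold permLaw
  rw [PMF.toMeasure_uniformOfFintype_apply _ (MeasurableSpace.measurableSet_top),
    Fintype.card_perm, Fintype.card_fin]
  have h1 : Fintype.card {π : Equiv.Perm (Fin n) | rk B π a = 0 ∧ rk B π s = 1} =
      (Finset.univ.filter fun π : Equiv.Perm (Fin n) => rk B π a = 0 ∧ rk B π s = 1).card := by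
    rw [← Set.toFinset_card]
    congr 1
    ext π
    simp
  rw [h1]
  set N := (Finset.univ.filter fun π : Equiv.Perm (Fin n) => rk B π a = 0 ∧ rk B π s = 1).card
  have h2 : (0 : ℝ) < (Nat.factorial n : ℝ) := by exact_mod_cast Nat.factorial_pos n
  have h3 : (N : ENNReal) / (Nat.factorial n : ENNReal) =
      ENNReal.ofReal ((N : ℝ) / (Nat.factorial n : ℝ)) := by
    rw [ENNReal.ofReal_div_of_pos h2, ENNReal.ofReal_natCast, ENNReal.ofReal_natCast]
  rw [h3]
  congr 1
  have h4 : (N : ℝ) * ((B.card : ℝ) * ((B.card : ℝ) - 1)) = (Nat.factorial n : ℝ) := by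
    rw [← hc]
    push_cast
    rw [Nat.cast_sub (by omega)]
    push_cast
    ring
  have h5 : (2 : ℝ) ≤ (B.card : ℝ) := by exact_mod_cast hB
  have h6 : (0 : ℝ) < (B.card : ℝ) * ((B.card : ℝ) - 1) := by
    apply mul_pos <;> linarith
  rw [div_eq_div_iff h2.ne' h6.ne', one_mul]
  exact h4

end EA42
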