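import Pool.Agent.Lib.MP_ea42c6_pr.T1s
import Pool.Agent.Lib.MP_ea42c6_pr.T1a

/-!
# T1b — transfer, for fixed positions

Fix `X` and `r > 0`, so `u ∈ ball X r u`; put `B = ball X r`.  For each `u` let
`F u (k, π) = ((a, s), η)`, with `a, s` the members of `B u` of rank `0, 1` in `π_u`
(`(u,u)` if `|B u| = 1`) and `η = decide (2 ≤ k_u)`.  For `ω : V → Co V` let
`Ψ u ω = ((a, if σ₁ then c₁ else c₂), σ₁ || σ₂)`.

* The graph `H z = fromRel (fun u v => v = (z u).1.1 ∨ ((z u).2 = true ∧ v = (z u).1.2))` satisfies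
  `H (Ψ ω) = gr ω univ`, and `H (F (k,π)) ≤ irr (X,k,π) r` whenever all `k_u ≥ 1`, which is
  almost sure (`PMF.toMeasure` is carried by the support; finite intersection).
* Both laws are the product of `pairW (B u) u ⊗ bern q`:
  `{F = z}` is a product of two boxes (`Measure.prod_prod`, `Measure.pi_pi`), with
  `perm_pair` for the permutation factor (`exists_first_second` shows that for
  `(a,s) ∉ offDiag` the event is empty), and `ξ{2 ≤ k} = q`, `ξ{k < 2} = 1 - q`.
  `pr (wt q B u) {Ψ = ((a,s),η)}`: `wt_summary`.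
  For product weights: `pr (prodW w) {ω | ∀ u, Ψ u (ω u) = z u} = ∏ ...` (`pr_rect`).
* Hence for `P` upward closed, `law {¬ P (irr)} ≤ law {¬ P (H ∘ F)} = pr {¬ P (gr ω univ)}`
  (sum over the finitely many values `z`).
-/

namespace EA42

open MeasureTheory
open scoped Classical ENNReal

/-- the summary of one coordinate -/
def t1bPsi {V : Type*} (x : Co V) : V × V × Bool :=
  (x.1.1, (if x.1.2.2 = true then x.1.2.1 else x.2.1), (x.1.2.2 || x.2.2))

/-- the graph of a summary -/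
def t1bH {V : Type*} (z : V → V × V × Bool) : SimpleGraph V :=
  SimpleGraph.fromRel fun u v => v = (z u).1 ∨ ((z u).2.2 = true ∧ v = (z u).2.1)

theorem t1b_gr {V : Type*} [Fintype V] (ω : V → Co V) :
    gr ω Finset.univ = t1bH (fun u => t1bPsi (ω u)) := by
  unfold gr t1bH t1bPsi
  congr 1
  funext u v
  simp only [Finset.mem_univ, true_and]
  by_cases h : (ω u).1.2.2 = true
  · simp [h]
  · have h' : (ω u).1.2.2 = false := by simpa using h
    simp [h']

/-- the first two members of `B` in an order -/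
noncomputable def t1bFS {n : ℕ} (B : Finset (Fin n)) (u : Fin n) (π : Equiv.Perm (Fin n)) :
    Fin n × Fin n :=
  if h : 2 ≤ B.card then (exists_first_second B h π).exists.choose else (u, u)

theorem t1bFS_iff {n : ℕ} (B : Finset (Fin n)) (u : Fin n) (π : Equiv.Perm (Fin n))
    (h : 2 ≤ B.card) (a s : Fin n) :
    t1bFS B u π = (a, s) ↔ a ∈ B ∧ s ∈ B ∧ rk B π a = 0 ∧ rk B π s = 1 := by
  have hspec := (exists_first_second B h π).exists.choose_spec
  unfold t1bFS
  rw [dif_pos h]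
  constructor
  · intro e
    rw [e] at hspec
    exact hspec
  · intro e
    exact (exists_first_second B h π).unique hspec e

theorem t1bFS_neg {n : ℕ} (B : Finset (Fin n)) (u : Fin n) (π : Equiv.Perm (Fin n))
    (h : ¬ 2 ≤ B.card) : t1bFS B u π = (u, u) := by
  unfold t1bFS
  rw [dif_neg h]

instance t1b_prob (n : ℕ) : IsProbabilityMeasure (permLaw n) := by
  unfold permLaw
  infer_instance

theorem t1b_permLaw {n : ℕ} (B : Finset (Fin n)) (u a s : Fin n) :
    permLaw n {π | t1bFS B u π = (a, s)} = ENNReal.ofReal (pairW B u (a, s)) := by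
  unfold pairW
  by_cases h : 2 ≤ B.card
  · rw [if_pos h]
    have hset : {π | t1bFS B u π = (a, s)} =
        {π | a ∈ B ∧ s ∈ B ∧ rk B π a = 0 ∧ rk B π s = 1} := by
      ext π
      exact t1bFS_iff B u π h a s
    by_cases h2 : a ∈ B ∧ s ∈ B ∧ a ≠ s
    · rw [if_pos h2, hset, ← perm_pair B h2.1 h2.2.1 h2.2.2]
      congr 1
      ext π
      simp only [Set.mem_ofPred_eq]
      constructor
      · exact fun hh => hh.2.2
      · exact fun hh => ⟨h2.1, h2.2.1, hh⟩
    · rw [if_neg h2, ENNReal.ofReal_zero]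
      have hem : {π | t1bFS B u π = (a, s)} = (∅ : Set (Equiv.Perm (Fin n))) := by
        rw [hset]
        ext π
        simp only [Set.mem_ofPred_eq, Set.mem_empty_iff_false, iff_false]
        rintro ⟨ha, hs, h0, h1⟩
        apply h2
        refine ⟨ha, hs, ?_⟩
        rintro rfl
        omega
      rw [hem, measure_empty]
  · rw [if_neg h]
    by_cases h2 : (a, s) = (u, u)
    · rw [if_pos h2, ENNReal.ofReal_one]
      have hu : {π | t1bFS B u π = (a, s)} = (Set.univ : Set (Equiv.Perm (Fin n))) := by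
        ext π
        simp only [Set.mem_ofPred_eq, Set.mem_univ, iff_true]
        rw [t1bFS_neg B u π h, h2]
      rw [hu, measure_univ]
    · rw [if_neg h2, ENNReal.ofReal_zero]
      have hem : {π | t1bFS B u π = (a, s)} = (∅ : Set (Equiv.Perm (Fin n))) := by
        ext π
        simp only [Set.mem_ofPred_eq, Set.mem_empty_iff_false, iff_false]
        intro e
        rw [t1bFS_neg B u π h] at e
        exact h2 e.symm
      rw [hem, measure_empty]

theorem t1b_xi (ξ : PMF ℕ) {q : ℝ} (hq : ξ.toMeasure {k | 2 ≤ k} = ENNReal.ofReal q)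
    (hq0 : 0 ≤ q) (η : Bool) :
    ξ.toMeasure {k | decide (2 ≤ k) = η} = ENNReal.ofReal (bern q η) := by
  cases η
  · have hc : {k : ℕ | decide (2 ≤ k) = false} = {k | 2 ≤ k}ᶜ := by
      ext k
      simp
    rw [hc, prob_compl_eq_one_sub (MeasurableSet.of_discrete), hq]
    have : bern q false = 1 - q := rfl
    rw [this, ENNReal.ofReal_sub _ hq0, ENNReal.ofReal_one]
  · have hc : {k : ℕ | decide (2 ≤ k) = true} = {k | 2 ≤ k} := by
      ext k
      simp
    rw [hc, hq]
    rfl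

/-- the summary of the orders and numbers -/
noncomputable def t1bF {n : ℕ} (B : Fin n → Finset (Fin n))
    (κπ : (Fin n → ℕ) × (Fin n → Equiv.Perm (Fin n))) (u : Fin n) : Fin n × Fin n × Bool :=
  ((t1bFS (B u) u (κπ.2 u)).1, (t1bFS (B u) u (κπ.2 u)).2, decide (2 ≤ κπ.1 u))

theorem t1b_pairW_nonneg {V : Type*} (B : Finset V) (u : V) (z : V × V) : 0 ≤ pairW B u z := by
  unfold pairW
  split_ifs with h1 h2 h3
  · have : (2 : ℝ) ≤ (B.card : ℝ) := by exact_mod_cast h1
    refine div_nonneg zero_le_one (mul_nonneg (by linarith) (by linarith))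
  · exact le_rfl
  · exact zero_le_one
  · exact le_rfl

theorem t1b_bern_nonneg {q : ℝ} (hq0 : 0 ≤ q) (hq1 : q ≤ 1) (b : Bool) : 0 ≤ bern q b := by
  unfold bern
  split_ifs <;> linarith

theorem t1b_law (ξ : PMF ℕ) {q : ℝ} (hq : ξ.toMeasure {k | 2 ≤ k} = ENNReal.ofReal q)
    (hq0 : 0 ≤ q) (hq1 : q ≤ 1) {n : ℕ} (B : Fin n → Finset (Fin n))
    (z : Fin n → Fin n × Fin n × Bool) :
    ((Measure.pi fun _ : Fin n => ξ.toMeasure).prod (Measure.pi fun _ : Fin n => permLaw n))
        {κπ | t1bF B κπ = z} =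
      ENNReal.ofReal (∏ u, pairW (B u) u ((z u).1, (z u).2.1) * bern q (z u).2.2) := by
  have hset : {κπ | t1bF B κπ = z} =
      (Set.univ.pi fun u => {k : ℕ | decide (2 ≤ k) = (z u).2.2}) ×ˢ
        (Set.univ.pi fun u => {π | t1bFS (B u) u π = ((z u).1, (z u).2.1)}) := by
    ext ⟨k, π⟩
    simp only [Set.mem_ofPred_eq, Set.mem_prod, Set.mem_pi, Set.mem_univ, true_imp_iff]
    constructor
    · intro h
      constructor
      · intro u
        have h1 := congrFun h u
        exact congrArg (fun f => f.2.2) h1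
      · intro u
        have h1 := congrFun h u
        exact Prod.ext (congrArg (fun f => f.1) h1) (congrArg (fun f => f.2.1) h1)
    · rintro ⟨h1, h2⟩
      funext u
      unfold t1bF
      simp only []
      rw [h2 u, h1 u]
  rw [hset, Measure.prod_prod, Measure.pi_pi, Measure.pi_pi, ← Finset.prod_mul_distrib,
    ENNReal.ofReal_prod_of_nonneg]
  · refine Finset.prod_congr rfl fun u _ => ?_
    rw [t1b_xi ξ hq hq0, t1b_permLaw, mul_comm, ENNReal.ofReal_mul (t1b_pairW_nonneg _ _ _)]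
  · intro u _
    exact mul_nonneg (t1b_pairW_nonneg _ _ _) (t1b_bern_nonneg hq0 hq1 _)

theorem t1b_null (ξ : PMF ℕ) (h1 : ∀ k ∈ ξ.support, 1 ≤ k) (n : ℕ) :
    ((Measure.pi fun _ : Fin n => ξ.toMeasure).prod (Measure.pi fun _ : Fin n => permLaw n))
        {κπ | ∃ u, κπ.1 u < 1} = 0 := by
  have he : {κπ : (Fin n → ℕ) × (Fin n → Equiv.Perm (Fin n)) | ∃ u, κπ.1 u < 1} =
      ⋃ u, {κπ | κπ.1 u < 1} := by
    ext x
    simp
  rw [he, measure_iUnion_null_iff]
  intro u
  have hset : {κπ : (Fin n → ℕ) × (Fin n → Equiv.Perm (Fin n)) | κπ.1 u < 1} =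
      (Set.univ.pi fun i => if i = u then {k : ℕ | k < 1} else Set.univ) ×ˢ Set.univ := by
    ext ⟨k, π⟩
    simp only [Set.mem_ofPred_eq, Set.mem_prod, Set.mem_pi, Set.mem_univ, true_imp_iff, and_true]
    constructor
    · intro h i
      by_cases hi : i = u
      · rw [if_pos hi, hi]
        exact h
      · rw [if_neg hi]
        exact Set.mem_univ _
    · intro h
      have := h u
      rw [if_pos rfl] at this
      exact this
  rw [hset, Measure.prod_prod, Measure.pi_pi, Finset.prod_eq_zero (Finset.mem_univ u), zero_mul]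
  rw [if_pos rfl, PMF.toMeasure_apply_eq_zero_iff _ (MeasurableSet.of_discrete), Set.disjoint_left]
  intro k hk hk'
  have h2 := h1 k hk
  have h3 : k < 1 := hk'
  omega

theorem t1b_le {n : ℕ} (X : Fin n → Pt) (r : ℝ)
    (κπ : (Fin n → ℕ) × (Fin n → Equiv.Perm (Fin n))) (h : ∀ u, 1 ≤ κπ.1 u) :
    t1bH (t1bF (ball X r) κπ) ≤ irr ((X, κπ) : Sample n) r := by
  have key : ∀ a b : Fin n, a ≠ b →
      (b = (t1bF (ball X r) κπ a).1 ∨ ((t1bF (ball X r) κπ a).2.2 = true ∧
        b = (t1bF (ball X r) κπ a).2.1)) → b ∈ picks ((X, κπ) : Sample n) r a := by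
    intro a b hab hb
    have hp : ∀ c, c ∈ picks ((X, κπ) : Sample n) r a ↔
        c ∈ ball X r a ∧ rk (ball X r a) (κπ.2 a) c < κπ.1 a := by
      intro c
      unfold picks
      rw [Finset.mem_filter]
    rw [hp]
    by_cases h2 : 2 ≤ (ball X r a).card
    · obtain ⟨ha, hs, h0, h1⟩ := (t1bFS_iff (ball X r a) a (κπ.2 a) h2
        (t1bFS (ball X r a) a (κπ.2 a)).1 (t1bFS (ball X r a) a (κπ.2 a)).2).mp rfl
      rcases hb with hb | ⟨hb1, hb2⟩
      · have hb' : b = (t1bFS (ball X r a) a (κπ.2 a)).1 := hb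
        rw [hb']
        exact ⟨ha, by rw [h0]; exact h a⟩
      · have hb' : b = (t1bFS (ball X r a) a (κπ.2 a)).2 := hb2
        have hk : decide (2 ≤ κπ.1 a) = true := hb1
        have hk' : 2 ≤ κπ.1 a := of_decide_eq_true hk
        rw [hb']
        exact ⟨hs, by rw [h1]; exact hk'⟩
    · exfalso
      have hn := t1bFS_neg (ball X r a) a (κπ.2 a) h2
      rcases hb with hb | ⟨hb1, hb2⟩
      · have hb' : b = (t1bFS (ball X r a) a (κπ.2 a)).1 := hb
        rw [hn] at hb'
        exact hab hb'.symm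
      · have hb' : b = (t1bFS (ball X r a) a (κπ.2 a)).2 := hb2
        rw [hn] at hb'
        exact hab hb'.symm
  intro a b hadj
  unfold t1bH at hadj
  unfold irr
  rw [SimpleGraph.fromRel_adj] at hadj ⊢
  refine ⟨hadj.1, ?_⟩
  rcases hadj.2 with h3 | h3
  · exact Or.inl (key a b hadj.1 h3)
  · exact Or.inr (key b a (Ne.symm hadj.1) h3)

theorem t1b_pr {q : ℝ} (hq0 : 0 ≤ q) (hq1 : q ≤ 1) {n : ℕ} (B : Fin n → Finset (Fin n))
    (hself : ∀ u, u ∈ B u) (z : Fin n → Fin n × Fin n × Bool) :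
    pr (prodW (wt q B)) {ω | (fun u => t1bPsi (ω u)) = z} =
      ∏ u, pairW (B u) u ((z u).1, (z u).2.1) * bern q (z u).2.2 := by
  have h1 : {ω : Fin n → Co (Fin n) | (fun u => t1bPsi (ω u)) = z} =
      {ω | ∀ i ∈ (Finset.univ : Finset (Fin n)), ω i ∈ {x : Co (Fin n) | t1bPsi x = z i}} := by
    ext ω
    simp only [Set.mem_ofPred_eq, Finset.mem_univ, true_imp_iff]
    constructor
    · intro h u
      exact congrFun h u
    · intro h
      funext u
      exact h u
  rw [h1]
  have h2 := pr_rect (fun i => isProb_wt hq0 hq1 B i) (Finset.univ : Finset (Fin n))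
    (fun i => {x : Co (Fin n) | t1bPsi x = z i})
  have h3 : pr (prodW (wt q B)) {ω : Fin n → Co (Fin n) |
      ∀ i ∈ (Finset.univ : Finset (Fin n)), ω i ∈ {x : Co (Fin n) | t1bPsi x = z i}} =
      ∏ i ∈ (Finset.univ : Finset (Fin n)), pr (wt q B i) {x : Co (Fin n) | t1bPsi x = z i} := by
    convert h2
  rw [h3]
  refine Finset.prod_congr rfl fun u _ => ?_
  rw [← wt_summary hq0 hq1 B u (hself u) (z u).1 (z u).2.1 (z u).2.2]
  rfl

theorem transfer (ξ : PMF ℕ) (h1 : ∀ k ∈ ξ.support, 1 ≤ k) {q : ℝ}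
    (hq : ξ.toMeasure {k | 2 ≤ k} = ENNReal.ofReal q) (hq0 : 0 ≤ q) (hq1 : q ≤ 1)
    {n : ℕ} (X : Fin n → Pt) {r : ℝ} (hr : 0 < r) (P : SimpleGraph (Fin n) → Prop)
    (hP : ∀ G H, G ≤ H → P G → P H) :
    ((Measure.pi fun _ : Fin n => ξ.toMeasure).prod (Measure.pi fun _ : Fin n => permLaw n))
        {κπ | ¬ P (irr ((X, κπ) : Sample n) r)} ≤
      ENNReal.ofReal (pr (prodW (wt q (ball X r))) {ω | ¬ P (gr ω Finset.univ)}) := by
  have hself : ∀ u, u ∈ ball X r u := by
    intro u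
    unfold ball
    rw [Finset.mem_filter]
    refine ⟨Finset.mem_univ _, ?_⟩
    have h0 : tdist (X u) (X u) = 0 := by
      unfold tdist cdist
      simp
    rw [h0]
    exact hr
  have hsub : {κπ | ¬ P (irr ((X, κπ) : Sample n) r)} ⊆
      {κπ | t1bF (ball X r) κπ ∈ {z | ¬ P (t1bH z)}} ∪ {κπ | ∃ u, κπ.1 u < 1} := by
    intro κπ hκ
    by_cases h : ∃ u, κπ.1 u < 1
    · exact Or.inr h
    · left
      intro hPH
      apply hκ
      refine hP _ _ (t1b_le X r κπ ?_) hPH
      intro u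
      by_contra hu
      exact h ⟨u, by omega⟩
  have hU : {κπ : (Fin n → ℕ) × (Fin n → Equiv.Perm (Fin n)) |
      t1bF (ball X r) κπ ∈ {z | ¬ P (t1bH z)}} =
      ⋃ z ∈ Finset.univ.filter (fun z : Fin n → Fin n × Fin n × Bool => ¬ P (t1bH z)),
        {κπ | t1bF (ball X r) κπ = z} := by
    ext x
    simp
  refine (measure_mono hsub).trans ?_
  refine (measure_union_le _ _).trans ?_
  rw [t1b_null ξ h1 n, add_zero, hU]
  refine (measure_biUnion_finset_le _ _).trans ?_
  rw [Finset.sum_congr rfl (fun z _ => t1b_law ξ hq hq0 hq1 (ball X r) z),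
    ← ENNReal.ofReal_sum_of_nonneg]
  · refine le_of_eq (congrArg _ ?_)
    have h2 : {ω : Fin n → Co (Fin n) | ¬ P (gr ω Finset.univ)} =
        {ω | (fun ω : Fin n → Co (Fin n) => fun u => t1bPsi (ω u)) ω ∈
          {z : Fin n → Fin n × Fin n × Bool | ¬ P (t1bH z)}} := by
      ext ω
      simp only [Set.mem_ofPred_eq]
      rw [t1b_gr]
    rw [h2, ← pr_map]
    have hpr : ∀ (p' : (Fin n → Fin n × Fin n × Bool) → ℝ)
        (E : Set (Fin n → Fin n × Fin n × Bool)), pr p' E = ∑ y, if y ∈ E then p' y else 0 := by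
      intro p' E
      unfold pr
      congr!
    rw [Finset.sum_filter, hpr]
    refine Finset.sum_congr rfl fun z _ => ?_
    rw [t1b_pr hq0 hq1 (ball X r) hself z]
    by_cases hz : P (t1bH z)
    · have hz' : ¬ z ∈ {z : Fin n → Fin n × Fin n × Bool | ¬ P (t1bH z)} := fun h => h hz
      rw [if_neg (not_not.mpr hz), if_neg hz']
    · have hz' : z ∈ {z : Fin n → Fin n × Fin n × Bool | ¬ P (t1bH z)} := hz
      rw [if_pos hz, if_pos hz']
  · intro z _
    exact Finset.prod_nonneg fun u _ =>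
      mul_nonneg (t1b_pairW_nonneg _ _ _) (t1b_bern_nonneg hq0 hq1 _)

end EA42
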