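import Pool.Agent.Lib.MP_ea42c6_pr.M2
import Pool.Agent.Lib.MP_ea42c6_pr.T1b

/-!
# T2 — the law of the irrigation graph is controlled by the finite experiment

`isProb_datW`: the sets `{X | datum M r X = d}` are measurable (M1), disjoint, and cover.
`isProb_totW`: `isProb_pair`, `isProb_prodW`, `isProb_wt`.
`law_le`: `law ξ n E = ∫⁻ X, (law of (k,π)) (E_X)` (`Measure.prod_apply`, E measurable by M1), use
`transfer` for each `X`; the bound depends on `X` only through `datum M r X`, so the integral
is `∑ d, datW d * ...` (split the space into the level sets of `datum`;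
`lintegral` over a finite measurable partition), and `pr_pair` identifies the sum.
-/

namespace EA42

open MeasureTheory
open scoped Classical ENNReal

/-- `isProb_prodW` for every instance of `Fintype (ι → α)`. -/
theorem t2_isProb_prodW {ι α : Type*} [Fintype ι] [Fintype α] [hf : Fintype (ι → α)]
    {w : ι → α → ℝ} (hw : ∀ i, IsProb (w i)) : IsProb (prodW w) := by
  have h := isProb_prodW hw
  have e : (Pi.instFintype : Fintype (ι → α)) = hf := Subsingleton.elim _ _
  rw [← e]
  exact h

theorem isProb_datW (n M : ℕ) [NeZero M] (r : ℝ) : IsProb (datW n M r) := by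
  refine ⟨fun d => ENNReal.toReal_nonneg, ?_⟩
  unfold datW
  rw [← ENNReal.toReal_sum (fun d _ => measure_ne_top _ _)]
  have h := sum_measure_preimage_singleton (μ := Measure.pi fun _ : Fin n => unif)
    (Finset.univ : Finset (Datum (Fin n) M)) (f := fun X => datum M r X)
    (fun d _ => measurableSet_datum n M r d)
  have h2 : (∑ d : Datum (Fin n) M, (Measure.pi fun _ : Fin n => unif) {X | datum M r X = d}) = 1 := by
    refine Eq.trans h ?_
    rw [Finset.coe_univ, Set.preimage_univ, measure_univ]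
  rw [h2, ENNReal.toReal_one]

theorem isProb_totW (n M : ℕ) [NeZero M] (r : ℝ) {q : ℝ} (h0 : 0 ≤ q) (h1 : q ≤ 1) :
    IsProb (totW n M r q) :=
  isProb_pair (k := fun d : Datum (Fin n) M => prodW (wt q d.2)) (isProb_datW n M r)
    (fun d => t2_isProb_prodW fun u => isProb_wt h0 h1 d.2 u)

theorem law_le (ξ : PMF ℕ) (h1 : ∀ k ∈ ξ.support, 1 ≤ k) {q : ℝ}
    (hq : ξ.toMeasure {k | 2 ≤ k} = ENNReal.ofReal q) (hq0 : 0 ≤ q) (hq1 : q ≤ 1)
    (n M : ℕ) [NeZero M] {r : ℝ} (hr : 0 < r) (P : SimpleGraph (Fin n) → Prop)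
    (hP : ∀ G H, G ≤ H → P G → P H) :
    law ξ n {ω | ¬ P (irr ω r)} ≤
      ENNReal.ofReal (pr (totW n M r q) {z | ¬ P (gr z.2 Finset.univ)}) := by
  have hE : MeasurableSet {ω : Sample n | ¬ P (irr ω r)} :=
    measurableSet_irr n r (fun G => ¬ P G)
  set g : Datum (Fin n) M → ℝ := fun d => pr (prodW (wt q d.2)) {ω | ¬ P (gr ω Finset.univ)}
    with hg
  have hd0 : ∀ d : Datum (Fin n) M, 0 ≤ datW n M r d := fun d => ENNReal.toReal_nonneg
  have hg0 : ∀ d, 0 ≤ g d := fun d =>
    pr_nonneg (t2_isProb_prodW fun u => isProb_wt hq0 hq1 d.2 u) _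
  have h2 : pr (totW n M r q) {z | ¬ P (gr z.2 Finset.univ)} = ∑ d, datW n M r d * g d :=
    pr_pair (datW n M r) (fun d : Datum (Fin n) M => prodW (wt q d.2))
      {z | ¬ P (gr z.2 Finset.univ)}
  unfold law
  rw [Measure.prod_apply hE]
  have h3 : ∀ X : Fin n → Pt,
      ((Measure.pi fun _ : Fin n => ξ.toMeasure).prod (Measure.pi fun _ : Fin n => permLaw n))
        (Prod.mk X ⁻¹' {ω : Sample n | ¬ P (irr ω r)})
      ≤ ∑ d : Datum (Fin n) M, Set.indicator {X : Fin n → Pt | datum M r X = d}
          (fun _ => ENNReal.ofReal (g d)) X := by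
    intro X
    refine le_trans (transfer ξ h1 hq hq0 hq1 X hr P hP) ?_
    rw [Finset.sum_eq_single (datum M r X)]
    · rw [Set.indicator_of_mem (show X ∈ {Y : Fin n → Pt | datum M r Y = datum M r X} from rfl)]
      exact le_rfl
    · intro d _ hd
      exact Set.indicator_of_notMem
        (show X ∉ {Y : Fin n → Pt | datum M r Y = d} from fun h => hd (Eq.symm h)) _
    · intro h
      exact absurd (Finset.mem_univ _) h
  refine le_trans (lintegral_mono h3) ?_
  rw [lintegral_finsetSum _ (fun d _ =>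
    measurable_const.indicator (measurableSet_datum n M r d))]
  have h4 : ∀ d : Datum (Fin n) M,
      ∫⁻ X, Set.indicator {X : Fin n → Pt | datum M r X = d} (fun _ => ENNReal.ofReal (g d)) X
        ∂(Measure.pi fun _ : Fin n => unif)
      = ENNReal.ofReal (datW n M r d * g d) := by
    intro d
    have h5 : ENNReal.ofReal (datW n M r d)
        = (Measure.pi fun _ : Fin n => unif) {X | datum M r X = d} :=
      ENNReal.ofReal_toReal (measure_ne_top _ _)
    rw [lintegral_indicator_const (measurableSet_datum n M r d), ENNReal.ofReal_mul (hd0 d), h5,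
      mul_comm]
  rw [Finset.sum_congr rfl fun d _ => h4 d, ← ENNReal.ofReal_sum_of_nonneg
    (fun d _ => mul_nonneg (hd0 d) (hg0 d)), h2]

end EA42
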