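import Pool.Agent.Lib.MP_ea42c6_pr.H2
import Pool.Agent.Lib.MP_ea42c6_pr.G1
import Pool.Agent.Lib.MP_ea42c6_pr.G2
import Pool.Agent.Lib.MP_ea42c6_pr.G3
import Pool.Agent.Lib.MP_ea42c6_pr.T2

/-!
# H3 — the product bound for far blocks, positions included

`irr_sep`: for pairwise far `S₁ ⊆ grid s`, `pr (datW) {∀ β ∈ S₁, ¬ Reg (blkR β)} ≤ p₂^|S₁|` with
`p₂ = 25 b² (2 exp(-δ²μ/4))`: if `¬ Reg` there is a cell `c_β ∈ blkR β` with `δμ < |N - μ|`; union over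
the choice functions (`∏ |blkR β| ≤ (25 b²)^|S₁|`, `Finset.pi` or `Finset.prod_univ_sum`; induction on
`S₁` is also possible: prove for every finset `T` of cells disjoint from the regions,
`pr {∀ β ∈ S₁, ¬ Reg; ∀ c ∈ T, dev} ≤ (25b²)^|S₁| (2exp)^(|S₁| + |T|)`), the cells `c_β` are distinct
(`blkR_disjoint`); `chernoff` and `datW_pr`.
`sep_bound`: `pr_pair` and `sep_given` (for `Valid d`, others have weight 0 by `datW_valid`), expand the
product (`Finset.prod_add`): `∑_{S₁ ⊆ S} pr{∀ β ∈ S₁, ¬ Reg} p₁^{|S \ S₁|} ≤ (p₂ + p₁)^|S|`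
(`Finset.sum_pow_mul_eq_add_pow`).
-/

namespace EA42

open scoped Classical

theorem h3_step {n M b s : ℕ} [NeZero M] (hM : M = b * (s + 4)) {r δ : ℝ} (hδ : 0 < δ)
    (hδ1 : δ ≤ 1) (S : Finset (ℕ × ℕ)) : S ⊆ grid s → Sep S →
    ∀ T : Finset (Cell M), (∀ β ∈ S, Disjoint (blkR M b β) T) →
    pr (datW n M r) {d | (∀ β ∈ S, ¬ Reg d.1 (blkR M b β) δ ((n : ℝ) / (M : ℝ) ^ 2)) ∧
      ∀ c ∈ T, δ * ((n : ℝ) / (M : ℝ) ^ 2) < |(cnt d.1 c : ℝ) - (n : ℝ) / (M : ℝ) ^ 2|} ≤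
      (25 * (b : ℝ) ^ 2) ^ S.card *
        (2 * Real.exp (-(δ ^ 2 * ((n : ℝ) / (M : ℝ) ^ 2) / 4))) ^ (S.card + T.card) := by
  set μ : ℝ := (n : ℝ) / (M : ℝ) ^ 2 with hμ
  set e : ℝ := 2 * Real.exp (-(δ ^ 2 * μ / 4)) with he
  have he0 : 0 ≤ e := by positivity
  refine Finset.induction_on S ?_ ?_
  · intro _ _ T _
    rw [Finset.card_empty, pow_zero, one_mul, zero_add]
    have h1 := chernoff (V := Fin n) M hδ hδ1 T
    rw [Fintype.card_fin, ← hμ, ← he, ← datW_pr n M r] at h1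
    refine le_trans (pr_mono (isProb_datW n M r) ?_) h1
    intro d hd
    exact hd.2
  · intro β S hβS ih hS hsep T hT
    have hS' : S ⊆ grid s := fun x hx => hS (Finset.mem_insert_of_mem hx)
    have hβ : β ∈ grid s := hS (Finset.mem_insert_self _ _)
    have hsep' : Sep S := fun x hx y hy hxy =>
      hsep x (Finset.mem_insert_of_mem hx) y (Finset.mem_insert_of_mem hy) hxy
    have hsub : {d : Datum (Fin n) M | (∀ β' ∈ insert β S, ¬ Reg d.1 (blkR M b β') δ μ) ∧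
        ∀ c ∈ T, δ * μ < |(cnt d.1 c : ℝ) - μ|} ⊆
        {d | ∃ c₀ ∈ blkR M b β, d ∈ {d : Datum (Fin n) M |
          (∀ β' ∈ S, ¬ Reg d.1 (blkR M b β') δ μ) ∧
          ∀ c ∈ insert c₀ T, δ * μ < |(cnt d.1 c : ℝ) - μ|}} := by
      rintro d ⟨hd1, hd2⟩
      have h1 := hd1 β (Finset.mem_insert_self _ _)
      unfold Reg at h1
      push Not at h1
      obtain ⟨c₀, hc₀, hdev⟩ := h1
      refine ⟨c₀, hc₀, fun β' hβ' => hd1 β' (Finset.mem_insert_of_mem hβ'), fun c hc => ?_⟩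
      rcases Finset.mem_insert.mp hc with h | h
      · rw [h]
        exact hdev
      · exact hd2 c h
    refine (pr_mono (isProb_datW n M r) hsub).trans
      ((pr_exists_le (isProb_datW n M r) _ _).trans ?_)
    have hterm : ∀ c₀ ∈ blkR M b β, pr (datW n M r) {d : Datum (Fin n) M |
          (∀ β' ∈ S, ¬ Reg d.1 (blkR M b β') δ μ) ∧
          ∀ c ∈ insert c₀ T, δ * μ < |(cnt d.1 c : ℝ) - μ|} ≤
        (25 * (b : ℝ) ^ 2) ^ S.card * e ^ ((insert β S).card + T.card) := by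
      intro c₀ hc₀
      have hc₀T : c₀ ∉ T :=
        Finset.disjoint_left.mp (hT β (Finset.mem_insert_self _ _)) hc₀
      have h2 := ih hS' hsep' (insert c₀ T) (fun β' hβ' => by
        rw [Finset.disjoint_insert_right]
        refine ⟨?_, hT β' (Finset.mem_insert_of_mem hβ')⟩
        have hne : β ≠ β' := fun h => hβS (h ▸ hβ')
        have h3 := blkR_disjoint hM hβ (hS' hβ')
          (hsep β (Finset.mem_insert_self _ _) β' (Finset.mem_insert_of_mem hβ') hne)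
        exact Finset.disjoint_left.mp h3 hc₀)
      rw [Finset.card_insert_of_notMem hc₀T] at h2
      rw [Finset.card_insert_of_notMem hβS]
      have h4 : S.card + (T.card + 1) = S.card + 1 + T.card := by ring
      rw [h4] at h2
      exact h2
    refine (Finset.sum_le_sum hterm).trans ?_
    rw [Finset.sum_const, nsmul_eq_mul]
    have hcard : ((blkR M b β).card : ℝ) ≤ 25 * (b : ℝ) ^ 2 := by
      have h5 := (card_blk hM β).2.2
      have h6 : ((blkR M b β).card : ℝ) ≤ (((5 * b) ^ 2 : ℕ) : ℝ) := by exact_mod_cast h5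
      push_cast at h6
      linarith
    rw [Finset.card_insert_of_notMem hβS, pow_succ (25 * (b : ℝ) ^ 2)]
    have h7 : 0 ≤ (25 * (b : ℝ) ^ 2) ^ S.card * e ^ (S.card + 1 + T.card) := by positivity
    have h8 := mul_le_mul_of_nonneg_right hcard h7
    refine h8.trans (le_of_eq ?_)
    ring

theorem irr_sep {n M b s : ℕ} [NeZero M] (hM : M = b * (s + 4)) {r δ : ℝ} (hδ : 0 < δ)
    (hδ1 : δ ≤ 1) (S : Finset (ℕ × ℕ)) (hS : S ⊆ grid s) (hsep : Sep S) :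
    pr (datW n M r) {d | ∀ β ∈ S, ¬ Reg d.1 (blkR M b β) δ ((n : ℝ) / (M : ℝ) ^ 2)} ≤
      (25 * (b : ℝ) ^ 2 * (2 * Real.exp (-(δ ^ 2 * ((n : ℝ) / (M : ℝ) ^ 2) / 4)))) ^ S.card := by
  have h1 := h3_step (n := n) (r := r) hM hδ hδ1 S hS hsep ∅
    (fun β _ => Finset.disjoint_empty_right _)
  rw [Finset.card_empty, add_zero, ← mul_pow] at h1
  refine le_trans (pr_mono (isProb_datW n M r) ?_) h1
  intro d hd
  exact ⟨hd, fun c hc => absurd hc (Finset.notMem_empty c)⟩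

theorem sep_bound {n M b s : ℕ} [NeZero M] (hM : M = b * (s + 4)) {r q θ δ p₁ : ℝ}
    (h3 : 3 / (M : ℝ) ≤ r) (h4 : r ≤ 4 / (M : ℝ)) (h0 : 0 ≤ q) (h1 : q ≤ 1) (hp₁ : 0 ≤ p₁)
    (hδ : 0 < δ) (hδ1 : δ ≤ 1)
    (hloc : ∀ d : Datum (Fin n) M, Valid d → ∀ β ∈ grid s,
      Reg d.1 (blkR M b β) δ ((n : ℝ) / (M : ℝ) ^ 2) →
      pr (prodW (wt q d.2)) {ω | ¬ GoodLoc d.1 ω (blkW M b β) (blkR M b β) θ} ≤ p₁)
    (S : Finset (ℕ × ℕ)) (hS : S ⊆ grid s) (hsep : Sep S) :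
    pr (totW n M r q) {z | ∀ β ∈ S, BadB b δ θ ((n : ℝ) / (M : ℝ) ^ 2) z.1 z.2 β} ≤
      (p₁ + 25 * (b : ℝ) ^ 2 *
        (2 * Real.exp (-(δ ^ 2 * ((n : ℝ) / (M : ℝ) ^ 2) / 4)))) ^ S.card := by
  set μ : ℝ := (n : ℝ) / (M : ℝ) ^ 2 with hμ
  set p₂ : ℝ := 25 * (b : ℝ) ^ 2 * (2 * Real.exp (-(δ ^ 2 * μ / 4))) with hp₂
  have hdat := isProb_datW n M r
  have e1 : pr (totW n M r q) {z | ∀ β ∈ S, BadB b δ θ μ z.1 z.2 β} =
      ∑ d, datW n M r d *
        pr (prodW (wt q d.2)) {ω | ∀ β ∈ S, BadB b δ θ μ d ω β} :=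
    pr_pair (datW n M r) (fun d : Datum (Fin n) M => prodW (wt q d.2))
      {z | ∀ β ∈ S, BadB b δ θ μ z.1 z.2 β}
  rw [e1]
  have e2 : ∀ d : Datum (Fin n) M, datW n M r d *
        pr (prodW (wt q d.2)) {ω | ∀ β ∈ S, BadB b δ θ μ d ω β} ≤
      datW n M r d * ∏ β ∈ S, ((if Reg d.1 (blkR M b β) δ μ then 0 else 1) + p₁) := by
    intro d
    by_cases hd : datW n M r d = 0
    · rw [hd, zero_mul, zero_mul]
    · have hv := datW_valid h3 h4 d hd
      exact mul_le_mul_of_nonneg_left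
        (sep_given hM h0 h1 hp₁ d (fun β hβ hreg => hloc d hv β hβ hreg) S hS hsep) (hdat.1 d)
  refine (Finset.sum_le_sum fun d _ => e2 d).trans ?_
  obtain ⟨Q, hQ⟩ : ∃ Q : Finset (ℕ × ℕ) → Set (Datum (Fin n) M),
      ∀ t, Q t = {d | ∀ β ∈ t, ¬ Reg d.1 (blkR M b β) δ μ} := ⟨_, fun _ => rfl⟩
  have e3 : ∀ d : Datum (Fin n) M, datW n M r d *
      ∏ β ∈ S, ((if Reg d.1 (blkR M b β) δ μ then (0 : ℝ) else 1) + p₁) =
      ∑ t ∈ S.powerset, (if d ∈ Q t then datW n M r d else 0) * p₁ ^ (S.card - t.card) := by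
    intro d
    rw [Finset.prod_add, Finset.mul_sum]
    refine Finset.sum_congr rfl fun t ht => ?_
    rw [Finset.prod_const, Finset.card_sdiff_of_subset (Finset.mem_powerset.mp ht), ← mul_assoc]
    congr 1
    by_cases h : ∀ β ∈ t, ¬ Reg d.1 (blkR M b β) δ μ
    · have hd : d ∈ Q t := by
        rw [hQ]
        exact h
      have hz : (∏ i ∈ t, if Reg d.1 (blkR M b i) δ μ then (0 : ℝ) else 1) = 1 :=
        Finset.prod_eq_one (fun β hβ => if_neg (h β hβ))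
      rw [if_pos hd, hz, mul_one]
    · have hd : d ∉ Q t := by
        rw [hQ]
        exact h
      push Not at h
      obtain ⟨β, hβ, hreg⟩ := h
      have hz : (∏ i ∈ t, if Reg d.1 (blkR M b i) δ μ then (0 : ℝ) else 1) = 0 :=
        Finset.prod_eq_zero hβ (if_pos hreg)
      rw [if_neg hd, hz, mul_zero]
  rw [Finset.sum_congr rfl fun d _ => e3 d, Finset.sum_comm]
  have e4 : ∀ t ∈ S.powerset, ∑ d : Datum (Fin n) M,
      (if d ∈ Q t then datW n M r d else 0) * p₁ ^ (S.card - t.card) ≤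
      p₂ ^ t.card * p₁ ^ (S.card - t.card) := by
    intro t ht
    rw [← Finset.sum_mul]
    refine mul_le_mul_of_nonneg_right ?_ (pow_nonneg hp₁ _)
    have htS := Finset.mem_powerset.mp ht
    have h5 := irr_sep (n := n) (r := r) hM hδ hδ1 t (htS.trans hS)
      (fun x hx y hy hxy => hsep x (htS hx) y (htS hy) hxy)
    rw [← hμ, ← hQ] at h5
    exact h5
  refine (Finset.sum_le_sum e4).trans (le_of_eq ?_)
  rw [Finset.sum_pow_mul_eq_add_pow, add_comm]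

end EA42
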