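import Pool.Agent.Lib.MP_ea42c6_pr.P2c

/-!
# P3 — the union of the top cores, and its size

`C = ⋃_{c ∈ grid m} core b0 K c`.  Connected: `glue` with `D = grid m` (`grid m` is connected:
`conn_grid`), `core_conn`, `core_nonempty`, `core_adj`.
Size: if `x ∈ grid (m 12^K)` is not in `C`, then some ancestor `par^[k] x`, `k < K`, is not clear
(otherwise `x ∈ core b0 k (par^[k] x)` by induction on `k`), so its parent `c = par^[k+1] x`
has a bad child (level `k`) `c1 ∈ grid (m 12^(K-k))`; for a given `c1` there are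
`144^(k+1)` such `x` (the descendants of `par c1`: `card_desc`).
-/

namespace EA42

open scoped Classical

theorem P3_par_iter (k : ℕ) (x : ℕ × ℕ) : par^[k] x = (x.1 / 12 ^ k, x.2 / 12 ^ k) := by
  induction k with
  | zero => simp
  | succ k ih =>
    rw [Function.iterate_succ_apply', ih, par, pow_succ]
    simp only [Nat.div_div_eq_div_mul]

theorem conn_grid (m : ℕ) : Conn (grid m) := by
  have hmem : ∀ a b : ℕ, (a, b) ∈ grid m ↔ a < m ∧ b < m := by
    intro a b; simp [grid]
  have hfrom : ∀ x ∈ grid m, Relation.ReflTransGen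
      (fun a b => a ∈ grid m ∧ b ∈ grid m ∧ Adj4 a b) (0, 0) x := by
    rintro ⟨a, b⟩ hx
    rw [hmem] at hx
    have h1 : ∀ i : ℕ, i < m → Relation.ReflTransGen
        (fun a b => a ∈ grid m ∧ b ∈ grid m ∧ Adj4 a b) (0, 0) (i, 0) := by
      intro i
      induction i with
      | zero => intro _; exact Relation.ReflTransGen.refl
      | succ i ih =>
        intro hi
        refine (ih (by omega)).tail ⟨(hmem _ _).2 (by omega), (hmem _ _).2 (by omega), ?_⟩
        exact Or.inr ⟨rfl, Or.inl rfl⟩
    have h2 : ∀ j : ℕ, j < m → Relation.ReflTransGen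
        (fun a b => a ∈ grid m ∧ b ∈ grid m ∧ Adj4 a b) (a, 0) (a, j) := by
      intro j
      induction j with
      | zero => intro _; exact Relation.ReflTransGen.refl
      | succ j ih =>
        intro hj
        refine (ih (by omega)).tail ⟨(hmem _ _).2 (by omega), (hmem _ _).2 (by omega), ?_⟩
        exact Or.inl ⟨rfl, Or.inl rfl⟩
    exact (h1 a hx.1).trans (h2 b hx.2)
  have hsymm : Std.Symm (fun a b : ℕ × ℕ => a ∈ grid m ∧ b ∈ grid m ∧ Adj4 a b) := by
    constructor
    rintro a b ⟨ha, hb, h⟩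
    refine ⟨hb, ha, ?_⟩
    rcases h with ⟨h1, h2⟩ | ⟨h1, h2⟩
    · exact Or.inl ⟨h1.symm, h2.symm⟩
    · exact Or.inr ⟨h1.symm, h2.symm⟩
  intro x hx y hy
  have h1 := hfrom x hx
  have h2 := hfrom y hy
  exact ((Relation.ReflTransGen.stdSymm (r := fun a b : ℕ × ℕ =>
    a ∈ grid m ∧ b ∈ grid m ∧ Adj4 a b)).symm _ _ h1).trans h2

theorem card_desc (k N : ℕ) (c : ℕ × ℕ) :
    ((grid N).filter fun x => par^[k] x = c).card ≤ 144 ^ k := by
  have hsub : ((grid N).filter fun x => par^[k] x = c) ⊆
      (Finset.range (12 ^ k) ×ˢ Finset.range (12 ^ k)).image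
        (fun ij : ℕ × ℕ => (12 ^ k * c.1 + ij.1, 12 ^ k * c.2 + ij.2)) := by
    intro x hx
    rw [Finset.mem_filter, P3_par_iter] at hx
    rw [Finset.mem_image]
    have h12 : 0 < 12 ^ k := by positivity
    refine ⟨(x.1 % 12 ^ k, x.2 % 12 ^ k), ?_, ?_⟩
    · rw [Finset.mem_product, Finset.mem_range, Finset.mem_range]
      exact ⟨Nat.mod_lt _ h12, Nat.mod_lt _ h12⟩
    · rw [← hx.2]
      simp only [Nat.div_add_mod]
  refine (Finset.card_le_card hsub).trans (Finset.card_image_le.trans ?_)
  rw [Finset.card_product, Finset.card_range, ← mul_pow]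
  norm_num

theorem core_exists (b0 : ℕ × ℕ → Prop) (K m : ℕ) (htop : ∀ c ∈ grid m, ¬ bk b0 K c) :
    ∃ C ⊆ grid (m * 12 ^ K), (∀ x ∈ C, ¬ b0 x) ∧ Conn C ∧
      (m * 12 ^ K) ^ 2 ≤ C.card + ∑ k ∈ Finset.range K,
        144 ^ (k + 1) * ((grid (m * 12 ^ (K - k))).filter (bk b0 k)).card := by
  have hmem : ∀ (s : ℕ) (x : ℕ × ℕ), x ∈ grid s ↔ x.1 < s ∧ x.2 < s := by
    intro s x; simp [grid]
  have h12 : ∀ k : ℕ, 0 < 12 ^ k := fun k => by positivity
  refine ⟨(grid m).biUnion (core b0 K), ?_, ?_, ?_, ?_⟩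
  · intro x hx
    rw [Finset.mem_biUnion] at hx
    obtain ⟨c, hc, hxc⟩ := hx
    have hp := core_par b0 K c x hxc
    rw [P3_par_iter] at hp
    rw [hmem] at hc ⊢
    rw [← hp] at hc
    exact ⟨(Nat.div_lt_iff_lt_mul (h12 K)).1 hc.1, (Nat.div_lt_iff_lt_mul (h12 K)).1 hc.2⟩
  · intro x hx
    rw [Finset.mem_biUnion] at hx
    obtain ⟨c, hc, hxc⟩ := hx
    exact core_good b0 K c (htop c hc) x hxc
  · exact glue (grid m) (conn_grid m) (core b0 K) (fun c hc => core_conn b0 K c (htop c hc))
      (fun c hc => core_nonempty b0 K c (htop c hc))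
      (fun c hc c' hc' h => core_adj b0 K c c' (htop c hc) (htop c' hc') h)
  · -- the exceptional blocks
    set bad : ℕ → Finset (ℕ × ℕ) := fun k =>
      (grid (m * 12 ^ (K - k))).filter (bk b0 k) with hbad
    set desc : ℕ → ℕ × ℕ → Finset (ℕ × ℕ) := fun k c =>
      (grid (m * 12 ^ K)).filter fun x => par^[k] x = c with hdesc
    have hcover : grid (m * 12 ^ K) ⊆ (grid m).biUnion (core b0 K) ∪
        (Finset.range K).biUnion fun k => (bad k).biUnion fun c1 => desc (k + 1) (par c1) := by
      intro x hx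
      rw [Finset.mem_union]
      by_contra hcon
      rw [not_or] at hcon
      obtain ⟨hcon1, hcon2⟩ := hcon
      have hxg := (hmem _ _).1 hx
      have hclear : ∀ k < K, Clear b0 k (par^[k] x) := by
        intro k hk
        unfold Clear
        rintro ⟨c1, c2, c3, c4, ⟨hp1, _, _, _⟩, ⟨hb1, _, _, _⟩, _⟩
        apply hcon2
        rw [Finset.mem_biUnion]
        refine ⟨k, Finset.mem_range.2 hk, ?_⟩
        rw [Finset.mem_biUnion]
        have hpx : par (par^[k] x) = par^[k + 1] x := by
          rw [Function.iterate_succ_apply']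
        refine ⟨c1, ?_, ?_⟩
        · rw [hbad]
          simp only
          rw [Finset.mem_filter, hmem]
          refine ⟨?_, hb1⟩
          have hp : par c1 = (x.1 / 12 ^ (k + 1), x.2 / 12 ^ (k + 1)) := by
            rw [hp1, hpx, P3_par_iter]
          have hK : m * 12 ^ K = m * 12 ^ (K - k - 1) * 12 ^ (k + 1) := by
            rw [mul_assoc, ← pow_add]
            congr 2
            omega
          have hK2 : m * 12 ^ (K - k) = m * 12 ^ (K - k - 1) * 12 := by
            rw [mul_assoc, ← pow_succ]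
            congr 2
            omega
          have e1 : c1.1 / 12 = x.1 / 12 ^ (k + 1) := congrArg Prod.fst hp
          have e2 : c1.2 / 12 = x.2 / 12 ^ (k + 1) := congrArg Prod.snd hp
          have f1 : x.1 / 12 ^ (k + 1) < m * 12 ^ (K - k - 1) := by
            rw [Nat.div_lt_iff_lt_mul (h12 _), ← hK]
            exact hxg.1
          have f2 : x.2 / 12 ^ (k + 1) < m * 12 ^ (K - k - 1) := by
            rw [Nat.div_lt_iff_lt_mul (h12 _), ← hK]
            exact hxg.2
          rw [hK2]
          constructor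
          · rw [← Nat.div_lt_iff_lt_mul (by norm_num), e1]
            exact f1
          · rw [← Nat.div_lt_iff_lt_mul (by norm_num), e2]
            exact f2
        · rw [hdesc]
          simp only
          rw [Finset.mem_filter]
          exact ⟨hx, by rw [hp1, hpx]⟩
      have hcore : ∀ k ≤ K, x ∈ core b0 k (par^[k] x) := by
        intro k
        induction k with
        | zero => intro _; simp [core]
        | succ k ih =>
          intro hk
          have hpx : par (par^[k] x) = par^[k + 1] x := by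
            rw [Function.iterate_succ_apply']
          rw [core, Finset.mem_biUnion]
          refine ⟨par^[k] x, ?_, ih (by omega)⟩
          rw [Finset.mem_filter, mem_kids]
          exact ⟨hpx, hclear k (by omega)⟩
      apply hcon1
      rw [Finset.mem_biUnion]
      refine ⟨par^[K] x, ?_, hcore K le_rfl⟩
      rw [hmem, P3_par_iter]
      exact ⟨(Nat.div_lt_iff_lt_mul (h12 K)).2 hxg.1, (Nat.div_lt_iff_lt_mul (h12 K)).2 hxg.2⟩
    have hcard : (grid (m * 12 ^ K)).card = (m * 12 ^ K) ^ 2 := by
      simp [grid, pow_two]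
    rw [← hcard]
    refine (Finset.card_le_card hcover).trans ((Finset.card_union_le _ _).trans ?_)
    refine Nat.add_le_add_left ?_ _
    refine Finset.card_biUnion_le.trans (Finset.sum_le_sum fun k _ => ?_)
    refine (Finset.card_biUnion_le).trans ?_
    refine (Finset.sum_le_card_nsmul _ _ (144 ^ (k + 1)) fun c1 _ => card_desc _ _ _).trans ?_
    rw [smul_eq_mul, mul_comm]

end EA42
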