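import Pool.Agent.Lib.MP_ea42c6_pr.FP1

/-!
# P4 — the tail of the number of bad blocks of one level

If `#bad ≥ a > 0` then one of the 25 classes `(c.1 % 5, c.2 % 5) = (i,j)` has at least `a/25` bad
blocks, hence at least `j₀ = ⌈a/25⌉₊ ≥ 1`; so there is a set `S` of exactly `j₀` bad blocks
in the class; two different blocks of a class are `Far` (coordinates differ by a multiple of 5).  Union
over the classes and over the subsets of size `j₀` of `grid t`: at most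
`25 · C(t², j₀) Q^j₀`, and `C(T,j) ≤ T^j/j! ≤ (3T/j)^j` (`Nat.choose_le_pow_div`; `j! ≥ (j/3)^j`: e.g.
`Real.exp j ≥ j^j/j!` from `Real.pow_div_factorial_le_exp` and `Real.exp_one_lt_d9`,
`exp 1 < 3`).
-/

namespace EA42

open scoped Classical

theorem P4_far {c c' : ℕ × ℕ} (h1 : c.1 % 5 = c'.1 % 5) (h2 : c.2 % 5 = c'.2 % 5) (h : c ≠ c') :
    Far c c' := by
  unfold Far
  by_cases h3 : c.1 = c'.1
  · have h4 : c.2 ≠ c'.2 := fun h4 => h (Prod.ext h3 h4)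
    omega
  · omega

theorem P4_fact (j : ℕ) : (j : ℝ) ^ j ≤ 3 ^ j * (j.factorial : ℝ) := by
  have h1 := Real.pow_div_factorial_le_exp (j : ℝ) (Nat.cast_nonneg j) j
  have hf : (0 : ℝ) < (j.factorial : ℝ) := by exact_mod_cast Nat.factorial_pos j
  rw [div_le_iff₀ hf] at h1
  refine h1.trans (mul_le_mul_of_nonneg_right ?_ hf.le)
  have h2 : Real.exp (j : ℝ) = Real.exp 1 ^ j := by rw [← Real.exp_nat_mul, mul_one]
  rw [h2]
  have h3 : Real.exp 1 ≤ 3 := by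
    have := Real.exp_one_lt_d9
    linarith
  exact pow_le_pow_left₀ (Real.exp_pos 1).le h3 j

theorem count_tail {Ω : Type*} [Fintype Ω] {p : Ω → ℝ} (hp : IsProb p)
    (b : Ω → ℕ × ℕ → Prop) (t : ℕ) {Q : ℝ} (hQ : 0 ≤ Q)
    (h : ∀ S : Finset (ℕ × ℕ), S ⊆ grid t → Sep S → pr p {ω | ∀ c ∈ S, b ω c} ≤ Q ^ S.card)
    {a : ℝ} (ha : 0 < a) :
    pr p {ω | a ≤ (((grid t).filter (b ω)).card : ℝ)} ≤
      25 * (3 * (t : ℝ) ^ 2 * Q / (⌈a / 25⌉₊ : ℝ)) ^ ⌈a / 25⌉₊ := by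
  obtain ⟨j, hj⟩ : ∃ j, j = ⌈a / 25⌉₊ := ⟨_, rfl⟩
  rw [← hj]
  have hjpos : 0 < j := by
    rw [hj, Nat.ceil_pos]
    positivity
  have hjR : (0 : ℝ) < (j : ℝ) := by exact_mod_cast hjpos
  obtain ⟨K, hK⟩ : ∃ K, K = ((grid t).powersetCard j).filter Sep := ⟨_, rfl⟩
  -- the pigeonhole
  have hpig : ∀ ω, a ≤ (((grid t).filter (b ω)).card : ℝ) → ∃ S ∈ K, ∀ c ∈ S, b ω c := by
    intro ω hω
    obtain ⟨Bd, hBd⟩ : ∃ Bd, Bd = (grid t).filter (b ω) := ⟨_, rfl⟩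
    rw [← hBd] at hω
    have hmaps : ∀ c ∈ Bd, ((c.1 % 5, c.2 % 5) : ℕ × ℕ) ∈ Finset.range 5 ×ˢ Finset.range 5 := by
      intro c _
      rw [Finset.mem_product, Finset.mem_range, Finset.mem_range]
      exact ⟨Nat.mod_lt _ (by norm_num), Nat.mod_lt _ (by norm_num)⟩
    have hsum := Finset.card_eq_sum_card_fiberwise hmaps
    have hex : ∃ y ∈ Finset.range 5 ×ˢ Finset.range 5,
        j ≤ (Bd.filter fun c => ((c.1 % 5, c.2 % 5) : ℕ × ℕ) = y).card := by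
      by_contra hno
      push Not at hno
      have h1 : Bd.card ≤ ∑ _y ∈ Finset.range 5 ×ˢ Finset.range 5, (j - 1) := by
        rw [hsum]
        refine Finset.sum_le_sum fun y hy => ?_
        have := hno y hy
        omega
      rw [Finset.sum_const, Finset.card_product, Finset.card_range, smul_eq_mul] at h1
      have h2 : ((j - 1 : ℕ) : ℝ) < a / 25 := by
        rw [← Nat.lt_ceil, ← hj]
        omega
      have h3 : (Bd.card : ℝ) ≤ 25 * ((j - 1 : ℕ) : ℝ) := by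
        have h4 : Bd.card ≤ 25 * (j - 1) := by omega
        exact_mod_cast h4
      linarith
    obtain ⟨y, _, hy⟩ := hex
    obtain ⟨S, hS1, hS2⟩ := Finset.exists_subset_card_eq hy
    refine ⟨S, ?_, ?_⟩
    · rw [hK, Finset.mem_filter, Finset.mem_powersetCard]
      refine ⟨⟨?_, hS2⟩, ?_⟩
      · intro c hc
        have := hS1 hc
        rw [Finset.mem_filter, hBd, Finset.mem_filter] at this
        exact this.1.1
      · intro c hc c' hc' hne
        have e1 := hS1 hc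
        have e2 := hS1 hc'
        rw [Finset.mem_filter] at e1 e2
        have e3 := e1.2.trans e2.2.symm
        rw [Prod.mk.injEq] at e3
        exact P4_far e3.1 e3.2 hne
    · intro c hc
      have := hS1 hc
      rw [Finset.mem_filter, hBd, Finset.mem_filter] at this
      exact this.1.2
  have h1 : pr p {ω | a ≤ (((grid t).filter (b ω)).card : ℝ)} ≤
      pr p {ω | ∃ S ∈ K, ω ∈ {ω | ∀ c ∈ S, b ω c}} :=
    pr_mono hp fun ω hω => hpig ω hω
  have h2 := pr_exists_le hp K (fun S => {ω | ∀ c ∈ S, b ω c})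
  have h3 : ∑ S ∈ K, pr p {ω | ∀ c ∈ S, b ω c} ≤ ∑ _S ∈ K, Q ^ j := by
    refine Finset.sum_le_sum fun S hS => ?_
    rw [hK, Finset.mem_filter, Finset.mem_powersetCard] at hS
    have := h S hS.1.1 hS.2
    rwa [hS.1.2] at this
  have h4 : ∑ _S ∈ K, Q ^ j = (K.card : ℝ) * Q ^ j := by
    rw [Finset.sum_const, nsmul_eq_mul]
  have hg : (grid t).card = t ^ 2 := by
    unfold grid
    rw [Finset.card_product, Finset.card_range, pow_two]
  have h5 : (K.card : ℝ) ≤ ((t ^ 2).choose j : ℝ) := by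
    have : K.card ≤ (t ^ 2).choose j := by
      rw [hK, ← hg, ← Finset.card_powersetCard]
      exact Finset.card_filter_le _ _
    exact_mod_cast this
  have hf : (0 : ℝ) < (j.factorial : ℝ) := by exact_mod_cast Nat.factorial_pos j
  have h6 : ((t ^ 2).choose j : ℝ) ≤ ((t : ℝ) ^ 2) ^ j / (j.factorial : ℝ) := by
    have := Nat.choose_le_pow_div (α := ℝ) j (t ^ 2)
    push_cast at this
    exact this
  have h7 : ((t : ℝ) ^ 2) ^ j / (j.factorial : ℝ) ≤ (3 * (t : ℝ) ^ 2 / j) ^ j := by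
    rw [div_pow, mul_pow, div_le_div_iff₀ hf (pow_pos hjR j)]
    have h8 := P4_fact j
    have h9 : (0 : ℝ) ≤ ((t : ℝ) ^ 2) ^ j := by positivity
    calc ((t : ℝ) ^ 2) ^ j * (j : ℝ) ^ j ≤ ((t : ℝ) ^ 2) ^ j * (3 ^ j * (j.factorial : ℝ)) :=
          mul_le_mul_of_nonneg_left h8 h9
      _ = 3 ^ j * ((t : ℝ) ^ 2) ^ j * (j.factorial : ℝ) := by ring
  have hQj : (0 : ℝ) ≤ Q ^ j := pow_nonneg hQ j
  have h10 : (3 * (t : ℝ) ^ 2 * Q / (j : ℝ)) ^ j = (3 * (t : ℝ) ^ 2 / j) ^ j * Q ^ j := by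
    rw [← mul_pow]
    congr 1
    ring
  have h11 : (0 : ℝ) ≤ (3 * (t : ℝ) ^ 2 / j) ^ j * Q ^ j := by positivity
  calc pr p {ω | a ≤ (((grid t).filter (b ω)).card : ℝ)}
      ≤ (K.card : ℝ) * Q ^ j := h1.trans (h2.trans (h3.trans h4.le))
    _ ≤ (3 * (t : ℝ) ^ 2 / j) ^ j * Q ^ j :=
        mul_le_mul_of_nonneg_right (h5.trans (h6.trans h7)) hQj
    _ ≤ 25 * ((3 * (t : ℝ) ^ 2 / j) ^ j * Q ^ j) := by linarith
    _ = 25 * (3 * (t : ℝ) ^ 2 * Q / (j : ℝ)) ^ j := by rw [h10]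

end EA42
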