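import Mathlib

/-!
# P5num — the numerical sum tends to 0

With `a_k = e T_k/(144 · 2^(k+1))`, `T_k = (m 12^(K-k))²`, `j_k = ⌈a_k/25⌉₊ ≥ 1`,
`3 T_k/j_k ≤ 75 T_k/a_k = 75·144·2^(k+1)/e`.  So the base of the `k`-th term is at most
`y_k = (10800/e) 2^(k+1) z^(2^k)`, `z = 20736 p₀`.  Choose `p₀` with `2 z ≤ e/43200`
(`C = 10800/e ≥ 1`, `2z ≤ 1/(4C)`): `y_k 2^(2^k) = C 2^(k+1) (2z)^(2^k) ≤ C^(1-2^k) 2^(k+1) 4^(-2^k) ≤ 1`.
So `y_k ≤ (1/2)^(2^k)` and the `k`-th term is `≤ 25 (1/2)^(2^k j_k)`.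
`2^k j_k ≥ 2^k` and `2^k j_k ≥ 2^k a_k/25 ≥ e 144^(K-k)/7200`.
For `2k ≥ K` the exponent is at least `2^(K/2)`, for `2k ≤ K` at least `e 144^(K/2)/7200 ≥ e 2^(K/2)/7200`;
the sum of the `K` terms tends to 0 as `K → ∞`, uniformly in `m ≥ 1`.
-/

namespace EA42

theorem P5num_base {e : ℝ} (he : 0 < e) (he1 : e ≤ 1) (k : ℕ) :
    10800 / e * 2 ^ (k + 1) * (e / 86400) ^ (2 ^ k) ≤ (1 / 2 : ℝ) ^ (2 ^ k) := by
  have h1 : k + 1 ≤ 2 ^ k := Nat.lt_two_pow_self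
  obtain ⟨n, hn⟩ : ∃ n : ℕ, 2 ^ k = n + 1 := ⟨2 ^ k - 1, by have := Nat.one_le_two_pow (n := k); omega⟩
  have h2 : (2 : ℝ) ^ (k + 1) ≤ 2 ^ (n + 1) := by
    rw [← hn]; exact pow_le_pow_right₀ (by norm_num) h1
  rw [hn]
  have h3 : (e / 86400) ^ n ≤ (1 / 86400 : ℝ) ^ n := by
    apply pow_le_pow_left₀ (by positivity); linarith
  have h4 : 10800 / e * 2 ^ (k + 1) * (e / 86400) ^ (n + 1)
      = 1 / 8 * (2 ^ (k + 1) * (e / 86400) ^ n) := by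
    rw [pow_succ (e / 86400)]; field_simp; norm_num
  rw [h4]
  have h5 : (2 : ℝ) ^ (k + 1) * (e / 86400) ^ n ≤ 2 ^ (n + 1) * (1 / 86400 : ℝ) ^ n :=
    mul_le_mul h2 h3 (by positivity) (by positivity)
  have h6 : (2 : ℝ) ^ (n + 1) * (1 / 86400 : ℝ) ^ n = 2 * (1 / 43200 : ℝ) ^ n := by
    rw [pow_succ, mul_comm (2 ^ n : ℝ) 2, mul_assoc, ← mul_pow]; norm_num
  have h7 : (1 / 43200 : ℝ) ^ n ≤ (1 / 2) ^ n := pow_le_pow_left₀ (by norm_num) (by norm_num) _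
  rw [pow_succ (1 / 2 : ℝ)]
  have h8 : (0 : ℝ) ≤ (1 / 2) ^ n := by positivity
  linarith

theorem P5num_term {e : ℝ} (he : 0 < e) (he1 : e ≤ 1) (k K m : ℕ) (hm : 1 ≤ m) (hk : k < K) :
    25 * (3 * ((m * 12 ^ (K - k) : ℕ) : ℝ) ^ 2 * (e / 86400) ^ (2 ^ k) /
            (⌈e * ((m * 12 ^ (K - k) : ℕ) : ℝ) ^ 2 / (144 * 2 ^ (k + 1)) / 25⌉₊ : ℝ)) ^
            ⌈e * ((m * 12 ^ (K - k) : ℕ) : ℝ) ^ 2 / (144 * 2 ^ (k + 1)) / 25⌉₊
      ≤ 25 * (7200 * (5 / 4) / e / (5 / 4) ^ K) := by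
  set t : ℝ := ((m * 12 ^ (K - k) : ℕ) : ℝ) ^ 2 with ht
  have hm' : (1 : ℝ) ≤ m := by exact_mod_cast hm
  have ht1 : (144 : ℝ) ^ (K - k) ≤ t := by
    rw [ht]; push_cast
    rw [mul_pow, ← pow_mul, mul_comm (K - k) 2, pow_mul]
    norm_num
    have : (1 : ℝ) ≤ (m : ℝ) ^ 2 := by nlinarith
    nlinarith [show (0 : ℝ) < 144 ^ (K - k) by positivity]
  have htp : 0 < t := lt_of_lt_of_le (by positivity) ht1
  set x : ℝ := e * t / (144 * 2 ^ (k + 1)) / 25 with hx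
  have hxp : 0 < x := by positivity
  set j : ℕ := ⌈x⌉₊ with hj
  have hj1 : 1 ≤ j := Nat.one_le_iff_ne_zero.mpr (by
    have := Nat.ceil_pos.mpr hxp; omega)
  have hjx : x ≤ j := Nat.le_ceil x
  have hjp : (0 : ℝ) < j := by exact_mod_cast hj1
  have hbase : 3 * t * (e / 86400) ^ (2 ^ k) / j ≤ (1 / 2 : ℝ) ^ (2 ^ k) := by
    refine le_trans ?_ (P5num_base he he1 k)
    rw [div_le_iff₀ hjp]
    have h1 : 3 * t * (e / 86400) ^ (2 ^ k)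
        = 10800 / e * 2 ^ (k + 1) * (e / 86400) ^ (2 ^ k) * x := by
      rw [hx]; field_simp; norm_num
    rw [h1]
    exact mul_le_mul_of_nonneg_left hjx (by positivity)
  have h2 : (3 * t * (e / 86400) ^ (2 ^ k) / j) ^ j ≤ (1 / 2 : ℝ) ^ (2 ^ k * j) := by
    rw [pow_mul]
    exact pow_le_pow_left₀ (by positivity) hbase _
  have h3 : (1 / 2 : ℝ) ^ (2 ^ k * j) ≤ 1 / (((2 ^ k * j : ℕ)) : ℝ) := by
    rw [div_pow, one_pow]
    apply one_div_le_one_div_of_le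
    · exact_mod_cast Nat.mul_pos (by positivity) hj1
    · exact_mod_cast (Nat.lt_two_pow_self (n := 2 ^ k * j)).le
  -- the exponent
  have h4 : e / 7200 * 2 ^ (K / 2) ≤ (((2 ^ k * j : ℕ)) : ℝ) := by
    by_cases hc : K / 2 ≤ k
    · have h5 : (2 : ℝ) ^ (K / 2) ≤ 2 ^ k := pow_le_pow_right₀ (by norm_num) hc
      push_cast
      have h6 : (1 : ℝ) ≤ j := by exact_mod_cast hj1
      have h7 : (0 : ℝ) < 2 ^ k := by positivity
      have h8 : (0 : ℝ) < 2 ^ (K / 2) := by positivity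
      calc e / 7200 * 2 ^ (K / 2) ≤ 1 * 2 ^ (K / 2) := by
            apply mul_le_mul_of_nonneg_right _ h8.le; linarith
        _ ≤ 2 ^ k * 1 := by linarith
        _ ≤ 2 ^ k * j := mul_le_mul_of_nonneg_left h6 h7.le
    · push_cast
      have h5 : K / 2 ≤ K - k := by omega
      have h6 : (2 : ℝ) ^ (K / 2) ≤ 144 ^ (K - k) := by
        calc (2 : ℝ) ^ (K / 2) ≤ 2 ^ (K - k) := pow_le_pow_right₀ (by norm_num) h5
          _ ≤ 144 ^ (K - k) := pow_le_pow_left₀ (by norm_num) (by norm_num) _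
      calc e / 7200 * 2 ^ (K / 2) ≤ e / 7200 * t :=
            mul_le_mul_of_nonneg_left (h6.trans ht1) (by positivity)
        _ = 2 ^ k * x := by rw [hx, pow_succ]; field_simp; norm_num
        _ ≤ 2 ^ k * j := mul_le_mul_of_nonneg_left hjx (by positivity)
  have h5 : (5 / 4 : ℝ) ^ K ≤ 5 / 4 * 2 ^ (K / 2) := by
    have h6 : K ≤ 2 * (K / 2) + 1 := by omega
    calc (5 / 4 : ℝ) ^ K ≤ (5 / 4) ^ (2 * (K / 2) + 1) := pow_le_pow_right₀ (by norm_num) h6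
      _ = 5 / 4 * ((5 / 4) ^ 2) ^ (K / 2) := by rw [pow_succ, pow_mul]; ring
      _ ≤ 5 / 4 * 2 ^ (K / 2) := by
        apply mul_le_mul_of_nonneg_left _ (by norm_num)
        exact pow_le_pow_left₀ (by norm_num) (by norm_num) _
  have h6 : 1 / (((2 ^ k * j : ℕ)) : ℝ) ≤ 7200 * (5 / 4) / e / (5 / 4) ^ K := by
    have h7 : (0 : ℝ) < e / 7200 * 2 ^ (K / 2) := by positivity
    calc 1 / (((2 ^ k * j : ℕ)) : ℝ) ≤ 1 / (e / 7200 * 2 ^ (K / 2)) :=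
          one_div_le_one_div_of_le h7 h4
      _ = 7200 * (5 / 4) / e / (5 / 4 * 2 ^ (K / 2)) := by field_simp
      _ ≤ 7200 * (5 / 4) / e / (5 / 4) ^ K := by
        apply div_le_div_of_nonneg_left (by positivity) (by positivity) h5
  have := h2.trans (h3.trans h6)
  linarith

theorem num_sum {e : ℝ} (he : 0 < e) (he1 : e ≤ 1) : ∃ p₀ : ℝ, 0 < p₀ ∧ p₀ ≤ 1 ∧
    ∀ η : ℝ, 0 < η → ∃ K₀ : ℕ, ∀ K ≥ K₀, ∀ m : ℕ, 1 ≤ m → m ≤ 60 →
      ∑ k ∈ Finset.range K,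
          25 * (3 * ((m * 12 ^ (K - k) : ℕ) : ℝ) ^ 2 * (20736 * p₀) ^ (2 ^ k) /
            (⌈e * ((m * 12 ^ (K - k) : ℕ) : ℝ) ^ 2 / (144 * 2 ^ (k + 1)) / 25⌉₊ : ℝ)) ^
            ⌈e * ((m * 12 ^ (K - k) : ℕ) : ℝ) ^ 2 / (144 * 2 ^ (k + 1)) / 25⌉₊
        + 3600 * (20736 * p₀) ^ (2 ^ K) ≤ η := by
  refine ⟨e / 86400 / 20736, by positivity, ?_, ?_⟩
  · rw [div_div, div_le_iff₀ (by norm_num)]; linarith
  intro η hη
  have hz : 20736 * (e / 86400 / 20736) = e / 86400 := by ring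
  rw [hz]
  have hl1 : Filter.Tendsto (fun K : ℕ => (25 * (7200 * (5 / 4) / e)) * ((K : ℝ) ^ 1 / (5 / 4) ^ K)
      + 3600 * (1 / 2) ^ K) Filter.atTop (nhds ((25 * (7200 * (5 / 4) / e)) * 0 + 3600 * 0)) := by
    apply Filter.Tendsto.add
    · exact (tendsto_pow_const_div_const_pow_of_one_lt 1 (by norm_num)).const_mul _
    · exact (tendsto_pow_atTop_nhds_zero_of_lt_one (by norm_num) (by norm_num)).const_mul _
  simp only [mul_zero, add_zero] at hl1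
  obtain ⟨K₀, hK₀⟩ := Filter.eventually_atTop.mp (hl1.eventually (gt_mem_nhds hη))
  refine ⟨K₀, fun K hK m hm _ => ?_⟩
  refine le_trans ?_ (hK₀ K hK).le
  apply add_le_add
  · calc _ ≤ ∑ _k ∈ Finset.range K, 25 * (7200 * (5 / 4) / e / (5 / 4 : ℝ) ^ K) := by
          apply Finset.sum_le_sum
          intro k hk
          exact P5num_term he he1 k K m hm (Finset.mem_range.mp hk)
      _ = _ := by
          rw [Finset.sum_const, Finset.card_range, nsmul_eq_mul]; ring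
  · apply mul_le_mul_of_nonneg_left _ (by norm_num)
    have h1 : K ≤ 2 ^ K := Nat.lt_two_pow_self.le
    calc (e / 86400) ^ (2 ^ K) ≤ (1 / 2 : ℝ) ^ (2 ^ K) := by
          apply pow_le_pow_left₀ (by positivity); linarith
      _ ≤ (1 / 2) ^ K := pow_le_pow_of_le_one (by norm_num) (by norm_num) h1

end EA42
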