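import Pool.Agent.Lib.MP_ea42c6_pr.P1
import Pool.Agent.Lib.MP_ea42c6_pr.P3
import Pool.Agent.Lib.MP_ea42c6_pr.P4
import Pool.Agent.Lib.MP_ea42c6_pr.P5num

/-!
# P5 — percolation of good blocks

`s = m 12^K`, `T_k = (m 12^(K-k))²`, `144^k T_k = s²`, `a_k = e T_k/(144 · 2^(k+1))` (`e` = ε').
If all `Z_k < a_k` (`k < K`) and no top block is bad, `core_exists` gives
`|C| ≥ s² - ∑_k 144^(k+1) a_k ≥ s² - e s² ∑_k 2^-(k+1) ≥ (1-e) s²`.
The failure probability is at most (`bk_prod` with `t = m 12^(K-k)`, `count_tail`, and for the top a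
union over `m² ≤ 3600` blocks with `bk_prod`, `S` a singleton)
`∑_{k<K} 25 (3 T_k q_k/⌈a_k/25⌉)^⌈a_k/25⌉ + 3600 q_K`, `q_k = (20736 p₀)^(2^k)`, which is bounded
in `P5num`.
-/

namespace EA42

open scoped Classical

theorem P5_geom (K : ℕ) : ∑ k ∈ Finset.range K, (1 : ℝ) / 2 ^ (k + 1) = 1 - 1 / 2 ^ K := by
  induction K with
  | zero => simp
  | succ K ih =>
    rw [Finset.sum_range_succ, ih, pow_succ]
    field_simp
    ring

theorem percolation {e : ℝ} (he : 0 < e) (he1 : e ≤ 1) : ∃ p₀ : ℝ, 0 < p₀ ∧ p₀ ≤ 1 ∧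
    ∀ η : ℝ, 0 < η → ∃ K₀ : ℕ, ∀ K ≥ K₀, ∀ m : ℕ, 1 ≤ m → m ≤ 60 →
      ∀ (Ω : Type) [Fintype Ω] (p : Ω → ℝ), IsProb p → ∀ b0 : Ω → ℕ × ℕ → Prop,
        (∀ S : Finset (ℕ × ℕ), S ⊆ grid (m * 12 ^ K) → Sep S →
          pr p {ω | ∀ β ∈ S, b0 ω β} ≤ p₀ ^ S.card) →
        pr p {ω | ¬ ∃ C ⊆ grid (m * 12 ^ K), (∀ x ∈ C, ¬ b0 ω x) ∧ Conn C ∧
          (1 - e) * ((m * 12 ^ K : ℕ) : ℝ) ^ 2 ≤ (C.card : ℝ)} ≤ η := by
  obtain ⟨p₀, hp₀, hp₀1, hnum⟩ := num_sum he he1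
  refine ⟨p₀, hp₀, hp₀1, fun η hη => ?_⟩
  obtain ⟨K₀, hK₀⟩ := hnum η hη
  refine ⟨K₀, fun K hK m hm hm60 Ω _ p hp b0 h => ?_⟩
  set T : ℕ → ℕ := fun k => m * 12 ^ (K - k) with hT
  set a : ℕ → ℝ := fun k => e * ((T k : ℕ) : ℝ) ^ 2 / (144 * 2 ^ (k + 1)) with ha
  have hTpos : ∀ k, 0 < T k := fun k => Nat.mul_pos (by omega) (by positivity)
  have hTk : ∀ k, k ≤ K → m * 12 ^ K = T k * 12 ^ k := by
    intro k hk
    rw [hT]
    simp only
    rw [mul_assoc, ← pow_add, Nat.sub_add_cancel hk]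
  have hapos : ∀ k, 0 < a k := by
    intro k
    have : (0 : ℝ) < (T k : ℕ) := by exact_mod_cast hTpos k
    simp only [ha]
    positivity
  have hincl : {ω | ¬ ∃ C ⊆ grid (m * 12 ^ K), (∀ x ∈ C, ¬ b0 ω x) ∧ Conn C ∧
      (1 - e) * ((m * 12 ^ K : ℕ) : ℝ) ^ 2 ≤ (C.card : ℝ)} ⊆
      {ω | ∃ k ∈ Finset.range K, ω ∈ {ω | a k ≤
        (((grid (T k)).filter (bk (b0 ω) k)).card : ℝ)}} ∪
      {ω | ∃ c ∈ grid m, ω ∈ {ω | bk (b0 ω) K c}} := by
    intro ω hω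
    by_contra hcon
    rw [Set.mem_union, not_or] at hcon
    obtain ⟨h1, h2⟩ := hcon
    apply hω
    have htop : ∀ c ∈ grid m, ¬ bk (b0 ω) K c := fun c hc hb => h2 ⟨c, hc, hb⟩
    have hlev : ∀ k < K, (((grid (T k)).filter (bk (b0 ω) k)).card : ℝ) < a k := by
      intro k hk
      by_contra hle
      exact h1 ⟨k, Finset.mem_range.2 hk, not_lt.1 hle⟩
    obtain ⟨C, hC, hgood, hconn, hcard⟩ := core_exists (b0 ω) K m htop
    refine ⟨C, hC, hgood, hconn, ?_⟩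
    have hcard' : ((m * 12 ^ K : ℕ) : ℝ) ^ 2 ≤ (C.card : ℝ) + ∑ k ∈ Finset.range K,
        (144 : ℝ) ^ (k + 1) * (((grid (T k)).filter (bk (b0 ω) k)).card : ℝ) := by
      exact_mod_cast hcard
    have hterm : ∀ k ∈ Finset.range K,
        (144 : ℝ) ^ (k + 1) * (((grid (T k)).filter (bk (b0 ω) k)).card : ℝ) ≤
          e * ((m * 12 ^ K : ℕ) : ℝ) ^ 2 * (1 / 2 ^ (k + 1)) := by
      intro k hk
      have hk' := Finset.mem_range.1 hk
      have h3 := (hlev k hk').le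
      have h4 : ((m * 12 ^ K : ℕ) : ℝ) ^ 2 = (T k : ℝ) ^ 2 * 144 ^ k := by
        rw [hTk k hk'.le]
        push_cast
        rw [mul_pow, ← pow_mul, mul_comm k 2, pow_mul]
        norm_num
      calc (144 : ℝ) ^ (k + 1) * (((grid (T k)).filter (bk (b0 ω) k)).card : ℝ)
          ≤ 144 ^ (k + 1) * a k := by gcongr
        _ = e * ((T k : ℝ) ^ 2 * 144 ^ k) * (1 / 2 ^ (k + 1)) := by
            simp only [ha]
            field_simp
            ring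
        _ = e * ((m * 12 ^ K : ℕ) : ℝ) ^ 2 * (1 / 2 ^ (k + 1)) := by rw [h4]
    have hsum := Finset.sum_le_sum hterm
    rw [← Finset.mul_sum, P5_geom] at hsum
    have h5 : e * ((m * 12 ^ K : ℕ) : ℝ) ^ 2 * (1 - 1 / 2 ^ K) ≤
        e * ((m * 12 ^ K : ℕ) : ℝ) ^ 2 := by
      have h6 : (0 : ℝ) ≤ 1 / 2 ^ K := by positivity
      have h7 : 0 ≤ e * ((m * 12 ^ K : ℕ) : ℝ) ^ 2 := by positivity
      nlinarith
    linarith
  refine (pr_mono hp hincl).trans ((pr_union_le hp _ _).trans ?_)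
  have hq0 : 0 ≤ 20736 * p₀ := by positivity
  have hA : pr p {ω | ∃ k ∈ Finset.range K, ω ∈ {ω | a k ≤
        (((grid (T k)).filter (bk (b0 ω) k)).card : ℝ)}} ≤
      ∑ k ∈ Finset.range K, 25 * (3 * ((T k : ℕ) : ℝ) ^ 2 * (20736 * p₀) ^ (2 ^ k) /
            (⌈a k / 25⌉₊ : ℝ)) ^ ⌈a k / 25⌉₊ := by
    refine (pr_exists_le hp _ _).trans (Finset.sum_le_sum fun k hk => ?_)
    have hk' := Finset.mem_range.1 hk
    exact count_tail hp (fun ω => bk (b0 ω) k) (T k) (pow_nonneg hq0 _)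
      (fun S hS hsep => bk_prod hp b0 hp₀.le (m * 12 ^ K) h k (T k) (hTk k hk'.le) S hS hsep)
      (hapos k)
  have hB : pr p {ω | ∃ c ∈ grid m, ω ∈ {ω | bk (b0 ω) K c}} ≤
      3600 * (20736 * p₀) ^ (2 ^ K) := by
    refine (pr_exists_le hp _ _).trans ?_
    have h8 : ∀ c ∈ grid m, pr p {ω | bk (b0 ω) K c} ≤ (20736 * p₀) ^ (2 ^ K) := by
      intro c hc
      have := bk_prod hp b0 hp₀.le (m * 12 ^ K) h K m rfl {c}
        (Finset.singleton_subset_iff.2 hc) (by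
          intro x hx y hy hxy
          rw [Finset.mem_singleton] at hx hy
          exact absurd (hx.trans hy.symm) hxy)
      simpa using this
    refine (Finset.sum_le_sum h8).trans ?_
    rw [Finset.sum_const, nsmul_eq_mul]
    have h9 : ((grid m).card : ℝ) ≤ 3600 := by
      have : (grid m).card = m * m := by simp [grid]
      rw [this]
      have h10 : m * m ≤ 60 * 60 := Nat.mul_le_mul hm60 hm60
      have h11 : m * m ≤ 3600 := by omega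
      exact_mod_cast h11
    have h12 : 0 ≤ (20736 * p₀) ^ (2 ^ K) := pow_nonneg hq0 _
    exact mul_le_mul_of_nonneg_right h9 h12
  have := hK₀ K hK m hm hm60
  linarith [add_le_add hA hB]

end EA42
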