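import Pool.Agent.Lib.MP_ea42c6_pr.A0
import Pool.Agent.Lib.MP_ea42c6_pr.A1n
import Pool.Agent.Lib.MP_ea42c6_pr.A0s
import Pool.Agent.Lib.MP_ea42c6_pr.H0
import Pool.Agent.Lib.MP_ea42c6_pr.H1
import Pool.Agent.Lib.MP_ea42c6_pr.H3
import Pool.Agent.Lib.MP_ea42c6_pr.P5

/-!
# A1 — small radius

Given `q`, `ε`: `δ = ε/8`, `θ = min (1/13) (ε/80)`, `e = ε/8`, `p₀` from `percolation e`, `k₀` with
`10^8 ≤ k₀ (p2 q θ)`, `ℓ, μ₀` from `params_block` with `p = p₀`, `b = 4(2 k₀ ℓ + 1)`,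
`s₀ = 4 √μ₀`.  Given `η`: `K₀` from `percolation` (and large enough that `64/ε ≤ s` for
`s = m 12^K`, `K ≥ K₀`), `r₁` from `scale`.
Then for `s₀/√n ≤ r ≤ r₁`: `M`, `μ = n/M² ≥ n r²/16 ≥ s₀²/16 = μ₀`; `block_local` gives `hloc` with
`p₁ = locB ...`; `sep_bound` gives the hypothesis of `percolation` for `BadB` with
`p₁ + 25 b² ... ≤ p₀`.  On the good event `giant_of_core` and `final_num` give the bound.
-/

namespace EA42

open scoped Classical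

theorem small_r {q ε : ℝ} (hq : 0 < q) (hq1 : q ≤ 1) (hε : 0 < ε) (hε1 : ε < 1) :
    ∃ s₀ : ℝ, 0 < s₀ ∧ ∀ η : ℝ, 0 < η → ∃ r₁ : ℝ, 0 < r₁ ∧ ∀ (n : ℕ) (r : ℝ), 0 < n →
      s₀ / Real.sqrt n ≤ r → r ≤ r₁ → ∃ (M : ℕ) (_ : NeZero M),
        pr (totW n M r q)
          {z | ¬ ((1 - ε) * (n : ℝ) ≤ (largest (gr z.2 Finset.univ) : ℝ))} ≤ η := by
  have hδ : 0 < ε / 8 := by positivity
  obtain ⟨p₀, hp₀, hp₀1, hperc⟩ := percolation (e := ε / 8) hδ (by linarith)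
  set θ : ℝ := min (1 / 13) (ε / 80) with hθdef
  have hθ : 0 < θ := lt_min (by norm_num) (by positivity)
  have hθ13 : θ ≤ 1 / 13 := min_le_left _ _
  have hθε : θ ≤ ε / 80 := min_le_right _ _
  have hp2 : 0 < p2 q := p2_pos hq hq1
  obtain ⟨k₀, hk₀⟩ := exists_nat_ge ((10 : ℝ) ^ 8 / (p2 q * θ))
  have hk : (10 : ℝ) ^ 8 ≤ k₀ * (p2 q * θ) := by
    rwa [div_le_iff₀ (by positivity)] at hk₀
  obtain ⟨ℓ, hℓ, μ₀, hμ₀, hpar⟩ := params_block hq hq1 hθ hδ hp₀ k₀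
  obtain ⟨b, hb⟩ : ∃ b : ℕ, b = 4 * (2 * (k₀ * ℓ) + 1) := ⟨_, rfl⟩
  have hb0 : 0 < b := by omega
  have hμpos : 0 < μ₀ := lt_of_lt_of_le (by positivity) hμ₀
  refine ⟨4 * Real.sqrt μ₀, by positivity, fun η hη => ?_⟩
  obtain ⟨K₀, hK₀⟩ := hperc η hη
  obtain ⟨K₁, hK₁⟩ := exists_nat_ge (64 / ε)
  obtain ⟨r₁, hr₁, hsc⟩ := scale b hb0 (max K₀ K₁)
  refine ⟨r₁, hr₁, fun n r hn hr0 hr1 => ?_⟩
  have hn' : (0 : ℝ) < n := by exact_mod_cast hn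
  have hsn : 0 < Real.sqrt n := Real.sqrt_pos.2 hn'
  have hr : 0 < r := lt_of_lt_of_le (by positivity) hr0
  obtain ⟨K, m, M, hK, hm5, hm60, hM, h3, h4⟩ := hsc r hr hr1
  have hM0 : 0 < M := by rw [hM]; positivity
  have : NeZero M := ⟨hM0.ne'⟩
  refine ⟨M, inferInstance, ?_⟩
  have hM0' : (0 : ℝ) < M := by exact_mod_cast hM0
  -- the mean number of points of a cell
  have hμ : μ₀ ≤ (n : ℝ) / (M : ℝ) ^ 2 := by
    have h1 : 4 * Real.sqrt μ₀ ≤ r * Real.sqrt n := by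
      rwa [div_le_iff₀ hsn] at hr0
    have h2 : (4 * Real.sqrt μ₀) ^ 2 ≤ (r * Real.sqrt n) ^ 2 :=
      pow_le_pow_left₀ (by positivity) h1 2
    rw [mul_pow, mul_pow, Real.sq_sqrt hμpos.le, Real.sq_sqrt hn'.le] at h2
    have h5 : r * M ≤ 4 := by rwa [le_div_iff₀ hM0'] at h4
    have h6 : (r * M) ^ 2 ≤ 4 ^ 2 := pow_le_pow_left₀ (by positivity) h5 2
    rw [le_div_iff₀ (by positivity)]
    have h7 : 0 < r ^ 2 := by positivity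
    have h8 : μ₀ * (M : ℝ) ^ 2 * 16 ≤ (n : ℝ) * 16 := by
      calc μ₀ * (M : ℝ) ^ 2 * 16 = (4 ^ 2 * μ₀) * (M : ℝ) ^ 2 := by ring
        _ ≤ (r ^ 2 * n) * (M : ℝ) ^ 2 := by gcongr
        _ = (n : ℝ) * (r * M) ^ 2 := by ring
        _ ≤ (n : ℝ) * 4 ^ 2 := by gcongr
        _ = (n : ℝ) * 16 := by norm_num
    linarith
  have hμ1 : 1000 / θ ≤ (n : ℝ) / (M : ℝ) ^ 2 := hμ₀.trans hμ
  have hμ2 : 2 < (n : ℝ) / (M : ℝ) ^ 2 := by
    have : (1000 : ℝ) ≤ 1000 / θ := by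
      rw [le_div_iff₀ hθ]; nlinarith
    linarith
  have hsep : ∀ S : Finset (ℕ × ℕ), S ⊆ grid (m * 12 ^ K) → Sep S →
      pr (totW n M r q) {z | ∀ β ∈ S, BadB b (ε / 8) θ ((n : ℝ) / (M : ℝ) ^ 2) z.1 z.2 β} ≤
        p₀ ^ S.card := by
    intro S hS hSsep
    refine (sep_bound hM h3 h4 hq.le hq1
      (locB_nonneg hq.le hq1 hθ hμ2 k₀ ℓ (3 * b)) hδ (by linarith)
      (fun d hd β hβ hreg => block_local hM hq hq1 hθ hθ13 hμ1 (by linarith) d hd k₀ ℓ hℓ hk hb β hβ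
        hreg) S hS hSsep).trans ?_
    refine pow_le_pow_left₀ ?_ ?_ _
    · have := locB_nonneg hq.le hq1 hθ hμ2 k₀ ℓ (3 * b)
      positivity
    · have := hpar _ hμ
      rw [← hb] at this
      exact this
  have hfin := hK₀ K ((le_max_left _ _).trans hK) m (by omega) hm60
    (Datum (Fin n) M × (Fin n → Co (Fin n))) (totW n M r q) (isProb_totW n M r hq.le hq1)
    (fun z β => BadB b (ε / 8) θ ((n : ℝ) / (M : ℝ) ^ 2) z.1 z.2 β) hsep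
  refine le_trans (pr_mono (isProb_totW n M r hq.le hq1) ?_) hfin
  intro z hz hC
  apply hz
  obtain ⟨C, hCg, hCgood, hCconn, hCcard⟩ := hC
  have h9 := giant_of_core hM hb0 hθ hθ13 (by linarith) hδ.le (by linarith) z.1 z.2 C hCg hCconn
    hCgood
  refine le_trans ?_ h9
  refine final_num hε hε1 hθ hθε b (m * 12 ^ K) M n hb0 hM ?_ _ hCcard
  refine hK₁.trans ?_
  have h10 : K₁ ≤ m * 12 ^ K := by
    calc K₁ ≤ K := (le_max_right _ _).trans hK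
      _ ≤ 12 ^ K := (Nat.lt_pow_self (by norm_num)).le
      _ ≤ m * 12 ^ K := Nat.le_mul_of_pos_left _ (by omega)
  exact_mod_cast h10

end EA42
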