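import Pool.Agent.Lib.MP_ea42c6_pr.L9a

/-!
# L9 — the local theorem

`pr_two_stage` with `p = wt1 q d.2`, `k = fun u x => wt2 q d.2 u x`:
`pr {¬ GoodLoc} = ∑_x prodW wt1 x * pr_2 {y | ¬ GoodLoc (comb x y)}`.  Split the sum by
`Good1`: the terms with `¬ Good1` total at most `stage1_le` (`card_sq`: `|W| = w²`), and the others
are bounded by `stage2_le` (terms outside the support vanish, `prodW_wt1_supp`).
-/

namespace EA42

open scoped Classical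

theorem local_le_aux {V : Type*} [Fintype V] {M : ℕ} [NeZero M] {q θ μ : ℝ} (h0 : 0 < q)
    (h1 : q ≤ 1) (hθ : 0 < θ) (hθ1 : θ ≤ 1 / 13) (hμ : 1000 / θ ≤ μ) (d : Datum V M)
    (hd : Valid d) (k₀ ℓ : ℕ) (hℓ : 1 ≤ ℓ) (hk : (10 : ℝ) ^ 8 ≤ k₀ * (p2 q * θ))
    (o : Cell M) {w : ℕ} (hw : 0 < w) (hwM : w ≤ M) (R : Finset (Cell M))
    (hWR : ∀ c ∈ sq o w, ∀ c', Near (4 * (2 * (k₀ * ℓ) + 1)) c c' → c' ∈ R)
    (hRc : R.card ≤ 100 * (k₀ * ℓ) * w)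
    (hN : ∀ c ∈ R, μ / 2 ≤ (cnt d.1 c : ℝ) ∧ (cnt d.1 c : ℝ) ≤ 2 * μ) :
    pr (prodW (wt q d.2)) {ω | ¬ GoodLoc d.1 ω (sq o w) R θ} ≤ locB q θ k₀ ℓ w μ := by
  have hp1 : IsProb (prodW (wt1 q d.2)) := isProb_prodW fun u => isProb_wt1 h0.le h1 d.2 u
  have hμ2 : 2 < μ := by
    have : (1000 : ℝ) ≤ 1000 / θ := by
      rw [le_div_iff₀ hθ]; nlinarith
    linarith
  have key : pr (prodW (wt q d.2)) {ω | ¬ GoodLoc d.1 ω (sq o w) R θ} =
      ∑ x : V → Co1 V, prodW (wt1 q d.2) x *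
        pr (prodW fun u => wt2 q d.2 u (x u)) {y | ¬ GoodLoc d.1 (comb x y) (sq o w) R θ} := by
    have := pr_two_stage (fun u => wt1 q d.2 u) (fun u x => wt2 q d.2 u x)
      {ω : V → Co V | ¬ GoodLoc d.1 ω (sq o w) R θ}
    exact this
  rw [key]
  have hle : ∀ x : V → Co1 V, prodW (wt1 q d.2) x *
        pr (prodW fun u => wt2 q d.2 u (x u)) {y | ¬ GoodLoc d.1 (comb x y) (sq o w) R θ} ≤
      (if x ∈ {x : V → Co1 V | ¬ Good1 d.1 x (sq o w) θ k₀ ℓ} then prodW (wt1 q d.2) x else 0) +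
        prodW (wt1 q d.2) x * Real.exp (-(μ * w * p2 q * θ / 324000)) := by
    intro x
    have hx0 : 0 ≤ prodW (wt1 q d.2) x := hp1.1 x
    have hp2 : IsProb (prodW fun u => wt2 q d.2 u (x u)) :=
      isProb_prodW fun u => isProb_wt2 h0.le h1 d.2 u (x u)
    by_cases hg : Good1 d.1 x (sq o w) θ k₀ ℓ
    · rw [if_neg (by simpa using hg), zero_add]
      by_cases hz : prodW (wt1 q d.2) x = 0
      · simp [hz]
      · refine mul_le_mul_of_nonneg_left ?_ hx0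
        exact stage2_le h0 h1 hθ hθ1 hμ d hd k₀ ℓ hℓ hk o hw hwM R hWR hRc hN x
          (prodW_wt1_supp d.2 hd.self x hz) hg
    · rw [if_pos (by simpa using hg)]
      have h2 : prodW (wt1 q d.2) x *
          pr (prodW fun u => wt2 q d.2 u (x u)) {y | ¬ GoodLoc d.1 (comb x y) (sq o w) R θ} ≤
          prodW (wt1 q d.2) x * 1 := mul_le_mul_of_nonneg_left (pr_le_one hp2 _) hx0
      have h3 : 0 ≤ prodW (wt1 q d.2) x * Real.exp (-(μ * w * p2 q * θ / 324000)) :=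
        mul_nonneg hx0 (Real.exp_pos _).le
      linarith
  refine (Finset.sum_le_sum fun x _ => hle x).trans ?_
  rw [Finset.sum_add_distrib, ← Finset.sum_mul, hp1.2, one_mul]
  have hs := stage1_le (θ := θ) (μ := μ) h0.le h1 hθ hμ2 d hd k₀ ℓ (sq o w) R hWR
    fun c hc => (hN c hc).1
  have hs' : ∑ x : V → Co1 V, (if x ∈ {x : V → Co1 V | ¬ Good1 d.1 x (sq o w) θ k₀ ℓ}
      then prodW (wt1 q d.2) x else 0) =
      pr (prodW (wt1 q d.2)) {x | ¬ Good1 d.1 x (sq o w) θ k₀ ℓ} := by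
    unfold pr
    exact Finset.sum_congr rfl fun x _ => by congr
  rw [hs', locB]
  rw [card_sq o hwM] at hs
  push_cast at hs
  linarith

/-- The local theorem, for any decidable equality on `V`. -/
theorem local_le {V : Type*} [Fintype V] [DecidableEq V] {M : ℕ} [NeZero M] {q θ μ : ℝ}
    (h0 : 0 < q) (h1 : q ≤ 1) (hθ : 0 < θ) (hθ1 : θ ≤ 1 / 13) (hμ : 1000 / θ ≤ μ)
    (d : Datum V M) (hd : Valid d) (k₀ ℓ : ℕ) (hℓ : 1 ≤ ℓ)
    (hk : (10 : ℝ) ^ 8 ≤ k₀ * (p2 q * θ))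
    (o : Cell M) {w : ℕ} (hw : 0 < w) (hwM : w ≤ M) (R : Finset (Cell M))
    (hWR : ∀ c ∈ sq o w, ∀ c', Near (4 * (2 * (k₀ * ℓ) + 1)) c c' → c' ∈ R)
    (hRc : R.card ≤ 100 * (k₀ * ℓ) * w)
    (hN : ∀ c ∈ R, μ / 2 ≤ (cnt d.1 c : ℝ) ∧ (cnt d.1 c : ℝ) ≤ 2 * μ) :
    pr (prodW (wt q d.2)) {ω | ¬ GoodLoc d.1 ω (sq o w) R θ} ≤ locB q θ k₀ ℓ w μ := by
  have h := local_le_aux h0 h1 hθ hθ1 hμ d hd k₀ ℓ hℓ hk o hw hwM R hWR hRc hN
  have he : (fun a b => Classical.propDecidable (a = b)) = (inferInstance : DecidableEq V) :=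
    Subsingleton.elim _ _
  rw [he] at h
  exact h

end EA42
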