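import Pool.Agent.Lib.MP_ea42c6_pr.A0
import Pool.Agent.Lib.MP_ea42c6_pr.L9
import Pool.Agent.Lib.MP_ea42c6_pr.G1
import Pool.Agent.Lib.MP_ea42c6_pr.G2
import Pool.Agent.Lib.MP_ea42c6_pr.G3
import Pool.Agent.Lib.MP_ea42c6_pr.T2

/-!
# A2 — radius bounded below

`r₁ ≤ r ≤ 1`, `M = ⌈3/r⌉₊`: `3/M ≤ r`, and `M ≤ 3/r + 1 ≤ 4/r`; `M ≤ M₁ = ⌈3/r₁⌉₊`.
`θ = min (1/13) ε`, `δ = 1/2`, `k₀` with `10^8 ≤ k₀ (p2 q θ)`, `ℓ, μ₀` from `params_torus`;
`n ≥ n₀ = ⌈μ₀ M₁²⌉₊` gives `μ = n/M² ≥ μ₀`.  Take `w = M`, `o = 0`, `R = univ`: `sq 0 M = univ` (`card_sq`),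
`|R| = M² ≤ 100 k₀ ℓ M`.  All cells regular (`δ = 1/2`) except with probability
`≤ M² · 2 exp(-δ²μ/4)` (`chernoff` with singletons, union bound, `datW_pr`).
Given a valid and regular datum, `local_le`.  `GoodLoc` for `W = R = univ` gives a component of
`gr ω univ` (`inR univ = univ`) with at least `(1-θ) n ≥ (1-ε) n` vertices.
-/

namespace EA42

open scoped Classical

theorem A2_irreg (n M : ℕ) [NeZero M] (r : ℝ) {δ : ℝ} (hδ : 0 < δ) (hδ1 : δ ≤ 1) :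
    pr (datW n M r) {d | ¬ Reg d.1 Finset.univ δ ((n : ℝ) / (M : ℝ) ^ 2)} ≤
      (M : ℝ) ^ 2 * (2 * Real.exp (-(δ ^ 2 * ((n : ℝ) / (M : ℝ) ^ 2) / 4))) := by
  have hp := isProb_datW n M r
  have h1 : pr (datW n M r) {d | ¬ Reg d.1 Finset.univ δ ((n : ℝ) / (M : ℝ) ^ 2)} ≤
      pr (datW n M r) {d | ∃ c ∈ (Finset.univ : Finset (Cell M)),
        d ∈ {d : Datum (Fin n) M | d.1 ∈ {f : Fin n → Cell M |
          ∀ c' ∈ ({c} : Finset (Cell M)), δ * ((Fintype.card (Fin n) : ℝ) / (M : ℝ) ^ 2) <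
            |(cnt f c' : ℝ) - (Fintype.card (Fin n) : ℝ) / (M : ℝ) ^ 2|}}} := by
    refine pr_mono hp ?_
    intro d hd
    simp only [Reg, not_forall, not_le, Set.mem_ofPred_eq, exists_prop] at hd
    obtain ⟨c, hc, hlt⟩ := hd
    refine ⟨c, hc, ?_⟩
    intro c' hc'
    rw [Finset.mem_singleton] at hc'
    subst hc'
    simpa [Fintype.card_fin] using hlt
  refine h1.trans ((pr_exists_le hp _ _).trans ?_)
  have h2 : ∀ c ∈ (Finset.univ : Finset (Cell M)), pr (datW n M r)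
      {d : Datum (Fin n) M | d.1 ∈ {f : Fin n → Cell M |
          ∀ c' ∈ ({c} : Finset (Cell M)), δ * ((Fintype.card (Fin n) : ℝ) / (M : ℝ) ^ 2) <
            |(cnt f c' : ℝ) - (Fintype.card (Fin n) : ℝ) / (M : ℝ) ^ 2|}} ≤
      2 * Real.exp (-(δ ^ 2 * ((n : ℝ) / (M : ℝ) ^ 2) / 4)) := by
    intro c _
    rw [datW_pr]
    have := chernoff (V := Fin n) M hδ hδ1 ({c} : Finset (Cell M))
    simpa [Fintype.card_fin] using this
  refine (Finset.sum_le_sum h2).trans ?_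
  rw [Finset.sum_const, nsmul_eq_mul]
  have h3 : (Finset.univ : Finset (Cell M)).card = M ^ 2 := by
    rw [Finset.card_univ, Fintype.card_prod, ZMod.card, pow_two]
  rw [h3]
  push_cast
  exact le_rfl

theorem A2_le_largest {V : Type*} [Fintype V] (G : SimpleGraph V) (x : V)
    (inst : DecidablePred fun v => G.Reachable x v) :
    (@Finset.filter V (fun v => G.Reachable x v) inst Finset.univ).card ≤ largest G := by
  unfold largest
  exact (le_of_eq (by congr)).trans (Finset.le_sup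
    (f := fun v => (Finset.univ.filter fun w => G.Reachable v w).card) (Finset.mem_univ x))

theorem large_r {q ε : ℝ} (hq : 0 < q) (hq1 : q ≤ 1) (hε : 0 < ε) (hε1 : ε < 1) {r₁ : ℝ}
    (hr₁ : 0 < r₁) {η : ℝ} (hη : 0 < η) : ∃ n₀ : ℕ, ∀ n ≥ n₀, ∀ r : ℝ, r₁ ≤ r → r ≤ 1 →
      ∃ (M : ℕ) (_ : NeZero M),
        pr (totW n M r q)
          {z | ¬ ((1 - ε) * (n : ℝ) ≤ (largest (gr z.2 Finset.univ) : ℝ))} ≤ η := by
  set θ : ℝ := min (1 / 13) ε with hθdef
  have hθ : 0 < θ := lt_min (by norm_num) hε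
  have hθ13 : θ ≤ 1 / 13 := min_le_left _ _
  have hθε : θ ≤ ε := min_le_right _ _
  have hp2 : 0 < p2 q := p2_pos hq hq1
  obtain ⟨k₀, hk₀⟩ := exists_nat_ge ((10 : ℝ) ^ 8 / (p2 q * θ))
  have hk : (10 : ℝ) ^ 8 ≤ k₀ * (p2 q * θ) := by
    rwa [div_le_iff₀ (by positivity)] at hk₀
  have hk0 : 0 < k₀ := by
    rcases Nat.eq_zero_or_pos k₀ with h | h
    · rw [h] at hk; norm_num at hk
    · exact h
  obtain ⟨ℓ, hℓ, hM₁, μ₀, hμ₀, hpar⟩ :=
    params_torus (δ := 1 / 2) hq hq1 hθ (by norm_num) hη k₀ hk0 ⌈3 / r₁⌉₊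
  refine ⟨⌈μ₀ * (⌈3 / r₁⌉₊ : ℝ) ^ 2⌉₊, fun n hn r hr hr1 => ?_⟩
  have hr0 : 0 < r := hr₁.trans_le hr
  set M : ℕ := ⌈3 / r⌉₊ with hMdef
  have hMpos : 0 < M := Nat.ceil_pos.2 (by positivity)
  have hM0' : (0 : ℝ) < M := by exact_mod_cast hMpos
  have hMle : M ≤ ⌈3 / r₁⌉₊ := Nat.ceil_mono (by gcongr)
  have hMge : 3 / r ≤ M := Nat.le_ceil _
  have hMlt : (M : ℝ) < 3 / r + 1 := Nat.ceil_lt_add_one (by positivity)
  have : NeZero M := ⟨hMpos.ne'⟩
  refine ⟨M, inferInstance, ?_⟩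
  have h3 : 3 / (M : ℝ) ≤ r := by
    rw [div_le_iff₀ hM0']
    rwa [div_le_iff₀ hr0, mul_comm] at hMge
  have h4 : r ≤ 4 / (M : ℝ) := by
    rw [le_div_iff₀ hM0']
    have : r * M ≤ r * (3 / r + 1) := by gcongr
    have h5 : r * (3 / r + 1) = 3 + r := by field_simp
    linarith
  have hμpos : 0 < μ₀ := lt_of_lt_of_le (by positivity) hμ₀
  have hμ : μ₀ ≤ (n : ℝ) / (M : ℝ) ^ 2 := by
    rw [le_div_iff₀ (by positivity)]
    have h5 : μ₀ * (⌈3 / r₁⌉₊ : ℝ) ^ 2 ≤ (n : ℝ) :=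
      (Nat.le_ceil _).trans (by exact_mod_cast hn)
    have h6 : (M : ℝ) ≤ (⌈3 / r₁⌉₊ : ℝ) := by exact_mod_cast hMle
    calc μ₀ * (M : ℝ) ^ 2 ≤ μ₀ * (⌈3 / r₁⌉₊ : ℝ) ^ 2 := by gcongr
      _ ≤ (n : ℝ) := h5
  have hμ1 : 1000 / θ ≤ (n : ℝ) / (M : ℝ) ^ 2 := hμ₀.trans hμ
  have hμp : 0 < (n : ℝ) / (M : ℝ) ^ 2 := hμpos.trans_le hμ
  have hp := isProb_datW n M r
  have hsq : sq (0 : Cell M) M = Finset.univ := by
    apply Finset.eq_univ_of_card
    rw [card_sq 0 le_rfl, Fintype.card_prod, ZMod.card, pow_two]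
  have hkey : pr (totW n M r q)
      {z | ¬ ((1 - ε) * (n : ℝ) ≤ (largest (gr z.2 Finset.univ) : ℝ))} =
      ∑ d : Datum (Fin n) M, datW n M r d * pr (prodW (wt q d.2))
        {ω | ¬ ((1 - ε) * (n : ℝ) ≤ (largest (gr ω Finset.univ) : ℝ))} :=
    pr_pair (datW n M r) (fun d => prodW (wt q d.2)) _
  rw [hkey]
  have hle : ∀ d : Datum (Fin n) M, datW n M r d * pr (prodW (wt q d.2))
        {ω | ¬ ((1 - ε) * (n : ℝ) ≤ (largest (gr ω Finset.univ) : ℝ))} ≤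
      (if d ∈ {d : Datum (Fin n) M | ¬ Reg d.1 Finset.univ (1 / 2) ((n : ℝ) / (M : ℝ) ^ 2)}
        then datW n M r d else 0) +
        datW n M r d * locB q θ k₀ ℓ M ((n : ℝ) / (M : ℝ) ^ 2) := by
    intro d
    have hd0 : 0 ≤ datW n M r d := hp.1 d
    have hpw : IsProb (prodW (wt q d.2)) := isProb_prodW fun u => isProb_wt hq.le hq1 d.2 u
    have hloc0 : 0 ≤ locB q θ k₀ ℓ M ((n : ℝ) / (M : ℝ) ^ 2) := by
      have : (1000 : ℝ) ≤ 1000 / θ := by
        rw [le_div_iff₀ hθ]; nlinarith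
      exact locB_nonneg hq.le hq1 hθ (by linarith) k₀ ℓ M
    by_cases hreg : Reg d.1 Finset.univ (1 / 2) ((n : ℝ) / (M : ℝ) ^ 2)
    · rw [if_neg (by simpa using hreg), zero_add]
      by_cases hz : datW n M r d = 0
      · simp [hz]
      · refine mul_le_mul_of_nonneg_left ?_ hd0
        have hv : Valid d := datW_valid h3 h4 d hz
        refine le_trans (pr_mono hpw ?_)
          (local_le hq hq1 hθ hθ13 hμ1 d hv k₀ ℓ hℓ hk (0 : Cell M) hMpos le_rfl Finset.univ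
            (fun _ _ _ _ => Finset.mem_univ _) ?_ ?_)
        · intro ω hω hgood
          apply hω
          obtain ⟨x, hx⟩ := hgood
          rw [hsq] at hx
          have hin : inR d.1 (Finset.univ : Finset (Cell M)) = Finset.univ := by
            simp [inR]
          rw [hin] at hx
          have hl' := (Nat.cast_le (α := ℝ)).2 (A2_le_largest (gr ω Finset.univ) x inferInstance)
          refine le_trans ?_ hl'
          refine le_trans ?_ (le_trans hx (le_of_eq ?_))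
          swap
          · congr
          rw [Finset.card_univ, Fintype.card_fin]
          have : (0 : ℝ) ≤ n := Nat.cast_nonneg n
          nlinarith
        · rw [Finset.card_univ, Fintype.card_prod, ZMod.card]
          exact Nat.mul_le_mul_right _ (hMle.trans hM₁)
        · intro c _
          have h7 := hreg c (Finset.mem_univ c)
          rw [abs_le] at h7
          constructor <;> linarith [h7.1, h7.2]
    · rw [if_pos (by simpa using hreg)]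
      have h2 : datW n M r d * pr (prodW (wt q d.2))
          {ω | ¬ ((1 - ε) * (n : ℝ) ≤ (largest (gr ω Finset.univ) : ℝ))} ≤
          datW n M r d * 1 := mul_le_mul_of_nonneg_left (pr_le_one hpw _) hd0
      have h5 : 0 ≤ datW n M r d * locB q θ k₀ ℓ M ((n : ℝ) / (M : ℝ) ^ 2) :=
        mul_nonneg hd0 hloc0
      linarith
  refine (Finset.sum_le_sum fun d _ => hle d).trans ?_
  rw [Finset.sum_add_distrib, ← Finset.sum_mul, hp.2, one_mul]
  have hirr := A2_irreg n M r (δ := 1 / 2) (by norm_num) (by norm_num)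
  have hirr' : ∑ d : Datum (Fin n) M, (if d ∈ {d : Datum (Fin n) M |
      ¬ Reg d.1 Finset.univ (1 / 2) ((n : ℝ) / (M : ℝ) ^ 2)} then datW n M r d else 0) =
      pr (datW n M r) {d | ¬ Reg d.1 Finset.univ (1 / 2) ((n : ℝ) / (M : ℝ) ^ 2)} := by
    unfold pr
    exact Finset.sum_congr rfl fun d _ => by congr
  rw [hirr']
  have := hpar _ hμ M hMpos hMle
  linarith

end EA42
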