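import Pool.Agent.Lib.MP_ea42c6_pr.A1
import Pool.Agent.Lib.MP_ea42c6_pr.A2

/-!
# A3 — the supercritical statement

`q = (ξ.toMeasure {k | 2 ≤ k}).toReal`, `0 < q ≤ 1`.  `s₀` from `small_r`.  Given `η > 0` take `r₁` from
`small_r`, `n₀` from `large_r` for `min r₁ 1`.  For `n` large and `s₀/√n ≤ r n`:
if `r n ≤ r₁`: `law_le` and `small_r`; if `r₁ < r n ≤ 1`: `law_le` and `large_r`.
If `r n > 1`: for `X u ∈ [0,1]²` all distances are `≤ √(1/2) < 1`, so `irr ω (r n) = irr ω 1` for almost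
all `ω`; use the case `r = 1`.
So `probGiant ≥ 1 - η` eventually (`measurableSet_irr`, `prob_compl_eq_one_sub`), and `≤ 1`.
-/

namespace EA42

open MeasureTheory Filter
open scoped Classical ENNReal

theorem A3_ae (ξ : PMF ℕ) (n : ℕ) :
    ∀ᵐ ω ∂(law ξ n), ∀ u, ω.1 u ∈ Set.Icc (0 : ℝ) 1 ×ˢ Set.Icc (0 : ℝ) 1 := by
  have hae : ∀ᵐ X ∂(Measure.pi fun _ : Fin n => unif),
      ∀ u, X u ∈ Set.Icc (0 : ℝ) 1 ×ˢ Set.Icc (0 : ℝ) 1 := by
    rw [ae_all_iff]
    intro u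
    have h1 : ∀ᵐ x ∂unif, x ∈ Set.Icc (0 : ℝ) 1 ×ˢ Set.Icc (0 : ℝ) 1 := by
      unfold unif
      exact ae_restrict_mem (measurableSet_Icc.prod measurableSet_Icc)
    exact (Measure.quasiMeasurePreserving_eval (μ := fun _ : Fin n => unif) u).ae h1
  exact Measure.quasiMeasurePreserving_fst.ae hae

theorem A3_cdist {a b : ℝ} (ha : a ∈ Set.Icc (0 : ℝ) 1) (hb : b ∈ Set.Icc (0 : ℝ) 1) :
    cdist a b ^ 2 ≤ 1 / 4 := by
  have h0 : 0 ≤ cdist a b := cdist_nonneg ha hb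
  have h1 : cdist a b ≤ |a - b| := min_le_left _ _
  have h2 : cdist a b ≤ 1 - |a - b| := min_le_right _ _
  have h3 : cdist a b ≤ 1 / 2 := by linarith
  nlinarith

theorem A3_tdist {x y : Pt} (hx : x ∈ Set.Icc (0 : ℝ) 1 ×ˢ Set.Icc (0 : ℝ) 1)
    (hy : y ∈ Set.Icc (0 : ℝ) 1 ×ˢ Set.Icc (0 : ℝ) 1) : tdist x y < 1 := by
  unfold tdist
  rw [Real.sqrt_lt' one_pos]
  have h1 := A3_cdist hx.1 hy.1
  have h2 := A3_cdist hx.2 hy.2
  norm_num
  linarith

/-- The balls of radius `r > 1` and of radius `1` coincide almost surely. -/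
theorem irr_large (ξ : PMF ℕ) (n : ℕ) {r : ℝ} (hr : 1 < r) (P : SimpleGraph (Fin n) → Prop) :
    law ξ n {ω | P (irr ω r)} = law ξ n {ω | P (irr ω 1)} := by
  refine measure_congr ?_
  filter_upwards [A3_ae ξ n] with ω hω
  have hball : ball ω.1 r = ball ω.1 1 := by
    funext u
    unfold ball
    refine Finset.filter_congr fun v _ => ?_
    have h := A3_tdist (hω u) (hω v)
    constructor
    · intro _; exact h
    · intro _; exact h.trans hr
  have hirr : irr ω r = irr ω 1 := by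
    unfold irr picks
    rw [hball]
  change P (irr ω r) = P (irr ω 1)
  rw [hirr]

theorem A3_largest_mono {V : Type*} [Fintype V] {G H : SimpleGraph V} (h : G ≤ H) :
    largest G ≤ largest H := by
  unfold largest
  refine Finset.sup_mono_fun fun v _ => Finset.card_le_card ?_
  intro w hw
  simp only [Finset.mem_filter, Finset.mem_univ, true_and] at hw ⊢
  exact hw.mono h

theorem supercritical (ξ : PMF ℕ) (hξ : Admissible ξ) (h2 : ∃ k ∈ ξ.support, 2 ≤ k) {ε : ℝ}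
    (hε : 0 < ε) (hε1 : ε < 1) : ∃ s₀ : ℝ, 0 < s₀ ∧ ∀ r : ℕ → ℝ,
      (∀ᶠ n : ℕ in atTop, s₀ / Real.sqrt n ≤ r n) →
      Tendsto (fun n => probGiant ξ n (r n) (1 - ε)) atTop (nhds 1) := by
  obtain ⟨κ, _, hκ⟩ := hξ
  have h1 : ∀ k ∈ ξ.support, 1 ≤ k := fun k hk => (hκ k hk).1
  set q : ℝ := (ξ.toMeasure {k | 2 ≤ k}).toReal with hqdef
  have hfin : ξ.toMeasure {k | 2 ≤ k} ≠ ⊤ := measure_ne_top _ _
  have hq : ξ.toMeasure {k | 2 ≤ k} = ENNReal.ofReal q := (ENNReal.ofReal_toReal hfin).symm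
  have hqpos : 0 < q := by
    refine ENNReal.toReal_pos ?_ hfin
    intro h0
    rw [PMF.toMeasure_apply_eq_zero_iff _ MeasurableSet.of_discrete] at h0
    obtain ⟨k, hk, hk2⟩ := h2
    exact Set.disjoint_left.1 h0 hk hk2
  have hq1 : q ≤ 1 := by
    have : ξ.toMeasure {k | 2 ≤ k} ≤ 1 := prob_le_one
    simpa using ENNReal.toReal_mono ENNReal.one_ne_top this
  obtain ⟨s₀, hs₀, hsmall⟩ := small_r hqpos hq1 hε hε1
  refine ⟨s₀, hs₀, fun r hr => ?_⟩
  -- the key estimate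
  have key : ∀ η : ℝ, 0 < η → ∀ᶠ n : ℕ in atTop,
      1 - ENNReal.ofReal η ≤ probGiant ξ n (r n) (1 - ε) := by
    intro η hη
    obtain ⟨r₁, hr₁, hsm⟩ := hsmall η hη
    obtain ⟨n₀, hn₀⟩ := large_r hqpos hq1 hε hε1 (r₁ := min r₁ 1) (lt_min hr₁ one_pos) hη
    filter_upwards [hr, eventually_ge_atTop n₀, eventually_gt_atTop 0] with n hrn hnn hn0
    have hmono : ∀ G H : SimpleGraph (Fin n), G ≤ H →
        (1 - ε) * (n : ℝ) ≤ (largest G : ℝ) → (1 - ε) * (n : ℝ) ≤ (largest H : ℝ) :=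
      fun G H hGH hG => hG.trans (by exact_mod_cast A3_largest_mono hGH)
    have hbound : ∀ r' : ℝ, s₀ / Real.sqrt n ≤ r' → r' ≤ 1 → 0 < r' →
        law ξ n {ω | ¬ ((1 - ε) * (n : ℝ) ≤ (largest (irr ω r') : ℝ))} ≤ ENNReal.ofReal η := by
      intro r' hr' hr1 hr0
      have hex : ∃ (M : ℕ) (_ : NeZero M), pr (totW n M r' q)
          {z | ¬ ((1 - ε) * (n : ℝ) ≤ (largest (gr z.2 Finset.univ) : ℝ))} ≤ η := by
        by_cases hle : r' ≤ r₁
        · exact hsm n r' hn0 hr' hle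
        · exact hn₀ n hnn r' (le_trans (min_le_left _ _) (not_le.1 hle).le) hr1
      obtain ⟨M, hM, hpr⟩ := hex
      refine (law_le ξ h1 hq hqpos.le hq1 n M hr0
        (fun G => (1 - ε) * (n : ℝ) ≤ (largest G : ℝ)) hmono).trans ?_
      exact ENNReal.ofReal_le_ofReal hpr
    have hrpos : 0 < r n :=
      lt_of_lt_of_le (div_pos hs₀ (Real.sqrt_pos.2 (by exact_mod_cast hn0))) hrn
    have hall : law ξ n {ω | ¬ ((1 - ε) * (n : ℝ) ≤ (largest (irr ω (r n)) : ℝ))} ≤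
        ENNReal.ofReal η := by
      by_cases hr1 : r n ≤ 1
      · exact hbound (r n) hrn hr1 hrpos
      · have hlt : 1 < r n := not_le.1 hr1
        rw [irr_large ξ n hlt (fun G => ¬ ((1 - ε) * (n : ℝ) ≤ (largest G : ℝ)))]
        by_cases hs1 : s₀ / Real.sqrt n ≤ 1
        · exact hbound 1 hs1 le_rfl one_pos
        · -- then `r = 1` is covered by the case of a radius bounded below
          obtain ⟨M, hM, hpr⟩ := hn₀ n hnn 1 (min_le_right _ _) le_rfl
          refine (law_le ξ h1 hq hqpos.le hq1 n M one_pos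
            (fun G => (1 - ε) * (n : ℝ) ≤ (largest G : ℝ)) hmono).trans ?_
          exact ENNReal.ofReal_le_ofReal hpr
    have hcompl : probGiant ξ n (r n) (1 - ε) =
        1 - law ξ n {ω | ¬ ((1 - ε) * (n : ℝ) ≤ (largest (irr ω (r n)) : ℝ))} := by
      unfold probGiant
      rw [← prob_compl_eq_one_sub (measurableSet_irr n (r n)
        (fun G => ¬ ((1 - ε) * (n : ℝ) ≤ (largest G : ℝ))))]
      congr 1
      ext ω
      simp
    rw [hcompl]
    exact tsub_le_tsub_left hall 1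
  refine tendsto_order.2 ⟨fun a ha => ?_, fun a ha => ?_⟩
  · have hatop : a ≠ ⊤ := ne_top_of_lt ha
    have ha' : a.toReal < 1 := by
      have := (ENNReal.toReal_lt_toReal hatop ENNReal.one_ne_top).2 ha
      simpa using this
    have ha0 : 0 ≤ a.toReal := ENNReal.toReal_nonneg
    filter_upwards [key ((1 - a.toReal) / 2) (by linarith)] with n hn
    refine lt_of_lt_of_le ?_ hn
    rw [← ENNReal.ofReal_one, ← ENNReal.ofReal_sub _ (by linarith),
      ← ENNReal.ofReal_toReal hatop, ENNReal.ofReal_lt_ofReal_iff (by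
        rw [ENNReal.toReal_ofReal ha0]; linarith)]
    rw [ENNReal.toReal_ofReal ha0]
    linarith
  · exact Eventually.of_forall fun n => lt_of_le_of_lt prob_le_one ha

end EA42
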