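import Mathlib

/-!
# MP_ea42c6_pr — definitions

Part 1 (the model) is what the hand-in states its theorem with.  Part 2 (finite probability,
cells, the two-stage picks, the exploration, blocks) is used only in the proof.
-/

namespace EA42

open MeasureTheory
open scoped Classical ENNReal

noncomputable section

/-! ## Part 1.  The model -/

/-- Points of the plane; the torus is `[0,1]²`. -/
abbrev Pt := ℝ × ℝ

/-- Distance on the circle `[0,1]`. -/
def cdist (a b : ℝ) : ℝ := min |a - b| (1 - |a - b|)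

/-- Distance on the torus `[0,1]²`. -/
def tdist (x y : Pt) : ℝ := Real.sqrt (cdist x.1 y.1 ^ 2 + cdist x.2 y.2 ^ 2)

/-- The uniform distribution on `[0,1]²`. -/
def unif : Measure Pt := (volume : Measure Pt).restrict (Set.Icc (0 : ℝ) 1 ×ˢ Set.Icc (0 : ℝ) 1)

/-- Every set of permutations is measurable. -/
instance permMS (n : ℕ) : MeasurableSpace (Equiv.Perm (Fin n)) := ⊤

/-- The uniform distribution on permutations of `Fin n`. -/
def permLaw (n : ℕ) : Measure (Equiv.Perm (Fin n)) :=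
  (PMF.uniformOfFintype (Equiv.Perm (Fin n))).toMeasure

/-- The randomness: positions `X_u`, numbers `ξ_u`, and for each `u` a preference order
(a permutation `π_u` of the vertices; `v` is preferred to `w` when `π_u v < π_u w`). -/
abbrev Sample (n : ℕ) := (Fin n → Pt) × (Fin n → ℕ) × (Fin n → Equiv.Perm (Fin n))

/-- All positions are i.i.d. uniform, all `ξ_u` are i.i.d. copies of `ξ`, all preference orders
are i.i.d. uniform permutations, and the three families are independent. -/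
def law (ξ : PMF ℕ) (n : ℕ) : Measure (Sample n) :=
  (Measure.pi fun _ : Fin n => unif).prod
    ((Measure.pi fun _ : Fin n => ξ.toMeasure).prod (Measure.pi fun _ : Fin n => permLaw n))

/-- The vertices whose point lies in the open ball of radius `r` about `X u`. -/
def ball {n : ℕ} (X : Fin n → Pt) (r : ℝ) (u : Fin n) : Finset (Fin n) :=
  Finset.univ.filter fun v => tdist (X u) (X v) < r

/-- The number of members of `B` preferred to `v` in the order `π`. -/
def rk {n : ℕ} (B : Finset (Fin n)) (π : Equiv.Perm (Fin n)) (v : Fin n) : ℕ :=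
  (B.filter fun w => π w < π v).card

/-- The vertices picked by `u`: the `min (ξ_u) (ρ(X_u))` most preferred members of its ball. -/
def picks {n : ℕ} (ω : Sample n) (r : ℝ) (u : Fin n) : Finset (Fin n) :=
  (ball ω.1 r u).filter fun v => rk (ball ω.1 r u) (ω.2.2 u) v < ω.2.1 u

/-- The random irrigation graph. -/
def irr {n : ℕ} (ω : Sample n) (r : ℝ) : SimpleGraph (Fin n) :=
  SimpleGraph.fromRel fun u v => v ∈ picks ω r u

/-- The number of vertices of a largest connected component. -/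
def largest {V : Type*} [Fintype V] (G : SimpleGraph V) : ℕ :=
  Finset.univ.sup fun v => (Finset.univ.filter fun w => G.Reachable v w).card

/-- The probability that the largest component of the irrigation graph has at least `c n`
vertices. -/
def probGiant (ξ : PMF ℕ) (n : ℕ) (r c : ℝ) : ℝ≥0∞ :=
  law ξ n {ω | c * n ≤ (largest (irr ω r) : ℝ)}

/-- A giant exists whp for the sequence `r` and `ξ`. -/
def GiantWhp (ξ : PMF ℕ) (r : ℕ → ℝ) : Prop :=
  ∃ c : ℝ, 0 < c ∧ Filter.Tendsto (fun n => probGiant ξ n (r n) c) Filter.atTop (nhds 1)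

/-- `ξ` is admissible: positive, and bounded by a constant. -/
def Admissible (ξ : PMF ℕ) : Prop := ∃ κ : ℕ, 1 < κ ∧ ∀ k ∈ ξ.support, 1 ≤ k ∧ k ≤ κ

/-! ## Part 2.  Finite probability -/

/-- A probability weight on a finite type. -/
def IsProb {Ω : Type*} [Fintype Ω] (p : Ω → ℝ) : Prop := (∀ ω, 0 ≤ p ω) ∧ ∑ ω, p ω = 1

/-- The weight of a set. -/
def pr {Ω : Type*} [Fintype Ω] (p : Ω → ℝ) (E : Set Ω) : ℝ := ∑ ω, if ω ∈ E then p ω else 0

/-- Product weight (independent coordinates). -/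
def prodW {ι α : Type*} [Fintype ι] (w : ι → α → ℝ) (ω : ι → α) : ℝ := ∏ i, w i (ω i)

/-- `E` depends only on the coordinates in `S`. -/
def DepOn {ι α : Type*} (S : Set ι) (E : Set (ι → α)) : Prop :=
  ∀ ω ω' : ι → α, (∀ i ∈ S, ω i = ω' i) → (ω ∈ E ↔ ω' ∈ E)

/-- Bernoulli weight. -/
def bern (p : ℝ) (b : Bool) : ℝ := if b then p else 1 - p

/-! ## The picks, in two stages

A coordinate is `((a, c₁, σ₁), (c₂, σ₂))`: first pick `a`, second pick `c₁` if `σ₁`, and `c₂` if
`¬ σ₁` and `σ₂`.  Given the ball `B` of `u`, `(a, c₁)` is a uniform ordered pair of distinct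
members, `c₂` is uniform in `B \ {a}`, `σ₁` has bias `q/20`, `σ₂` has bias `p2 q`, so that
`P(σ₁ ∨ σ₂) = q`. -/

/-- First stage of a coordinate: `(a, c₁, σ₁)`. -/
abbrev Co1 (V : Type*) := V × V × Bool

/-- Second stage of a coordinate: `(c₂, σ₂)`. -/
abbrev Co2 (V : Type*) := V × Bool

/-- A coordinate. -/
abbrev Co (V : Type*) := Co1 V × Co2 V

/-- The bias of `σ₂`. -/
def p2 (q : ℝ) : ℝ := (19 / 20 * q) / (1 - q / 20)

/-- Uniform ordered pair of distinct members of `B` (if `B` has one: the pair `(u,u)` otherwise). -/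
def pairW {V : Type*} (B : Finset V) (u : V) (z : V × V) : ℝ :=
  if 2 ≤ B.card then
    (if z.1 ∈ B ∧ z.2 ∈ B ∧ z.1 ≠ z.2 then 1 / ((B.card : ℝ) * ((B.card : ℝ) - 1)) else 0)
  else (if z = (u, u) then 1 else 0)

/-- Uniform member of `B \ {a}` (if `a ∈ B` and `2 ≤ |B|`; the point `u` otherwise). -/
def condW {V : Type*} (B : Finset V) (u : V) (a c : V) : ℝ :=
  if 2 ≤ B.card ∧ a ∈ B then
    (if c ∈ B ∧ c ≠ a then 1 / ((B.card : ℝ) - 1) else 0)
  else (if c = u then 1 else 0)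

/-- Weight of the first stage at `u`. -/
def wt1 {V : Type*} (q : ℝ) (B : V → Finset V) (u : V) (x : Co1 V) : ℝ :=
  pairW (B u) u (x.1, x.2.1) * bern (q / 20) x.2.2

/-- Weight of the second stage at `u`, given the first stage. -/
def wt2 {V : Type*} (q : ℝ) (B : V → Finset V) (u : V) (x : Co1 V) (y : Co2 V) : ℝ :=
  condW (B u) u x.1 y.1 * bern (p2 q) y.2

/-- Weight of a coordinate at `u`. -/
def wt {V : Type*} (q : ℝ) (B : V → Finset V) (u : V) (z : Co V) : ℝ :=
  wt1 q B u z.1 * wt2 q B u z.1 z.2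

/-- The graph made by the first stage of the vertices in `U`. -/
def gr1 {V : Type*} (x : V → Co1 V) (U : Finset V) : SimpleGraph V :=
  SimpleGraph.fromRel fun u v =>
    u ∈ U ∧ (v = (x u).1 ∨ ((x u).2.2 = true ∧ v = (x u).2.1))

/-- The graph made by both stages of the vertices in `U`. -/
def gr {V : Type*} (ω : V → Co V) (U : Finset V) : SimpleGraph V :=
  SimpleGraph.fromRel fun u v =>
    u ∈ U ∧ (v = (ω u).1.1 ∨ ((ω u).1.2.2 = true ∧ v = (ω u).1.2.1) ∨
      ((ω u).1.2.2 = false ∧ (ω u).2.2 = true ∧ v = (ω u).2.1))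

/-- Combine the two stages. -/
def comb {V : Type*} (x : V → Co1 V) (y : V → Co2 V) : V → Co V := fun u => (x u, y u)

/-! ## Cells -/

/-- Cells of the `M × M` grid on the torus. -/
abbrev Cell (M : ℕ) := ZMod M × ZMod M

/-- The cell of a point. -/
def cell (M : ℕ) (x : Pt) : Cell M := ((⌊x.1 * M⌋ : ℤ), (⌊x.2 * M⌋ : ℤ))

/-- The two cells are at sup-distance at most `t`. -/
def Near {M : ℕ} (t : ℕ) (c c' : Cell M) : Prop :=
  ∃ i j : ℤ, |i| ≤ t ∧ |j| ≤ t ∧ c' = c + ((i : ZMod M), (j : ZMod M))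

/-- The two cells are equal or share a side. -/
def Touch {M : ℕ} (c c' : Cell M) : Prop :=
  c' = c ∨ c' = c + (1, 0) ∨ c' = c + (0, 1) ∨ c = c' + (1, 0) ∨ c = c' + (0, 1)

/-- The square of `w × w` cells with lower left corner `o`. -/
def sq {M : ℕ} (o : Cell M) (w : ℕ) : Finset (Cell M) :=
  Finset.univ.image fun ij : Fin w × Fin w =>
    o + (((ij.1 : ℕ) : ZMod M), ((ij.2 : ℕ) : ZMod M))

/-- The data of a configuration of points: the cell and the ball of every vertex. -/
abbrev Datum (V : Type*) (M : ℕ) := (V → Cell M) × (V → Finset V)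

/-- What the geometry gives when `3/M ≤ r ≤ 4/M`. -/
structure Valid {V : Type*} {M : ℕ} (d : Datum V M) : Prop where
  self : ∀ u, u ∈ d.2 u
  touch : ∀ u v, Touch (d.1 u) (d.1 v) → v ∈ d.2 u
  near : ∀ u v, v ∈ d.2 u → Near 4 (d.1 u) (d.1 v)

/-- The vertices in the region `R`. -/
def inR {V : Type*} [Fintype V] {M : ℕ} (cl : V → Cell M) (R : Finset (Cell M)) : Finset V :=
  Finset.univ.filter fun v => cl v ∈ R

/-- The number of vertices in the cell `c`. -/
def cnt {V : Type*} [Fintype V] {M : ℕ} (cl : V → Cell M) (c : Cell M) : ℕ :=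
  (Finset.univ.filter fun v => cl v = c).card

/-- Every cell of `R` has between `(1-δ)μ` and `(1+δ)μ` vertices. -/
def Reg {V : Type*} [Fintype V] {M : ℕ} (cl : V → Cell M) (R : Finset (Cell M)) (δ μ : ℝ) :
    Prop :=
  ∀ c ∈ R, |(cnt cl c : ℝ) - μ| ≤ δ * μ

/-- Local success: one component of the graph made in `R` has at least the fraction `1-θ` of the
vertices in `W`. -/
def GoodLoc {V : Type*} [Fintype V] {M : ℕ} (cl : V → Cell M) (ω : V → Co V)
    (W R : Finset (Cell M)) (θ : ℝ) : Prop :=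
  ∃ x : V, (1 - θ) * ((inR cl W).card : ℝ) ≤
    (((inR cl W).filter fun v => (gr ω (inR cl R)).Reachable x v).card : ℝ)

/-- The datum of a point configuration. -/
def datum {n : ℕ} (M : ℕ) (r : ℝ) (X : Fin n → Pt) : Datum (Fin n) M :=
  (fun u => cell M (X u), fun u => ball X r u)

/-- The probability of a datum. -/
def datW (n M : ℕ) (r : ℝ) (d : Datum (Fin n) M) : ℝ :=
  ((Measure.pi fun _ : Fin n => unif) {X | datum M r X = d}).toReal

/-- The joint weight of datum and coordinates. -/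
def totW (n M : ℕ) (r q : ℝ) (z : Datum (Fin n) M × (Fin n → Co (Fin n))) : ℝ :=
  datW n M r z.1 * prodW (wt q z.1.2) z.2

/-! ## The exploration -/

/-- The first-pick orbit. -/
def spine {V : Type*} (x : V → Co1 V) (v : V) (i : ℕ) : V := (fun u => (x u).1)^[i] v

/-- The first-pick orbit started at the second pick of the `i`-th vertex of the spine. -/
def sec {V : Type*} (x : V → Co1 V) (v : V) (i j : ℕ) : V :=
  (fun u => (x u).1)^[j] ((x (spine x v i)).2.1)

/-- The explored vertices, indexed by addresses. -/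
def addr {V : Type*} (x : V → Co1 V) (v : V) (L : ℕ) :
    Fin (L + 1) ⊕ (Fin (L + 1) × Fin (L + 1)) → V
  | Sum.inl i => spine x v i
  | Sum.inr ij => sec x v ij.1 ij.2

/-- No collision. -/
def NoColl {V : Type*} (x : V → Co1 V) (v : V) (L : ℕ) : Prop :=
  Function.Injective (addr x v L)

/-- Each of the `k₀` segments of length `ℓ` of the spine has a vertex with `σ₁`. -/
def SegOK {V : Type*} (x : V → Co1 V) (v : V) (k₀ ℓ : ℕ) : Prop :=
  ∀ t < k₀, ∃ i, t * ℓ ≤ i ∧ i < (t + 1) * ℓ ∧ (x (spine x v i)).2.2 = true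

/-- The vertex `v` is lost. -/
def Lost {V : Type*} (x : V → Co1 V) (v : V) (k₀ ℓ : ℕ) : Prop :=
  ¬ (NoColl x v (k₀ * ℓ) ∧ SegOK x v k₀ ℓ)

/-- Vertices reached in exactly `d` steps inside balls. -/
def reach {V : Type*} (B : V → Finset V) : ℕ → V → Finset V
  | 0, v => {v}
  | d + 1, v => (reach B d v).biUnion B

/-! ## Blocks and the hierarchy -/

/-- Sup-distance at least 5. -/
def Far (c c' : ℕ × ℕ) : Prop :=
  c.1 + 5 ≤ c'.1 ∨ c'.1 + 5 ≤ c.1 ∨ c.2 + 5 ≤ c'.2 ∨ c'.2 + 5 ≤ c.2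

/-- Pairwise at sup-distance at least 5. -/
def Sep (S : Finset (ℕ × ℕ)) : Prop := ∀ c ∈ S, ∀ c' ∈ S, c ≠ c' → Far c c'

/-- Sharing a side. -/
def Adj4 (c c' : ℕ × ℕ) : Prop :=
  (c.1 = c'.1 ∧ (c.2 + 1 = c'.2 ∨ c'.2 + 1 = c.2)) ∨
    (c.2 = c'.2 ∧ (c.1 + 1 = c'.1 ∨ c'.1 + 1 = c.1))

/-- `C` is connected by steps between blocks that share a side. -/
def Conn (C : Finset (ℕ × ℕ)) : Prop :=
  ∀ x ∈ C, ∀ y ∈ C, Relation.ReflTransGen (fun a b => a ∈ C ∧ b ∈ C ∧ Adj4 a b) x y

/-- The `s × s` grid of blocks. -/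
def grid (s : ℕ) : Finset (ℕ × ℕ) := Finset.range s ×ˢ Finset.range s

/-- The parent of a block. -/
def par (c : ℕ × ℕ) : ℕ × ℕ := (c.1 / 12, c.2 / 12)

/-- Bad blocks of level `k`: a block of level `k+1` is bad if it has two bad children at
sup-distance at least 5. -/
def bk (b0 : ℕ × ℕ → Prop) : ℕ → ℕ × ℕ → Prop
  | 0, c => b0 c
  | k + 1, c => ∃ c1 c2, par c1 = c ∧ par c2 = c ∧ bk b0 k c1 ∧ bk b0 k c2 ∧ Far c1 c2

/-- The lower left cell of the block `β`, shifted by `t` blocks (`b` = side of a block). -/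
def corner (M b t : ℕ) (β : ℕ × ℕ) : Cell M :=
  (((b * (β.1 + t) : ℕ) : ZMod M), ((b * (β.2 + t) : ℕ) : ZMod M))

/-- The block `β` itself: `b × b` cells. -/
def blk (M b : ℕ) (β : ℕ × ℕ) : Finset (Cell M) := sq (corner M b 2 β) b

/-- The `3 × 3` blocks about `β`. -/
def blkW (M b : ℕ) (β : ℕ × ℕ) : Finset (Cell M) := sq (corner M b 1 β) (3 * b)

/-- The `5 × 5` blocks about `β`. -/
def blkR (M b : ℕ) (β : ℕ × ℕ) : Finset (Cell M) := sq (corner M b 0 β) (5 * b)

/-- The block `β` is bad. -/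
def BadB {V : Type*} [Fintype V] {M : ℕ} (b : ℕ) (δ θ μ : ℝ) (d : Datum V M) (ω : V → Co V)
    (β : ℕ × ℕ) : Prop :=
  ¬ Reg d.1 (blkR M b β) δ μ ∨ ¬ GoodLoc d.1 ω (blkW M b β) (blkR M b β) θ

/-- The bound of the local theorem. -/
def locB (q θ : ℝ) (k₀ ℓ w : ℕ) (μ : ℝ) : ℝ :=
  (w : ℝ) ^ 2 * ((((k₀ * ℓ + 1 : ℝ) * (k₀ * ℓ + 2)) ^ 2 / (μ / 2 - 1)
      + k₀ * (1 - q / 20) ^ ℓ) / (θ / 2) + 40 / μ)
    + Real.exp (-(μ * w * p2 q * θ / 324000))

end

end EA42
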