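import Pool.Agent.Lib.MP_ea42c6_pr.Defs

/-!
# FP1 — rules of finite probability

All statements are finite sums.  `pr p E = ∑ ω, if ω ∈ E then p ω else 0`.
Hints: `Finset.sum_ite`, `Finset.sum_le_sum`, `Fintype.prod_sum` /
`Finset.prod_univ_sum` (`∏ i, ∑ a, w i a = ∑ ω, ∏ i, w i (ω i)`), `Fintype.sum_prod_type`.
For `pr_resample`: sum over `ω : ι → α`; the map `(ω, z) ↦ update ω u z`; or use
`Equiv.funSplitAt u α : (ι → α) ≃ α × ({j // j ≠ u} → α)` on both sides.
-/

namespace EA42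

open scoped Classical

variable {Ω ι α κ : Type*} [Fintype Ω] [Fintype ι] [DecidableEq ι] [Fintype α]

theorem pr_nonneg {p : Ω → ℝ} (hp : IsProb p) (E : Set Ω) : 0 ≤ pr p E := by
  unfold pr
  refine Finset.sum_nonneg fun ω _ => ?_
  split_ifs
  · exact hp.1 ω
  · exact le_rfl

theorem pr_mono {p : Ω → ℝ} (hp : IsProb p) {E F : Set Ω} (h : E ⊆ F) : pr p E ≤ pr p F := by
  unfold pr
  refine Finset.sum_le_sum fun ω _ => ?_
  by_cases h1 : ω ∈ E
  · rw [if_pos h1, if_pos (h h1)]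
  · rw [if_neg h1]
    split_ifs
    · exact hp.1 ω
    · exact le_rfl

/-- Monotonicity on the support. -/
theorem pr_mono_supp {p : Ω → ℝ} (hp : IsProb p) {E F : Set Ω}
    (h : ∀ ω, p ω ≠ 0 → ω ∈ E → ω ∈ F) : pr p E ≤ pr p F := by
  unfold pr
  refine Finset.sum_le_sum fun ω _ => ?_
  by_cases h0 : p ω = 0
  · rw [h0]; simp
  · by_cases h1 : ω ∈ E
    · rw [if_pos h1, if_pos (h ω h0 h1)]
    · rw [if_neg h1]
      split_ifs
      · exact hp.1 ω
      · exact le_rfl

theorem pr_univ {p : Ω → ℝ} (hp : IsProb p) : pr p Set.univ = 1 := by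
  unfold pr
  rw [← hp.2]
  exact Finset.sum_congr rfl fun ω _ => if_pos (Set.mem_univ ω)

theorem pr_le_one {p : Ω → ℝ} (hp : IsProb p) (E : Set Ω) : pr p E ≤ 1 := by
  rw [← pr_univ hp]
  exact pr_mono hp (Set.subset_univ E)

theorem pr_compl {p : Ω → ℝ} (hp : IsProb p) (E : Set Ω) : pr p Eᶜ = 1 - pr p E := by
  rw [eq_sub_iff_add_eq, ← hp.2]
  unfold pr
  rw [← Finset.sum_add_distrib]
  refine Finset.sum_congr rfl fun ω _ => ?_
  by_cases h : ω ∈ E
  · have h' : ω ∉ Eᶜ := fun hc => hc h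
    rw [if_neg h', if_pos h, zero_add]
  · have h' : ω ∈ Eᶜ := h
    rw [if_pos h', if_neg h, add_zero]

theorem pr_union_le {p : Ω → ℝ} (hp : IsProb p) (E F : Set Ω) :
    pr p (E ∪ F) ≤ pr p E + pr p F := by
  unfold pr
  rw [← Finset.sum_add_distrib]
  refine Finset.sum_le_sum fun ω _ => ?_
  have h0 := hp.1 ω
  by_cases h1 : ω ∈ E <;> by_cases h2 : ω ∈ F <;> simp [h1, h2, h0]

/-- Union bound. -/
theorem pr_exists_le {p : Ω → ℝ} (hp : IsProb p) (s : Finset κ) (E : κ → Set Ω) :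
    pr p {ω | ∃ k ∈ s, ω ∈ E k} ≤ ∑ k ∈ s, pr p (E k) := by
  unfold pr
  rw [Finset.sum_comm]
  refine Finset.sum_le_sum fun ω _ => ?_
  by_cases h : ω ∈ {ω | ∃ k ∈ s, ω ∈ E k}
  · rw [if_pos h]
    obtain ⟨k, hk, hω⟩ := h
    have h2 := Finset.single_le_sum (f := fun k => if ω ∈ E k then p ω else 0) (fun j _ => (by
      show (0 : ℝ) ≤ if ω ∈ E j then p ω else 0
      split_ifs
      · exact hp.1 ω
      · exact le_rfl)) hk
    rw [if_pos hω] at h2
    exact h2
  · rw [if_neg h]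
    refine Finset.sum_nonneg fun j _ => ?_
    split_ifs
    · exact hp.1 ω
    · exact le_rfl

/-- Markov's inequality for a count. -/
theorem pr_markov {p : Ω → ℝ} (hp : IsProb p) (s : Finset κ) (E : κ → Set Ω) (t : ℝ)
    (ht : 0 < t) :
    pr p {ω | t ≤ ((s.filter fun k => ω ∈ E k).card : ℝ)} ≤ (∑ k ∈ s, pr p (E k)) / t := by
  rw [le_div_iff₀ ht]
  unfold pr
  rw [Finset.sum_comm, Finset.sum_mul]
  refine Finset.sum_le_sum fun ω _ => ?_
  have h1 : ∑ k ∈ s, (if ω ∈ E k then p ω else 0)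
      = ((s.filter fun k => ω ∈ E k).card : ℝ) * p ω := by
    rw [← Finset.sum_filter, Finset.sum_const, nsmul_eq_mul]
  rw [h1]
  by_cases h : ω ∈ {ω | t ≤ ((s.filter fun k => ω ∈ E k).card : ℝ)}
  · rw [if_pos h, mul_comm]
    exact mul_le_mul_of_nonneg_right h (hp.1 ω)
  · rw [if_neg h, zero_mul]
    exact mul_nonneg (Nat.cast_nonneg _) (hp.1 ω)

/-- A pair made in two steps. -/
theorem pr_pair {Ω' : Type*} [Fintype Ω'] (p : Ω → ℝ) (k : Ω → Ω' → ℝ) (E : Set (Ω × Ω')) :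
    pr (fun z : Ω × Ω' => p z.1 * k z.1 z.2) E = ∑ ω, p ω * pr (k ω) {ω' | (ω, ω') ∈ E} := by
  unfold pr
  rw [Fintype.sum_prod_type]
  refine Finset.sum_congr rfl fun ω _ => ?_
  rw [Finset.mul_sum]
  refine Finset.sum_congr rfl fun ω' _ => ?_
  simp only [Set.mem_ofPred_eq, mul_ite, mul_zero]

theorem isProb_pair {Ω' : Type*} [Fintype Ω'] {p : Ω → ℝ} {k : Ω → Ω' → ℝ} (hp : IsProb p)
    (hk : ∀ ω, IsProb (k ω)) : IsProb (fun z : Ω × Ω' => p z.1 * k z.1 z.2) := by
  refine ⟨fun z => mul_nonneg (hp.1 _) ((hk _).1 _), ?_⟩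
  rw [Fintype.sum_prod_type, ← hp.2]
  refine Finset.sum_congr rfl fun ω _ => ?_
  show ∑ y, p ω * k ω y = p ω
  rw [← Finset.mul_sum, (hk ω).2, mul_one]

/-- Push-forward. -/
theorem pr_map {Ω' : Type*} [Fintype Ω'] (p : Ω → ℝ) (f : Ω → Ω') (E : Set Ω') :
    pr (fun y => pr p {ω | f ω = y}) E = pr p {ω | f ω ∈ E} := by
  unfold pr
  have h1 : ∀ y : Ω', (if y ∈ E then ∑ ω, (if ω ∈ {ω | f ω = y} then p ω else 0) else 0)
      = ∑ ω, (if y ∈ E then (if f ω = y then p ω else 0) else 0) := by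
    intro y
    by_cases hy : y ∈ E
    · simp only [if_pos hy, Set.mem_ofPred_eq]
    · simp only [if_neg hy, Finset.sum_const_zero]
  rw [Finset.sum_congr rfl fun y _ => h1 y, Finset.sum_comm]
  refine Finset.sum_congr rfl fun ω _ => ?_
  rw [Finset.sum_eq_single (f ω)]
  · simp only [Set.mem_ofPred_eq, if_true]
  · intro y _ hy
    have : f ω ≠ y := fun h => hy h.symm
    simp only [this, if_false, ite_self]
  · intro h
    exact absurd (Finset.mem_univ _) h

theorem isProb_prodW {w : ι → α → ℝ} (hw : ∀ i, IsProb (w i)) : IsProb (prodW w) := by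
  refine ⟨fun ω => Finset.prod_nonneg fun i _ => (hw i).1 _, ?_⟩
  unfold prodW
  have h := Finset.prod_univ_sum (fun _ : ι => (Finset.univ : Finset α)) (fun i a => w i a)
  rw [Fintype.piFinset_univ] at h
  rw [← h]
  exact Finset.prod_eq_one fun i _ => (hw i).2

theorem isProb_bern {p : ℝ} (h0 : 0 ≤ p) (h1 : p ≤ 1) : IsProb (bern p) := by
  refine ⟨fun b => ?_, ?_⟩
  · cases b
    · show (0 : ℝ) ≤ 1 - p
      linarith
    · exact h0
  · rw [Fintype.sum_bool]
    show p + (1 - p) = 1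
    ring

/-- Independent coordinates: probability of a rectangle. -/
theorem pr_rect {w : ι → α → ℝ} (hw : ∀ i, IsProb (w i)) (S : Finset ι) (A : ι → Set α) :
    pr (prodW w) {ω | ∀ i ∈ S, ω i ∈ A i} = ∏ i ∈ S, pr (w i) (A i) := by
  have h1 : ∀ ω : ι → α, (@ite ℝ (ω ∈ {ω : ι → α | ∀ i ∈ S, ω i ∈ A i})
      (Classical.propDecidable _) (prodW w ω) 0)
      = ∏ i, (if (i ∈ S → ω i ∈ A i) then w i (ω i) else 0) := by
    intro ω
    by_cases h : ∀ i ∈ S, ω i ∈ A i
    · rw [if_pos (show ω ∈ {ω : ι → α | ∀ i ∈ S, ω i ∈ A i} from h)]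
      unfold prodW
      exact Finset.prod_congr rfl fun i _ => (if_pos (h i)).symm
    · rw [if_neg (show ω ∉ {ω : ι → α | ∀ i ∈ S, ω i ∈ A i} from h)]
      push Not at h
      obtain ⟨i, hi, hi'⟩ := h
      symm
      refine Finset.prod_eq_zero (Finset.mem_univ i) (if_neg ?_)
      intro hc
      exact hi' (hc hi)
  have h2 := Finset.prod_univ_sum (fun _ : ι => (Finset.univ : Finset α))
    (fun i a => if (i ∈ S → a ∈ A i) then w i a else 0)
  rw [Fintype.piFinset_univ] at h2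
  unfold pr
  rw [Finset.sum_congr rfl fun ω _ => h1 ω, ← h2]
  have h3 : ∀ i, (∑ a, if (i ∈ S → a ∈ A i) then w i a else 0)
      = if i ∈ S then (∑ a, if a ∈ A i then w i a else 0) else 1 := by
    intro i
    by_cases hi : i ∈ S
    · simp only [hi, true_imp_iff, if_true]
    · simp only [hi, false_imp_iff, if_true, if_false, (hw i).2]
  rw [Finset.prod_congr rfl fun i _ => h3 i, Finset.prod_ite_mem, Finset.univ_inter]

omit [Fintype α] in
theorem fp1_prodW_split (w : ι → α → ℝ) (u : ι) (x : α) (g : {j // j ≠ u} → α) :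
    prodW w ((Equiv.funSplitAt u α).symm (x, g)) = w u x * ∏ j : {j // j ≠ u}, w j (g j) := by
  unfold prodW
  rw [Fintype.prod_eq_mul_prod_subtype_ne _ u]
  congr 1
  · simp [Equiv.funSplitAt]
  · refine Finset.prod_congr rfl fun j _ => ?_
    have hj : (j : ι) ≠ u := j.2
    simp [Equiv.funSplitAt, hj]

/-- Resampling one coordinate. -/
theorem pr_resample {w : ι → α → ℝ} (hw : ∀ i, IsProb (w i)) (u : ι) (E : Set (ι → α)) :
    pr (prodW w) E = ∑ ω, prodW w ω * pr (w u) {z | Function.update ω u z ∈ E} := by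
  unfold pr
  rw [← Equiv.sum_comp (Equiv.funSplitAt u α).symm, ← Equiv.sum_comp (Equiv.funSplitAt u α).symm]
  rw [Fintype.sum_prod_type, Fintype.sum_prod_type, Finset.sum_comm]
  conv_rhs => rw [Finset.sum_comm]
  refine Finset.sum_congr rfl fun g _ => ?_
  have h1 : ∀ x z : α, Function.update ((Equiv.funSplitAt u α).symm (x, g)) u z
      = (Equiv.funSplitAt u α).symm (z, g) := by
    intro x z
    funext j
    by_cases hj : j = u
    · subst hj
      simp [Equiv.funSplitAt]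
    · simp [Equiv.funSplitAt, hj]
  have h2 : ∀ x : α, prodW w ((Equiv.funSplitAt u α).symm (x, g)) *
      (∑ z, if z ∈ {z | Function.update ((Equiv.funSplitAt u α).symm (x, g)) u z ∈ E}
        then w u z else 0)
      = w u x * ((∏ j : {j // j ≠ u}, w j (g j)) *
        (∑ z, if (Equiv.funSplitAt u α).symm (z, g) ∈ E then w u z else 0)) := by
    intro x
    rw [fp1_prodW_split, mul_assoc]
    simp only [Set.mem_ofPred_eq, h1]
  rw [Finset.sum_congr rfl fun x _ => h2 x, ← Finset.sum_mul, (hw u).2, one_mul, Finset.mul_sum]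
  refine Finset.sum_congr rfl fun z _ => ?_
  by_cases hz : (Equiv.funSplitAt u α).symm (z, g) ∈ E
  · rw [if_pos hz, if_pos hz, fp1_prodW_split, mul_comm]
  · rw [if_neg hz, if_neg hz, mul_zero]

end EA42
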