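import Pool.Agent.Lib.MP_ea42c6_pr.FP1

/-!
# FP2 — independence and two stages

`pr_two_stage`: `ι → X × Y` is `(ι → X) × (ι → Y)` (`Equiv.arrowProdEquivProdArrow`), and
`∏ (p i * q i) = ∏ p i * ∏ q i`.

`pr_indep_two`: if `E` depends only on the coordinates in `S` and `F` only on those in the
complement of `S`, then `pr (E ∩ F) = pr E * pr F`.  Sketch: use
`Equiv.piEquivPiSubtypeProd (· ∈ S) (fun _ => α)` (or `pr_resample`), the product weight factors.

`pr_indep_family`: induction on `T` from `pr_indep_two` (the intersection of the events of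
`T` depends only on the coordinates in the union of the `S k`).
-/

namespace EA42

open scoped Classical

variable {ι α X Y κ : Type*} [Fintype ι] [DecidableEq ι] [Fintype α] [Fintype X] [Fintype Y]

theorem pr_two_stage (p : ι → X → ℝ) (k : ι → X → Y → ℝ) (E : Set (ι → X × Y)) :
    pr (prodW fun i (z : X × Y) => p i z.1 * k i z.1 z.2) E =
      ∑ x : ι → X, prodW p x * pr (prodW fun i => k i (x i)) {y | (fun i => (x i, y i)) ∈ E} := by
  unfold pr
  rw [← (Equiv.arrowProdEquivProdArrow ι (fun _ => X) (fun _ => Y)).symm.sum_comp,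
    Fintype.sum_prod_type]
  refine Finset.sum_congr rfl fun x _ => ?_
  rw [Finset.mul_sum]
  refine Finset.sum_congr rfl fun y _ => ?_
  have h1 : (Equiv.arrowProdEquivProdArrow ι (fun _ => X) (fun _ => Y)).symm (x, y) =
      fun i => (x i, y i) := rfl
  rw [h1]
  have h2 : (y ∈ {y | (fun i => (x i, y i)) ∈ E}) ↔ (fun i => (x i, y i)) ∈ E := Iff.rfl
  by_cases h : (fun i => (x i, y i)) ∈ E
  · rw [if_pos h, if_pos (h2.2 h)]
    unfold prodW
    exact Finset.prod_mul_distrib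
  · rw [if_neg h, if_neg (fun hh => h (h2.1 hh)), mul_zero]

private theorem FP2_split (w : ι → α → ℝ) (S : Finset ι) (f g : (ι → α) → ℝ)
    (hf : ∀ ω ω' : ι → α, (∀ i ∈ S, ω i = ω' i) → f ω = f ω')
    (hg : ∀ ω ω' : ι → α, (∀ i, i ∉ S → ω i = ω' i) → g ω = g ω') (ω₀ : ι → α) :
    ∑ ω, prodW w ω * (f ω * g ω) =
      (∑ x : {i // i ∈ S} → α, (∏ i, w i.1 (x i)) *
        f ((Equiv.piEquivPiSubtypeProd (· ∈ S) (fun _ => α)).symm (x, fun i => ω₀ i.1))) *
      (∑ y : {i // i ∉ S} → α, (∏ i, w i.1 (y i)) *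
        g ((Equiv.piEquivPiSubtypeProd (· ∈ S) (fun _ => α)).symm (fun i => ω₀ i.1, y))) := by
  rw [← (Equiv.piEquivPiSubtypeProd (· ∈ S) (fun _ => α)).symm.sum_comp, Fintype.sum_prod_type,
    Finset.sum_mul_sum]
  refine Finset.sum_congr rfl fun x _ => Finset.sum_congr rfl fun y _ => ?_
  have h1 : prodW w ((Equiv.piEquivPiSubtypeProd (· ∈ S) (fun _ => α)).symm (x, y)) =
      (∏ i : {i // i ∈ S}, w i.1 (x i)) * ∏ i : {i // i ∉ S}, w i.1 (y i) := by
    unfold prodW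
    rw [← Fintype.prod_subtype_mul_prod_subtype (fun i => i ∈ S)]
    congr 1
    · refine Finset.prod_congr (by ext i; simp) fun i _ => ?_
      simp [Equiv.piEquivPiSubtypeProd, i.2]
    · refine Finset.prod_congr (by ext i; simp) fun i _ => ?_
      simp [Equiv.piEquivPiSubtypeProd, i.2]
  have h2 : f ((Equiv.piEquivPiSubtypeProd (· ∈ S) (fun _ => α)).symm (x, y)) =
      f ((Equiv.piEquivPiSubtypeProd (· ∈ S) (fun _ => α)).symm (x, fun i => ω₀ i.1)) := by
    apply hf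
    intro i hi
    simp [Equiv.piEquivPiSubtypeProd, hi]
  have h3 : g ((Equiv.piEquivPiSubtypeProd (· ∈ S) (fun _ => α)).symm (x, y)) =
      g ((Equiv.piEquivPiSubtypeProd (· ∈ S) (fun _ => α)).symm (fun i => ω₀ i.1, y)) := by
    apply hg
    intro i hi
    simp [Equiv.piEquivPiSubtypeProd, hi]
  rw [h1, h2, h3]
  ring

private theorem FP2_ind (w : ι → α → ℝ) (E : Set (ι → α)) :
    pr (prodW w) E = ∑ ω, prodW w ω * (if ω ∈ E then 1 else 0) := by
  unfold pr
  refine Finset.sum_congr rfl fun ω _ => ?_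
  by_cases h : ω ∈ E
  · rw [if_pos h, if_pos h, mul_one]
  · rw [if_neg h, if_neg h, mul_zero]

theorem pr_indep_two {w : ι → α → ℝ} (hw : ∀ i, IsProb (w i)) (S : Finset ι)
    (E F : Set (ι → α)) (hE : DepOn (S : Set ι) E) (hF : DepOn ((S : Set ι)ᶜ) F) :
    pr (prodW w) (E ∩ F) = pr (prodW w) E * pr (prodW w) F := by
  have hP := isProb_prodW hw
  have hne : Nonempty (ι → α) := by
    by_contra hn
    rw [not_nonempty_iff] at hn
    have := hP.2
    rw [Fintype.sum_empty] at this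
    exact zero_ne_one this
  obtain ⟨ω₀⟩ := hne
  have hf : ∀ ω ω' : ι → α, (∀ i ∈ S, ω i = ω' i) →
      (if ω ∈ E then (1 : ℝ) else 0) = if ω' ∈ E then 1 else 0 := by
    intro ω ω' h
    have h1 := hE ω ω' (fun i hi => h i (Finset.mem_coe.1 hi))
    by_cases h2 : ω ∈ E
    · rw [if_pos h2, if_pos (h1.1 h2)]
    · rw [if_neg h2, if_neg (fun h3 => h2 (h1.2 h3))]
  have hg : ∀ ω ω' : ι → α, (∀ i, i ∉ S → ω i = ω' i) →
      (if ω ∈ F then (1 : ℝ) else 0) = if ω' ∈ F then 1 else 0 := by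
    intro ω ω' h
    have h1 := hF ω ω' (fun i hi => h i (fun h4 => hi (Finset.mem_coe.2 h4)))
    by_cases h2 : ω ∈ F
    · rw [if_pos h2, if_pos (h1.1 h2)]
    · rw [if_neg h2, if_neg (fun h3 => h2 (h1.2 h3))]
  have h1 : ∀ ω ω' : ι → α, (∀ i ∈ S, ω i = ω' i) → (fun _ => (1 : ℝ)) ω = (fun _ => 1) ω' :=
    fun _ _ _ => rfl
  have h1' : ∀ ω ω' : ι → α, (∀ i, i ∉ S → ω i = ω' i) →
      (fun _ => (1 : ℝ)) ω = (fun _ => 1) ω' :=
    fun _ _ _ => rfl
  have e1 : pr (prodW w) (E ∩ F) = ∑ ω, prodW w ω *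
      ((if ω ∈ E then (1 : ℝ) else 0) * if ω ∈ F then 1 else 0) := by
    rw [FP2_ind]
    refine Finset.sum_congr rfl fun ω _ => ?_
    congr 1
    by_cases h2 : ω ∈ E <;> by_cases h3 : ω ∈ F <;> simp [h2, h3]
  have e2 : pr (prodW w) E = ∑ ω, prodW w ω * ((if ω ∈ E then (1 : ℝ) else 0) * 1) := by
    rw [FP2_ind]
    refine Finset.sum_congr rfl fun ω _ => ?_
    rw [mul_one]
  have e3 : pr (prodW w) F = ∑ ω, prodW w ω * (1 * (if ω ∈ F then (1 : ℝ) else 0)) := by
    rw [FP2_ind]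
    refine Finset.sum_congr rfl fun ω _ => ?_
    rw [one_mul]
  have e4 : (∑ ω, prodW w ω * ((1 : ℝ) * 1)) = 1 := by
    refine Eq.trans (Finset.sum_congr rfl fun ω _ => ?_) hP.2
    rw [mul_one, mul_one]
  have s1 := FP2_split w S (fun ω => if ω ∈ E then (1 : ℝ) else 0)
    (fun ω => if ω ∈ F then (1 : ℝ) else 0) hf hg ω₀
  have s2 := FP2_split w S (fun ω => if ω ∈ E then (1 : ℝ) else 0) (fun _ => 1) hf h1' ω₀
  have s3 := FP2_split w S (fun _ => 1) (fun ω => if ω ∈ F then (1 : ℝ) else 0) h1 hg ω₀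
  have s4 := FP2_split w S (fun _ => 1) (fun _ => 1) h1 h1' ω₀
  beta_reduce at s1 s2 s3 s4
  rw [e1, e2, e3, s1, s2, s3]
  rw [e4] at s4
  rw [mul_mul_mul_comm, mul_comm (Finset.sum _ fun y : {i // i ∉ S} → α => (∏ i, w i.1 (y i)) * 1),
    mul_mul_mul_comm, ← s4, mul_one]

theorem pr_indep_family {w : ι → α → ℝ} (hw : ∀ i, IsProb (w i)) (T : Finset κ)
    (S : κ → Finset ι) (hS : ∀ k ∈ T, ∀ l ∈ T, k ≠ l → Disjoint (S k) (S l))
    (E : κ → Set (ι → α)) (hE : ∀ k ∈ T, DepOn (S k : Set ι) (E k)) :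
    pr (prodW w) {ω | ∀ k ∈ T, ω ∈ E k} = ∏ k ∈ T, pr (prodW w) (E k) := by
  induction T using Finset.induction_on with
  | empty =>
    have h : {ω : ι → α | ∀ k ∈ (∅ : Finset κ), ω ∈ E k} = Set.univ := by
      ext ω
      simp
    rw [h, pr_univ (isProb_prodW hw), Finset.prod_empty]
  | insert a T ha ih =>
    have h : {ω : ι → α | ∀ k ∈ insert a T, ω ∈ E k} = E a ∩ {ω | ∀ k ∈ T, ω ∈ E k} := by
      ext ω
      simp
    rw [h, Finset.prod_insert ha, pr_indep_two hw (S a) (E a) _ (hE a (Finset.mem_insert_self _ _)),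
      ih (fun k hk l hl => hS k (Finset.mem_insert_of_mem hk) l (Finset.mem_insert_of_mem hl))
        (fun k hk => hE k (Finset.mem_insert_of_mem hk))]
    intro ω ω' hω
    refine forall₂_congr fun k hk => ?_
    refine hE k (Finset.mem_insert_of_mem hk) ω ω' (fun i hi => hω i ?_)
    intro hi2
    have hd := hS k (Finset.mem_insert_of_mem hk) a (Finset.mem_insert_self _ _)
      (fun h2 => ha (h2 ▸ hk))
    exact Finset.disjoint_left.1 hd (Finset.mem_coe.1 hi) (Finset.mem_coe.1 hi2)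

end EA42
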