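import Pool.Agent.Lib.MP_ea42c6_pr.FP1

/-!
# FP3 — Chebyshev for a Bernoulli count

`bern_count`: let `N = #{i ∈ S | σ i}`.  `∑_σ prodW σ * (N - p|S|)^2 = |S| p (1-p) ≤ |S|/20`; and
`N > |S|/10`, `p ≤ 1/20` give `(N - p|S|)^2 ≥ (|S|/20)^2`.  So the probability is
at most `(|S|/20) / (|S|/20)^2 = 20/|S|`.  Second moment: expand
`N = ∑_{i ∈ S} 1{σ i}`; `pr {σ i} = p`, `pr {σ i ∧ σ j} = p²` for `i ≠ j` by `pr_rect`
(`∑_σ prodW σ * 1_E = pr E`).
-/

namespace EA42

open scoped Classical

/-- expectation of a product of functions of the coordinates -/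
theorem fp3_prod {ι : Type*} [Fintype ι] [DecidableEq ι] (p : ℝ) (h : ι → Bool → ℝ) :
    ∑ σ : ι → Bool, prodW (fun _ : ι => bern p) σ * ∏ k, h k (σ k) =
      ∏ k, (p * h k true + (1 - p) * h k false) := by
  have h1 : ∀ k, p * h k true + (1 - p) * h k false = ∑ b : Bool, bern p b * h k b := by
    intro k
    rw [Fintype.sum_bool]
    simp [bern]
  rw [Finset.prod_congr rfl (fun k _ => h1 k), Finset.prod_univ_sum, Fintype.piFinset_univ]
  refine Finset.sum_congr rfl fun σ _ => ?_
  unfold prodW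
  rw [← Finset.prod_mul_distrib]

/-- the indicator of a coordinate -/
def fp3X (b : Bool) : ℝ := if b then 1 else 0

theorem fp3_cov {ι : Type*} [Fintype ι] [DecidableEq ι] (p : ℝ) (i j : ι) :
    ∑ σ : ι → Bool, prodW (fun _ : ι => bern p) σ * ((fp3X (σ i) - p) * (fp3X (σ j) - p)) =
      if i = j then p * (1 - p) else 0 := by
  by_cases hij : i = j
  · subst hij
    rw [if_pos rfl]
    have e1 : ∀ σ : ι → Bool, (fp3X (σ i) - p) * (fp3X (σ i) - p) =
        ∏ k, (fun (k : ι) (b : Bool) => if k = i then (fp3X b - p) * (fp3X b - p) else 1) k (σ k) := by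
      intro σ
      rw [Finset.prod_ite_eq' Finset.univ i (fun k => (fp3X (σ k) - p) * (fp3X (σ k) - p)),
        if_pos (Finset.mem_univ i)]
    refine Eq.trans (Finset.sum_congr rfl fun σ _ => congrArg _ (e1 σ))
      (Eq.trans (fp3_prod p
        (fun (k : ι) (b : Bool) => if k = i then (fp3X b - p) * (fp3X b - p) else 1)) ?_)
    have e2 : ∀ k : ι, p * (if k = i then (fp3X true - p) * (fp3X true - p) else 1) +
        (1 - p) * (if k = i then (fp3X false - p) * (fp3X false - p) else 1) =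
        if k = i then p * (1 - p) else 1 := by
      intro k
      by_cases hk : k = i
      · simp only [if_pos hk, fp3X]
        norm_num
        ring
      · simp only [if_neg hk]
        ring
    rw [Finset.prod_congr rfl (fun k _ => e2 k),
      Finset.prod_ite_eq' Finset.univ i (fun _ => p * (1 - p)), if_pos (Finset.mem_univ i)]
  · rw [if_neg hij]
    have e1 : ∀ σ : ι → Bool, (fp3X (σ i) - p) * (fp3X (σ j) - p) =
        ∏ k, (fun (k : ι) (b : Bool) => (if k = i then (fp3X b - p) else 1) *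
          (if k = j then (fp3X b - p) else 1)) k (σ k) := by
      intro σ
      rw [Finset.prod_mul_distrib, Finset.prod_ite_eq' Finset.univ i (fun k => fp3X (σ k) - p),
        Finset.prod_ite_eq' Finset.univ j (fun k => fp3X (σ k) - p),
        if_pos (Finset.mem_univ i), if_pos (Finset.mem_univ j)]
    refine Eq.trans (Finset.sum_congr rfl fun σ _ => congrArg _ (e1 σ))
      (Eq.trans (fp3_prod p (fun (k : ι) (b : Bool) => (if k = i then (fp3X b - p) else 1) *
          (if k = j then (fp3X b - p) else 1))) ?_)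
    refine Finset.prod_eq_zero (Finset.mem_univ i) ?_
    simp only [if_pos, if_neg hij, fp3X]
    norm_num
    ring

theorem fp3_var {ι : Type*} [Fintype ι] [DecidableEq ι] (p : ℝ) (S : Finset ι) :
    ∑ σ : ι → Bool, prodW (fun _ : ι => bern p) σ * (∑ i ∈ S, (fp3X (σ i) - p)) ^ 2 =
      (S.card : ℝ) * (p * (1 - p)) := by
  have e1 : ∀ σ : ι → Bool, prodW (fun _ : ι => bern p) σ * (∑ i ∈ S, (fp3X (σ i) - p)) ^ 2 =
      ∑ i ∈ S, ∑ j ∈ S, prodW (fun _ : ι => bern p) σ * ((fp3X (σ i) - p) * (fp3X (σ j) - p)) := by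
    intro σ
    rw [pow_two, Finset.sum_mul_sum, Finset.mul_sum]
    refine Finset.sum_congr rfl fun i _ => ?_
    rw [Finset.mul_sum]
  rw [Finset.sum_congr rfl (fun σ _ => e1 σ), Finset.sum_comm]
  have e2 : ∀ i ∈ S, ∑ σ : ι → Bool, ∑ j ∈ S, prodW (fun _ : ι => bern p) σ *
      ((fp3X (σ i) - p) * (fp3X (σ j) - p)) = p * (1 - p) := by
    intro i hi
    rw [Finset.sum_comm, Finset.sum_congr rfl (fun j _ => fp3_cov p i j),
      Finset.sum_ite_eq S i (fun _ => p * (1 - p)), if_pos hi]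
  rw [Finset.sum_congr rfl e2, Finset.sum_const, nsmul_eq_mul]

theorem bern_count {ι : Type*} [Fintype ι] [DecidableEq ι] {p : ℝ} (h0 : 0 ≤ p) (h1 : p ≤ 1 / 20)
    (S : Finset ι) (hS : S.Nonempty) :
    pr (prodW fun _ : ι => bern p)
      {σ | (S.card : ℝ) / 10 < ((S.filter fun i => σ i = true).card : ℝ)} ≤ 20 / (S.card : ℝ) := by
  have hm : (0 : ℝ) < (S.card : ℝ) := by exact_mod_cast hS.card_pos
  have hw : ∀ σ : ι → Bool, 0 ≤ prodW (fun _ : ι => bern p) σ := by
    intro σ
    unfold prodW bern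
    refine Finset.prod_nonneg fun i _ => ?_
    show 0 ≤ (if σ i = true then p else 1 - p)
    split_ifs <;> linarith
  have hN : ∀ σ : ι → Bool, ∑ i ∈ S, (fp3X (σ i) - p) =
      ((S.filter fun i => σ i = true).card : ℝ) - p * (S.card : ℝ) := by
    intro σ
    rw [Finset.sum_sub_distrib, Finset.sum_const, nsmul_eq_mul, Finset.card_filter, Nat.cast_sum]
    congr 1
    · refine Finset.sum_congr rfl fun i _ => ?_
      unfold fp3X
      split_ifs <;> simp
    · ring
  have hle : pr (prodW fun _ : ι => bern p)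
      {σ | (S.card : ℝ) / 10 < ((S.filter fun i => σ i = true).card : ℝ)} ≤
      ∑ σ : ι → Bool, prodW (fun _ : ι => bern p) σ * (∑ i ∈ S, (fp3X (σ i) - p)) ^ 2 *
        (400 / (S.card : ℝ) ^ 2) := by
    unfold pr
    refine Finset.sum_le_sum fun σ _ => ?_
    split_ifs with hσ
    · have hσ' : (S.card : ℝ) / 10 < ((S.filter fun i => σ i = true).card : ℝ) := hσ
      have h2 : (S.card : ℝ) / 20 ≤ ∑ i ∈ S, (fp3X (σ i) - p) := by
        rw [hN σ]
        have := mul_le_mul_of_nonneg_right h1 hm.le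
        linarith
      have h3 : ((S.card : ℝ) / 20) ^ 2 ≤ (∑ i ∈ S, (fp3X (σ i) - p)) ^ 2 :=
        pow_le_pow_left₀ (by positivity) h2 2
      have h4 : (1 : ℝ) ≤ (∑ i ∈ S, (fp3X (σ i) - p)) ^ 2 * (400 / (S.card : ℝ) ^ 2) := by
        have h5 : ((S.card : ℝ) / 20) ^ 2 * (400 / (S.card : ℝ) ^ 2) = 1 := by
          field_simp
          norm_num
        rw [← h5]
        exact mul_le_mul_of_nonneg_right h3 (by positivity)
      have h6 := mul_le_mul_of_nonneg_left h4 (hw σ)
      rw [mul_one] at h6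
      rw [mul_assoc]
      exact h6
    · exact mul_nonneg (mul_nonneg (hw σ) (sq_nonneg _)) (by positivity)
  refine hle.trans ?_
  rw [← Finset.sum_mul, fp3_var]
  have h7 : p * (1 - p) ≤ 1 / 20 := by
    have : 0 ≤ p * p := mul_nonneg h0 h0
    linarith
  have h8 : (S.card : ℝ) * (p * (1 - p)) * (400 / (S.card : ℝ) ^ 2) =
      (p * (1 - p)) * (400 / (S.card : ℝ)) := by
    field_simp
  rw [h8]
  have h9 := mul_le_mul_of_nonneg_right h7 (show (0 : ℝ) ≤ 400 / (S.card : ℝ) by positivity)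
  refine h9.trans (le_of_eq ?_)
  ring

end EA42
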