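import Pool.Agent.Lib.MP_ea42c6_pr.M1

/-!
# M2 — events about the irrigation graph are measurable

The graph depends on `ω = (X, k, π)` through `(ball X r, k, π)`.  The event is the finite union over
the values `b` of the ball function of `{ball X r = b} ×ˢ {(k,π) | P (graph of b, k, π)}`, and every
subset of `(Fin n → ℕ) × (Fin n → Perm)` is measurable (countable type with measurable
singletons: `Set.Countable.measurableSet`, `Set.to_countable`; `MeasurableSingletonClass` of `Perm`
from the σ-algebra `⊤`).
-/

namespace EA42

open MeasureTheory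
open scoped Classical ENNReal

/-- The irrigation graph as a function of the balls, the numbers and the orders. -/
noncomputable def irrB {n : ℕ} (b : Fin n → Finset (Fin n))
    (κπ : (Fin n → ℕ) × (Fin n → Equiv.Perm (Fin n))) : SimpleGraph (Fin n) :=
  SimpleGraph.fromRel fun u v => v ∈ (b u).filter fun v => rk (b u) (κπ.2 u) v < κπ.1 u

theorem irr_eq_irrB {n : ℕ} (ω : Sample n) (r : ℝ) : irr ω r = irrB (ball ω.1 r) ω.2 := rfl

instance perm_singletonClass (n : ℕ) : MeasurableSingletonClass (Equiv.Perm (Fin n)) :=
  ⟨fun _ => MeasurableSpace.measurableSet_top⟩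

theorem measurableSet_irr (n : ℕ) (r : ℝ) (P : SimpleGraph (Fin n) → Prop) :
    MeasurableSet {ω : Sample n | P (irr ω r)} := by
  have h : {ω : Sample n | P (irr ω r)} =
      ⋃ b : Fin n → Finset (Fin n), {X : Fin n → Pt | ball X r = b} ×ˢ
        {κπ : (Fin n → ℕ) × (Fin n → Equiv.Perm (Fin n)) | P (irrB b κπ)} := by
    ext ω
    simp only [Set.mem_setOf_eq, Set.mem_iUnion, Set.mem_prod]
    constructor
    · intro hω
      exact ⟨ball ω.1 r, rfl, hω⟩
    · rintro ⟨b, hb, hω⟩
      rw [irr_eq_irrB, hb]
      exact hω
  rw [h]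
  refine MeasurableSet.iUnion fun b => ?_
  exact (measurableSet_ball n r b).prod (Set.to_countable _).measurableSet

end EA42
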