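import Pool.Agent.Lib.MP_ea42c6_pr.FP1

/-!
# W0 — the weights of the picks are probability weights

`0 ≤ q ≤ 1`, so `0 ≤ q/20 ≤ 1` and `0 ≤ p2 q ≤ 1` (`19/20 q ≤ 1 - q/20`), `p2 q ≥ 19/20 q`.
`pairW B u` has total mass 1: if `2 ≤ |B|` it is constant on `B.offDiag`
(`Finset.offDiag_card`), otherwise a point mass.
`condW B u a`: if `2 ≤ |B|` and `a ∈ B`, it is constant on `B.erase a`; otherwise a point mass.
-/

namespace EA42

open scoped Classical

variable {V : Type*} [Fintype V]

theorem p2_nonneg {q : ℝ} (h0 : 0 ≤ q) (h1 : q ≤ 1) : 0 ≤ p2 q := by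
  unfold p2
  exact div_nonneg (by linarith) (by linarith)

theorem p2_pos {q : ℝ} (h0 : 0 < q) (h1 : q ≤ 1) : 0 < p2 q := by
  unfold p2
  exact div_pos (by linarith) (by linarith)

theorem p2_le_one {q : ℝ} (h0 : 0 ≤ q) (h1 : q ≤ 1) : p2 q ≤ 1 := by
  unfold p2
  rw [div_le_one (by linarith)]
  linarith

/-- `P(σ₁ ∨ σ₂) = q`. -/
theorem p2_spec {q : ℝ} (h0 : 0 ≤ q) (h1 : q ≤ 1) : (1 - q / 20) * (1 - p2 q) = 1 - q := by
  unfold p2
  have h : (1 - q / 20) ≠ 0 := by
    have : 0 < 1 - q / 20 := by linarith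
    exact this.ne'
  have h2 : (1 - q / 20) * (1 - 19 / 20 * q / (1 - q / 20)) =
      (1 - q / 20) - 19 / 20 * q := by
    rw [mul_sub, mul_div_cancel₀ _ h]
    ring
  rw [h2]
  ring

theorem isProb_pairW (B : Finset V) (u : V) : IsProb (pairW B u) := by
  refine ⟨fun z => ?_, ?_⟩
  · unfold pairW
    split_ifs with h1 h2 h3
    · have h4 : (2 : ℝ) ≤ (B.card : ℝ) := by exact_mod_cast h1
      have h5 : (0 : ℝ) ≤ (B.card : ℝ) - 1 := by linarith
      positivity
    · exact le_rfl
    · exact zero_le_one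
    · exact le_rfl
  · unfold pairW
    by_cases h1 : 2 ≤ B.card
    · simp only [h1, if_true]
      rw [← Finset.sum_filter]
      have h2 : (Finset.univ.filter fun z : V × V => z.1 ∈ B ∧ z.2 ∈ B ∧ z.1 ≠ z.2) = B.offDiag := by
        ext z
        simp only [Finset.mem_filter, Finset.mem_univ, true_and, Finset.mem_offDiag]
      rw [h2, Finset.sum_const, Finset.offDiag_card, nsmul_eq_mul]
      have h3 : B.card ≤ B.card * B.card := Nat.le_mul_self _
      have h4 : (2 : ℝ) ≤ (B.card : ℝ) := by exact_mod_cast h1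
      have h5 : (B.card : ℝ) ≠ 0 := by positivity
      have h6 : (B.card : ℝ) - 1 ≠ 0 := by
        have : 0 < (B.card : ℝ) - 1 := by linarith
        exact this.ne'
      rw [Nat.cast_sub h3]
      push_cast
      field_simp
    · simp only [h1, if_false]
      rw [Finset.sum_ite_eq' Finset.univ (u, u)]
      simp

theorem isProb_condW (B : Finset V) (u a : V) : IsProb (condW B u a) := by
  refine ⟨fun z => ?_, ?_⟩
  · unfold condW
    split_ifs with h1 h2 h3
    · have h4 : (2 : ℝ) ≤ (B.card : ℝ) := by exact_mod_cast h1.1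
      have h5 : (0 : ℝ) ≤ (B.card : ℝ) - 1 := by linarith
      positivity
    · exact le_rfl
    · exact zero_le_one
    · exact le_rfl
  · unfold condW
    by_cases h1 : 2 ≤ B.card ∧ a ∈ B
    · simp only [h1, and_self, if_true]
      rw [← Finset.sum_filter]
      have h2 : (Finset.univ.filter fun c : V => c ∈ B ∧ c ≠ a) = B.erase a := by
        ext z
        simp only [Finset.mem_filter, Finset.mem_univ, true_and, Finset.mem_erase]
        exact and_comm
      rw [h2, Finset.sum_const, Finset.card_erase_of_mem h1.2, nsmul_eq_mul]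
      have h4 : (2 : ℝ) ≤ (B.card : ℝ) := by exact_mod_cast h1.1
      have h6 : (B.card : ℝ) - 1 ≠ 0 := by
        have : 0 < (B.card : ℝ) - 1 := by linarith
        exact this.ne'
      rw [Nat.cast_sub (by omega)]
      push_cast
      field_simp
    · simp only [h1, if_false]
      rw [Finset.sum_ite_eq' Finset.univ u]
      simp

theorem isProb_wt1 {q : ℝ} (h0 : 0 ≤ q) (h1 : q ≤ 1) (B : V → Finset V) (u : V) :
    IsProb (wt1 q B u) := by
  have hp := isProb_pairW (B u) u
  have hb : IsProb (bern (q / 20)) := isProb_bern (by linarith) (by linarith)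
  refine ⟨fun x => mul_nonneg (hp.1 _) (hb.1 _), ?_⟩
  unfold wt1
  rw [Fintype.sum_prod_type]
  have h2 : ∀ a : V, ∑ y : V × Bool, pairW (B u) u (a, y.1) * bern (q / 20) y.2 =
      ∑ c : V, pairW (B u) u (a, c) := by
    intro a
    rw [Fintype.sum_prod_type]
    refine Finset.sum_congr rfl fun c _ => ?_
    simp only
    rw [← Finset.mul_sum, hb.2, mul_one]
  simp only at h2 ⊢
  rw [Finset.sum_congr rfl fun a _ => h2 a, ← Fintype.sum_prod_type (f := pairW (B u) u)]
  exact hp.2

theorem isProb_wt2 {q : ℝ} (h0 : 0 ≤ q) (h1 : q ≤ 1) (B : V → Finset V) (u : V) (x : Co1 V) :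
    IsProb (wt2 q B u x) :=
  isProb_pair (p := condW (B u) u x.1) (k := fun _ => bern (p2 q)) (isProb_condW (B u) u x.1)
    (fun _ => isProb_bern (p2_nonneg h0 h1) (p2_le_one h0 h1))

theorem isProb_wt {q : ℝ} (h0 : 0 ≤ q) (h1 : q ≤ 1) (B : V → Finset V) (u : V) :
    IsProb (wt q B u) :=
  isProb_pair (p := wt1 q B u) (k := wt2 q B u) (isProb_wt1 h0 h1 B u)
    (fun x => isProb_wt2 h0 h1 B u x)

/-- On the support, the first picks lie in the ball (if `u` lies in its own ball). -/
theorem wt1_supp {q : ℝ} (B : V → Finset V) (hself : ∀ u, u ∈ B u) (u : V) (x : Co1 V)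
    (h : wt1 q B u x ≠ 0) : x.1 ∈ B u ∧ x.2.1 ∈ B u := by
  have h2 : pairW (B u) u (x.1, x.2.1) ≠ 0 := left_ne_zero_of_mul h
  unfold pairW at h2
  split_ifs at h2 with h3 h4 h5
  · exact ⟨h4.1, h4.2.1⟩
  · exact absurd rfl h2
  · have h6 := congrArg Prod.fst h5
    have h7 := congrArg Prod.snd h5
    simp only at h6 h7
    rw [h6, h7]
    exact ⟨hself u, hself u⟩
  · exact absurd rfl h2

/-- The same for product weights. -/
theorem prodW_wt1_supp {q : ℝ} (B : V → Finset V) (hself : ∀ u, u ∈ B u) (x : V → Co1 V)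
    (h : prodW (wt1 q B) x ≠ 0) : ∀ u, (x u).1 ∈ B u ∧ (x u).2.1 ∈ B u := by
  intro u
  exact wt1_supp B hself u (x u) (Finset.prod_ne_zero_iff.mp h u (Finset.mem_univ u))

end EA42
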