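import Pool.Agent.Lib.MP_ea42c6_pr.H0a
import Pool.Agent.Lib.MP_ea42c6_pr.FP2
import Pool.Agent.Lib.MP_ea42c6_pr.W0

/-!
# H2 — given the positions, far blocks are independent

`BadB` of `β` depends only on the coordinates of the vertices in `inR d.1 (blkR M b β)` (the graph
`gr ω U` uses `ω u` for `u ∈ U` only); for pairwise far blocks these vertex sets are disjoint
(`blkR_disjoint`).  `pr_indep_family` gives the product, and each factor is at most
`1{¬ Reg} + p₁`.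
-/

namespace EA42

open scoped Classical

theorem gr_congr {V : Type*} (U : Finset V) (ω ω' : V → Co V) (h : ∀ u ∈ U, ω u = ω' u) :
    gr ω U = gr ω' U := by
  unfold gr
  congr 1
  funext u v
  refine propext ⟨?_, ?_⟩
  · rintro ⟨hu, h1⟩
    rw [h u hu] at h1
    exact ⟨hu, h1⟩
  · rintro ⟨hu, h1⟩
    rw [← h u hu] at h1
    exact ⟨hu, h1⟩

private theorem H2_gen {V : Type*} [Fintype V] {M b s : ℕ} [NeZero M] (hM : M = b * (s + 4))
    {q θ μ δ p₁ : ℝ} (h0 : 0 ≤ q) (h1 : q ≤ 1) (d : Datum V M)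
    (hloc : ∀ β ∈ grid s, Reg d.1 (blkR M b β) δ μ →
      pr (prodW (wt q d.2)) {ω | ¬ GoodLoc d.1 ω (blkW M b β) (blkR M b β) θ} ≤ p₁)
    (hp₁ : 0 ≤ p₁) (S : Finset (ℕ × ℕ)) (hS : S ⊆ grid s) (hsep : Sep S) :
    pr (prodW (wt q d.2)) {ω | ∀ β ∈ S, BadB b δ θ μ d ω β} ≤
      ∏ β ∈ S, ((if Reg d.1 (blkR M b β) δ μ then 0 else 1) + p₁) := by
  have hw : ∀ u, IsProb (wt q d.2 u) := fun u => isProb_wt h0 h1 d.2 u
  have hP : IsProb (prodW (wt q d.2)) := isProb_prodW hw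
  have key := pr_indep_family hw S (fun β => inR d.1 (blkR M b β))
    (by
      intro β hβ γ hγ hne
      have h2 := blkR_disjoint hM (hS hβ) (hS hγ) (hsep β hβ γ hγ hne)
      rw [Finset.disjoint_left] at h2 ⊢
      intro v hv hv'
      exact h2 (Finset.mem_filter.1 hv).2 (Finset.mem_filter.1 hv').2)
    (fun β => {ω : V → Co V | BadB b δ θ μ d ω β})
    (by
      intro β _ ω ω' hω
      have h3 : gr ω (inR d.1 (blkR M b β)) = gr ω' (inR d.1 (blkR M b β)) :=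
        gr_congr _ ω ω' fun u hu => hω u (Finset.mem_coe.2 hu)
      show BadB b δ θ μ d ω β ↔ BadB b δ θ μ d ω' β
      unfold BadB GoodLoc
      rw [h3])
  refine (le_of_eq key).trans ?_
  refine Finset.prod_le_prod (fun β _ => pr_nonneg hP _) fun β hβ => ?_
  by_cases hreg : Reg d.1 (blkR M b β) δ μ
  · rw [if_pos hreg, zero_add]
    refine (pr_mono hP ?_).trans (hloc β (hS hβ) hreg)
    intro ω hω
    rcases hω with h4 | h4
    · exact absurd hreg h4
    · exact h4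
  · rw [if_neg hreg]
    have := pr_le_one hP {ω : V → Co V | BadB b δ θ μ d ω β}
    linarith

private theorem H2_inst {Ω : Type*} (i1 i2 : Fintype Ω) (p : Ω → ℝ) (E : Set Ω) :
    @pr Ω i1 p E = @pr Ω i2 p E := by
  rw [Subsingleton.elim i1 i2]

theorem sep_given {n M b s : ℕ} [NeZero M] (hM : M = b * (s + 4)) {q θ μ δ p₁ : ℝ}
    (h0 : 0 ≤ q) (h1 : q ≤ 1) (hp₁ : 0 ≤ p₁) (d : Datum (Fin n) M)
    (hloc : ∀ β ∈ grid s, Reg d.1 (blkR M b β) δ μ →
      pr (prodW (wt q d.2)) {ω | ¬ GoodLoc d.1 ω (blkW M b β) (blkR M b β) θ} ≤ p₁)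
    (S : Finset (ℕ × ℕ)) (hS : S ⊆ grid s) (hsep : Sep S) :
    pr (prodW (wt q d.2)) {ω | ∀ β ∈ S, BadB b δ θ μ d ω β} ≤
      ∏ β ∈ S, ((if Reg d.1 (blkR M b β) δ μ then 0 else 1) + p₁) := by
  have h := H2_gen (V := Fin n) hM h0 h1 d (θ := θ) (μ := μ) (δ := δ) (p₁ := p₁)
    (fun β hβ hr => (le_of_eq (H2_inst _ _ _ _)).trans (hloc β hβ hr)) hp₁ S hS hsep
  exact (le_of_eq (H2_inst _ _ _ _)).trans h

end EA42
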