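import Pool.Agent.Lib.MP_ea42c6_pr.L1d

/-!
# L1r — collision at an address `inr (i, j+1)`

`resample_bound` with `E = Ecoll v L α β`, `P x = sec x v i j`.  Let `x ∈ E`, `y = P x`,
`x' = update x y z`.  The addresses before `β` are all the spine, all `inr (i',j')` with `i' < i`, and
`inr (i,j')` with `j' ≤ j`; their values are distinct for `x`.  The parent of each of them (if any) is
before `β` and is not `inr (i,j)` (whose only child is `β`), so has a value `≠ y`; hence all these
values are the same for `x'` and `x` (`orbit_congr` for the spine and for the orbits starting at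
`(x (spine i')).2.1`, using `spine i' ≠ y`).  So `P x' = y`, and if `x' ∈ E` then
`z.1 = value of β for x' = value of α for x' = value of α for x`: at most `|B y|` pairs.
`|B y| ≥ ρ` by `sec_mem_reach`, `i + 1 + j ≤ 2 L`.
-/

namespace EA42

open scoped Classical

theorem l1r_spine {V : Type*} {v : V} {L : ℕ} {i : Fin (L + 1)} {j : ℕ} (hj : j + 1 < L + 1)
    {x : V → Co1 V} (hx : Inj x v L (Sum.inr (i, ⟨j + 1, hj⟩))) (t : ℕ) (ht : t < L + 1) :
    spine x v t ≠ sec x v i j := by
  intro heq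
  have h3 := hx (Sum.inl ⟨t, ht⟩) (Sum.inr (i, ⟨j, by omega⟩))
    (by simp only [ord]; omega) (by simp only [ord]; omega) heq
  cases h3

theorem l1r_sec {V : Type*} {v : V} {L : ℕ} {i : Fin (L + 1)} {j : ℕ} (hj : j + 1 < L + 1)
    {x : V → Co1 V} (hx : Inj x v L (Sum.inr (i, ⟨j + 1, hj⟩))) (i' : Fin (L + 1)) (t : ℕ)
    (ht : t < L + 1) (h : (i' : ℕ) < i ∨ (i' = i ∧ t < j)) :
    sec x v i' t ≠ sec x v i j := by
  intro heq
  have hlt : ord (L := L) (Sum.inr (i', ⟨t, ht⟩)) < ord (L := L) (Sum.inr (i, ⟨j + 1, hj⟩)) := by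
    simp only [ord]
    rcases h with h | ⟨h, h'⟩
    · have h4 : ((i' : ℕ) + 1) * (L + 1) ≤ (i : ℕ) * (L + 1) := Nat.mul_le_mul_right _ h
      have h5 : ((i' : ℕ) + 1) * (L + 1) = (i' : ℕ) * (L + 1) + (L + 1) := by ring
      omega
    · rw [h]
      omega
  have h3 := hx (Sum.inr (i', ⟨t, ht⟩)) (Sum.inr (i, ⟨j, by omega⟩)) hlt
    (by simp only [ord]; omega) heq
  have h4 : (i', (⟨t, ht⟩ : Fin (L + 1))) = (i, (⟨j, by omega⟩ : Fin (L + 1))) :=
    Sum.inr_injective h3
  have h5 := congrArg Prod.fst h4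
  have h6 := congrArg (fun z : Fin (L + 1) × Fin (L + 1) => ((z.2 : Fin (L + 1)) : ℕ)) h4
  simp only at h5 h6
  rcases h with h | ⟨h, h'⟩
  · rw [h5] at h
    exact lt_irrefl _ h
  · omega

theorem l1r_addr {V : Type*} {v : V} {L : ℕ} {i : Fin (L + 1)} {j : ℕ} (hj : j + 1 < L + 1)
    {x : V → Co1 V} (hx : Inj x v L (Sum.inr (i, ⟨j + 1, hj⟩))) (z : Co1 V) (γ : Addr L)
    (hγ : ord γ < ord (L := L) (Sum.inr (i, ⟨j + 1, hj⟩))) :
    addr (Function.update x (sec x v i j) z) v L γ = addr x v L γ := by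
  have h1 : ∀ u, u ≠ sec x v i j → x u = Function.update x (sec x v i j) z u := by
    intro u hu
    rw [Function.update_of_ne hu]
  have hsp : ∀ t ≤ L, spine (Function.update x (sec x v i j) z) v t = spine x v t := by
    intro t ht
    exact (orbit_congr h1 v L (fun t' ht' => l1r_spine hj hx t' (by omega)) t ht).symm
  rcases γ with a | ⟨a, b⟩
  · exact hsp a (by have := a.isLt; omega)
  · have ha : (a : ℕ) ≤ L := by have := a.isLt; omega
    have hab : (a : ℕ) < i ∨ (a = i ∧ (b : ℕ) ≤ j) := by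
      rcases lt_trichotomy (a : ℕ) (i : ℕ) with h | h | h
      · exact Or.inl h
      · right
        have h2 : a = i := Fin.ext h
        refine ⟨h2, ?_⟩
        subst h2
        simp only [ord] at hγ
        omega
      · exfalso
        simp only [ord] at hγ
        have h4 : ((i : ℕ) + 1) * (L + 1) ≤ (a : ℕ) * (L + 1) := Nat.mul_le_mul_right _ h
        have h5 : ((i : ℕ) + 1) * (L + 1) = (i : ℕ) * (L + 1) + (L + 1) := by ring
        omega
    have e1 : (Function.update x (sec x v i j) z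
        (spine (Function.update x (sec x v i j) z) v a)).2.1 = (x (spine x v a)).2.1 := by
      rw [hsp a ha, Function.update_of_ne (l1r_spine hj hx a a.isLt)]
    change (fun u => (Function.update x (sec x v i j) z u).1)^[(b : ℕ)]
      ((Function.update x (sec x v i j) z
        (spine (Function.update x (sec x v i j) z) v a)).2.1) = sec x v a b
    rw [e1]
    refine (orbit_congr h1 _ (b : ℕ) (fun t ht => ?_) (b : ℕ) le_rfl).symm
    have hb := b.isLt
    exact l1r_sec hj hx a t (by omega) (by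
      rcases hab with h | ⟨h, h'⟩
      · exact Or.inl h
      · exact Or.inr ⟨h, by omega⟩)

theorem coll_sec {V : Type*} [Fintype V] {q : ℝ} (h0 : 0 ≤ q) (h1 : q ≤ 1)
    (B : V → Finset V) (hself : ∀ u, u ∈ B u) (v : V) (L : ℕ) {ρ : ℝ} (hρ : 1 < ρ)
    (hB : ∀ d ≤ 2 * L, ∀ u ∈ reach B d v, ρ ≤ ((B u).card : ℝ))
    (i : Fin (L + 1)) (j : ℕ) (hj : j + 1 < L + 1) (α : Addr L)
    (hα : ord α < ord (L := L) (Sum.inr (i, ⟨j + 1, hj⟩))) :
    pr (prodW (wt1 q B)) (Ecoll v L α (Sum.inr (i, ⟨j + 1, hj⟩))) ≤ 1 / (ρ - 1) := by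
  have hPx : ∀ x ∈ Ecoll v L α (Sum.inr (i, ⟨j + 1, hj⟩)), ∀ z : Co1 V,
      sec (Function.update x (sec x v i j) z) v i j = sec x v i j := by
    intro x hx z
    exact l1r_addr hj hx.1 z (Sum.inr (i, ⟨j, by omega⟩)) (by simp only [ord]; omega)
  refine resample_bound h0 h1 B hρ _ (fun x => sec x v i j) ?_ ?_ ?_
  · intro x hx _ z
    exact hPx x hx z
  · intro x _ hw
    have hi := i.isLt
    exact hB (i + 1 + j) (by omega) _
      (sec_mem_reach B x (prodW_wt1_supp B hself x hw) v i j)
  · intro x hx _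
    have hsub : (Finset.univ.filter fun ac : V × V => ac.1 ∈ B (sec x v i j) ∧
        ac.2 ∈ B (sec x v i j) ∧ ac.1 ≠ ac.2 ∧
        ∃ σ : Bool, Function.update x (sec x v i j) (ac.1, ac.2, σ) ∈
          Ecoll v L α (Sum.inr (i, ⟨j + 1, hj⟩))) ⊆
        (B (sec x v i j)).image (fun c => (addr x v L α, c)) := by
      rintro ⟨a, c⟩ hac
      rw [Finset.mem_filter] at hac
      obtain ⟨-, ha, hc, -, σ, hE⟩ := hac
      rw [Finset.mem_image]
      refine ⟨c, hc, ?_⟩
      have e1 : addr (Function.update x (sec x v i j) (a, c, σ)) v L α =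
          sec (Function.update x (sec x v i j) (a, c, σ)) v i (j + 1) := hE.2
      rw [l1r_addr hj hx.1 _ α hα] at e1
      have e2 : sec (Function.update x (sec x v i j) (a, c, σ)) v i (j + 1) =
          (Function.update x (sec x v i j) (a, c, σ)
            (sec (Function.update x (sec x v i j) (a, c, σ)) v i j)).1 := by
        unfold sec
        rw [Function.iterate_succ_apply']
      rw [e2, hPx x hx, Function.update_self] at e1
      rw [e1]
    exact (Finset.card_le_card hsub).trans Finset.card_image_le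

end EA42
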