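import Pool.Agent.Lib.MP_ea42c6_pr.L1d

/-!
# L1z — collision at an address `inr (i, 0)`

`resample_bound` with `E = Ecoll v L α β`, `P x = spine x v i`.  Let `x ∈ E`, `y = P x`,
`x' = update x y z` with `x' ∈ E`.  Addresses before `β`: all the spine and all `inr (i',j')`, `i' < i`;
values distinct for `x` (and for `x'`).
* `spine x' v j = spine x v j` for `j ≤ i`; for `i' < i` the values at `inr (i',j')` are unchanged
  (their orbit avoids `y = spine i`, as these values are distinct from it); so `P x' = y` (this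
  needs only `x ∈ E`).
* If `α = inl j`, `j ≤ i`, or `α = inr (i',j')`, `i' < i`: `z.2.1 = value of β for x'` = value of `α`,
  forced; at most `|B y|` pairs.
* If `α = inl j`, `j > i`: `z.2.1 = spine x' v j = (f_{x'})^[j-i-1] (z.1)`, and this orbit avoids `y`
  (injectivity of the spine for `x'`), so it equals `(f_x)^[j-i-1] (z.1)`... careful: compare two
  `z, z'` with `x' , x''` both in `E` and `z.1 = z'.1`: `orbit_congr` for `x', x''` from `z.1`
  gives `z.2.1 = z'.2.1`.  So the map `(a,c) ↦ a` is injective on the set of pairs, whose image is in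
  `B y`: at most `|B y|` pairs.
(The first two cases also give such an injection, by `(a,c) ↦ a`.)
-/

namespace EA42

open scoped Classical

private theorem L1z_ord_inl {L : ℕ} (i : Fin (L + 1)) (j : Fin (L + 1)) :
    ord (L := L) (Sum.inl j) < ord (L := L) (Sum.inr (i, 0)) := by
  show (j : ℕ) < (L + 1) + ((i : ℕ) * (L + 1) + 0)
  have := j.2
  omega

private theorem L1z_ord_inr {L : ℕ} (i i' j : Fin (L + 1)) (h : i' < i) :
    ord (L := L) (Sum.inr (i', j)) < ord (L := L) (Sum.inr (i, 0)) := by
  show (L + 1) + ((i' : ℕ) * (L + 1) + (j : ℕ)) < (L + 1) + ((i : ℕ) * (L + 1) + 0)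
  have h1 := j.2
  have h2 : ((i' : ℕ) + 1) * (L + 1) ≤ (i : ℕ) * (L + 1) := Nat.mul_le_mul_right _ h
  rw [add_mul, one_mul] at h2
  omega

/-- the spine before the changed vertex -/
private theorem L1z_spine {V : Type*} {v : V} {L : ℕ} {i : Fin (L + 1)} {x : V → Co1 V}
    (hx : Inj x v L (Sum.inr (i, 0))) {x' : V → Co1 V}
    (h : ∀ u, u ≠ spine x v i → x u = x' u) (j : ℕ) (hj : j ≤ i) :
    spine x v j = spine x' v j := by
  refine orbit_congr h v i ?_ j hj
  intro m hm he
  have hm2 : m < L + 1 := lt_trans hm i.2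
  have h1 := hx (Sum.inl ⟨m, hm2⟩) (Sum.inl i) (L1z_ord_inl i _) (L1z_ord_inl i _) he
  have h2 := congrArg Fin.val (Sum.inl.inj h1)
  simp only at h2
  omega

/-- two configurations that agree off `y`, first pick at `y` the same -/
private theorem L1z_val {V : Type*} {v : V} {L : ℕ} {i : Fin (L + 1)} {x' x'' : V → Co1 V}
    (hx' : Inj x' v L (Sum.inr (i, 0))) (y : V) (hy : spine x' v i = y)
    (h : ∀ u, u ≠ y → x' u = x'' u) (hya : (x' y).1 = (x'' y).1) (α : Addr L)
    (hα : ord α < ord (L := L) (Sum.inr (i, 0))) : addr x' v L α = addr x'' v L α := by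
  have hsp : ∀ j : ℕ, j ≤ i → spine x' v j = spine x'' v j :=
    fun j hj => L1z_spine hx' (by rw [hy]; exact h) j hj
  rcases α with j | ⟨i', j'⟩
  · show spine x' v j = spine x'' v j
    by_cases hj : (j : ℕ) ≤ i
    · exact hsp j hj
    · obtain ⟨k, hk⟩ : ∃ k : ℕ, (j : ℕ) = k + (i + 1) := ⟨j - (i + 1), by omega⟩
      have e1 : ∀ (z : V → Co1 V) (m : ℕ), spine z v (m + (i + 1)) =
          (fun u => (z u).1)^[m] ((z (spine z v i)).1) := by
        intro z m
        show (fun u => (z u).1)^[m + (i + 1)] v = _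
        rw [Function.iterate_add_apply, Function.iterate_succ_apply']
        rfl
      rw [hk, e1, e1, ← hsp i le_rfl, hy, ← hya]
      refine orbit_congr h _ k ?_ k le_rfl
      intro m hm he
      have h1 : spine x' v (m + (i + 1)) = y := by
        rw [e1, hy]
        exact he
      have hjl := j.2
      have h2 := hx' (Sum.inl ⟨m + (i + 1), by omega⟩) (Sum.inl i) (L1z_ord_inl i _)
        (L1z_ord_inl i _) (h1.trans hy.symm)
      have h3 := congrArg Fin.val (Sum.inl.inj h2)
      simp only at h3
      omega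
  · have hi' : i' < i := by
      have h1 : (L + 1) + ((i' : ℕ) * (L + 1) + (j' : ℕ)) < (L + 1) + ((i : ℕ) * (L + 1) + 0) := hα
      by_contra hc
      have h2 : (i : ℕ) * (L + 1) ≤ (i' : ℕ) * (L + 1) := Nat.mul_le_mul_right _ (not_lt.1 hc)
      omega
    have hne : spine x' v i' ≠ y := by
      intro he
      have h1 := hx' (Sum.inl i') (Sum.inl i) (L1z_ord_inl i _) (L1z_ord_inl i _)
        (he.trans hy.symm)
      have h2 := Sum.inl.inj h1
      rw [h2] at hi'
      exact lt_irrefl _ hi'
    show (fun u => (x' u).1)^[(j' : ℕ)] ((x' (spine x' v i')).2.1) =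
      (fun u => (x'' u).1)^[(j' : ℕ)] ((x'' (spine x'' v i')).2.1)
    rw [← hsp i' hi'.le, ← h _ hne]
    refine orbit_congr h _ j' ?_ j' le_rfl
    intro m hm he
    have hjl := j'.2
    have h1 := hx' (Sum.inr (i', ⟨m, by omega⟩)) (Sum.inl i) (L1z_ord_inr i i' _ hi')
        (L1z_ord_inl i _) (he.trans hy.symm)
    exact Sum.inr_ne_inl h1

theorem coll_zero {V : Type*} [Fintype V] {q : ℝ} (h0 : 0 ≤ q) (h1 : q ≤ 1)
    (B : V → Finset V) (hself : ∀ u, u ∈ B u) (v : V) (L : ℕ) {ρ : ℝ} (hρ : 1 < ρ)
    (hB : ∀ d ≤ 2 * L, ∀ u ∈ reach B d v, ρ ≤ ((B u).card : ℝ))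
    (i : Fin (L + 1)) (α : Addr L) (hα : ord α < ord (L := L) (Sum.inr (i, 0))) :
    pr (prodW (wt1 q B)) (Ecoll v L α (Sum.inr (i, 0))) ≤ 1 / (ρ - 1) := by
  refine resample_bound h0 h1 B hρ _ (fun x => spine x v i) ?_ ?_ ?_
  · intro x hx _ z
    refine (L1z_spine hx.1 ?_ i le_rfl).symm
    intro u hu
    rw [Function.update_of_ne hu]
  · intro x _ hs
    have hi := i.2
    exact hB i (by omega) _ (spine_mem_reach B x (prodW_wt1_supp B hself x hs) v i)
  · intro x hx hs
    refine Finset.card_le_card_of_injOn (fun ac : V × V => ac.1) ?_ ?_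
    · intro ac hac
      exact (Finset.mem_filter.1 hac).2.1
    · rintro ⟨a, c⟩ hac ⟨a', c'⟩ hac' haa
      have haa' : a = a' := haa
      subst haa'
      obtain ⟨-, -, -, -, σ, hσ⟩ := Finset.mem_filter.1 (Finset.mem_coe.1 hac)
      obtain ⟨-, -, -, -, σ', hσ'⟩ := Finset.mem_filter.1 (Finset.mem_coe.1 hac')
      have hy' : spine (Function.update x (spine x v i) (a, c, σ)) v i = spine x v i := by
        refine (L1z_spine hx.1 ?_ i le_rfl).symm
        intro u hu
        rw [Function.update_of_ne hu]
      have hy'' : spine (Function.update x (spine x v i) (a, c', σ')) v i = spine x v i := by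
        refine (L1z_spine hx.1 ?_ i le_rfl).symm
        intro u hu
        rw [Function.update_of_ne hu]
      have hv := L1z_val hσ.1 (spine x v i) hy'
        (x'' := Function.update x (spine x v i) (a, c', σ')) (by
          intro u hu
          rw [Function.update_of_ne hu, Function.update_of_ne hu]) (by
          rw [Function.update_self, Function.update_self]) α hα
      have e1 : addr (Function.update x (spine x v i) (a, c, σ)) v L (Sum.inr (i, 0)) = c := by
        show (Function.update x (spine x v i) (a, c, σ)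
          (spine (Function.update x (spine x v i) (a, c, σ)) v i)).2.1 = c
        rw [hy', Function.update_self]
      have e2 : addr (Function.update x (spine x v i) (a, c', σ')) v L (Sum.inr (i, 0)) = c' := by
        show (Function.update x (spine x v i) (a, c', σ')
          (spine (Function.update x (spine x v i) (a, c', σ')) v i)).2.1 = c'
        rw [hy'', Function.update_self]
      have h3 : c = c' := by
        rw [← e1, ← e2, ← hσ.2, ← hσ'.2]
        exact hv
      rw [h3]

end EA42
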