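import Pool.Agent.Lib.MP_ea42c6_pr.L1s
import Pool.Agent.Lib.MP_ea42c6_pr.L1r
import Pool.Agent.Lib.MP_ea42c6_pr.L1z

/-!
# L1 — the collision estimate

If `addr x v L` is not injective let `β` be the address with the smallest `ord β` whose value repeats
that of an address before it; then `Inj x v L β` and `x ∈ Ecoll v L α β` for some `α`,
`ord α < ord β`.  Union bound (`pr_exists_le`) over the at most `((L+1)(L+2))²` pairs
(`Fintype.card (Addr L) = (L+1) + (L+1)² = (L+1)(L+2)`); `β = inl 0` cannot occur (nothing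
is before it), the other cases are `coll_spine`, `coll_sec`, `coll_zero`.
-/

namespace EA42

open scoped Classical

private theorem L1_first {V : Type*} {x : V → Co1 V} {v : V} {L : ℕ} (h : ¬ NoColl x v L) :
    ∃ α β : Addr L, ord α < ord β ∧ x ∈ Ecoll v L α β := by
  have hex : ∃ n, ∃ α β : Addr L, ord β = n ∧ ord α < ord β ∧ addr x v L α = addr x v L β := by
    unfold NoColl Function.Injective at h
    push Not at h
    obtain ⟨γ, γ', h1, h2⟩ := h
    rcases lt_trichotomy (ord γ) (ord γ') with h3 | h3 | h3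
    · exact ⟨_, γ, γ', rfl, h3, h1⟩
    · exact absurd (ord_injective L h3) h2
    · exact ⟨_, γ', γ, rfl, h3, h1.symm⟩
  obtain ⟨α, β, hβ, hlt, hv⟩ := Nat.find_spec hex
  refine ⟨α, β, hlt, ?_, hv⟩
  intro γ γ' hγ hγ' he
  by_contra hne
  rcases lt_trichotomy (ord γ) (ord γ') with h3 | h3 | h3
  · exact Nat.find_min hex (m := ord γ') (by rw [← hβ]; exact hγ') ⟨γ, γ', rfl, h3, he⟩
  · exact hne (ord_injective L h3)
  · exact Nat.find_min hex (m := ord γ) (by rw [← hβ]; exact hγ) ⟨γ', γ, rfl, h3, he.symm⟩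

theorem coll_le {V : Type*} [Fintype V] {q : ℝ} (h0 : 0 ≤ q) (h1 : q ≤ 1)
    (B : V → Finset V) (hself : ∀ u, u ∈ B u) (v : V) (L : ℕ) {ρ : ℝ} (hρ : 1 < ρ)
    (hB : ∀ d ≤ 2 * L, ∀ u ∈ reach B d v, ρ ≤ ((B u).card : ℝ)) :
    pr (prodW (wt1 q B)) {x | ¬ NoColl x v L} ≤
      (((L : ℝ) + 1) * ((L : ℝ) + 2)) ^ 2 / (ρ - 1) := by
  have hP : IsProb (prodW (wt1 q B)) := isProb_prodW (isProb_wt1 h0 h1 B)
  have hρ' : 0 < ρ - 1 := by linarith
  have hE : ∀ α β : Addr L, ord α < ord β →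
      pr (prodW (wt1 q B)) (Ecoll v L α β) ≤ 1 / (ρ - 1) := by
    intro α β hαβ
    rcases β with ⟨j, hj⟩ | ⟨i, j, hj⟩
    · cases j with
      | zero => exact absurd hαβ (Nat.not_lt_zero _)
      | succ j => exact coll_spine h0 h1 B hself v L hρ hB j hj α hαβ
    · cases j with
      | zero => exact coll_zero h0 h1 B hself v L hρ hB i α hαβ
      | succ j => exact coll_sec h0 h1 B hself v L hρ hB i j hj α hαβ
  let s : Finset (Addr L × Addr L) := Finset.univ.filter fun k => ord k.1 < ord k.2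
  have hsub : {x | ¬ NoColl x v L} ⊆ {x | ∃ k ∈ s, x ∈ Ecoll v L k.1 k.2} := by
    intro x hx
    obtain ⟨α, β, h2, h3⟩ := L1_first hx
    exact ⟨(α, β), Finset.mem_filter.2 ⟨Finset.mem_univ _, h2⟩, h3⟩
  have hcard : (s.card : ℝ) ≤ (((L : ℝ) + 1) * ((L : ℝ) + 2)) ^ 2 := by
    have h4 : s.card ≤ ((L + 1) * (L + 2)) ^ 2 := by
      refine (Finset.card_le_univ s).trans ?_
      rw [Fintype.card_prod, Fintype.card_sum, Fintype.card_prod, Fintype.card_fin]
      apply le_of_eq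
      ring
    have h5 : (s.card : ℝ) ≤ ((((L + 1) * (L + 2)) ^ 2 : ℕ) : ℝ) := by exact_mod_cast h4
    refine h5.trans (le_of_eq ?_)
    push_cast
    ring
  calc pr (prodW (wt1 q B)) {x | ¬ NoColl x v L}
      ≤ pr (prodW (wt1 q B)) {x | ∃ k ∈ s, x ∈ Ecoll v L k.1 k.2} := pr_mono hP hsub
    _ ≤ ∑ k ∈ s, pr (prodW (wt1 q B)) (Ecoll v L k.1 k.2) := pr_exists_le hP s _
    _ ≤ ∑ _k ∈ s, 1 / (ρ - 1) :=
        Finset.sum_le_sum fun k hk => hE k.1 k.2 (Finset.mem_filter.1 hk).2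
    _ = (s.card : ℝ) * (1 / (ρ - 1)) := by rw [Finset.sum_const, nsmul_eq_mul]
    _ ≤ (((L : ℝ) + 1) * ((L : ℝ) + 2)) ^ 2 * (1 / (ρ - 1)) :=
        mul_le_mul_of_nonneg_right hcard (by positivity)
    _ = (((L : ℝ) + 1) * ((L : ℝ) + 2)) ^ 2 / (ρ - 1) := by rw [mul_one_div]

end EA42
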