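import Pool.Agent.Lib.MP_ea42c6_pr.W0

/-!
# L1a — the resampling bound behind the collision estimate

`E` is an event about the first stage, `P x` a vertex such that for `x ∈ E` (in the support)
resampling the coordinate of `P x` does not change `P x`, and at most `|B (P x)|` of the
`|B|(|B|-1)` ordered pairs `(a,c₁)` put in this coordinate keep us in `E`.  Then `pr E ≤ 1/(ρ-1)`.

Proof: `pr E = ∑_y pr (E ∩ {P = y})` and, by `pr_resample` at `y`,
`pr (E ∩ {P = y}) = ∑_x w(x) * pr (wt1 y) {z | update x y z ∈ E ∧ P (update x y z) = y}`.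
If the inner set is nonempty (within the support), say it has `z`, then `x' = update x y z ∈ E`,
`P x' = y`; hence `P x = P (update x' y (x y)) = y`, and the inner set is contained in
`{z | update x' y z ∈ E}`, whose pairs number at most `|B y|`; each pair has weight
`1/(|B|(|B|-1))` (sum over `σ₁` is 1), so the inner probability is at most `1/(|B y| - 1) ≤ 1/(ρ-1)`.
So the sum is at most `∑_y ∑_x w(x) 1{P x = y} /(ρ-1) = 1/(ρ-1)`.
(Take care that `x'` is in the support when `x` and `z` are; terms of weight 0 do not matter.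
The support condition is stated through `prodW (wt1 q B) x ≠ 0`.)
-/

namespace EA42

open scoped Classical

private theorem L1a_inner {V : Type*} [Fintype V] {q : ℝ} (h0 : 0 ≤ q) (h1 : q ≤ 1)
    (B : V → Finset V) {ρ : ℝ} (hρ : 1 < ρ) (y : V) (hB : ρ ≤ ((B y).card : ℝ))
    (T : Finset (V × V)) (hT : T.card ≤ (B y).card) (Z : Set (Co1 V))
    (hZ : ∀ z ∈ Z, (z.1 ∈ B y ∧ z.2.1 ∈ B y ∧ z.1 ≠ z.2.1) → (z.1, z.2.1) ∈ T) :
    pr (wt1 q B y) Z ≤ 1 / (ρ - 1) := by
  have hb : IsProb (bern (q / 20)) := isProb_bern (by linarith) (by linarith)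
  have hc1 : (1 : ℝ) < ((B y).card : ℝ) := lt_of_lt_of_le hρ hB
  have hc2 : 2 ≤ (B y).card := by
    have : 1 < (B y).card := by exact_mod_cast hc1
    omega
  set K : ℝ := 1 / (((B y).card : ℝ) * (((B y).card : ℝ) - 1)) with hK
  have hK0 : 0 ≤ K := by
    rw [hK]
    exact div_nonneg zero_le_one (mul_nonneg (by linarith) (by linarith))
  have step : pr (wt1 q B y) Z ≤ ∑ z : Co1 V, (if (z.1, z.2.1) ∈ T then K else 0) *
      bern (q / 20) z.2.2 := by
    unfold pr
    refine Finset.sum_le_sum fun z _ => ?_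
    have hr : 0 ≤ (if (z.1, z.2.1) ∈ T then K else 0) * bern (q / 20) z.2.2 := by
      refine mul_nonneg ?_ (hb.1 _)
      split_ifs
      · exact hK0
      · exact le_rfl
    by_cases hz : z ∈ Z
    · rw [if_pos hz]
      unfold wt1 pairW
      rw [if_pos hc2]
      by_cases hz2 : z.1 ∈ B y ∧ z.2.1 ∈ B y ∧ z.1 ≠ z.2.1
      · rw [if_pos (show ((z.1, z.2.1) : V × V).1 ∈ B y ∧ ((z.1, z.2.1) : V × V).2 ∈ B y ∧
          ((z.1, z.2.1) : V × V).1 ≠ ((z.1, z.2.1) : V × V).2 from hz2), if_pos (hZ z hz hz2)]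
      · rw [if_neg (show ¬ (((z.1, z.2.1) : V × V).1 ∈ B y ∧ ((z.1, z.2.1) : V × V).2 ∈ B y ∧
          ((z.1, z.2.1) : V × V).1 ≠ ((z.1, z.2.1) : V × V).2) from hz2), zero_mul]
        exact hr
    · rw [if_neg hz]
      exact hr
  refine step.trans ?_
  have e1 : ∑ z : Co1 V, (if (z.1, z.2.1) ∈ T then K else 0) * bern (q / 20) z.2.2 =
      ∑ ac : V × V, (if ac ∈ T then K else 0) := by
    rw [Fintype.sum_prod_type, Fintype.sum_prod_type]
    refine Finset.sum_congr rfl fun a _ => ?_
    rw [Fintype.sum_prod_type]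
    refine Finset.sum_congr rfl fun c _ => ?_
    by_cases hm : (a, c) ∈ T
    · simp only [hm, if_true]
      rw [← Finset.mul_sum, hb.2, mul_one]
    · simp only [hm, if_false, zero_mul, Finset.sum_const_zero]
  rw [e1, Finset.sum_ite_mem, Finset.univ_inter, Finset.sum_const, nsmul_eq_mul]
  have hT' : (T.card : ℝ) ≤ ((B y).card : ℝ) := by exact_mod_cast hT
  have hpos : 0 < ((B y).card : ℝ) - 1 := by linarith
  have hpos2 : 0 < ((B y).card : ℝ) := by linarith
  calc (T.card : ℝ) * K ≤ ((B y).card : ℝ) * K := mul_le_mul_of_nonneg_right hT' hK0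
    _ = 1 / (((B y).card : ℝ) - 1) := by
      rw [hK]
      field_simp
    _ ≤ 1 / (ρ - 1) := one_div_le_one_div_of_le (by linarith) (by linarith)

theorem resample_bound {V : Type*} [Fintype V] {q : ℝ} (h0 : 0 ≤ q) (h1 : q ≤ 1)
    (B : V → Finset V) {ρ : ℝ} (hρ : 1 < ρ) (E : Set (V → Co1 V)) (P : (V → Co1 V) → V)
    (hP : ∀ x ∈ E, prodW (wt1 q B) x ≠ 0 → ∀ z, P (Function.update x (P x) z) = P x)
    (hB : ∀ x ∈ E, prodW (wt1 q B) x ≠ 0 → ρ ≤ ((B (P x)).card : ℝ))
    (hcard : ∀ x ∈ E, prodW (wt1 q B) x ≠ 0 →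
      (Finset.univ.filter fun ac : V × V => ac.1 ∈ B (P x) ∧ ac.2 ∈ B (P x) ∧ ac.1 ≠ ac.2 ∧
        ∃ σ : Bool, Function.update x (P x) (ac.1, ac.2, σ) ∈ E).card ≤ (B (P x)).card) :
    pr (prodW (wt1 q B)) E ≤ 1 / (ρ - 1) := by
  have hw : ∀ i, IsProb (wt1 q B i) := fun i => isProb_wt1 h0 h1 B i
  have hW : IsProb (prodW (wt1 q B)) := isProb_prodW hw
  have hρ0 : 0 ≤ 1 / (ρ - 1) := by
    apply div_nonneg zero_le_one
    linarith
  set F : V → Set (V → Co1 V) := fun y => {x | x ∈ E ∧ prodW (wt1 q B) x ≠ 0 ∧ P x = y} with hF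
  have e1 : pr (prodW (wt1 q B)) E = ∑ y, pr (prodW (wt1 q B)) (F y) := by
    unfold pr
    rw [Finset.sum_comm]
    refine Finset.sum_congr rfl fun x _ => ?_
    by_cases hx0 : prodW (wt1 q B) x = 0
    · simp only [hx0, ite_self, Finset.sum_const_zero]
    · by_cases hx : x ∈ E
      · rw [if_pos hx, Finset.sum_eq_single (P x)]
        · rw [if_pos (show x ∈ F (P x) from ⟨hx, hx0, rfl⟩)]
        · intro y _ hy
          rw [if_neg]
          rintro ⟨-, -, h3⟩
          exact hy h3.symm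
        · intro h
          exact absurd (Finset.mem_univ _) h
      · rw [if_neg hx]
        symm
        refine Finset.sum_eq_zero fun y _ => ?_
        rw [if_neg]
        rintro ⟨h3, -, -⟩
        exact hx h3
  have key : ∀ y x, prodW (wt1 q B) x ≠ 0 →
      pr (wt1 q B y) {z | Function.update x y z ∈ F y} ≤ if P x = y then 1 / (ρ - 1) else 0 := by
    intro y x hx0
    by_cases hne : ∃ z, Function.update x y z ∈ F y
    · obtain ⟨z, hzE, hz0, hzP⟩ := hne
      have hPx : P x = y := by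
        have h3 := hP _ hzE hz0 (x y)
        rw [hzP, Function.update_idem, Function.update_eq_self] at h3
        exact h3
      rw [if_pos hPx]
      have h4 := hB _ hzE hz0
      have h5 := hcard _ hzE hz0
      simp only [hzP, Function.update_idem] at h4 h5
      refine L1a_inner h0 h1 B hρ y h4 _ h5 _ fun z' hz' h6 => ?_
      simp only [Finset.mem_filter, Finset.mem_univ, true_and]
      exact ⟨h6.1, h6.2.1, h6.2.2, z'.2.2, hz'.1⟩
    · have h3 : pr (wt1 q B y) {z | Function.update x y z ∈ F y} = 0 := by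
        unfold pr
        refine Finset.sum_eq_zero fun z _ => ?_
        rw [if_neg]
        intro h
        exact hne ⟨z, h⟩
      rw [h3]
      split_ifs
      · exact hρ0
      · exact le_rfl
  calc pr (prodW (wt1 q B)) E = ∑ y, pr (prodW (wt1 q B)) (F y) := e1
    _ = ∑ y, ∑ x, prodW (wt1 q B) x *
          pr (wt1 q B y) {z | Function.update x y z ∈ F y} :=
        Finset.sum_congr rfl fun y _ => pr_resample hw y (F y)
    _ ≤ ∑ y, ∑ x, prodW (wt1 q B) x * (if P x = y then 1 / (ρ - 1) else 0) := by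
        refine Finset.sum_le_sum fun y _ => Finset.sum_le_sum fun x _ => ?_
        by_cases hx0 : prodW (wt1 q B) x = 0
        · rw [hx0, zero_mul, zero_mul]
        · exact mul_le_mul_of_nonneg_left (key y x hx0) (hW.1 x)
    _ = ∑ x, prodW (wt1 q B) x * (1 / (ρ - 1)) := by
        rw [Finset.sum_comm]
        refine Finset.sum_congr rfl fun x _ => ?_
        rw [← Finset.mul_sum, Finset.sum_ite_eq Finset.univ (P x)]
        simp
    _ = 1 / (ρ - 1) := by rw [← Finset.sum_mul, hW.2, one_mul]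

end EA42
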