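import Pool.Agent.Lib.MP_ea42c6_pr.L1a

/-!
# L1d — addresses in order, orbits under a change of one coordinate

`ord` numbers the addresses: the spine `inl 0, ..., inl L` first, then `inr (i,j)`
lexicographically.  `Inj x v L β`: the values at the addresses before `β` are distinct.
`Ecoll v L α β`: moreover the value at `β` is that at `α`.
`orbit_congr`: induction on `j`.
`spine_mem_reach`, `sec_mem_reach`: on the support the values stay in `reach`
(`Function.iterate_succ_apply'`, `Finset.mem_biUnion`).
-/

namespace EA42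

open scoped Classical

/-- Addresses. -/
abbrev Addr (L : ℕ) := Fin (L + 1) ⊕ (Fin (L + 1) × Fin (L + 1))

/-- The position of an address. -/
def ord {L : ℕ} : Addr L → ℕ
  | Sum.inl i => i
  | Sum.inr ij => (L + 1) + ((ij.1 : ℕ) * (L + 1) + (ij.2 : ℕ))

/-- Distinct values before `β`. -/
def Inj {V : Type*} (x : V → Co1 V) (v : V) (L : ℕ) (β : Addr L) : Prop :=
  ∀ γ γ' : Addr L, ord γ < ord β → ord γ' < ord β → addr x v L γ = addr x v L γ' → γ = γ'

/-- `β` is the first address to repeat, and it repeats `α`. -/
def Ecoll {V : Type*} (v : V) (L : ℕ) (α β : Addr L) : Set (V → Co1 V) :=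
  {x | Inj x v L β ∧ addr x v L α = addr x v L β}

theorem ord_injective (L : ℕ) : Function.Injective (ord (L := L)) := by
  intro γ γ' h
  rcases γ with i | ⟨i, j⟩ <;> rcases γ' with i' | ⟨i', j'⟩
  · simp only [ord] at h
    rw [Fin.ext h]
  · simp only [ord] at h
    have := i.2
    omega
  · simp only [ord] at h
    have := i'.2
    omega
  · simp only [ord] at h
    have hj := j.2
    have hj' := j'.2
    have h' : (i : ℕ) * (L + 1) + (j : ℕ) = (i' : ℕ) * (L + 1) + (j' : ℕ) := by omega
    have hdiv : (i : ℕ) = i' := by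
      have h1 : ((i : ℕ) * (L + 1) + (j : ℕ)) / (L + 1) = i := by
        rw [mul_comm, Nat.mul_add_div (by omega), Nat.div_eq_of_lt hj, add_zero]
      have h2 : ((i' : ℕ) * (L + 1) + (j' : ℕ)) / (L + 1) = i' := by
        rw [mul_comm, Nat.mul_add_div (by omega), Nat.div_eq_of_lt hj', add_zero]
      rw [← h1, ← h2, h']
    have hjj : (j : ℕ) = j' := by
      rw [hdiv] at h'
      omega
    rw [Fin.ext hdiv, Fin.ext hjj]

/-- If two configurations agree off `y` and the orbit of `v` avoids `y` before time `k`, the orbits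
agree up to time `k`. -/
theorem orbit_congr {V : Type*} {x x' : V → Co1 V} {y : V} (h : ∀ u, u ≠ y → x u = x' u) (v : V)
    (k : ℕ) (hk : ∀ j < k, (fun u => (x u).1)^[j] v ≠ y) :
    ∀ j ≤ k, (fun u => (x u).1)^[j] v = (fun u => (x' u).1)^[j] v := by
  intro j
  induction j with
  | zero => intro _; rfl
  | succ j ih =>
    intro hj
    have h1 := ih (by omega)
    rw [Function.iterate_succ_apply', Function.iterate_succ_apply', ← h1]
    have h2 := h _ (hk j (by omega))
    exact congrArg Prod.fst h2

theorem spine_mem_reach {V : Type*} [Fintype V] (B : V → Finset V) (x : V → Co1 V)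
    (hx : ∀ u, (x u).1 ∈ B u ∧ (x u).2.1 ∈ B u) (v : V) (i : ℕ) :
    spine x v i ∈ reach B i v := by
  induction i with
  | zero => simp [spine, reach]
  | succ i ih =>
    have h1 : spine x v (i + 1) = (x (spine x v i)).1 := by
      unfold spine
      rw [Function.iterate_succ_apply']
    rw [h1, reach, Finset.mem_biUnion]
    exact ⟨_, ih, (hx _).1⟩

theorem sec_mem_reach {V : Type*} [Fintype V] (B : V → Finset V) (x : V → Co1 V)
    (hx : ∀ u, (x u).1 ∈ B u ∧ (x u).2.1 ∈ B u) (v : V) (i j : ℕ) :
    sec x v i j ∈ reach B (i + 1 + j) v := by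
  induction j with
  | zero =>
    have h1 : sec x v i 0 = (x (spine x v i)).2.1 := rfl
    rw [h1, add_zero, reach, Finset.mem_biUnion]
    exact ⟨_, spine_mem_reach B x hx v i, (hx _).2⟩
  | succ j ih =>
    have h1 : sec x v i (j + 1) = (x (sec x v i j)).1 := by
      unfold sec
      rw [Function.iterate_succ_apply']
    rw [h1, ← add_assoc, reach, Finset.mem_biUnion]
    exact ⟨_, ih, (hx _).1⟩

end EA42
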