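import Pool.Agent.Lib.MP_ea42c6_pr.L1d

/-!
# L1s — collision at a spine address `inl (i+1)`

`resample_bound` with `E = Ecoll v L α β`, `P x = spine x v i`.  Let `x ∈ E`, `y = spine x v i`,
`x' = update x y z`.  The values `spine 0 .. spine i` are distinct for `x`, so the orbit avoids `y` before
time `i` and `orbit_congr` gives `spine x' v j = spine x v j` for `j ≤ i`; in particular
`P x' = y`.  `α = inl j` with `j ≤ i`.  If also `x' ∈ E`, then
`z.1 = (x' y).1 = spine x' v (i+1) = spine x' v j = spine x v j`: the first entry of the pair is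
forced, so there are at most `|B y|` pairs.  `|B y| ≥ ρ` by `spine_mem_reach` (`i ≤ 2L`) on the
support (`prodW_wt1_supp`).
-/

namespace EA42

open scoped Classical

theorem l1s_orbit {V : Type*} {v : V} {L i : ℕ} (hi : i + 1 < L + 1) {x : V → Co1 V}
    (hx : Inj x v L (Sum.inl ⟨i + 1, hi⟩)) (z : Co1 V) (j : ℕ) (hj : j ≤ i) :
    spine (Function.update x (spine x v i) z) v j = spine x v j := by
  have h1 : ∀ u, u ≠ spine x v i → x u = Function.update x (spine x v i) z u := by
    intro u hu
    rw [Function.update_of_ne hu]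
  have h2 : ∀ t < i, (fun u => (x u).1)^[t] v ≠ spine x v i := by
    intro t ht heq
    have h3 := hx (Sum.inl ⟨t, by omega⟩) (Sum.inl ⟨i, by omega⟩)
      (by simp only [ord]; omega) (by simp only [ord]; omega) heq
    have h4 := congrArg (Sum.elim (fun a : Fin (L + 1) => (a : ℕ)) (fun _ => 0)) h3
    simp only [Sum.elim_inl] at h4
    omega
  exact (orbit_congr h1 v i h2 j hj).symm

theorem coll_spine {V : Type*} [Fintype V] {q : ℝ} (h0 : 0 ≤ q) (h1 : q ≤ 1)
    (B : V → Finset V) (hself : ∀ u, u ∈ B u) (v : V) (L : ℕ) {ρ : ℝ} (hρ : 1 < ρ)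
    (hB : ∀ d ≤ 2 * L, ∀ u ∈ reach B d v, ρ ≤ ((B u).card : ℝ))
    (i : ℕ) (hi : i + 1 < L + 1) (α : Addr L) (hα : ord α < ord (L := L) (Sum.inl ⟨i + 1, hi⟩)) :
    pr (prodW (wt1 q B)) (Ecoll v L α (Sum.inl ⟨i + 1, hi⟩)) ≤ 1 / (ρ - 1) := by
  refine resample_bound h0 h1 B hρ _ (fun x => spine x v i) ?_ ?_ ?_
  · intro x hx _ z
    exact l1s_orbit hi hx.1 z i le_rfl
  · intro x _ hw
    exact hB i (by omega) _ (spine_mem_reach B x (prodW_wt1_supp B hself x hw) v i)
  · intro x hx _
    obtain ⟨j, hj, hαj⟩ : ∃ (j : ℕ) (hj : j < L + 1), j ≤ i ∧ α = Sum.inl ⟨j, hj⟩ := by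
      rcases α with a | a
      · refine ⟨a, a.isLt, ?_, rfl⟩
        simp only [ord] at hα
        omega
      · exfalso
        simp only [ord] at hα
        omega
    obtain ⟨hji, rfl⟩ := hαj
    have hsub : (Finset.univ.filter fun ac : V × V => ac.1 ∈ B (spine x v i) ∧
        ac.2 ∈ B (spine x v i) ∧ ac.1 ≠ ac.2 ∧
        ∃ σ : Bool, Function.update x (spine x v i) (ac.1, ac.2, σ) ∈
          Ecoll v L (Sum.inl ⟨j, hj⟩) (Sum.inl ⟨i + 1, hi⟩)) ⊆
        (B (spine x v i)).image (fun c => (spine x v j, c)) := by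
      rintro ⟨a, c⟩ hac
      rw [Finset.mem_filter] at hac
      obtain ⟨-, ha, hc, -, σ, hE⟩ := hac
      rw [Finset.mem_image]
      refine ⟨c, hc, ?_⟩
      have e1 : spine (Function.update x (spine x v i) (a, c, σ)) v j =
          spine (Function.update x (spine x v i) (a, c, σ)) v (i + 1) := hE.2
      rw [l1s_orbit hi hx.1 _ j hji] at e1
      have e2 : spine (Function.update x (spine x v i) (a, c, σ)) v (i + 1) =
          (Function.update x (spine x v i) (a, c, σ)
            (spine (Function.update x (spine x v i) (a, c, σ)) v i)).1 := by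
        unfold spine
        rw [Function.iterate_succ_apply']
      rw [e2, l1s_orbit hi hx.1 _ i le_rfl, Function.update_self] at e1
      rw [e1]
    exact (Finset.card_le_card hsub).trans Finset.card_image_le

end EA42
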