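import Pool.Agent.Lib.MP_ea42c6_pr.W0
import Pool.Agent.Lib.MP_ea42c6_pr.FP2

/-!
# L2 — the segments, and the probability to be lost

`seg_le`: the weight `wt1 q B u` is `pairW ⊗ bern (q/20)`: write `V × V × Bool` as
`(V × V) × Bool` and use `pr_two_stage` (kernel not depending on the first coordinate) to
condition on the pairs `(a,c₁)`.  Given the pairs the spine is fixed; on `NoColl` its vertices
`spine 0 .. spine L` are distinct (`L = k₀ ℓ`), so for `t < k₀` the probability that all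
`σ₁ (spine i) = false` for the `ℓ` indices `i` of the segment is `(1 - q/20)^ℓ` (`pr_rect`).  Union
bound over `t < k₀`.

`lost_le`: union of `¬ NoColl` and `NoColl ∧ ¬ SegOK`, with the collision bound as a
hypothesis (`hcoll`), so that this module does not depend on L1.
-/

namespace EA42

open scoped Classical

/-- A configuration from the pairs and the marks. -/
def l2mk {V : Type*} (p : V → V × V) (y : V → Bool) : V → Co1 V :=
  fun u => ((p u).1, (p u).2, y u)

/-- Pairs and marks. -/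
def l2E (V : Type*) : (V → (V × V) × Bool) ≃ (V → Co1 V) where
  toFun z := fun u => ((z u).1.1, (z u).1.2, (z u).2)
  invFun x := fun u => (((x u).1, (x u).2.1), (x u).2.2)
  left_inv z := rfl
  right_inv x := rfl

theorem l2_spine {V : Type*} (p : V → V × V) (y y' : V → Bool) (v : V) (i : ℕ) :
    spine (l2mk p y) v i = spine (l2mk p y') v i := rfl

theorem l2_noColl {V : Type*} (p : V → V × V) (y y' : V → Bool) (v : V) (L : ℕ)
    (h : NoColl (l2mk p y) v L) : NoColl (l2mk p y') v L := by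
  have e : addr (l2mk p y') v L = addr (l2mk p y) v L := by
    funext a
    cases a <;> rfl
  unfold NoColl
  rw [e]
  exact h

theorem l2_fixed {V : Type*} [Fintype V] {q : ℝ} (h0 : 0 ≤ q) (h1 : q ≤ 1)
    (p : V → V × V) (v : V) (k₀ ℓ : ℕ) :
    pr (prodW fun _ : V => bern (q / 20))
      {y | NoColl (l2mk p y) v (k₀ * ℓ) ∧ ¬ SegOK (l2mk p y) v k₀ ℓ} ≤
      k₀ * (1 - q / 20) ^ ℓ := by
  have hb : IsProb (bern (q / 20)) := isProb_bern (by linarith) (by linarith)
  have hp : IsProb (prodW fun _ : V => bern (q / 20)) := isProb_prodW fun _ => hb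
  have hpos : (0 : ℝ) ≤ (k₀ : ℝ) * (1 - q / 20) ^ ℓ :=
    mul_nonneg (Nat.cast_nonneg _) (pow_nonneg (by linarith) _)
  by_cases hN : ∀ y : V → Bool, ¬ NoColl (l2mk p y) v (k₀ * ℓ)
  · have hE : {y : V → Bool | NoColl (l2mk p y) v (k₀ * ℓ) ∧ ¬ SegOK (l2mk p y) v k₀ ℓ} = ∅ := by
      ext y
      simp only [Set.mem_ofPred_eq, Set.mem_empty_iff_false, iff_false, not_and]
      intro h
      exact absurd h (hN y)
    rw [hE]
    unfold pr
    simp only [Set.mem_empty_iff_false, if_false, Finset.sum_const_zero]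
    exact hpos
  · push Not at hN
    obtain ⟨y0, hy0⟩ := hN
    set s : ℕ → V := fun i => spine (l2mk p y0) v i with hs
    have hinj : ∀ i ≤ k₀ * ℓ, ∀ j ≤ k₀ * ℓ, s i = s j → i = j := by
      intro i hi j hj hij
      have h2 := @hy0 (Sum.inl ⟨i, by omega⟩) (Sum.inl ⟨j, by omega⟩) hij
      have h3 := Sum.inl_injective h2
      exact congrArg (fun z : Fin (k₀ * ℓ + 1) => (z : ℕ)) h3
    have hsub : {y : V → Bool | NoColl (l2mk p y) v (k₀ * ℓ) ∧ ¬ SegOK (l2mk p y) v k₀ ℓ} ⊆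
        {y : V → Bool | ∃ t ∈ Finset.range k₀,
          y ∈ {y : V → Bool | ∀ u ∈ (Finset.Ico (t * ℓ) ((t + 1) * ℓ)).image s,
            y u ∈ ({false} : Set Bool)}} := by
      rintro y ⟨-, hy⟩
      unfold SegOK at hy
      push Not at hy
      obtain ⟨t, ht, hy⟩ := hy
      refine ⟨t, Finset.mem_range.2 ht, ?_⟩
      intro u hu
      obtain ⟨i, hi, rfl⟩ := Finset.mem_image.1 hu
      rw [Finset.mem_Ico] at hi
      have h3 := hy i hi.1 hi.2
      have h4 : y (s i) ≠ true := h3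
      rw [Set.mem_singleton_iff]
      exact Bool.eq_false_iff.2 h4
    refine (pr_mono hp hsub).trans ((pr_exists_le hp (Finset.range k₀) _).trans ?_)
    have hterm : ∀ t ∈ Finset.range k₀, pr (prodW fun _ : V => bern (q / 20))
        {y : V → Bool | ∀ u ∈ (Finset.Ico (t * ℓ) ((t + 1) * ℓ)).image s,
            y u ∈ ({false} : Set Bool)} ≤ (1 - q / 20) ^ ℓ := by
      intro t ht
      rw [Finset.mem_range] at ht
      rw [pr_rect (fun _ => hb) ((Finset.Ico (t * ℓ) ((t + 1) * ℓ)).image s)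
        (fun _ => ({false} : Set Bool))]
      have h5 : pr (bern (q / 20)) ({false} : Set Bool) = 1 - q / 20 := by
        unfold pr
        rw [Fintype.sum_bool]
        simp [bern]
      rw [Finset.prod_const, h5]
      have h6 : ((Finset.Ico (t * ℓ) ((t + 1) * ℓ)).image s).card = ℓ := by
        rw [Finset.card_image_of_injOn, Nat.card_Ico]
        · have : (t + 1) * ℓ = t * ℓ + ℓ := by ring
          omega
        · intro i hi j hj hij
          have hle : (t + 1) * ℓ ≤ k₀ * ℓ := Nat.mul_le_mul_right _ ht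
          rw [Finset.mem_coe, Finset.mem_Ico] at hi hj
          exact hinj i (by omega) j (by omega) hij
      rw [h6]
    refine (Finset.sum_le_sum hterm).trans ?_
    rw [Finset.sum_const, Finset.card_range, nsmul_eq_mul]

theorem seg_le {V : Type*} [Fintype V] {q : ℝ} (h0 : 0 ≤ q) (h1 : q ≤ 1)
    (B : V → Finset V) (v : V) (k₀ ℓ : ℕ) :
    pr (prodW (wt1 q B)) {x | NoColl x v (k₀ * ℓ) ∧ ¬ SegOK x v k₀ ℓ} ≤
      k₀ * (1 - q / 20) ^ ℓ := by
  have e1 : pr (prodW (wt1 q B)) {x | NoColl x v (k₀ * ℓ) ∧ ¬ SegOK x v k₀ ℓ} =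
      pr (prodW fun u (z : (V × V) × Bool) => pairW (B u) u z.1 * bern (q / 20) z.2)
        {z : V → (V × V) × Bool | NoColl (l2E V z) v (k₀ * ℓ) ∧ ¬ SegOK (l2E V z) v k₀ ℓ} := by
    unfold pr
    rw [← (l2E V).sum_comp]
    rfl
  rw [e1, pr_two_stage (fun u => pairW (B u) u) (fun _ _ => bern (q / 20))]
  have hpp : IsProb (prodW fun u => pairW (B u) u) := isProb_prodW fun u => isProb_pairW (B u) u
  calc (∑ x : V → V × V, prodW (fun u => pairW (B u) u) x *
        pr (prodW fun _ : V => bern (q / 20)) {y | (fun i => (x i, y i)) ∈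
          {z : V → (V × V) × Bool | NoColl (l2E V z) v (k₀ * ℓ) ∧ ¬ SegOK (l2E V z) v k₀ ℓ}})
      ≤ ∑ x : V → V × V, prodW (fun u => pairW (B u) u) x * (k₀ * (1 - q / 20) ^ ℓ) :=
        Finset.sum_le_sum fun x _ =>
          mul_le_mul_of_nonneg_left (l2_fixed h0 h1 x v k₀ ℓ) (hpp.1 x)
    _ = k₀ * (1 - q / 20) ^ ℓ := by rw [← Finset.sum_mul, hpp.2, one_mul]

theorem lost_le {V : Type*} [Fintype V] {q : ℝ} (h0 : 0 ≤ q) (h1 : q ≤ 1)
    (B : V → Finset V) (v : V) (k₀ ℓ : ℕ) {e : ℝ}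
    (hcoll : pr (prodW (wt1 q B)) {x | ¬ NoColl x v (k₀ * ℓ)} ≤ e) :
    pr (prodW (wt1 q B)) {x | Lost x v k₀ ℓ} ≤ e + k₀ * (1 - q / 20) ^ ℓ := by
  have hp : IsProb (prodW (wt1 q B)) := isProb_prodW fun u => isProb_wt1 h0 h1 B u
  have hsub : {x : V → Co1 V | Lost x v k₀ ℓ} ⊆ {x | ¬ NoColl x v (k₀ * ℓ)} ∪
      {x | NoColl x v (k₀ * ℓ) ∧ ¬ SegOK x v k₀ ℓ} := by
    intro x hx
    by_cases hc : NoColl x v (k₀ * ℓ)
    · exact Or.inr ⟨hc, fun hs => hx ⟨hc, hs⟩⟩
    · exact Or.inl hc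
  exact (pr_mono hp hsub).trans ((pr_union_le hp _ _).trans
    (add_le_add hcoll (seg_le h0 h1 B v k₀ ℓ)))

end EA42
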