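import Pool.Agent.Lib.MP_ea42c6_pr.L1
import Pool.Agent.Lib.MP_ea42c6_pr.L2
import Pool.Agent.Lib.MP_ea42c6_pr.L3a
import Pool.Agent.Lib.MP_ea42c6_pr.FP3

/-!
# L3 — the first stage is good in every cell of `W`

For `v` with cell in `W`: every vertex of `reach (d.2) j v`, `j ≤ 2L`, `L = k₀ ℓ`, has its cell
within `4j ≤ 4 (2L+1)` of that of `v` (`reach_near`, `near_mono`), so it lies in `R`,
and its ball has at least `μ/2` members (`card_ball_lo`).
By `coll_le` (with `ρ = μ/2 > 1`) and `lost_le`: `pr Lost ≤ ε₁ := ((L+1)(L+2))²/(μ/2-1) + k₀(1-q/20)^ℓ`.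
For a cell `c` (`N_c ≥ μ/2 > 0`), Markov (`pr_markov`, with `t = (θ/2) N_c`):
`pr {#lost > (θ/2) N_c} ≤ ε₁/(θ/2)`.  `#{σ₁} > N_c/10` has probability `≤ 20/N_c ≤ 40/μ`:
`sigma_count` (from `bern_count` with `p = q/20 ≤ 1/20`, after taking the marginal of the third
component: `V × V × Bool` as `(V × V) × Bool` and `pr_two_stage`).  Union over `c ∈ W`.
-/

namespace EA42

open scoped Classical

/-- The first stage is good in `W`. -/
def Good1 {V : Type*} [Fintype V] {M : ℕ} (cl : V → Cell M) (x : V → Co1 V)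
    (W : Finset (Cell M)) (θ : ℝ) (k₀ ℓ : ℕ) : Prop :=
  ∀ c ∈ W, ((Finset.univ.filter fun v => cl v = c ∧ Lost x v k₀ ℓ).card : ℝ) ≤
      θ / 2 * (cnt cl c : ℝ) ∧
    ((Finset.univ.filter fun v => cl v = c ∧ (x v).2.2 = true).card : ℝ) ≤ (cnt cl c : ℝ) / 10

/-- First stage written as pair and bit. -/
private theorem L3_assoc {V : Type*} [Fintype V] {q : ℝ} (B : V → Finset V)
    (E : Set (V → Co1 V)) :
    pr (prodW (wt1 q B)) E =
      pr (prodW fun (i : V) (z : (V × V) × Bool) => pairW (B i) i z.1 * bern (q / 20) z.2)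
        {x | (fun i => ((x i).1.1, (x i).1.2, (x i).2)) ∈ E} := by
  unfold pr
  rw [← (Equiv.arrowCongr (Equiv.refl V) (Equiv.prodAssoc V V Bool)).sum_comp]
  rfl

theorem sigma_count {V : Type*} [Fintype V] {q : ℝ} (h0 : 0 ≤ q) (h1 : q ≤ 1)
    (B : V → Finset V) (S : Finset V) (hS : S.Nonempty) :
    pr (prodW (wt1 q B))
      {x | (S.card : ℝ) / 10 < ((S.filter fun i => (x i).2.2 = true).card : ℝ)} ≤
      20 / (S.card : ℝ) := by
  rw [L3_assoc, pr_two_stage (fun (i : V) => pairW (B i) i) (fun (_ : V) (_ : V × V) => bern (q / 20))]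
  have hP : IsProb (prodW fun i : V => pairW (B i) i) := isProb_prodW fun i => isProb_pairW _ _
  have hb := bern_count (ι := V) (p := q / 20) (by linarith) (by linarith) S hS
  calc _ ≤ ∑ x : V → V × V, prodW (fun i : V => pairW (B i) i) x * (20 / (S.card : ℝ)) :=
        Finset.sum_le_sum fun x _ => mul_le_mul_of_nonneg_left hb (hP.1 x)
    _ = 20 / (S.card : ℝ) := by rw [← Finset.sum_mul, hP.2, one_mul]

theorem stage1_le {V : Type*} [Fintype V] {M : ℕ} [NeZero M] {q θ μ : ℝ} (h0 : 0 ≤ q)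
    (h1 : q ≤ 1) (hθ : 0 < θ) (hμ : 2 < μ) (d : Datum V M) (hd : Valid d) (k₀ ℓ : ℕ)
    (W R : Finset (Cell M))
    (hWR : ∀ c ∈ W, ∀ c', Near (4 * (2 * (k₀ * ℓ) + 1)) c c' → c' ∈ R)
    (hN : ∀ c ∈ R, μ / 2 ≤ (cnt d.1 c : ℝ)) :
    pr (prodW (wt1 q d.2)) {x | ¬ Good1 d.1 x W θ k₀ ℓ} ≤
      (W.card : ℝ) * ((((k₀ * ℓ + 1 : ℝ) * (k₀ * ℓ + 2)) ^ 2 / (μ / 2 - 1)
        + k₀ * (1 - q / 20) ^ ℓ) / (θ / 2) + 40 / μ) := by
  have hP : IsProb (prodW (wt1 q d.2)) := isProb_prodW (isProb_wt1 h0 h1 d.2)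
  set ε : ℝ := ((k₀ * ℓ + 1 : ℝ) * (k₀ * ℓ + 2)) ^ 2 / (μ / 2 - 1) + k₀ * (1 - q / 20) ^ ℓ with hε
  set E : Cell M → Set (V → Co1 V) := fun c =>
    {x | θ / 2 * (cnt d.1 c : ℝ) ≤
      (((Finset.univ.filter fun v => d.1 v = c).filter fun v =>
        x ∈ {x : V → Co1 V | Lost x v k₀ ℓ}).card : ℝ)} with hE
  set F : Cell M → Set (V → Co1 V) := fun c =>
    {x | ((Finset.univ.filter fun v => d.1 v = c).card : ℝ) / 10 <
      (((Finset.univ.filter fun v => d.1 v = c).filter fun v => (x v).2.2 = true).card : ℝ)} with hF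
  have hsub : {x | ¬ Good1 d.1 x W θ k₀ ℓ} ⊆ {x | ∃ c ∈ W, x ∈ E c ∪ F c} := by
    intro x hx
    have hx' : ¬ Good1 d.1 x W θ k₀ ℓ := hx
    unfold Good1 at hx'
    push Not at hx'
    obtain ⟨c, hc, h⟩ := hx'
    refine ⟨c, hc, ?_⟩
    by_cases h2 : ((Finset.univ.filter fun v => d.1 v = c ∧ Lost x v k₀ ℓ).card : ℝ) ≤
        θ / 2 * (cnt d.1 c : ℝ)
    · right
      have h3 := h h2
      show ((Finset.univ.filter fun v => d.1 v = c).card : ℝ) / 10 <
        (((Finset.univ.filter fun v => d.1 v = c).filter fun v => (x v).2.2 = true).card : ℝ)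
      rw [Finset.filter_filter]
      exact h3
    · left
      push Not at h2
      show θ / 2 * (cnt d.1 c : ℝ) ≤
        (((Finset.univ.filter fun v => d.1 v = c).filter fun v => Lost x v k₀ ℓ).card : ℝ)
      rw [Finset.filter_filter]
      exact h2.le
  have hcell : ∀ c ∈ W, pr (prodW (wt1 q d.2)) (E c ∪ F c) ≤ ε / (θ / 2) + 40 / μ := by
    intro c hc
    have hcR : c ∈ R := hWR c hc c (near_refl _ _)
    have hcnt : μ / 2 ≤ (cnt d.1 c : ℝ) := hN c hcR
    have hcpos : (0 : ℝ) < (cnt d.1 c : ℝ) := by linarith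
    have hε0 : 0 ≤ ε := by
      have h2 : 0 < μ / 2 - 1 := by linarith
      have h3 : 0 ≤ 1 - q / 20 := by linarith
      positivity
    refine (pr_union_le hP _ _).trans (add_le_add ?_ ?_)
    · refine (pr_markov hP (Finset.univ.filter fun v => d.1 v = c)
        (fun v => {x : V → Co1 V | Lost x v k₀ ℓ}) (θ / 2 * (cnt d.1 c : ℝ)) (by positivity)).trans ?_
      have hsum : ∑ v ∈ Finset.univ.filter (fun v => d.1 v = c),
          pr (prodW (wt1 q d.2)) {x : V → Co1 V | Lost x v k₀ ℓ} ≤ (cnt d.1 c : ℝ) * ε := by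
        have h4 : ∀ v ∈ Finset.univ.filter (fun v => d.1 v = c),
            pr (prodW (wt1 q d.2)) {x : V → Co1 V | Lost x v k₀ ℓ} ≤ ε := by
          intro v hv
          have hvc : d.1 v = c := (Finset.mem_filter.1 hv).2
          have h5 := coll_le h0 h1 d.2 hd.self v (k₀ * ℓ) (ρ := μ / 2) (by linarith) (by
            intro j hj u hu
            have h6 := reach_near d hd j v u hu
            have h7 : Near (4 * (2 * (k₀ * ℓ) + 1)) c (d.1 u) := by
              rw [← hvc]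
              exact near_mono (by omega) h6
            have h8 := hN _ (hWR c hc _ h7)
            have h9 : (cnt d.1 (d.1 u) : ℝ) ≤ ((d.2 u).card : ℝ) := by
              exact_mod_cast card_ball_lo d hd u
            linarith)
          have h10 := lost_le h0 h1 d.2 v k₀ ℓ h5
          refine h10.trans (le_of_eq ?_)
          rw [hε]
          push_cast
          ring
        calc _ ≤ ∑ v ∈ Finset.univ.filter (fun v => d.1 v = c), ε := Finset.sum_le_sum h4
          _ = (cnt d.1 c : ℝ) * ε := by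
            rw [Finset.sum_const, nsmul_eq_mul]; rfl
      calc _ ≤ ((cnt d.1 c : ℝ) * ε) / (θ / 2 * (cnt d.1 c : ℝ)) :=
            div_le_div_of_nonneg_right hsum (by positivity)
        _ = ε / (θ / 2) := by
            field_simp
    · have hne : (Finset.univ.filter fun v => d.1 v = c).Nonempty := by
        rw [← Finset.card_pos]
        have : (0 : ℝ) < ((Finset.univ.filter fun v => d.1 v = c).card : ℝ) := hcpos
        exact_mod_cast this
      refine (sigma_count h0 h1 d.2 (Finset.univ.filter fun v => d.1 v = c) hne).trans ?_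
      show 20 / (cnt d.1 c : ℝ) ≤ 40 / μ
      rw [div_le_div_iff₀ hcpos (by linarith)]
      linarith
  calc _ ≤ pr (prodW (wt1 q d.2)) {x | ∃ c ∈ W, x ∈ E c ∪ F c} := pr_mono hP hsub
    _ ≤ ∑ c ∈ W, pr (prodW (wt1 q d.2)) (E c ∪ F c) := pr_exists_le hP W fun c => E c ∪ F c
    _ ≤ ∑ c ∈ W, (ε / (θ / 2) + 40 / μ) := Finset.sum_le_sum hcell
    _ = (W.card : ℝ) * (ε / (θ / 2) + 40 / μ) := by rw [Finset.sum_const, nsmul_eq_mul]

end EA42
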