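import Pool.Agent.Lib.MP_ea42c6_pr.Defs

/-!
# L4 — a vertex that is not lost lies in a big component of the first-stage graph

`big_comp`: the vertices `spine i`, `i ≤ L` (`L = k₀ ℓ`), and for each `t < k₀` the orbit
`sec i_t j`, `j ≤ L`, where `i_t` is the index given by `SegOK`, are reachable from `v` in `gr1 x U`:
consecutive ones are joined by an edge made by a vertex of `U` (they are distinct by
`NoColl`; `reach B d v ⊆ U` for `d ≤ 2L+1` keeps all of them in `U`; the edge
`spine i_t — sec i_t 0` uses `σ₁ (spine i_t) = true`).  They are all distinct (`NoColl`; the `i_t` are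
distinct since the segments are disjoint), so there are at least `k₀ (L+1) ≥ k₀ (k₀ ℓ)`.

`card_big`: the classes `{y ∈ U | comp y = c}` are disjoint.
-/

namespace EA42

open scoped Classical

private theorem L4_spine_succ {V : Type*} (x : V → Co1 V) (v : V) (i : ℕ) :
    spine x v (i + 1) = (x (spine x v i)).1 := by
  unfold spine
  rw [Function.iterate_succ_apply']

private theorem L4_sec_succ {V : Type*} (x : V → Co1 V) (v : V) (i j : ℕ) :
    sec x v i (j + 1) = (x (sec x v i j)).1 := by
  unfold sec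
  rw [Function.iterate_succ_apply']

private theorem L4_reach_succ {V : Type*} {B : V → Finset V} {d : ℕ} {v u w : V}
    (hu : u ∈ reach B d v) (hw : w ∈ B u) : w ∈ reach B (d + 1) v :=
  Finset.mem_biUnion.2 ⟨u, hu, hw⟩

private theorem L4_spine_reach {V : Type*} {B : V → Finset V} {x : V → Co1 V}
    (hx : ∀ u, (x u).1 ∈ B u ∧ (x u).2.1 ∈ B u) (v : V) (i : ℕ) : spine x v i ∈ reach B i v := by
  induction i with
  | zero => exact Finset.mem_singleton_self v
  | succ i ih =>
    rw [L4_spine_succ]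
    exact L4_reach_succ ih (hx _).1

private theorem L4_sec_reach {V : Type*} {B : V → Finset V} {x : V → Co1 V}
    (hx : ∀ u, (x u).1 ∈ B u ∧ (x u).2.1 ∈ B u) (v : V) (i j : ℕ) :
    sec x v i j ∈ reach B (i + 1 + j) v := by
  induction j with
  | zero => exact L4_reach_succ (L4_spine_reach hx v i) (hx _).2
  | succ j ih =>
    rw [L4_sec_succ]
    exact L4_reach_succ ih (hx _).1

private theorem L4_edge1 {V : Type*} (x : V → Co1 V) {U : Finset V} {u : V} (hu : u ∈ U) :
    (gr1 x U).Reachable u (x u).1 := by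
  by_cases h : u = (x u).1
  · rw [← h]
  · refine SimpleGraph.Adj.reachable ?_
    unfold gr1
    rw [SimpleGraph.fromRel_adj]
    exact ⟨h, Or.inl ⟨hu, Or.inl rfl⟩⟩

private theorem L4_edge2 {V : Type*} (x : V → Co1 V) {U : Finset V} {u : V} (hu : u ∈ U)
    (hs : (x u).2.2 = true) : (gr1 x U).Reachable u (x u).2.1 := by
  by_cases h : u = (x u).2.1
  · rw [← h]
  · refine SimpleGraph.Adj.reachable ?_
    unfold gr1
    rw [SimpleGraph.fromRel_adj]
    exact ⟨h, Or.inl ⟨hu, Or.inr ⟨hs, rfl⟩⟩⟩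

theorem big_comp {V : Type*} [Fintype V] (B : V → Finset V) (x : V → Co1 V)
    (hx : ∀ u, (x u).1 ∈ B u ∧ (x u).2.1 ∈ B u) (v : V) (k₀ ℓ : ℕ) (hv : ¬ Lost x v k₀ ℓ)
    (U : Finset V) (hU : ∀ d ≤ 2 * (k₀ * ℓ) + 1, reach B d v ⊆ U) :
    k₀ * (k₀ * ℓ) ≤ (U.filter fun y => (gr1 x U).Reachable v y).card := by
  unfold Lost at hv
  rw [not_not] at hv
  obtain ⟨hnc, hseg⟩ := hv
  have hseg' : ∀ t : Fin k₀, ∃ i, (t : ℕ) * ℓ ≤ i ∧ i < ((t : ℕ) + 1) * ℓ ∧
      (x (spine x v i)).2.2 = true := fun t => hseg t t.2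
  choose i h1 h2 h3 using hseg'
  have hiL : ∀ t, i t < k₀ * ℓ := fun t =>
    lt_of_lt_of_le (h2 t) (Nat.mul_le_mul_right ℓ t.2)
  have hsp : ∀ j ≤ 2 * (k₀ * ℓ) + 1, (gr1 x U).Reachable v (spine x v j) := by
    intro j
    induction j with
    | zero => intro _; exact SimpleGraph.Reachable.refl _
    | succ j ih =>
      intro hj
      rw [L4_spine_succ]
      exact (ih (by omega)).trans (L4_edge1 x (hU j (by omega) (L4_spine_reach hx v j)))
  have hsec : ∀ t, ∀ j < k₀ * ℓ, (gr1 x U).Reachable v (sec x v (i t) j) := by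
    intro t j
    have hi := hiL t
    induction j with
    | zero =>
      intro _
      exact (hsp (i t) (by omega)).trans
        (L4_edge2 x (hU (i t) (by omega) (L4_spine_reach hx v (i t))) (h3 t))
    | succ j ih =>
      intro hj
      rw [L4_sec_succ]
      exact (ih (by omega)).trans
        (L4_edge1 x (hU (i t + 1 + j) (by omega) (L4_sec_reach hx v (i t) j)))
  have hcard : (Finset.univ : Finset (Fin k₀ × Fin (k₀ * ℓ))).card = k₀ * (k₀ * ℓ) := by
    rw [Finset.card_univ, Fintype.card_prod, Fintype.card_fin, Fintype.card_fin]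
  rw [← hcard]
  refine Finset.card_le_card_of_injOn (fun p => sec x v (i p.1) (p.2 : ℕ)) ?_ ?_
  · rintro ⟨t, j⟩ _
    have hi := hiL t
    refine Finset.mem_coe.2 (Finset.mem_filter.2
      ⟨hU (i t + 1 + j) (by omega) (L4_sec_reach hx v (i t) j), hsec t j j.2⟩)
  · rintro ⟨t, j⟩ _ ⟨t', j'⟩ _ he
    have he' : sec x v (i t) (j : ℕ) = sec x v (i t') (j' : ℕ) := he
    have h4 := @hnc
      (Sum.inr (⟨i t, by have := hiL t; omega⟩, ⟨j, by omega⟩))
      (Sum.inr (⟨i t', by have := hiL t'; omega⟩, ⟨j', by omega⟩)) he'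
    have h5 := Sum.inr.inj h4
    have h6 : i t = i t' := by
      have := congrArg (fun z => (z.1 : ℕ)) h5
      exact this
    have h7 : (j : ℕ) = (j' : ℕ) := by
      have := congrArg (fun z => (z.2 : ℕ)) h5
      exact this
    have h8 : (t : ℕ) = (t' : ℕ) := by
      have a1 := h1 t
      have a2 := h2 t
      have a3 := h1 t'
      have a4 := h2 t'
      rw [h6] at a1 a2
      have b1 : (t : ℕ) < (t' : ℕ) + 1 := lt_of_mul_lt_mul_right (lt_of_le_of_lt a1 a4) (Nat.zero_le ℓ)
      have b2 : (t' : ℕ) < (t : ℕ) + 1 := lt_of_mul_lt_mul_right (lt_of_le_of_lt a3 a2) (Nat.zero_le ℓ)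
      omega
    rw [Prod.mk.injEq]
    exact ⟨Fin.ext h8, Fin.ext h7⟩

theorem card_big {V : Type*} [Fintype V] (G : SimpleGraph V) (U : Finset V) (t : ℕ) :
    (Finset.univ.filter fun c : G.ConnectedComponent =>
      t ≤ (U.filter fun y => G.connectedComponentMk y = c).card).card * t ≤ U.card := by
  calc _ ≤ ∑ c ∈ Finset.univ.filter (fun c : G.ConnectedComponent =>
        t ≤ (U.filter fun y => G.connectedComponentMk y = c).card),
        (U.filter fun y => G.connectedComponentMk y = c).card := by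
        rw [← smul_eq_mul]
        exact Finset.card_nsmul_le_sum _ _ _ fun c hc => (Finset.mem_filter.1 hc).2
    _ ≤ ∑ c : G.ConnectedComponent, (U.filter fun y => G.connectedComponentMk y = c).card :=
        Finset.sum_le_sum_of_subset (Finset.filter_subset _ _)
    _ = U.card := (Finset.card_eq_sum_card_fiberwise fun y _ => Finset.mem_coe.2 (Finset.mem_univ _)).symm

end EA42
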