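import Pool.Agent.Lib.MP_ea42c6_pr.Defs

/-!
# L5 — a bad outcome splits the big components into two large families without edges between

`G1 ≤ G`; `Vs ⊆ W` are the vertices that are not lost, each in a big component of `G1`.
Components of `G` are unions of components of `G1` (map `ConnectedComponent.map` /
`Reachable.mono`).  Let the parts be the sets `Vs ∩ C`, `C` a component of `G`.
Each has fewer than `(1-θ)|W|` elements.  If one part has at least `θ/4 |W|`
elements take `J` = the big `G1`-components inside this `C`: the rest of `Vs` has more than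
`(1 - θ/2)|W| - (1-θ)|W| = θ/2 |W|` elements.  Otherwise add parts one by one until at least
`θ/4 |W|` elements are collected (then fewer than `θ/2 |W|`), `J` = big components inside the
collected `C`'s; the rest has at least `(1 - θ/2 - θ/2)|W| ≥ θ/4 |W|`.
No edge of `G` joins two different components of `G`.  (If `|W| = 0`, `J = ∅` works.)
Every vertex of `V` lying in a component `C` of `G` is classified by its `G1`-component: for a
component `c` of `G1` let `C(c)` be its `G`-component; `J = Big.filter (C(c) ∈ 𝒞)` for a set `𝒞` of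
`G`-components.
-/

namespace EA42

open scoped Classical

private theorem L5_pick {V : Type*} [Fintype V] (G : SimpleGraph V) (Vs : Finset V) {a : ℝ} (ha : 0 < a)
    (h1 : ∀ C : G.ConnectedComponent,
      ((Vs.filter fun v => G.connectedComponentMk v = C).card : ℝ) < a)
    (𝒟 : Finset G.ConnectedComponent) :
    ((Vs.filter fun v => G.connectedComponentMk v ∈ 𝒟).card : ℝ) < a ∨
      ∃ 𝒞 : Finset G.ConnectedComponent,
        a ≤ ((Vs.filter fun v => G.connectedComponentMk v ∈ 𝒞).card : ℝ) ∧
        ((Vs.filter fun v => G.connectedComponentMk v ∈ 𝒞).card : ℝ) < 2 * a := by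
  induction 𝒟 using Finset.induction_on with
  | empty =>
    left
    simpa using ha
  | insert C 𝒟 hC ih =>
    rcases ih with ih | ih
    · have h2 : (Vs.filter fun v => G.connectedComponentMk v ∈ insert C 𝒟).card ≤
          (Vs.filter fun v => G.connectedComponentMk v = C).card +
          (Vs.filter fun v => G.connectedComponentMk v ∈ 𝒟).card := by
        refine le_trans (Finset.card_le_card ?_) (Finset.card_union_le _ _)
        intro v hv
        rw [Finset.mem_filter, Finset.mem_insert] at hv
        rw [Finset.mem_union, Finset.mem_filter, Finset.mem_filter]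
        rcases hv.2 with h | h
        · exact Or.inl ⟨hv.1, h⟩
        · exact Or.inr ⟨hv.1, h⟩
      have h3 : ((Vs.filter fun v => G.connectedComponentMk v ∈ insert C 𝒟).card : ℝ) ≤
          ((Vs.filter fun v => G.connectedComponentMk v = C).card : ℝ) +
          ((Vs.filter fun v => G.connectedComponentMk v ∈ 𝒟).card : ℝ) := by exact_mod_cast h2
      by_cases h4 : ((Vs.filter fun v => G.connectedComponentMk v ∈ insert C 𝒟).card : ℝ) < a
      · exact Or.inl h4
      · right
        have h5 := h1 C
        exact ⟨insert C 𝒟, not_lt.1 h4, by linarith⟩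
    · exact Or.inr ih

theorem split_exists {V : Type*} [Fintype V] (G1 G : SimpleGraph V) (h : G1 ≤ G)
    (W Vs : Finset V) (hVs : Vs ⊆ W) (Big : Finset G1.ConnectedComponent)
    (hbig : ∀ v ∈ Vs, G1.connectedComponentMk v ∈ Big) {θ : ℝ} (hθ : 0 < θ) (hθ1 : θ ≤ 1 / 2)
    (hlost : (W.card : ℝ) - Vs.card ≤ θ / 2 * W.card)
    (hno : ∀ x, ((W.filter fun v => G.Reachable x v).card : ℝ) < (1 - θ) * W.card) :
    ∃ J ⊆ Big,
      θ / 4 * (W.card : ℝ) ≤ ((Vs.filter fun v => G1.connectedComponentMk v ∈ J).card : ℝ) ∧
      θ / 4 * (W.card : ℝ) ≤ ((Vs.filter fun v => G1.connectedComponentMk v ∈ Big \ J).card : ℝ) ∧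
      ∀ u v, G.Adj u v → G1.connectedComponentMk u ∈ J →
        G1.connectedComponentMk v ∈ Big \ J → False := by
  by_cases hW0 : W.card = 0
  · refine ⟨∅, Finset.empty_subset _, ?_, ?_, ?_⟩
    · rw [hW0]; simp
    · rw [hW0]; simp
    · intro u v _ hu
      exact absurd hu (Finset.notMem_empty _)
  have hW : (0 : ℝ) < (W.card : ℝ) := by exact_mod_cast Nat.pos_of_ne_zero hW0
  -- reduction to a set of components of `G`
  suffices hs : ∃ 𝒞 : Finset G.ConnectedComponent,
      θ / 4 * (W.card : ℝ) ≤ ((Vs.filter fun v => G.connectedComponentMk v ∈ 𝒞).card : ℝ) ∧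
      θ / 4 * (W.card : ℝ) ≤
        (Vs.card : ℝ) - ((Vs.filter fun v => G.connectedComponentMk v ∈ 𝒞).card : ℝ) by
    obtain ⟨𝒞, h1, h2⟩ := hs
    have hmk : ∀ v, (G1.connectedComponentMk v).map (SimpleGraph.Hom.ofLE h) =
        G.connectedComponentMk v := fun v => rfl
    refine ⟨Big.filter fun c => c.map (SimpleGraph.Hom.ofLE h) ∈ 𝒞, Finset.filter_subset _ _,
      ?_, ?_, ?_⟩
    · refine h1.trans (Nat.cast_le.2 (Finset.card_le_card ?_))
      intro v hv
      rw [Finset.mem_filter] at hv ⊢
      exact ⟨hv.1, Finset.mem_filter.2 ⟨hbig v hv.1, hv.2⟩⟩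
    · refine h2.trans ?_
      have h3 := Finset.card_filter_add_card_filter_not (s := Vs)
        (fun v => G.connectedComponentMk v ∈ 𝒞)
      have h4 : (Vs.filter fun v => ¬ G.connectedComponentMk v ∈ 𝒞).card ≤
          (Vs.filter fun v => G1.connectedComponentMk v ∈
            Big \ Big.filter fun c => c.map (SimpleGraph.Hom.ofLE h) ∈ 𝒞).card := by
        refine Finset.card_le_card ?_
        intro v hv
        rw [Finset.mem_filter] at hv ⊢
        refine ⟨hv.1, Finset.mem_sdiff.2 ⟨hbig v hv.1, fun h5 => hv.2 ?_⟩⟩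
        exact (Finset.mem_filter.1 h5).2
      have h5 : ((Vs.filter fun v => G.connectedComponentMk v ∈ 𝒞).card : ℝ) +
          ((Vs.filter fun v => ¬ G.connectedComponentMk v ∈ 𝒞).card : ℝ) = (Vs.card : ℝ) := by
        exact_mod_cast h3
      have h6 : ((Vs.filter fun v => ¬ G.connectedComponentMk v ∈ 𝒞).card : ℝ) ≤
          ((Vs.filter fun v => G1.connectedComponentMk v ∈
            Big \ Big.filter fun c => c.map (SimpleGraph.Hom.ofLE h) ∈ 𝒞).card : ℝ) := by
        exact_mod_cast h4
      linarith
    · intro u v huv hu hv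
      rw [Finset.mem_sdiff] at hv
      refine hv.2 (Finset.mem_filter.2 ⟨hv.1, ?_⟩)
      rw [hmk v, ← SimpleGraph.ConnectedComponent.eq.2 huv.reachable, ← hmk u]
      exact (Finset.mem_filter.1 hu).2
  have hsing : ∀ C : G.ConnectedComponent,
      ((Vs.filter fun v => G.connectedComponentMk v = C).card : ℝ) < (1 - θ) * W.card := by
    intro C
    induction C using SimpleGraph.ConnectedComponent.ind with
    | _ x =>
      refine lt_of_le_of_lt ?_ (hno x)
      refine Nat.cast_le.2 (Finset.card_le_card ?_)
      intro v hv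
      rw [Finset.mem_filter] at hv ⊢
      exact ⟨hVs hv.1, (SimpleGraph.ConnectedComponent.eq.1 hv.2).symm⟩
  by_cases hbigC : ∃ C : G.ConnectedComponent,
      θ / 4 * (W.card : ℝ) ≤ ((Vs.filter fun v => G.connectedComponentMk v = C).card : ℝ)
  · obtain ⟨C, hC⟩ := hbigC
    have h1 := hsing C
    refine ⟨{C}, ?_, ?_⟩
    · simpa only [Finset.mem_singleton] using hC
    · simp only [Finset.mem_singleton]
      nlinarith
  · push Not at hbigC
    rcases L5_pick G Vs (by positivity) hbigC Finset.univ with h1 | ⟨𝒞, h1, h2⟩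
    · exfalso
      simp only [Finset.mem_univ, Finset.filter_true] at h1
      nlinarith
    · exact ⟨𝒞, h1, by nlinarith⟩

end EA42
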