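import Pool.Agent.Lib.MP_ea42c6_pr.Defs

/-!
# L6 — edge isoperimetry in a square grid

`S ⊆ Fin w × Fin w` with `τ w² ≤ |S| ≤ (1-τ) w²`.  A row is full, empty or mixed; a mixed row has
two consecutive cells, one in `S` and the other not.  Same for columns.
* If there are a full row and an empty row, every column is mixed: at least `w ≥ τ w` pairs.
* If no row is full: at least `|S|/w ≥ τ w` rows are nonempty, hence mixed.
* If no row is empty: at least `(w² - |S|)/w ≥ τ w` rows are not full, hence mixed.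
Different rows give different pairs.
-/

namespace EA42

open scoped Classical

/-- Two cells of the `w × w` grid share a side. -/
def GAdj {w : ℕ} (i j : Fin w × Fin w) : Prop :=
  (i.1 = j.1 ∧ ((i.2 : ℕ) + 1 = j.2 ∨ (j.2 : ℕ) + 1 = i.2)) ∨
    (i.2 = j.2 ∧ ((i.1 : ℕ) + 1 = j.1 ∨ (j.1 : ℕ) + 1 = i.1))

theorem L6_line {w : ℕ} (P : Fin w → Prop) {a b : Fin w} (ha : P a) (hb : ¬ P b) :
    ∃ c d : Fin w, P c ∧ ¬ P d ∧ ((c : ℕ) + 1 = d ∨ (d : ℕ) + 1 = c) := by
  by_contra hcon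
  push Not at hcon
  have hw : 0 < w := lt_of_le_of_lt (Nat.zero_le _) a.2
  have h : ∀ n (hn : n < w), (P ⟨n, hn⟩ ↔ P ⟨0, hw⟩) := by
    intro n
    induction n with
    | zero => intro hn; exact Iff.rfl
    | succ n ih =>
      intro hn
      rw [← ih (by omega)]
      constructor
      · intro h2
        by_contra h3
        exact (hcon _ _ h2 h3).2 rfl
      · intro h2
        by_contra h3
        exact (hcon _ _ h2 h3).1 rfl
  exact hb ((h b b.2).mpr ((h a a.2).mp ha))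

theorem L6_row {w : ℕ} (S : Finset (Fin w × Fin w)) (R : Finset (Fin w))
    (hR : ∀ i ∈ R, (∃ a, (i, a) ∈ S) ∧ ∃ b, (i, b) ∉ S) :
    R.card ≤ (Finset.univ.filter fun e : (Fin w × Fin w) × (Fin w × Fin w) =>
      e.1 ∈ S ∧ e.2 ∉ S ∧ GAdj e.1 e.2).card := by
  apply Finset.card_le_card_of_surjOn (fun e => e.1.1)
  intro i hi
  obtain ⟨⟨a, ha⟩, b, hb⟩ := hR i hi
  obtain ⟨c, d, hc, hd, hcd⟩ := L6_line (fun b => (i, b) ∈ S) ha hb
  refine ⟨((i, c), (i, d)), ?_, rfl⟩
  simp only [Finset.coe_filter, Finset.mem_univ, true_and, Set.mem_ofPred_eq]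
  exact ⟨hc, hd, Or.inl ⟨rfl, hcd⟩⟩

theorem L6_col {w : ℕ} (S : Finset (Fin w × Fin w))
    (hR : ∀ j, (∃ a, (a, j) ∈ S) ∧ ∃ b, (b, j) ∉ S) :
    w ≤ (Finset.univ.filter fun e : (Fin w × Fin w) × (Fin w × Fin w) =>
      e.1 ∈ S ∧ e.2 ∉ S ∧ GAdj e.1 e.2).card := by
  have h : (Finset.univ : Finset (Fin w)).card ≤ (Finset.univ.filter
      fun e : (Fin w × Fin w) × (Fin w × Fin w) => e.1 ∈ S ∧ e.2 ∉ S ∧ GAdj e.1 e.2).card := by
    apply Finset.card_le_card_of_surjOn (fun e => e.1.2)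
    intro j _
    obtain ⟨⟨a, ha⟩, b, hb⟩ := hR j
    obtain ⟨c, d, hc, hd, hcd⟩ := L6_line (fun b => (b, j) ∈ S) ha hb
    refine ⟨((c, j), (d, j)), ?_, rfl⟩
    simp only [Finset.coe_filter, Finset.mem_univ, true_and, Set.mem_ofPred_eq]
    exact ⟨hc, hd, Or.inr ⟨rfl, hcd⟩⟩
  simpa using h

theorem grid_iso (w : ℕ) (S : Finset (Fin w × Fin w)) {τ : ℝ} (h0 : 0 ≤ τ) (h1 : τ ≤ 1)
    (hlo : τ * (w : ℝ) ^ 2 ≤ S.card) (hhi : (S.card : ℝ) ≤ (1 - τ) * (w : ℝ) ^ 2) :
    τ * w ≤ ((Finset.univ.filter fun e : (Fin w × Fin w) × (Fin w × Fin w) =>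
      e.1 ∈ S ∧ e.2 ∉ S ∧ GAdj e.1 e.2).card : ℝ) := by
  rcases Nat.eq_zero_or_pos w with hw | hw
  · subst hw
    simp
  have hw' : (0 : ℝ) < (w : ℝ) := by exact_mod_cast hw
  by_cases hA : (∃ r, ∀ b, (r, b) ∈ S) ∧ ∃ r, ∀ b, (r, b) ∉ S
  · obtain ⟨⟨r1, hr1⟩, r2, hr2⟩ := hA
    have h := L6_col S fun j => ⟨⟨r1, hr1 j⟩, r2, hr2 j⟩
    calc τ * w ≤ 1 * w := mul_le_mul_of_nonneg_right h1 hw'.le
      _ = w := one_mul _
      _ ≤ _ := by exact_mod_cast h
  · rw [not_and_or] at hA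
    rcases hA with hA | hA
    · push Not at hA
      set R : Finset (Fin w) := Finset.univ.filter fun i => ∃ a, (i, a) ∈ S with hR
      have h := L6_row S R fun i hi => by
        rw [hR, Finset.mem_filter] at hi
        exact ⟨hi.2, hA i⟩
      have hsub : S ⊆ R ×ˢ (Finset.univ : Finset (Fin w)) := by
        rintro ⟨i, a⟩ hia
        rw [Finset.mem_product, hR, Finset.mem_filter]
        exact ⟨⟨Finset.mem_univ _, a, hia⟩, Finset.mem_univ _⟩
      have hc := Finset.card_le_card hsub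
      rw [Finset.card_product, Finset.card_univ, Fintype.card_fin] at hc
      have hc' : (S.card : ℝ) ≤ (R.card : ℝ) * w := by exact_mod_cast hc
      have h' : (R.card : ℝ) ≤ ((Finset.univ.filter
          fun e : (Fin w × Fin w) × (Fin w × Fin w) =>
            e.1 ∈ S ∧ e.2 ∉ S ∧ GAdj e.1 e.2).card : ℝ) := by exact_mod_cast h
      have h2 : τ * w * w ≤ (R.card : ℝ) * w := by
        calc τ * w * w = τ * (w : ℝ) ^ 2 := by ring
          _ ≤ _ := hlo.trans hc'
      exact (le_of_mul_le_mul_right h2 hw').trans h'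
    · push Not at hA
      set R : Finset (Fin w) := Finset.univ.filter fun i => ∃ a, (i, a) ∉ S with hR
      have h := L6_row S R fun i hi => by
        rw [hR, Finset.mem_filter] at hi
        exact ⟨hA i, hi.2⟩
      have hsub : Sᶜ ⊆ R ×ˢ (Finset.univ : Finset (Fin w)) := by
        rintro ⟨i, a⟩ hia
        rw [Finset.mem_compl] at hia
        rw [Finset.mem_product, hR, Finset.mem_filter]
        exact ⟨⟨Finset.mem_univ _, a, hia⟩, Finset.mem_univ _⟩
      have hc := Finset.card_le_card hsub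
      rw [Finset.card_product, Finset.card_univ, Fintype.card_fin] at hc
      have hS := Finset.card_compl_add_card S
      rw [Fintype.card_prod, Fintype.card_fin] at hS
      have hS' : (Sᶜ.card : ℝ) + S.card = (w : ℝ) ^ 2 := by
        have h9 : ((Sᶜ.card + S.card : ℕ) : ℝ) = ((w * w : ℕ) : ℝ) := by rw [hS]
        push_cast at h9
        rw [h9]
        ring
      have hc' : (Sᶜ.card : ℝ) ≤ (R.card : ℝ) * w := by exact_mod_cast hc
      have h' : (R.card : ℝ) ≤ ((Finset.univ.filter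
          fun e : (Fin w × Fin w) × (Fin w × Fin w) =>
            e.1 ∈ S ∧ e.2 ∉ S ∧ GAdj e.1 e.2).card : ℝ) := by exact_mod_cast h
      have h2 : τ * w * w ≤ (R.card : ℝ) * w := by
        calc τ * w * w = τ * (w : ℝ) ^ 2 := by ring
          _ ≤ Sᶜ.card := by linarith
          _ ≤ _ := hc'
      exact (le_of_mul_le_mul_right h2 hw').trans h'

end EA42
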