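import Pool.Agent.Lib.MP_ea42c6_pr.L6

/-!
# L7 — the interface sum

Write `N_c = cnt d.1 c`, `A_c, B_c` for the numbers of vertices of the cell `c` in `A`, `Bs`.
`A_c + B_c ≥ 0.9 N_c`.  Let `S` be the set of grid cells with `A_c ≥ 0.45 N_c`; if `c ∉ S` then
`B_c ≥ 0.45 N_c`.  The number of vertices of `c` in `A \ T` is at least `A_c - N_c/10`, same for `Bs`.
`τ = θ/32`.
1. `τ w² ≤ |S| ≤ (1-τ) w²`: `grid_iso` gives `≥ τ w` ordered pairs `(i,j)`, `i ∈ S`, `j ∉ S`,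
   adjacent.  For `u ∈ V_i ∩ A \ T` (at least `0.35 N_i ≥ 0.175 μ`) the targets include
   `V_j ∩ Bs` minus `a u`: at least `0.45 N_j - 1 ≥ 0.2 μ`; `V_j ⊆ d.2 u` by `Valid.touch`.
   Total `≥ τ w · 0.175 μ · 0.2 μ = (0.035/32) θ w μ² ≥ θ w μ²/1000`.
2. `|S| < τ w²`: `∑_c A_c ≥ (θ/4) w² μ/2`, cells of `S` contribute at most `τ w² 2μ = θ w² μ/16`, so
   `∑_{c ∉ S} A_c ≥ θ w² μ/16`.  For `c ∉ S`: `u ∈ V_c ∩ Bs \ T` (at least `0.175 μ` of them), targets
   `V_c ∩ A` minus `a u`, at least `A_c - 1`.  Total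
   `≥ 0.175 μ (θ w² μ/16 - w²) ≥ 0.175 μ² θ w² (1/16 - 1/1000) ≥ θ w μ²/1000`.
3. `|S| > (1-τ) w²`: the same with the roles of `A` and `Bs` exchanged, cells of `S` and
   `∑_{c ∈ S} B_c ≥ θ w² μ/16`, `u ∈ V_c ∩ A \ T`.
The map `Fin w × Fin w → sq o w` is a bijection since `w ≤ M` (`ZMod.natCast_eq_natCast_iff`,
values `< M`), and grid neighbours touch.
-/

namespace EA42

open scoped Classical

/-- The cell number `ij` of the square. -/
def L7_f {M : ℕ} (o : Cell M) (w : ℕ) (ij : Fin w × Fin w) : Cell M :=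
  o + (((ij.1 : ℕ) : ZMod M), ((ij.2 : ℕ) : ZMod M))

theorem sq_inj {M : ℕ} [NeZero M] (o : Cell M) {w : ℕ} (hw : w ≤ M) :
    Function.Injective fun ij : Fin w × Fin w =>
      o + (((ij.1 : ℕ) : ZMod M), ((ij.2 : ℕ) : ZMod M)) := by
  intro i j h
  have h1 := add_left_cancel h
  simp only [Prod.mk.injEq] at h1
  have key : ∀ a b : Fin w, ((a : ℕ) : ZMod M) = ((b : ℕ) : ZMod M) → a = b := by
    intro a b hab
    have h2 := (ZMod.natCast_eq_natCast_iff' _ _ _).1 hab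
    rw [Nat.mod_eq_of_lt (a.2.trans_le hw), Nat.mod_eq_of_lt (b.2.trans_le hw)] at h2
    exact Fin.ext h2
  exact Prod.ext (key _ _ h1.1) (key _ _ h1.2)

theorem card_sq {M : ℕ} [NeZero M] (o : Cell M) {w : ℕ} (hw : w ≤ M) :
    (sq o w).card = w ^ 2 := by
  unfold sq
  rw [Finset.card_image_of_injective _ (sq_inj o hw), Finset.card_univ, Fintype.card_prod,
    Fintype.card_fin, pow_two]

theorem L7_mem {M : ℕ} [NeZero M] (o : Cell M) (w : ℕ) (i : Fin w × Fin w) :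
    L7_f o w i ∈ sq o w :=
  Finset.mem_image_of_mem _ (Finset.mem_univ i)

theorem L7_inj {M : ℕ} [NeZero M] (o : Cell M) {w : ℕ} (hw : w ≤ M) {i j : Fin w × Fin w}
    (h : L7_f o w i = L7_f o w j) : i = j := sq_inj o hw h

theorem L7_touch {M : ℕ} (o : Cell M) {w : ℕ} {i j : Fin w × Fin w} (h : GAdj i j) :
    Touch (L7_f o w i) (L7_f o w j) := by
  unfold L7_f
  rcases h with ⟨h1, h2 | h2⟩ | ⟨h1, h2 | h2⟩
  · refine Or.inr (Or.inr (Or.inl ?_))
    rw [← h1, ← h2]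
    ext <;> simp [add_assoc]
  · refine Or.inr (Or.inr (Or.inr (Or.inr ?_)))
    rw [← h1, ← h2]
    ext <;> simp [add_assoc]
  · refine Or.inr (Or.inl ?_)
    rw [← h1, ← h2]
    ext <;> simp [add_assoc]
  · refine Or.inr (Or.inr (Or.inr (Or.inl ?_)))
    rw [← h1, ← h2]
    ext <;> simp [add_assoc]

theorem L7_sum {V : Type*} [Fintype V] {M : ℕ} [NeZero M] (cl : V → Cell M) (o : Cell M)
    {w : ℕ} (hw : w ≤ M) (p : V → Prop) [DecidablePred p] :
    ((inR cl (sq o w)).filter p).card =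
      ∑ i : Fin w × Fin w, (Finset.univ.filter fun v => cl v = L7_f o w i ∧ p v).card := by
  rw [← Finset.card_biUnion]
  · congr 1
    ext v
    simp only [inR, Finset.mem_filter, Finset.mem_univ, true_and, Finset.mem_biUnion]
    constructor
    · rintro ⟨h1, h2⟩
      obtain ⟨i, -, hi⟩ := Finset.mem_image.1 h1
      exact ⟨i, hi.symm, h2⟩
    · rintro ⟨i, h1, h2⟩
      exact ⟨h1 ▸ L7_mem o w i, h2⟩
  · intro i _ j _ hij
    rw [Function.onFun, Finset.disjoint_left]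
    intro v hv hv'
    simp only [Finset.mem_filter, Finset.mem_univ, true_and] at hv hv'
    exact hij (L7_inj o hw (hv.1.symm.trans hv'.1))

theorem L7_key {V : Type*} [Fintype V] {M : ℕ} [NeZero M] (d : Datum V M) (hd : Valid d)
    (o : Cell M) {w : ℕ} (hwM : w ≤ M) (A Bs T : Finset V) (a : V → V)
    (E : Finset ((Fin w × Fin w) × (Fin w × Fin w)))
    (hE : ∀ e ∈ E, Touch (L7_f o w e.1) (L7_f o w e.2))
    (U X : Fin w × Fin w → Finset V)
    (hU : ∀ i, ∀ u ∈ U i, d.1 u = L7_f o w i ∧ u ∉ T)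
    (hX : ∀ i, ∀ v ∈ X i, d.1 v = L7_f o w i)
    (hUX : ∀ i j, ∀ u ∈ U i, ∀ v ∈ X j, (u ∈ A ∧ v ∈ Bs) ∨ (u ∈ Bs ∧ v ∈ A))
    {lo : ℝ} (hlo : 0 ≤ lo) (hlo' : ∀ e ∈ E, lo ≤ ((U e.1).card : ℝ)) :
    lo * ∑ e ∈ E, (((X e.2).card : ℝ) - 1) ≤
      ∑ u ∈ (inR d.1 (sq o w)).filter (fun u => u ∉ T),
        (((d.2 u).filter fun v => v ≠ a u ∧
          ((u ∈ A ∧ v ∈ Bs) ∨ (u ∈ Bs ∧ v ∈ A))).card : ℝ) := by
  set D := (inR d.1 (sq o w)).filter (fun u => u ∉ T) with hD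
  set G : V → Finset V := fun u => (d.2 u).filter fun v => v ≠ a u ∧
          ((u ∈ A ∧ v ∈ Bs) ∨ (u ∈ Bs ∧ v ∈ A)) with hG
  set R : ((Fin w × Fin w) × (Fin w × Fin w)) → Finset (Σ _ : V, V) := fun e =>
    (U e.1).sigma fun u => (X e.2).filter fun v => v ≠ a u with hR
  have h1 : ∑ u ∈ D, ((G u).card : ℝ) = ((D.sigma G).card : ℝ) := by
    rw [Finset.card_sigma]
    push_cast
    rfl
  have h2 : E.biUnion R ⊆ D.sigma G := by
    intro p hp
    obtain ⟨e, he, hpe⟩ := Finset.mem_biUnion.1 hp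
    simp only [hR, Finset.mem_sigma, Finset.mem_filter] at hpe
    obtain ⟨hpu, hpv, hpa⟩ := hpe
    obtain ⟨hu1, hu2⟩ := hU _ _ hpu
    have hv1 := hX _ _ hpv
    rw [Finset.mem_sigma, hD, hG]
    refine ⟨Finset.mem_filter.2 ⟨?_, hu2⟩, Finset.mem_filter.2 ⟨?_, hpa, hUX _ _ _ hpu _ hpv⟩⟩
    · unfold inR
      rw [Finset.mem_filter]
      exact ⟨Finset.mem_univ _, hu1 ▸ L7_mem o w _⟩
    · refine hd.touch _ _ ?_
      rw [hu1, hv1]
      exact hE e he
  have h3 : (E.biUnion R).card = ∑ e ∈ E, (R e).card := by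
    refine Finset.card_biUnion ?_
    intro e _ e' _ hee
    rw [Function.onFun, Finset.disjoint_left]
    intro p hp hp'
    simp only [hR, Finset.mem_sigma, Finset.mem_filter] at hp hp'
    refine hee (Prod.ext ?_ ?_)
    · exact L7_inj o hwM ((hU _ _ hp.1).1.symm.trans (hU _ _ hp'.1).1)
    · exact L7_inj o hwM ((hX _ _ hp.2.1).symm.trans (hX _ _ hp'.2.1))
  have h4 : ∀ e ∈ E, lo * (((X e.2).card : ℝ) - 1) ≤ ((R e).card : ℝ) := by
    intro e he
    have h5 : (U e.1).card * ((X e.2).card - 1) ≤ (R e).card := by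
      rw [hR]
      simp only
      rw [Finset.card_sigma, ← smul_eq_mul]
      refine Finset.card_nsmul_le_sum _ _ _ fun u _ => ?_
      rw [Finset.filter_ne']
      exact Finset.pred_card_le_card_erase
    have h6 : ((X e.2).card : ℝ) - 1 ≤ (((X e.2).card - 1 : ℕ) : ℝ) := by
      rw [sub_le_iff_le_add]
      exact_mod_cast (by omega : (X e.2).card ≤ (X e.2).card - 1 + 1)
    have h7 : ((U e.1).card : ℝ) * (((X e.2).card - 1 : ℕ) : ℝ) ≤ ((R e).card : ℝ) := by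
      exact_mod_cast h5
    calc lo * (((X e.2).card : ℝ) - 1) ≤ lo * (((X e.2).card - 1 : ℕ) : ℝ) :=
          mul_le_mul_of_nonneg_left h6 hlo
      _ ≤ ((U e.1).card : ℝ) * (((X e.2).card - 1 : ℕ) : ℝ) :=
          mul_le_mul_of_nonneg_right (hlo' e he) (Nat.cast_nonneg _)
      _ ≤ _ := h7
  rw [h1, Finset.mul_sum]
  calc ∑ e ∈ E, lo * (((X e.2).card : ℝ) - 1) ≤ ∑ e ∈ E, ((R e).card : ℝ) :=
        Finset.sum_le_sum h4
    _ = ((E.biUnion R).card : ℝ) := by rw [h3]; push_cast; rfl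
    _ ≤ _ := by exact_mod_cast Finset.card_le_card h2

theorem L7_num {w : ℕ} (hw : 0 < w) {μ θ : ℝ} (hθ : 0 < θ) (hμ0 : 0 < μ) (hμθ : 1000 ≤ μ * θ)
    (P : Finset (Fin w × Fin w)) (hP : ((Pᶜ).card : ℝ) ≤ θ / 32 * (w : ℝ) ^ 2)
    (g : Fin w × Fin w → ℝ) (hg : ∀ i, g i ≤ 2 * μ)
    (hs : θ / 8 * (w : ℝ) ^ 2 * μ ≤ ∑ i, g i) :
    θ * w * μ ^ 2 / 1000 ≤ 7 / 40 * μ * ∑ i ∈ P, (g i - 1) := by
  have hw1 : (1 : ℝ) ≤ w := by exact_mod_cast hw
  have hcompl : ∑ i, g i = ∑ i ∈ P, g i + ∑ i ∈ Pᶜ, g i := (Finset.sum_add_sum_compl P g).symm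
  have h1 : ∑ i ∈ Pᶜ, g i ≤ ((Pᶜ).card : ℝ) * (2 * μ) := by
    rw [← nsmul_eq_mul]
    exact Finset.sum_le_card_nsmul _ _ _ fun i _ => hg i
  have h2 : ((Pᶜ).card : ℝ) * (2 * μ) ≤ θ / 32 * (w : ℝ) ^ 2 * (2 * μ) :=
    mul_le_mul_of_nonneg_right hP (by linarith)
  have h3 : (P.card : ℝ) ≤ (w : ℝ) ^ 2 := by
    have : P.card ≤ w ^ 2 := by
      have := Finset.card_le_univ P
      rw [Fintype.card_prod, Fintype.card_fin] at this
      rw [pow_two]
      exact this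
    exact_mod_cast this
  have h4 : θ / 16 * (w : ℝ) ^ 2 * μ - (w : ℝ) ^ 2 ≤ ∑ i ∈ P, (g i - 1) := by
    rw [Finset.sum_sub_distrib, Finset.sum_const, nsmul_eq_mul, mul_one]
    nlinarith
  have h5 : (w : ℝ) ^ 2 ≤ (w : ℝ) ^ 2 * (μ * θ) / 1000 := by
    have : (w : ℝ) ^ 2 * 1000 ≤ (w : ℝ) ^ 2 * (μ * θ) :=
      mul_le_mul_of_nonneg_left hμθ (sq_nonneg (w : ℝ))
    linarith
  have h6 : 123 / 2000 * ((w : ℝ) ^ 2 * (μ * θ)) ≤ ∑ i ∈ P, (g i - 1) := by
    nlinarith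
  have h7 : 7 / 40 * μ * (123 / 2000 * ((w : ℝ) ^ 2 * (μ * θ))) ≤
      7 / 40 * μ * ∑ i ∈ P, (g i - 1) := mul_le_mul_of_nonneg_left h6 (by linarith)
  refine le_trans ?_ h7
  have h8 : (w : ℝ) ≤ (w : ℝ) ^ 2 := by nlinarith
  have h9 : 0 ≤ θ * μ ^ 2 := by positivity
  have h10 : θ * μ ^ 2 * (w : ℝ) ≤ θ * μ ^ 2 * (w : ℝ) ^ 2 := mul_le_mul_of_nonneg_left h8 h9
  have h11 : 0 ≤ θ * μ ^ 2 * (w : ℝ) ^ 2 := by positivity
  nlinarith

theorem interface {V : Type*} [Fintype V] {M : ℕ} [NeZero M] (d : Datum V M) (hd : Valid d)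
    (o : Cell M) {w : ℕ} (hw : 0 < w) (hwM : w ≤ M) {μ θ : ℝ} (hθ : 0 < θ) (hθ1 : θ ≤ 1 / 13)
    (hμ : 1000 / θ ≤ μ)
    (hN : ∀ c ∈ sq o w, μ / 2 ≤ (cnt d.1 c : ℝ) ∧ (cnt d.1 c : ℝ) ≤ 2 * μ)
    (A Bs T : Finset V) (hdis : Disjoint A Bs)
    (hlost : ∀ c ∈ sq o w,
      ((Finset.univ.filter fun v => d.1 v = c ∧ v ∉ A ∧ v ∉ Bs).card : ℝ) ≤ (cnt d.1 c : ℝ) / 10)
    (hT : ∀ c ∈ sq o w,
      ((Finset.univ.filter fun v => d.1 v = c ∧ v ∈ T).card : ℝ) ≤ (cnt d.1 c : ℝ) / 10)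
    (hA : θ / 4 * ((inR d.1 (sq o w)).card : ℝ) ≤
      (((inR d.1 (sq o w)).filter fun v => v ∈ A).card : ℝ))
    (hB : θ / 4 * ((inR d.1 (sq o w)).card : ℝ) ≤
      (((inR d.1 (sq o w)).filter fun v => v ∈ Bs).card : ℝ))
    (a : V → V) :
    θ * w * μ ^ 2 / 1000 ≤
      ∑ u ∈ (inR d.1 (sq o w)).filter (fun u => u ∉ T),
        (((d.2 u).filter fun v => v ≠ a u ∧
          ((u ∈ A ∧ v ∈ Bs) ∨ (u ∈ Bs ∧ v ∈ A))).card : ℝ) := by
  have hμ1 : 13000 ≤ μ := by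
    refine le_trans ?_ hμ
    rw [le_div_iff₀ hθ]
    linarith
  have hμ0 : 0 < μ := by linarith
  have hμθ : 1000 ≤ μ * θ := (div_le_iff₀ hθ).1 hμ
  have hN' : ∀ i, μ / 2 ≤ (cnt d.1 (L7_f o w i) : ℝ) ∧ (cnt d.1 (L7_f o w i) : ℝ) ≤ 2 * μ :=
    fun i => hN _ (L7_mem o w i)
  set VA : Fin w × Fin w → Finset V := fun i =>
    Finset.univ.filter fun v => d.1 v = L7_f o w i ∧ v ∈ A with hVA
  set VB : Fin w × Fin w → Finset V := fun i =>
    Finset.univ.filter fun v => d.1 v = L7_f o w i ∧ v ∈ Bs with hVB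
  set UA : Fin w × Fin w → Finset V := fun i =>
    Finset.univ.filter fun v => d.1 v = L7_f o w i ∧ v ∈ A ∧ v ∉ T with hUA
  set UB : Fin w × Fin w → Finset V := fun i =>
    Finset.univ.filter fun v => d.1 v = L7_f o w i ∧ v ∈ Bs ∧ v ∉ T with hUB
  have cA : ∀ i, ((VA i).card : ℝ) ≤ cnt d.1 (L7_f o w i) := fun i => by
    unfold cnt
    exact_mod_cast Finset.card_le_card fun v hv => by
      simp only [hVA, Finset.mem_filter, Finset.mem_univ, true_and] at hv ⊢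
      exact hv.1
  have cB : ∀ i, ((VB i).card : ℝ) ≤ cnt d.1 (L7_f o w i) := fun i => by
    unfold cnt
    exact_mod_cast Finset.card_le_card fun v hv => by
      simp only [hVB, Finset.mem_filter, Finset.mem_univ, true_and] at hv ⊢
      exact hv.1
  have cAB : ∀ i, 9 / 10 * (cnt d.1 (L7_f o w i) : ℝ) ≤ (VA i).card + (VB i).card := fun i => by
    have h1 := hlost _ (L7_mem o w i)
    have h2 : cnt d.1 (L7_f o w i) ≤ (VA i).card + ((VB i).card +
        (Finset.univ.filter fun v => d.1 v = L7_f o w i ∧ v ∉ A ∧ v ∉ Bs).card) := by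
      refine le_trans ?_ ((Finset.card_union_le _ _).trans
        (Nat.add_le_add_left (Finset.card_union_le _ _) _))
      refine Finset.card_le_card fun v hv => ?_
      simp only [hVA, hVB, Finset.mem_union, Finset.mem_filter, Finset.mem_univ, true_and] at hv ⊢
      tauto
    have h3 : (cnt d.1 (L7_f o w i) : ℝ) ≤ (VA i).card + ((VB i).card +
        ((Finset.univ.filter fun v => d.1 v = L7_f o w i ∧ v ∉ A ∧ v ∉ Bs).card : ℝ)) := by
      exact_mod_cast h2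
    linarith
  have cUA : ∀ i, ((VA i).card : ℝ) - (cnt d.1 (L7_f o w i) : ℝ) / 10 ≤ (UA i).card :=
    fun i => by
      have h1 := hT _ (L7_mem o w i)
      have h2 : (VA i).card ≤ (UA i).card +
          (Finset.univ.filter fun v => d.1 v = L7_f o w i ∧ v ∈ T).card := by
        refine le_trans ?_ (Finset.card_union_le _ _)
        refine Finset.card_le_card fun v hv => ?_
        simp only [hVA, hUA, Finset.mem_union, Finset.mem_filter, Finset.mem_univ, true_and]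
          at hv ⊢
        tauto
      have h3 : ((VA i).card : ℝ) ≤ (UA i).card +
          ((Finset.univ.filter fun v => d.1 v = L7_f o w i ∧ v ∈ T).card : ℝ) := by
        exact_mod_cast h2
      linarith
  have cUB : ∀ i, ((VB i).card : ℝ) - (cnt d.1 (L7_f o w i) : ℝ) / 10 ≤ (UB i).card :=
    fun i => by
      have h1 := hT _ (L7_mem o w i)
      have h2 : (VB i).card ≤ (UB i).card +
          (Finset.univ.filter fun v => d.1 v = L7_f o w i ∧ v ∈ T).card := by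
        refine le_trans ?_ (Finset.card_union_le _ _)
        refine Finset.card_le_card fun v hv => ?_
        simp only [hVB, hUB, Finset.mem_union, Finset.mem_filter, Finset.mem_univ, true_and]
          at hv ⊢
        tauto
      have h3 : ((VB i).card : ℝ) ≤ (UB i).card +
          ((Finset.univ.filter fun v => d.1 v = L7_f o w i ∧ v ∈ T).card : ℝ) := by
        exact_mod_cast h2
      linarith
  -- the sums
  have hNsum : (w : ℝ) ^ 2 * (μ / 2) ≤ ((inR d.1 (sq o w)).card : ℝ) := by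
    have h1 := L7_sum d.1 o hwM (fun _ => True)
    rw [Finset.filter_true] at h1
    rw [h1]
    push_cast
    have h2 : ∑ _i : Fin w × Fin w, (μ / 2) ≤ ∑ i : Fin w × Fin w,
        ((Finset.univ.filter fun v => d.1 v = L7_f o w i ∧ True).card : ℝ) := by
      refine Finset.sum_le_sum fun i _ => ?_
      have h3 := (hN' i).1
      simp only [and_true]
      exact h3
    rw [Finset.sum_const, Finset.card_univ, Fintype.card_prod, Fintype.card_fin,
      nsmul_eq_mul] at h2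
    push_cast at h2
    rw [pow_two]
    exact h2
  have hsA : θ / 8 * (w : ℝ) ^ 2 * μ ≤ ∑ i, ((VA i).card : ℝ) := by
    have h1 := L7_sum d.1 o hwM (fun v => v ∈ A)
    have h2 : (((inR d.1 (sq o w)).filter fun v => v ∈ A).card : ℝ) =
        ∑ i, ((VA i).card : ℝ) := by
      rw [h1]
      push_cast
      rfl
    rw [← h2]
    refine le_trans ?_ hA
    have h3 := mul_le_mul_of_nonneg_left hNsum (by positivity : 0 ≤ θ / 4)
    linarith
  have hsB : θ / 8 * (w : ℝ) ^ 2 * μ ≤ ∑ i, ((VB i).card : ℝ) := by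
    have h1 := L7_sum d.1 o hwM (fun v => v ∈ Bs)
    have h2 : (((inR d.1 (sq o w)).filter fun v => v ∈ Bs).card : ℝ) =
        ∑ i, ((VB i).card : ℝ) := by
      rw [h1]
      push_cast
      rfl
    rw [← h2]
    refine le_trans ?_ hB
    have h3 := mul_le_mul_of_nonneg_left hNsum (by positivity : 0 ≤ θ / 4)
    linarith
  set S : Finset (Fin w × Fin w) := Finset.univ.filter fun i =>
    9 / 20 * (cnt d.1 (L7_f o w i) : ℝ) ≤ (VA i).card with hS
  have hSmem : ∀ i, i ∈ S ↔ 9 / 20 * (cnt d.1 (L7_f o w i) : ℝ) ≤ (VA i).card := fun i => by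
    rw [hS, Finset.mem_filter]
    exact ⟨fun h => h.2, fun h => ⟨Finset.mem_univ _, h⟩⟩
  have inS : ∀ i ∈ S, 7 / 40 * μ ≤ ((UA i).card : ℝ) := fun i hi => by
    have h1 := (hSmem i).1 hi
    have h2 := cUA i
    have h3 := (hN' i).1
    linarith
  have ninS : ∀ i, i ∉ S → 9 / 40 * μ ≤ ((VB i).card : ℝ) ∧ 7 / 40 * μ ≤ ((UB i).card : ℝ) :=
    fun i hi => by
      have h1 : ((VA i).card : ℝ) < 9 / 20 * (cnt d.1 (L7_f o w i) : ℝ) :=
        not_le.1 fun h => hi ((hSmem i).2 h)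
      have h2 := cUB i
      have h3 := (hN' i).1
      have h4 := cAB i
      constructor <;> linarith
  have hcc : (S.card : ℝ) + ((Sᶜ).card : ℝ) = (w : ℝ) ^ 2 := by
    have h1 := Finset.card_add_card_compl S
    rw [Fintype.card_prod, Fintype.card_fin] at h1
    rw [pow_two]
    exact_mod_cast h1
  have mUA : ∀ i, ∀ u ∈ UA i, d.1 u = L7_f o w i ∧ u ∉ T := fun i u hu => by
    simp only [hUA, Finset.mem_filter, Finset.mem_univ, true_and] at hu
    exact ⟨hu.1, hu.2.2⟩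
  have mUB : ∀ i, ∀ u ∈ UB i, d.1 u = L7_f o w i ∧ u ∉ T := fun i u hu => by
    simp only [hUB, Finset.mem_filter, Finset.mem_univ, true_and] at hu
    exact ⟨hu.1, hu.2.2⟩
  have mVA : ∀ i, ∀ u ∈ VA i, d.1 u = L7_f o w i := fun i u hu => by
    simp only [hVA, Finset.mem_filter, Finset.mem_univ, true_and] at hu
    exact hu.1
  have mVB : ∀ i, ∀ u ∈ VB i, d.1 u = L7_f o w i := fun i u hu => by
    simp only [hVB, Finset.mem_filter, Finset.mem_univ, true_and] at hu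
    exact hu.1
  have mAB : ∀ i j, ∀ u ∈ UA i, ∀ v ∈ VB j, (u ∈ A ∧ v ∈ Bs) ∨ (u ∈ Bs ∧ v ∈ A) :=
    fun i j u hu v hv => by
      simp only [hUA, hVB, Finset.mem_filter, Finset.mem_univ, true_and] at hu hv
      exact Or.inl ⟨hu.2.1, hv.2⟩
  have mBA : ∀ i j, ∀ u ∈ UB i, ∀ v ∈ VA j, (u ∈ A ∧ v ∈ Bs) ∨ (u ∈ Bs ∧ v ∈ A) :=
    fun i j u hu v hv => by
      simp only [hUB, hVA, Finset.mem_filter, Finset.mem_univ, true_and] at hu hv
      exact Or.inr ⟨hu.2.1, hv.2⟩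
  have hlo : (0 : ℝ) ≤ 7 / 40 * μ := by positivity
  have diag : ∀ (P : Finset (Fin w × Fin w)) (g : Fin w × Fin w → ℝ),
      ∑ e ∈ P.image (fun i => (i, i)), (g e.2 - 1) = ∑ i ∈ P, (g i - 1) := fun P g =>
    Finset.sum_image fun x _ y _ h => (Prod.mk.inj h).1
  have dtouch : ∀ (P : Finset (Fin w × Fin w)), ∀ e ∈ P.image (fun i => (i, i)),
      Touch (L7_f o w e.1) (L7_f o w e.2) := fun P e he => by
    obtain ⟨i, -, rfl⟩ := Finset.mem_image.1 he
    exact Or.inl rfl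
  by_cases c2 : (S.card : ℝ) ≤ θ / 32 * (w : ℝ) ^ 2
  · -- few cells in `S`
    have h1 := L7_num hw hθ hμ0 hμθ Sᶜ (by rw [compl_compl]; exact c2)
      (fun i => ((VA i).card : ℝ)) (fun i => (cA i).trans (hN' i).2) hsA
    have h2 := L7_key d hd o hwM A Bs T a ((Sᶜ).image fun i => (i, i)) (dtouch _) UB VA mUB mVA
      mBA hlo (fun e he => by
        obtain ⟨i, hi, rfl⟩ := Finset.mem_image.1 he
        exact (ninS i (Finset.mem_compl.1 hi)).2)
    rw [diag Sᶜ (fun i => ((VA i).card : ℝ))] at h2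
    exact h1.trans h2
  by_cases c3 : ((Sᶜ).card : ℝ) ≤ θ / 32 * (w : ℝ) ^ 2
  · -- many cells in `S`
    have h1 := L7_num hw hθ hμ0 hμθ S c3
      (fun i => ((VB i).card : ℝ)) (fun i => (cB i).trans (hN' i).2) hsB
    have h2 := L7_key d hd o hwM A Bs T a (S.image fun i => (i, i)) (dtouch _) UA VB mUA mVB
      mAB hlo (fun e he => by
        obtain ⟨i, hi, rfl⟩ := Finset.mem_image.1 he
        exact inS i hi)
    rw [diag S (fun i => ((VB i).card : ℝ))] at h2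
    exact h1.trans h2
  -- the interface
  have h1 := grid_iso w S (τ := θ / 32) (by positivity) (by linarith) (not_le.1 c2).le (by
    have := not_le.1 c3
    nlinarith)
  set E : Finset ((Fin w × Fin w) × (Fin w × Fin w)) := Finset.univ.filter fun e =>
      e.1 ∈ S ∧ e.2 ∉ S ∧ GAdj e.1 e.2 with hEdef
  have hEm : ∀ e ∈ E, e.1 ∈ S ∧ e.2 ∉ S ∧ GAdj e.1 e.2 := fun e he =>
    (Finset.mem_filter.1 he).2
  have h2 := L7_key d hd o hwM A Bs T a E (fun e he => L7_touch o (hEm e he).2.2) UA VB mUA mVB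
      mAB hlo (fun e he => inS _ (hEm e he).1)
  refine le_trans ?_ h2
  have h3 : (E.card : ℝ) * (μ / 5) ≤ ∑ e ∈ E, (((VB e.2).card : ℝ) - 1) := by
    rw [← nsmul_eq_mul]
    refine Finset.card_nsmul_le_sum _ _ _ fun e he => ?_
    have h4 := (ninS _ (hEm e he).2.1).1
    linarith
  have h5 : θ / 32 * w * (μ / 5) ≤ ∑ e ∈ E, (((VB e.2).card : ℝ) - 1) :=
    (mul_le_mul_of_nonneg_right h1 (by positivity)).trans h3
  refine le_trans ?_ (mul_le_mul_of_nonneg_left h5 hlo)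
  have h6 : 0 ≤ θ * w * μ ^ 2 := by positivity
  nlinarith

end EA42
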