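import Pool.Agent.Lib.MP_ea42c6_pr.W0

/-!
# L8 — the probability that no second-stage edge crosses

Given the first stage `x` (with `(x u).1 ∈ B u`), the second-stage coordinates are independent.
For `u ∈ Wv` with `σ₁ u = false` the event of `u` fails with probability
`p2 q * t_u / (|B u| - 1)` at least, where `t_u` counts the targets `v ∈ B u`, `v ≠ (x u).1`, on the
other side.  Use `pr_rect` with `S = Wv.filter (σ₁ = false)`, then `1 - s ≤ exp (-s)`,
`|B u| - 1 ≤ ρm`.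
-/

namespace EA42

open scoped Classical

/-- the bad targets of `u` -/
private def L8T {V : Type*} (A Bs : Finset V) (u : V) (c : V) : Prop :=
  (u ∈ A ∧ c ∈ Bs) ∨ (u ∈ Bs ∧ c ∈ A)

private theorem L8_one {V : Type*} [Fintype V] {q : ℝ} (h0 : 0 ≤ q) (h1 : q ≤ 1)
    (B : V → Finset V) (x : Co1 V) (u : V) (P : V → Prop)
    (hx : x.1 ∈ B u ∧ 2 ≤ (B u).card) {ρm : ℝ} (hρ : ((B u).card : ℝ) ≤ ρm) :
    pr (wt2 q B u x) {z : Co2 V | z.2 = true → ¬ P z.1} ≤
      Real.exp (-(p2 q * ((((B u).filter fun v => v ≠ x.1 ∧ P v).card : ℝ)) / ρm)) := by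
  have hP : IsProb (wt2 q B u x) := isProb_wt2 h0 h1 B u x
  have hp2 : 0 ≤ p2 q := p2_nonneg h0 h1
  have hcard : (2 : ℝ) ≤ ((B u).card : ℝ) := by exact_mod_cast hx.2
  have hc1 : (0 : ℝ) < ((B u).card : ℝ) - 1 := by linarith
  have hc : {z : Co2 V | z.2 = true → ¬ P z.1} = {z : Co2 V | z.2 = true ∧ P z.1}ᶜ := by
    ext z
    simp only [Set.mem_ofPred_eq, Set.mem_compl_iff, not_and]
  rw [hc, pr_compl hP]
  have hval : pr (wt2 q B u x) {z : Co2 V | z.2 = true ∧ P z.1} =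
      p2 q * ((((B u).filter fun v => v ≠ x.1 ∧ P v).card : ℝ)) / (((B u).card : ℝ) - 1) := by
    unfold pr
    rw [Fintype.sum_prod_type]
    refine Eq.trans (Finset.sum_congr rfl (fun c _ => (?_ : _ =
        (if c ∈ (B u).filter (fun v => v ≠ x.1 ∧ P v) then p2 q * (1 / (((B u).card : ℝ) - 1))
          else 0)))) ?_
    · have h3 : (c, false) ∉ {z : Co2 V | z.2 = true ∧ P z.1} := by
        simp
      have h4 : ((c, true) ∈ {z : Co2 V | z.2 = true ∧ P z.1}) ↔ P c := by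
        simp
      rw [Fintype.sum_bool, if_neg h3, add_zero]
      unfold wt2 condW bern
      by_cases hPc : P c
      · rw [if_pos (h4.2 hPc), if_pos ⟨hx.2, hx.1⟩]
        by_cases hcB : c ∈ B u ∧ c ≠ x.1
        · rw [if_pos hcB, if_pos (Finset.mem_filter.2 ⟨hcB.1, hcB.2, hPc⟩)]
          simp only [if_true]
          ring
        · rw [if_neg hcB, if_neg (fun h => hcB ⟨(Finset.mem_filter.1 h).1,
            (Finset.mem_filter.1 h).2.1⟩), zero_mul]
      · rw [if_neg (fun h => hPc (h4.1 h)), if_neg (fun h => hPc (Finset.mem_filter.1 h).2.2)]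
    · rw [Finset.sum_ite_mem, Finset.univ_inter, Finset.sum_const, nsmul_eq_mul]
      ring
  rw [hval]
  set t : ℝ := (((B u).filter fun v => v ≠ x.1 ∧ P v).card : ℝ) with ht
  have ht0 : 0 ≤ t := Nat.cast_nonneg _
  have h5 : p2 q * t / ρm ≤ p2 q * t / (((B u).card : ℝ) - 1) :=
    div_le_div_of_nonneg_left (mul_nonneg hp2 ht0) hc1 (by linarith)
  have h6 := Real.add_one_le_exp (-(p2 q * t / ρm))
  linarith

theorem no_cross_le {V : Type*} [Fintype V] {q : ℝ} (h0 : 0 ≤ q) (h1 : q ≤ 1)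
    (B : V → Finset V) (x : V → Co1 V) (A Bs Wv : Finset V)
    (hx : ∀ u ∈ Wv, (x u).1 ∈ B u ∧ 2 ≤ (B u).card) {ρm : ℝ}
    (hρ : ∀ u ∈ Wv, ((B u).card : ℝ) ≤ ρm) :
    pr (prodW fun u => wt2 q B u (x u))
      {y | ∀ u ∈ Wv, (x u).2.2 = false → (y u).2 = true →
        ¬ ((u ∈ A ∧ (y u).1 ∈ Bs) ∨ (u ∈ Bs ∧ (y u).1 ∈ A))} ≤
      Real.exp (-(p2 q *
        (∑ u ∈ Wv.filter (fun u => (x u).2.2 = false),
          (((B u).filter fun v => v ≠ (x u).1 ∧
            ((u ∈ A ∧ v ∈ Bs) ∨ (u ∈ Bs ∧ v ∈ A))).card : ℝ)) / ρm)) := by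
  have hw : ∀ u, IsProb (wt2 q B u (x u)) := fun u => isProb_wt2 h0 h1 B u (x u)
  have hset : {y : V → Co2 V | ∀ u ∈ Wv, (x u).2.2 = false → (y u).2 = true →
        ¬ ((u ∈ A ∧ (y u).1 ∈ Bs) ∨ (u ∈ Bs ∧ (y u).1 ∈ A))} =
      {y | ∀ u ∈ Wv.filter (fun u => (x u).2.2 = false),
        y u ∈ {z : Co2 V | z.2 = true → ¬ L8T A Bs u z.1}} := by
    ext y
    simp only [Set.mem_ofPred_eq, Finset.mem_filter, and_imp]
    rfl
  rw [hset, pr_rect hw (Wv.filter fun u => (x u).2.2 = false)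
    (fun u => {z : Co2 V | z.2 = true → ¬ L8T A Bs u z.1})]
  calc _ ≤ ∏ u ∈ Wv.filter (fun u => (x u).2.2 = false),
        Real.exp (-(p2 q * ((((B u).filter fun v => v ≠ (x u).1 ∧ L8T A Bs u v).card : ℝ)) / ρm)) :=
        Finset.prod_le_prod (fun u _ => pr_nonneg (hw u) _) fun u hu =>
          L8_one h0 h1 B (x u) u (L8T A Bs u) (hx u (Finset.mem_filter.1 hu).1)
            (hρ u (Finset.mem_filter.1 hu).1)
    _ = _ := by
      rw [← Real.exp_sum]
      congr 1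
      have hf : ∀ u, ((B u).filter fun v => v ≠ (x u).1 ∧ L8T A Bs u v) =
          ((B u).filter fun v => v ≠ (x u).1 ∧ ((u ∈ A ∧ v ∈ Bs) ∨ (u ∈ Bs ∧ v ∈ A))) :=
        fun u => Finset.filter_congr fun v _ => Iff.rfl
      rw [Finset.sum_neg_distrib, Finset.mul_sum, Finset.sum_div]
      simp only [hf]

end EA42
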