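import Pool.Agent.Lib.MP_ea42c6_pr.L3
import Pool.Agent.Lib.MP_ea42c6_pr.L4
import Pool.Agent.Lib.MP_ea42c6_pr.L5
import Pool.Agent.Lib.MP_ea42c6_pr.L7
import Pool.Agent.Lib.MP_ea42c6_pr.L8
import Pool.Agent.Lib.MP_ea42c6_pr.L9c

/-!
# L9a — the second stage, given a good first stage

`W = sq o w`, `U = inR R`, `Wv = inR W`, `G1 = gr1 x U`, `G = gr (comb x y) U ≥ G1`,
`t = k₀ (k₀ ℓ)`, `Big` = components of `G1` with at least `t` vertices of `U`.
By `big_comp` (for `v ∈ Wv`, `reach_near` and `hWR` put `reach d.2 j v`, `j ≤ 2L+1`, in `U`) every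
`v ∈ Wv` that is not lost is in a component of `Big`.
`Vs` = not lost vertices of `Wv`; `Good1` gives `|Wv| - |Vs| ≤ (θ/2) |Wv|` (sum over cells).
If `¬ GoodLoc`, `split_exists` gives `J ⊆ Big`, so
`{¬ GoodLoc} ⊆ ⋃_{J ⊆ Big, both sides large} {y | no crossing between A_J and B_J}`
with `A_J = {v | comp v ∈ J}`, `B_J = {v | comp v ∈ Big \ J}` (a crossing `c₂ u` with `σ₁ = false`,
`σ₂ = true`, `u ∈ U` is an edge of `G`, the two ends being distinct as they are in
different components of `G1`).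
For each such `J`: `interface` (with `T = {σ₁ = true}`, `a u = (x u).1`, lost fraction
`θ/2 ≤ 1/10`) and `no_cross_le` (`ρm = 162 μ` by `card_ball_hi`, `hWR`; `|B u| ≥ μ/2 ≥ 2` by
`card_ball_lo`): probability at most `exp(-(p2 q (θ w μ²/1000)/(162 μ)))`.
Union bound over the subsets `J` of `Big` (`2^|Big|`), `card_big`, `card_inR_le`, `two_pow_le`.
-/

namespace EA42

open scoped Classical

theorem L9a_gr1_le {V : Type*} (x : V → Co1 V) (y : V → Co2 V) (U : Finset V) :
    gr1 x U ≤ gr (comb x y) U := by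
  intro u v h
  unfold gr1 at h
  unfold gr
  rw [SimpleGraph.fromRel_adj] at h ⊢
  refine ⟨h.1, ?_⟩
  rcases h.2 with h2 | h2
  · left
    refine ⟨h2.1, ?_⟩
    rcases h2.2 with h3 | h3
    · exact Or.inl h3
    · exact Or.inr (Or.inl h3)
  · right
    refine ⟨h2.1, ?_⟩
    rcases h2.2 with h3 | h3
    · exact Or.inl h3
    · exact Or.inr (Or.inl h3)

/-- The number of lost vertices of `W`. -/
theorem L9a_lost {V : Type*} [Fintype V] {M : ℕ} (cl : V → Cell M) (x : V → Co1 V)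
    (W : Finset (Cell M)) {θ : ℝ} (k₀ ℓ : ℕ) (hgood : Good1 cl x W θ k₀ ℓ) :
    ((inR cl W).card : ℝ) - (((inR cl W).filter fun v => ¬ Lost x v k₀ ℓ).card : ℝ) ≤
      θ / 2 * ((inR cl W).card : ℝ) := by
  have h1 : ((inR cl W).filter fun v => Lost x v k₀ ℓ).card +
      ((inR cl W).filter fun v => ¬ Lost x v k₀ ℓ).card = (inR cl W).card :=
    Finset.card_filter_add_card_filter_not (fun v => Lost x v k₀ ℓ)
  have h2 : ((inR cl W).filter fun v => Lost x v k₀ ℓ).card =
      ∑ c ∈ W, (Finset.univ.filter fun v => cl v = c ∧ Lost x v k₀ ℓ).card := by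
    rw [← Finset.card_biUnion]
    · congr 1
      ext v
      simp only [inR, Finset.mem_filter, Finset.mem_univ, true_and, Finset.mem_biUnion]
      constructor
      · rintro ⟨h, h'⟩
        exact ⟨cl v, h, rfl, h'⟩
      · rintro ⟨c, hc, h, h'⟩
        exact ⟨h ▸ hc, h'⟩
    · intro c _ c' _ hcc
      rw [Function.onFun, Finset.disjoint_left]
      intro v hv hv'
      simp only [Finset.mem_filter, Finset.mem_univ, true_and] at hv hv'
      exact hcc (hv.1.symm.trans hv'.1)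
  have h3 : (((inR cl W).filter fun v => Lost x v k₀ ℓ).card : ℝ) ≤
      θ / 2 * ((inR cl W).card : ℝ) := by
    rw [h2, card_inR, Nat.cast_sum, Nat.cast_sum, Finset.mul_sum]
    exact Finset.sum_le_sum fun c hc => (hgood c hc).1
  have h4 : (((inR cl W).filter fun v => Lost x v k₀ ℓ).card : ℝ) +
      (((inR cl W).filter fun v => ¬ Lost x v k₀ ℓ).card : ℝ) = ((inR cl W).card : ℝ) := by
    exact_mod_cast h1
  linarith

theorem stage2_le {V : Type*} [Fintype V] {M : ℕ} [NeZero M] {q θ μ : ℝ} (h0 : 0 < q)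
    (h1 : q ≤ 1) (hθ : 0 < θ) (hθ1 : θ ≤ 1 / 13) (hμ : 1000 / θ ≤ μ) (d : Datum V M)
    (hd : Valid d) (k₀ ℓ : ℕ) (hℓ : 1 ≤ ℓ) (hk : (10 : ℝ) ^ 8 ≤ k₀ * (p2 q * θ))
    (o : Cell M) {w : ℕ} (hw : 0 < w) (hwM : w ≤ M) (R : Finset (Cell M))
    (hWR : ∀ c ∈ sq o w, ∀ c', Near (4 * (2 * (k₀ * ℓ) + 1)) c c' → c' ∈ R)
    (hRc : R.card ≤ 100 * (k₀ * ℓ) * w)
    (hN : ∀ c ∈ R, μ / 2 ≤ (cnt d.1 c : ℝ) ∧ (cnt d.1 c : ℝ) ≤ 2 * μ)
    (x : V → Co1 V) (hx : ∀ u, (x u).1 ∈ d.2 u ∧ (x u).2.1 ∈ d.2 u)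
    (hgood : Good1 d.1 x (sq o w) θ k₀ ℓ) :
    pr (prodW fun u => wt2 q d.2 u (x u)) {y | ¬ GoodLoc d.1 (comb x y) (sq o w) R θ} ≤
      Real.exp (-(μ * w * p2 q * θ / 324000)) := by
  have hμ1000 : (1000 : ℝ) ≤ μ := by
    have : (1000 : ℝ) ≤ 1000 / θ := by
      rw [le_div_iff₀ hθ]; nlinarith
    linarith
  have hμ0 : 0 < μ := by linarith
  have hp2 : 0 < p2 q := p2_pos h0 h1
  have hp : IsProb (prodW fun u => wt2 q d.2 u (x u)) :=
    isProb_prodW fun u => isProb_wt2 h0.le h1 d.2 u (x u)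
  have hsqR : ∀ c ∈ sq o w, c ∈ R := fun c hc => hWR c hc c (near_refl _ c)
  set U : Finset V := inR d.1 R with hU
  set Wv : Finset V := inR d.1 (sq o w) with hWv
  have hWvmem : ∀ u, u ∈ Wv ↔ d.1 u ∈ sq o w := by
    intro u; simp [hWv, inR]
  have hUmem : ∀ u, u ∈ U ↔ d.1 u ∈ R := by
    intro u; simp [hU, inR]
  have hWU : ∀ u ∈ Wv, u ∈ U := fun u hu => (hUmem u).2 (hsqR _ ((hWvmem u).1 hu))
  set G1 : SimpleGraph V := gr1 x U with hG1
  set Big : Finset G1.ConnectedComponent := Finset.univ.filter fun c : G1.ConnectedComponent =>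
      k₀ * (k₀ * ℓ) ≤ (U.filter fun y => G1.connectedComponentMk y = c).card with hBig
  -- vertices of `W` that are not lost are in big components
  have hbig : ∀ v ∈ Wv, ¬ Lost x v k₀ ℓ → G1.connectedComponentMk v ∈ Big := by
    intro v hv hl
    rw [hBig, Finset.mem_filter]
    refine ⟨Finset.mem_univ _, ?_⟩
    have hreach : ∀ j ≤ 2 * (k₀ * ℓ) + 1, reach d.2 j v ⊆ U := by
      intro j hj u hu
      rw [hUmem]
      refine hWR (d.1 v) ((hWvmem v).1 hv) _ ?_
      exact near_mono (by omega) (reach_near d hd j v u hu)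
    refine (big_comp d.2 x hx v k₀ ℓ hl U hreach).trans (Finset.card_le_card ?_)
    intro y hy
    rw [Finset.mem_filter] at hy ⊢
    exact ⟨hy.1, (SimpleGraph.ConnectedComponent.eq.2 hy.2.symm)⟩
  set Vs : Finset V := Wv.filter fun v => ¬ Lost x v k₀ ℓ with hVs
  have hVsW : Vs ⊆ Wv := Finset.filter_subset _ _
  have hlostW : (Wv.card : ℝ) - Vs.card ≤ θ / 2 * Wv.card :=
    L9a_lost d.1 x (sq o w) k₀ ℓ hgood
  let A : Finset G1.ConnectedComponent → Finset V := fun J =>
    Finset.univ.filter fun v => G1.connectedComponentMk v ∈ J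
  let E : Finset G1.ConnectedComponent → Set (V → Co2 V) := fun J =>
    {y | ∀ u ∈ Wv, (x u).2.2 = false → (y u).2 = true →
        ¬ ((u ∈ A J ∧ (y u).1 ∈ A (Big \ J)) ∨ (u ∈ A (Big \ J) ∧ (y u).1 ∈ A J))}
  let F : Finset (Finset G1.ConnectedComponent) := Big.powerset.filter fun J =>
      θ / 4 * (Wv.card : ℝ) ≤ ((Vs.filter fun v => G1.connectedComponentMk v ∈ J).card : ℝ) ∧
      θ / 4 * (Wv.card : ℝ) ≤
        ((Vs.filter fun v => G1.connectedComponentMk v ∈ Big \ J).card : ℝ)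
  have hincl : {y : V → Co2 V | ¬ GoodLoc d.1 (comb x y) (sq o w) R θ} ⊆
      {y | ∃ J ∈ F, y ∈ E J} := by
    intro y hy
    have hno : ∀ x0, ((Wv.filter fun v => (gr (comb x y) U).Reachable x0 v).card : ℝ) <
        (1 - θ) * Wv.card := by
      intro x0
      by_contra hcon
      exact hy ⟨x0, not_lt.1 hcon⟩
    obtain ⟨J, hJ, hJ1, hJ2, hJ3⟩ := split_exists G1 (gr (comb x y) U) (L9a_gr1_le x y U) Wv Vs
      hVsW Big (fun v hv => hbig v (hVsW hv) (Finset.mem_filter.1 hv).2) hθ (by linarith) hlostW hno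
    refine ⟨J, ?_, ?_⟩
    · rw [Finset.mem_filter]
      exact ⟨Finset.mem_powerset.2 hJ, hJ1, hJ2⟩
    · intro u hu hσ hσ2 hc
      have hadj : u ≠ (y u).1 → (gr (comb x y) U).Adj u (y u).1 := by
        intro hne
        unfold gr
        rw [SimpleGraph.fromRel_adj]
        refine ⟨hne, Or.inl ⟨hWU u hu, Or.inr (Or.inr ⟨hσ, hσ2, rfl⟩)⟩⟩
      rcases hc with ⟨hc1, hc2⟩ | ⟨hc1, hc2⟩
      · have hc1' : G1.connectedComponentMk u ∈ J := (Finset.mem_filter.1 hc1).2
        have hc2' : G1.connectedComponentMk (y u).1 ∈ Big \ J := (Finset.mem_filter.1 hc2).2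
        refine hJ3 u (y u).1 (hadj ?_) hc1' hc2'
        intro h
        rw [← h] at hc2'
        exact (Finset.mem_sdiff.1 hc2').2 hc1'
      · have hc1' : G1.connectedComponentMk u ∈ Big \ J := (Finset.mem_filter.1 hc1).2
        have hc2' : G1.connectedComponentMk (y u).1 ∈ J := (Finset.mem_filter.1 hc2).2
        refine hJ3 (y u).1 u (hadj ?_).symm hc2' hc1'
        intro h
        rw [← h] at hc2'
        exact (Finset.mem_sdiff.1 hc1').2 hc2'
  have hEJ : ∀ J ∈ F, pr (prodW fun u => wt2 q d.2 u (x u)) (E J) ≤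
      Real.exp (-(p2 q * (θ * w * μ ^ 2 / 1000) / (162 * μ))) := by
    intro J hJ
    rw [Finset.mem_filter] at hJ
    obtain ⟨hJB, hJ1, hJ2⟩ := hJ
    have hJB' := Finset.mem_powerset.1 hJB
    have hcross := no_cross_le h0.le h1 d.2 x (A J) (A (Big \ J)) Wv (ρm := 162 * μ)
      (fun u hu => ⟨(hx u).1, by
        have h2 := card_ball_lo d hd u
        have h3 := (hN (d.1 u) (hsqR _ ((hWvmem u).1 hu))).1
        have h4 : (2 : ℝ) ≤ (cnt d.1 (d.1 u) : ℝ) := by linarith
        have h5 : 2 ≤ cnt d.1 (d.1 u) := by exact_mod_cast h4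
        exact h5.trans h2⟩)
      (fun u hu => by
        have h2 := card_ball_hi d hd u (K := 2 * μ) (by positivity) (fun c hc =>
          (hN c (hWR (d.1 u) ((hWvmem u).1 hu) c (near_mono (by omega) hc))).2)
        linarith)
    refine hcross.trans (Real.exp_le_exp.2 (neg_le_neg ?_))
    refine div_le_div_of_nonneg_right (mul_le_mul_of_nonneg_left ?_ hp2.le) (by positivity)
    have hint := interface d hd o hw hwM hθ hθ1 hμ (fun c hc => hN c (hsqR c hc)) (A J)
      (A (Big \ J)) (Finset.univ.filter fun v => (x v).2.2 = true) ?_ ?_ ?_ ?_ ?_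
      (fun u => (x u).1)
    · refine hint.trans (le_of_eq ?_)
      refine Finset.sum_congr ?_ fun u _ => rfl
      refine Finset.filter_congr fun u _ => ?_
      simp
    · rw [Finset.disjoint_left]
      intro v hv hv'
      exact (Finset.mem_sdiff.1 (Finset.mem_filter.1 hv').2).2 (Finset.mem_filter.1 hv).2
    · intro c hc
      have h2 : ((Finset.univ.filter fun v => d.1 v = c ∧ v ∉ A J ∧ v ∉ A (Big \ J)).card : ℝ) ≤
          ((Finset.univ.filter fun v => d.1 v = c ∧ Lost x v k₀ ℓ).card : ℝ) := by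
        have h3 : (Finset.univ.filter fun v => d.1 v = c ∧ v ∉ A J ∧ v ∉ A (Big \ J)) ⊆
            (Finset.univ.filter fun v => d.1 v = c ∧ Lost x v k₀ ℓ) := by
          intro v hv
          rw [Finset.mem_filter] at hv ⊢
          refine ⟨hv.1, hv.2.1, ?_⟩
          by_contra hl
          have h4 := hbig v ((hWvmem v).2 (hv.2.1 ▸ hc)) hl
          by_cases h5 : G1.connectedComponentMk v ∈ J
          · exact hv.2.2.1 (Finset.mem_filter.2 ⟨Finset.mem_univ _, h5⟩)
          · exact hv.2.2.2 (Finset.mem_filter.2 ⟨Finset.mem_univ _, Finset.mem_sdiff.2 ⟨h4, h5⟩⟩)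
        exact_mod_cast Finset.card_le_card h3
      have h6 := (hgood c hc).1
      have h7 : (0 : ℝ) ≤ (cnt d.1 c : ℝ) := Nat.cast_nonneg _
      nlinarith
    · intro c hc
      have h6 := (hgood c hc).2
      refine le_trans (le_of_eq ?_) h6
      congr 2
      ext v
      simp
    · refine hJ1.trans ?_
      have h3 : (Vs.filter fun v => G1.connectedComponentMk v ∈ J) ⊆
          Wv.filter fun v => v ∈ A J := by
        intro v hv
        rw [Finset.mem_filter] at hv ⊢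
        exact ⟨hVsW hv.1, Finset.mem_filter.2 ⟨Finset.mem_univ _, hv.2⟩⟩
      exact_mod_cast Finset.card_le_card h3
    · refine hJ2.trans ?_
      have h3 : (Vs.filter fun v => G1.connectedComponentMk v ∈ Big \ J) ⊆
          Wv.filter fun v => v ∈ A (Big \ J) := by
        intro v hv
        rw [Finset.mem_filter] at hv ⊢
        exact ⟨hVsW hv.1, Finset.mem_filter.2 ⟨Finset.mem_univ _, hv.2⟩⟩
      exact_mod_cast Finset.card_le_card h3
  refine (pr_mono hp hincl).trans ((pr_exists_le hp F E).trans ((Finset.sum_le_sum hEJ).trans ?_))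
  rw [Finset.sum_const, nsmul_eq_mul]
  have hFc : (F.card : ℝ) ≤ 2 ^ Big.card := by
    have : F.card ≤ 2 ^ Big.card := by
      refine (Finset.card_filter_le _ _).trans ?_
      rw [Finset.card_powerset]
    exact_mod_cast this
  refine (mul_le_mul_of_nonneg_right hFc (Real.exp_pos _).le).trans ?_
  refine two_pow_le hμ0 hθ hp2 k₀ ℓ w Big.card U.card R.card hℓ hk ?_ ?_ hRc
  · exact card_big G1 U (k₀ * (k₀ * ℓ))
  · exact card_inR_le d.1 R fun c hc => (hN c hc).2

end EA42
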