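import Pool.Agent.Lib.MP_ea42c6_pr.M1

/-!
# S1a — the probability of a chain of close points

`unif_ball`: for `x ∈ [0,1]²`: `{y | tdist x y < r}` is contained, within `[0,1]²`, in the product of two
sets of length `≤ 4r`: `tdist x y < r` gives `cdist x.i y.i < r` for both coordinates (`|cdist| ≤ tdist`),
and `cdist a b < r` means `|a-b| < r` (length `2r`) or `|a-b| > 1-r`, i.e.
`b < a-1+r ≤ r` or `b > a+1-r ≥ 1-r` (length `≤ r` each inside `[0,1]`).

`chain_le`: for an injective `p : Fin (k+1) → Fin n` the event that consecutive points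
`X (p i), X (p (i+1))` are at distance `< r` has probability at most `(16 r²)^k`: induction on `k`
(integrate out the last point, e.g. push the product measure forward to `Fin (k+1) → Pt` along the
injective `p` and use `MeasureTheory.measurePreserving_piFinSuccAbove (Fin.last k)`; or induct
over a statement about `Measure.pi` and one coordinate).  Almost all points are in `[0,1]²`.
-/

namespace EA42

open MeasureTheory
open scoped Classical ENNReal

theorem S1a_cdist {a b r : ℝ} (ha : a ∈ Set.Icc (0 : ℝ) 1) (hb : b ∈ Set.Icc (0 : ℝ) 1)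
    (h : cdist a b < r) :
    b ∈ Set.Icc (a - r) (a + r) ∪ Set.Icc 0 r ∪ Set.Icc (1 - r) 1 := by
  obtain ⟨ha0, ha1⟩ := ha
  obtain ⟨hb0, hb1⟩ := hb
  unfold cdist at h
  rcases min_lt_iff.mp h with h1 | h1
  · rw [abs_lt] at h1
    exact Or.inl (Or.inl ⟨by linarith [h1.2], by linarith [h1.1]⟩)
  · have h2 : 1 - r < |a - b| := by linarith
    rcases lt_abs.mp h2 with h3 | h3
    · exact Or.inl (Or.inr ⟨hb0, by linarith⟩)
    · exact Or.inr ⟨by linarith, hb1⟩

theorem S1a_vol {a r : ℝ} (hr : 0 ≤ r) :
    (volume : Measure ℝ) (Set.Icc (a - r) (a + r) ∪ Set.Icc 0 r ∪ Set.Icc (1 - r) 1) ≤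
      ENNReal.ofReal (4 * r) := by
  calc (volume : Measure ℝ) (Set.Icc (a - r) (a + r) ∪ Set.Icc 0 r ∪ Set.Icc (1 - r) 1)
      ≤ volume (Set.Icc (a - r) (a + r)) + volume (Set.Icc 0 r) + volume (Set.Icc (1 - r) 1) :=
        (measure_union_le _ _).trans (add_le_add (measure_union_le _ _) le_rfl)
    _ = ENNReal.ofReal (4 * r) := by
        rw [Real.volume_Icc, Real.volume_Icc, Real.volume_Icc,
          ← ENNReal.ofReal_add (by linarith) (by linarith),
          ← ENNReal.ofReal_add (by linarith) (by linarith)]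
        congr 1
        ring

theorem unif_ball {r : ℝ} (hr : 0 ≤ r) (x : Pt)
    (hx : x ∈ Set.Icc (0 : ℝ) 1 ×ˢ Set.Icc (0 : ℝ) 1) :
    unif {y | tdist x y < r} ≤ ENNReal.ofReal (16 * r ^ 2) := by
  have hm : MeasurableSet {y : Pt | tdist x y < r} :=
    measurableSet_lt (measurable_tdist.comp (measurable_const.prodMk measurable_id))
      measurable_const
  unfold unif
  rw [Measure.restrict_apply hm]
  have hsub : {y : Pt | tdist x y < r} ∩ (Set.Icc (0 : ℝ) 1 ×ˢ Set.Icc (0 : ℝ) 1) ⊆
      (Set.Icc (x.1 - r) (x.1 + r) ∪ Set.Icc 0 r ∪ Set.Icc (1 - r) 1) ×ˢ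
        (Set.Icc (x.2 - r) (x.2 + r) ∪ Set.Icc 0 r ∪ Set.Icc (1 - r) 1) := by
    rintro y ⟨hy, hy1, hy2⟩
    have hy' : tdist x y < r := hy
    unfold tdist at hy'
    have h1 : cdist x.1 y.1 < r := by
      refine lt_of_le_of_lt ?_ hy'
      exact Real.le_sqrt_of_sq_le (by nlinarith [sq_nonneg (cdist x.2 y.2)])
    have h2 : cdist x.2 y.2 < r := by
      refine lt_of_le_of_lt ?_ hy'
      exact Real.le_sqrt_of_sq_le (by nlinarith [sq_nonneg (cdist x.1 y.1)])
    exact ⟨S1a_cdist hx.1 hy1 h1, S1a_cdist hx.2 hy2 h2⟩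
  refine (measure_mono hsub).trans ?_
  rw [Measure.volume_eq_prod, Measure.prod_prod]
  calc _ ≤ ENNReal.ofReal (4 * r) * ENNReal.ofReal (4 * r) :=
        mul_le_mul' (S1a_vol hr) (S1a_vol hr)
    _ = ENNReal.ofReal (16 * r ^ 2) := by
        rw [← ENNReal.ofReal_mul (by linarith)]
        congr 1
        ring

theorem S1a_meas {ι : Type*} (r : ℝ) (i j : ι) :
    MeasurableSet {X : ι → Pt | tdist (X i) (X j) < r} := by
  have h3 : Measurable fun X : ι → Pt => (X i, X j) :=
    (measurable_pi_apply i).prodMk (measurable_pi_apply j)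
  exact measurableSet_lt (measurable_tdist.comp h3) measurable_const

theorem S1a_chain (k : ℕ) {r : ℝ} (hr : 0 ≤ r) :
    (Measure.pi fun _ : Fin (k + 1) => unif)
      {X | ∀ i : Fin k, tdist (X i.castSucc) (X i.succ) < r} ≤
      ENNReal.ofReal (16 * r ^ 2) ^ k := by
  induction k with
  | zero =>
    rw [pow_zero]
    exact prob_le_one
  | succ k ih =>
    set B : Set (Fin (k + 1) → Pt) := {X | ∀ i : Fin k, tdist (X i.castSucc) (X i.succ) < r}
      with hB
    have hBm : MeasurableSet B := by
      have e : B = ⋂ i : Fin k, {X : Fin (k + 1) → Pt | tdist (X i.castSucc) (X i.succ) < r} := by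
        ext X
        simp only [hB, Set.mem_ofPred_eq, Set.mem_iInter]
      rw [e]
      exact MeasurableSet.iInter fun i => S1a_meas r _ _
    have hmp := measurePreserving_piFinSuccAbove (fun _ : Fin (k + 2) => unif) (Fin.last (k + 1))
    set D : Set (Pt × (Fin (k + 1) → Pt)) :=
      {z | z.2 ∈ B ∧ tdist (z.2 (Fin.last k)) z.1 < r} with hD
    have hDm : MeasurableSet D := by
      refine MeasurableSet.inter (measurable_snd hBm) ?_
      have h3 : Measurable fun z : Pt × (Fin (k + 1) → Pt) => (z.2 (Fin.last k), z.1) :=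
        ((measurable_pi_apply _).comp measurable_snd).prodMk measurable_fst
      exact measurableSet_lt (measurable_tdist.comp h3) measurable_const
    have hpre : {X : Fin (k + 2) → Pt | ∀ i : Fin (k + 1), tdist (X i.castSucc) (X i.succ) < r} =
        (MeasurableEquiv.piFinSuccAbove (fun _ => Pt) (Fin.last (k + 1))) ⁻¹' D := by
      ext X
      have hval : MeasurableEquiv.piFinSuccAbove (fun _ : Fin (k + 2) => Pt) (Fin.last (k + 1)) X =
          (X (Fin.last (k + 1)), fun j : Fin (k + 1) => X j.castSucc) := by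
        simp [MeasurableEquiv.piFinSuccAbove, Fin.init_def]
      rw [Set.mem_preimage, hval]
      simp only [hD, hB, Set.mem_ofPred_eq]
      rw [Fin.forall_fin_succ']
      constructor
      · rintro ⟨h1, h2⟩
        exact ⟨fun i => h1 i, h2⟩
      · rintro ⟨h1, h2⟩
        exact ⟨fun i => h1 i, h2⟩
    rw [hpre, hmp.measure_preimage hDm.nullMeasurableSet, Measure.prod_apply_symm hDm]
    have hae : ∀ᵐ Z ∂(Measure.pi fun _ : Fin (k + 1) => unif),
        Z (Fin.last k) ∈ Set.Icc (0 : ℝ) 1 ×ˢ Set.Icc (0 : ℝ) 1 := by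
      have h1 : ∀ᵐ z ∂unif, z ∈ Set.Icc (0 : ℝ) 1 ×ˢ Set.Icc (0 : ℝ) 1 := by
        unfold unif
        exact ae_restrict_mem (measurableSet_Icc.prod measurableSet_Icc)
      exact (measurePreserving_eval (fun _ : Fin (k + 1) => unif)
        (Fin.last k)).quasiMeasurePreserving.ae h1
    calc ∫⁻ Z, unif ((fun y => (y, Z)) ⁻¹' D) ∂(Measure.pi fun _ : Fin (k + 1) => unif)
        ≤ ∫⁻ Z, B.indicator (fun _ => ENNReal.ofReal (16 * r ^ 2)) Z
            ∂(Measure.pi fun _ : Fin (k + 1) => unif) := by
          refine lintegral_mono_ae ?_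
          filter_upwards [hae] with Z hZ
          by_cases hZB : Z ∈ B
          · rw [Set.indicator_of_mem hZB]
            refine (measure_mono ?_).trans (unif_ball hr (Z (Fin.last k)) hZ)
            intro y hy
            exact hy.2
          · rw [Set.indicator_of_notMem hZB]
            have hem : (fun y => (y, Z)) ⁻¹' D = ∅ := by
              ext y
              simp only [Set.mem_preimage, Set.mem_empty_iff_false, iff_false]
              exact fun h => hZB h.1
            rw [hem, measure_empty]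
      _ = ENNReal.ofReal (16 * r ^ 2) * (Measure.pi fun _ : Fin (k + 1) => unif) B := by
          rw [lintegral_indicator hBm, setLIntegral_const]
      _ ≤ ENNReal.ofReal (16 * r ^ 2) * ENNReal.ofReal (16 * r ^ 2) ^ k :=
          mul_le_mul' le_rfl ih
      _ = ENNReal.ofReal (16 * r ^ 2) ^ (k + 1) := (pow_succ' _ _).symm

theorem chain_le {n k : ℕ} {r : ℝ} (hr : 0 ≤ r) (p : Fin (k + 1) → Fin n)
    (hp : Function.Injective p) :
    (Measure.pi fun _ : Fin n => unif)
      {X | ∀ i : Fin k, tdist (X (p i.castSucc)) (X (p i.succ)) < r} ≤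
      ENNReal.ofReal (16 * r ^ 2) ^ k := by
  have hind : ProbabilityTheory.iIndepFun (fun (i : Fin n) (X : Fin n → Pt) => X i)
      (Measure.pi fun _ : Fin n => unif) :=
    ProbabilityTheory.iIndepFun_pi (X := fun (_ : Fin n) (x : Pt) => x)
      (fun _ => measurable_id.aemeasurable)
  have hind2 := hind.precomp hp
  have hmap := (ProbabilityTheory.iIndepFun_iff_map_fun_eq_pi_map
    (fun i => (measurable_pi_apply (p i)).aemeasurable)).mp hind2
  have hev : ∀ i : Fin (k + 1), (Measure.pi fun _ : Fin n => unif).map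
      (fun X : Fin n → Pt => X (p i)) = unif := fun i =>
    (measurePreserving_eval (fun _ : Fin n => unif) (p i)).map_eq
  have hmap2 : (Measure.pi fun _ : Fin n => unif).map (fun (X : Fin n → Pt) i => X (p i)) =
      Measure.pi fun _ : Fin (k + 1) => unif := by
    rw [← funext hev]
    exact hmap
  have hBm : MeasurableSet {X : Fin (k + 1) → Pt |
      ∀ i : Fin k, tdist (X i.castSucc) (X i.succ) < r} := by
    have e : {X : Fin (k + 1) → Pt | ∀ i : Fin k, tdist (X i.castSucc) (X i.succ) < r} =
        ⋂ i : Fin k, {X : Fin (k + 1) → Pt | tdist (X i.castSucc) (X i.succ) < r} := by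
      ext X
      simp only [Set.mem_ofPred_eq, Set.mem_iInter]
    rw [e]
    exact MeasurableSet.iInter fun i => S1a_meas r _ _
  have h := S1a_chain k hr
  rw [← hmap2, Measure.map_apply (measurable_pi_iff.mpr fun i => measurable_pi_apply (p i)) hBm] at h
  exact h

end EA42
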