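import Pool.Agent.Lib.MP_ea42c6_pr.FP1

/-!
# P1 — bad blocks of level `k` satisfy a product bound with `q_k = (20736 p₀)^(2^k)`

Induction on `k`, proving the bound with `q_k = 20736^(2^k - 1) p₀^(2^k)`
(`20736 = 144²`, `q_{k+1} = 20736 q_k²`).
Step: `S` separated at level `k+1` in `grid t`, `t * 12^(k+1) = s`.  If all `c ∈ S` are bad,
choose `(c1 c, c2 c)`: children of `c`, bad at level `k`, far from each other.  The set
`S' = {c1 c, c2 c | c ∈ S} ⊆ grid (12 t)` has `2|S|` elements and is separated: children of far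
blocks are far (`12·5 - 11 ≥ 5`).  Union over the `(144²)^|S|` choice functions.
(The children of `c` are `(12 c.1 + i, 12 c.2 + j)`, `i, j < 12`: `par` is division by 12.)
-/

namespace EA42

open scoped Classical

theorem far_of_par {c c' : ℕ × ℕ} (h : Far (par c) (par c')) : Far c c' := by
  unfold Far par at *
  simp only at h
  omega

/-- the children of a block -/
def P1_ch (c : ℕ × ℕ) : Finset (ℕ × ℕ) :=
  Finset.Ico (12 * c.1) (12 * c.1 + 12) ×ˢ Finset.Ico (12 * c.2) (12 * c.2 + 12)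

theorem P1_mem_ch (c x : ℕ × ℕ) : x ∈ P1_ch c ↔ par x = c := by
  unfold P1_ch par
  rw [Finset.mem_product, Finset.mem_Ico, Finset.mem_Ico, Prod.ext_iff]
  simp only
  omega

theorem P1_card_ch (c : ℕ × ℕ) : (P1_ch c).card = 144 := by
  unfold P1_ch
  rw [Finset.card_product, Nat.card_Ico, Nat.card_Ico]
  have h1 : 12 * c.1 + 12 - 12 * c.1 = 12 := by omega
  have h2 : 12 * c.2 + 12 - 12 * c.2 = 12 := by omega
  rw [h1, h2]

theorem P1_far_ne {x y : ℕ × ℕ} (h : Far x y) : x ≠ y := by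
  rintro rfl
  unfold Far at h
  omega

theorem P1_far_symm {x y : ℕ × ℕ} (h : Far x y) : Far y x := by
  unfold Far at *
  omega

/-- the bound for one choice of children -/
theorem P1_one {Ω : Type*} [Fintype Ω] {p : Ω → ℝ} (hp : IsProb p) (b : Ω → ℕ × ℕ → Prop)
    {q : ℝ} (_hq : 0 ≤ q) (t : ℕ)
    (ih : ∀ S : Finset (ℕ × ℕ), S ⊆ grid (12 * t) → Sep S →
      pr p {ω | ∀ c ∈ S, b ω c} ≤ q ^ S.card)
    (S : Finset (ℕ × ℕ)) (hS : S ⊆ grid t) (hsep : Sep S) (f : S → (ℕ × ℕ) × (ℕ × ℕ))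
    (hf : ∀ c : S, par (f c).1 = c ∧ par (f c).2 = c) :
    pr p {ω | ∀ c : S, b ω (f c).1 ∧ b ω (f c).2 ∧ Far (f c).1 (f c).2} ≤ (q ^ 2) ^ S.card := by
  by_cases hfar : ∀ c : S, Far (f c).1 (f c).2
  swap
  · have h0 : {ω | ∀ c : S, b ω (f c).1 ∧ b ω (f c).2 ∧ Far (f c).1 (f c).2} = (∅ : Set Ω) := by
      ext ω
      simp only [Set.mem_ofPred_eq, Set.mem_empty_iff_false, iff_false]
      intro h
      exact hfar fun c => (h c).2.2
    rw [h0]
    unfold pr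
    simp only [Set.mem_empty_iff_false, if_false, Finset.sum_const_zero]
    positivity
  set g : S × Bool → ℕ × ℕ := fun cb => if cb.2 then (f cb.1).1 else (f cb.1).2 with hg
  have hgpar : ∀ cb, par (g cb) = cb.1 := by
    rintro ⟨c, b⟩
    cases b
    · exact (hf c).2
    · exact (hf c).1
  have hgfar : ∀ cb cb' : S × Bool, cb ≠ cb' → Far (g cb) (g cb') := by
    rintro ⟨c, b⟩ ⟨c', b'⟩ hne
    by_cases hc : c = c'
    · subst hc
      cases b <;> cases b'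
      · exact absurd rfl hne
      · exact P1_far_symm (hfar c)
      · exact hfar c
      · exact absurd rfl hne
    · refine far_of_par ?_
      rw [hgpar, hgpar]
      exact hsep c c.2 c' c'.2 fun h => hc (Subtype.ext h)
  have hginj : Function.Injective g := by
    intro cb cb' h
    by_contra hne
    exact P1_far_ne (hgfar cb cb' hne) h
  have hcard : (Finset.univ.image g).card = 2 * S.card := by
    rw [Finset.card_image_of_injective _ hginj, Finset.card_univ, Fintype.card_prod,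
      Fintype.card_bool, Fintype.card_coe, mul_comm]
  have hsub : Finset.univ.image g ⊆ grid (12 * t) := by
    intro x hx
    obtain ⟨cb, _, rfl⟩ := Finset.mem_image.mp hx
    have h1 := hS cb.1.2
    have h2 := hgpar cb
    unfold grid at h1 ⊢
    rw [Finset.mem_product, Finset.mem_range, Finset.mem_range] at h1 ⊢
    rw [← h2] at h1
    unfold par at h1
    simp only at h1
    omega
  have hsep' : Sep (Finset.univ.image g) := by
    intro x hx y hy hxy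
    obtain ⟨cb, _, rfl⟩ := Finset.mem_image.mp hx
    obtain ⟨cb', _, rfl⟩ := Finset.mem_image.mp hy
    exact hgfar cb cb' fun h => hxy (by rw [h])
  have h1 := ih _ hsub hsep'
  rw [hcard, pow_mul] at h1
  refine le_trans (pr_mono hp ?_) h1
  intro ω hω x hx
  obtain ⟨⟨c, b'⟩, _, rfl⟩ := Finset.mem_image.mp hx
  have h2 := hω c
  cases b'
  · exact h2.2.1
  · exact h2.1

/-- one step of the induction -/
theorem P1_step {Ω : Type*} [Fintype Ω] {p : Ω → ℝ} (hp : IsProb p) (b : Ω → ℕ × ℕ → Prop)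
    {q : ℝ} (hq : 0 ≤ q) (t : ℕ)
    (ih : ∀ S : Finset (ℕ × ℕ), S ⊆ grid (12 * t) → Sep S →
      pr p {ω | ∀ c ∈ S, b ω c} ≤ q ^ S.card)
    (S : Finset (ℕ × ℕ)) (hS : S ⊆ grid t) (hsep : Sep S) :
    pr p {ω | ∀ c ∈ S, ∃ c1 c2, par c1 = c ∧ par c2 = c ∧ b ω c1 ∧ b ω c2 ∧ Far c1 c2} ≤
      (20736 * q ^ 2) ^ S.card := by
  set F : Finset (S → (ℕ × ℕ) × (ℕ × ℕ)) :=
    Fintype.piFinset fun c : S => P1_ch c ×ˢ P1_ch c with hF
  have hcard : (F.card : ℝ) = 20736 ^ S.card := by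
    rw [hF, Fintype.card_piFinset]
    simp only [Finset.card_product, P1_card_ch]
    rw [Finset.prod_const, Finset.card_univ, Fintype.card_coe]
    norm_num
  have hsub : {ω | ∀ c ∈ S, ∃ c1 c2, par c1 = c ∧ par c2 = c ∧ b ω c1 ∧ b ω c2 ∧ Far c1 c2} ⊆
      {ω | ∃ f ∈ F, ω ∈ {ω | ∀ c : S, b ω (f c).1 ∧ b ω (f c).2 ∧ Far (f c).1 (f c).2}} := by
    intro ω hω
    have h1 : ∀ c : S, ∃ z : (ℕ × ℕ) × (ℕ × ℕ), par z.1 = c ∧ par z.2 = c ∧ b ω z.1 ∧ b ω z.2 ∧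
        Far z.1 z.2 := by
      intro c
      obtain ⟨c1, c2, h⟩ := hω c c.2
      exact ⟨(c1, c2), h⟩
    choose f hf using h1
    refine ⟨f, ?_, fun c => ⟨(hf c).2.2.1, (hf c).2.2.2.1, (hf c).2.2.2.2⟩⟩
    rw [hF, Fintype.mem_piFinset]
    intro c
    rw [Finset.mem_product, P1_mem_ch, P1_mem_ch]
    exact ⟨(hf c).1, (hf c).2.1⟩
  refine le_trans (pr_mono hp hsub) (le_trans (pr_exists_le hp F _) ?_)
  have hone : ∀ f ∈ F, pr p {ω | ∀ c : S, b ω (f c).1 ∧ b ω (f c).2 ∧ Far (f c).1 (f c).2} ≤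
      (q ^ 2) ^ S.card := by
    intro f hf
    refine P1_one hp b hq t ih S hS hsep f fun c => ?_
    rw [hF, Fintype.mem_piFinset] at hf
    have h2 := hf c
    rw [Finset.mem_product, P1_mem_ch, P1_mem_ch] at h2
    exact h2
  refine le_trans (Finset.sum_le_sum hone) ?_
  rw [Finset.sum_const, nsmul_eq_mul, hcard, ← mul_pow]

theorem P1_strong {Ω : Type*} [Fintype Ω] {p : Ω → ℝ} (hp : IsProb p) (b0 : Ω → ℕ × ℕ → Prop)
    {p₀ : ℝ} (hp₀ : 0 ≤ p₀) (s : ℕ)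
    (h : ∀ S : Finset (ℕ × ℕ), S ⊆ grid s → Sep S → pr p {ω | ∀ β ∈ S, b0 ω β} ≤ p₀ ^ S.card)
    (k : ℕ) : ∀ (t : ℕ) (_ : s = t * 12 ^ k) (S : Finset (ℕ × ℕ)) (_ : S ⊆ grid t) (_ : Sep S),
    pr p {ω | ∀ c ∈ S, bk (b0 ω) k c} ≤ (20736 ^ (2 ^ k - 1) * p₀ ^ (2 ^ k)) ^ S.card := by
  induction k with
  | zero =>
    intro t hs S hS hsep
    have hst : s = t := by rw [hs]; ring
    subst hst
    have h1 := h S hS hsep
    have h2 : (20736 : ℝ) ^ (2 ^ 0 - 1) * p₀ ^ (2 ^ 0) = p₀ := by norm_num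
    rw [h2]
    exact h1
  | succ k ih =>
    intro t hs S hS hsep
    have h1 := P1_step hp (fun ω => bk (b0 ω) k)
      (q := 20736 ^ (2 ^ k - 1) * p₀ ^ (2 ^ k)) (by positivity) t
      (fun S' hS' hsep' => ih (12 * t) (by rw [hs]; ring) S' hS' hsep') S hS hsep
    have h2 : (20736 : ℝ) * (20736 ^ (2 ^ k - 1) * p₀ ^ (2 ^ k)) ^ 2 =
        20736 ^ (2 ^ (k + 1) - 1) * p₀ ^ (2 ^ (k + 1)) := by
      have h3 : 2 ^ (k + 1) - 1 = 1 + (2 ^ k - 1) * 2 := by
        have : 1 ≤ 2 ^ k := Nat.one_le_two_pow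
        rw [pow_succ]
        omega
      rw [mul_pow, ← pow_mul, ← pow_mul, ← mul_assoc, h3, pow_add (20736 : ℝ), pow_one, pow_succ 2 k]
    rw [h2] at h1
    exact h1

theorem bk_prod {Ω : Type*} [Fintype Ω] {p : Ω → ℝ} (hp : IsProb p) (b0 : Ω → ℕ × ℕ → Prop)
    {p₀ : ℝ} (hp₀ : 0 ≤ p₀) (s : ℕ)
    (h : ∀ S : Finset (ℕ × ℕ), S ⊆ grid s → Sep S → pr p {ω | ∀ β ∈ S, b0 ω β} ≤ p₀ ^ S.card)
    (k t : ℕ) (hs : s = t * 12 ^ k) (S : Finset (ℕ × ℕ)) (hS : S ⊆ grid t) (hsep : Sep S) :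
    pr p {ω | ∀ c ∈ S, bk (b0 ω) k c} ≤ ((20736 * p₀) ^ (2 ^ k)) ^ S.card := by
  refine le_trans (P1_strong hp b0 hp₀ s h k t hs S hS hsep) ?_
  refine pow_le_pow_left₀ (by positivity) ?_ _
  rw [mul_pow]
  refine mul_le_mul_of_nonneg_right ?_ (by positivity)
  exact pow_le_pow_right₀ (by norm_num) (Nat.sub_le _ _)

end EA42
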