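import Pool.Agent.Lib.MP_ea42c6_pr.P2a

/-!
# P2 — clear children and cores: definitions and first facts

For a block `c'` let `Clear b0 k c'` say that `c'` is outside the bounding rectangle of the bad
level-`k` blocks with the same parent.
`clear_box`: if the parent `c` is not bad (level `k+1`), two bad children differ by at most 4 in each
coordinate, so with `x0, x1, y0, y1` the extreme coordinates of the bad children the clear
children are exactly `BoxMinus (12 c.1) (12 c.2) x0 x1 y0 y1` (no bad child: take `x0 = 1, x1 = 0`).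
A clear block is not bad (take `c1 = c2 = c3 = c4 = c'`).
`core b0 0 c = {c}`, `core b0 (k+1) c = ⋃ core b0 k c'` over the clear `c'` with `par c' = c`.
-/

set_option linter.constructorNameAsVariable false

namespace EA42

open scoped Classical

/-- Outside the bounding rectangle of the bad siblings. -/
def Clear (b0 : ℕ × ℕ → Prop) (k : ℕ) (c' : ℕ × ℕ) : Prop :=
  ¬ ∃ c1 c2 c3 c4, (par c1 = par c' ∧ par c2 = par c' ∧ par c3 = par c' ∧ par c4 = par c') ∧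
    (bk b0 k c1 ∧ bk b0 k c2 ∧ bk b0 k c3 ∧ bk b0 k c4) ∧
    c1.1 ≤ c'.1 ∧ c'.1 ≤ c2.1 ∧ c3.2 ≤ c'.2 ∧ c'.2 ≤ c4.2

/-- The children of a block. -/
def kids (c : ℕ × ℕ) : Finset (ℕ × ℕ) :=
  (Finset.range 12 ×ˢ Finset.range 12).image fun ij => (12 * c.1 + ij.1, 12 * c.2 + ij.2)

/-- The core of a block. -/
noncomputable def core (b0 : ℕ × ℕ → Prop) : ℕ → ℕ × ℕ → Finset (ℕ × ℕ)
  | 0, c => {c}
  | k + 1, c => ((kids c).filter (Clear b0 k)).biUnion (core b0 k)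

theorem p2_par_eq {c c' : ℕ × ℕ} : par c' = c ↔
    (12 * c.1 ≤ c'.1 ∧ c'.1 < 12 * c.1 + 12 ∧ 12 * c.2 ≤ c'.2 ∧ c'.2 < 12 * c.2 + 12) := by
  unfold par
  rw [Prod.ext_iff]
  show (c'.1 / 12 = c.1 ∧ c'.2 / 12 = c.2) ↔ _
  omega

theorem mem_kids {c c' : ℕ × ℕ} : c' ∈ kids c ↔ par c' = c := by
  rw [p2_par_eq]
  unfold kids
  rw [Finset.mem_image]
  constructor
  · rintro ⟨ij, h1, h2⟩
    rw [Finset.mem_product, Finset.mem_range, Finset.mem_range] at h1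
    rw [← h2]
    show 12 * c.1 ≤ 12 * c.1 + ij.1 ∧ 12 * c.1 + ij.1 < 12 * c.1 + 12 ∧
      12 * c.2 ≤ 12 * c.2 + ij.2 ∧ 12 * c.2 + ij.2 < 12 * c.2 + 12
    omega
  · intro h
    refine ⟨(c'.1 - 12 * c.1, c'.2 - 12 * c.2), ?_, ?_⟩
    · rw [Finset.mem_product, Finset.mem_range, Finset.mem_range]
      show c'.1 - 12 * c.1 < 12 ∧ c'.2 - 12 * c.2 < 12
      omega
    · refine Prod.ext ?_ ?_
      · show 12 * c.1 + (c'.1 - 12 * c.1) = c'.1
        omega
      · show 12 * c.2 + (c'.2 - 12 * c.2) = c'.2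
        omega

theorem card_kids (c : ℕ × ℕ) : (kids c).card = 144 := by
  unfold kids
  rw [Finset.card_image_of_injective, Finset.card_product, Finset.card_range]
  intro a b h
  have h1 := (Prod.ext_iff.1 h).1
  have h2 := (Prod.ext_iff.1 h).2
  refine Prod.ext ?_ ?_
  · simpa using h1
  · simpa using h2

theorem clear_good (b0 : ℕ × ℕ → Prop) (k : ℕ) (c' : ℕ × ℕ) (h : Clear b0 k c') :
    ¬ bk b0 k c' := fun hb =>
  h ⟨c', c', c', c', ⟨rfl, rfl, rfl, rfl⟩, ⟨hb, hb, hb, hb⟩, le_refl _, le_refl _, le_refl _,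
    le_refl _⟩

theorem clear_box (b0 : ℕ × ℕ → Prop) (k : ℕ) (c : ℕ × ℕ) (hc : ¬ bk b0 (k + 1) c) :
    ∃ x0 x1 y0 y1 : ℕ, x1 ≤ x0 + 4 ∧ y1 ≤ y0 + 4 ∧
      ∀ c', (par c' = c ∧ Clear b0 k c') ↔ BoxMinus (12 * c.1) (12 * c.2) x0 x1 y0 y1 c' := by
  have hnf : ∀ c1 c2, par c1 = c → par c2 = c → bk b0 k c1 → bk b0 k c2 → ¬ Far c1 c2 :=
    fun c1 c2 h1 h2 h3 h4 h5 => hc ⟨c1, c2, h1, h2, h3, h4, h5⟩
  by_cases hne : ((kids c).filter (bk b0 k)).Nonempty
  · obtain ⟨a, ha, hamin⟩ := Finset.exists_min_image _ (fun p : ℕ × ℕ => p.1) hne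
    obtain ⟨b, hb, hbmax⟩ := Finset.exists_max_image _ (fun p : ℕ × ℕ => p.1) hne
    obtain ⟨a', ha', hamin'⟩ := Finset.exists_min_image _ (fun p : ℕ × ℕ => p.2) hne
    obtain ⟨b', hb', hbmax'⟩ := Finset.exists_max_image _ (fun p : ℕ × ℕ => p.2) hne
    rw [Finset.mem_filter, mem_kids] at ha hb ha' hb'
    refine ⟨a.1, b.1, a'.2, b'.2, ?_, ?_, ?_⟩
    · have := hnf a b ha.1 hb.1 ha.2 hb.2
      unfold Far at this
      omega
    · have := hnf a' b' ha'.1 hb'.1 ha'.2 hb'.2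
      unfold Far at this
      omega
    · intro c'
      rw [p2_par_eq]
      unfold BoxMinus
      constructor
      · rintro ⟨h1, h2⟩
        refine ⟨h1, fun h3 => h2 ?_⟩
        have hp : par c' = c := p2_par_eq.2 h1
        exact ⟨a, b, a', b', ⟨ha.1.trans hp.symm, hb.1.trans hp.symm, ha'.1.trans hp.symm,
          hb'.1.trans hp.symm⟩, ⟨ha.2, hb.2, ha'.2, hb'.2⟩, h3.1, h3.2.1, h3.2.2.1, h3.2.2.2⟩
      · rintro ⟨h1, h2⟩
        refine ⟨h1, ?_⟩
        have hp : par c' = c := p2_par_eq.2 h1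
        rintro ⟨c1, c2, c3, c4, ⟨p1, p2, p3, p4⟩, ⟨q1, q2, q3, q4⟩, r1, r2, r3, r4⟩
        have m1 := hamin c1 (by rw [Finset.mem_filter, mem_kids]; exact ⟨p1.trans hp, q1⟩)
        have m2 := hbmax c2 (by rw [Finset.mem_filter, mem_kids]; exact ⟨p2.trans hp, q2⟩)
        have m3 := hamin' c3 (by rw [Finset.mem_filter, mem_kids]; exact ⟨p3.trans hp, q3⟩)
        have m4 := hbmax' c4 (by rw [Finset.mem_filter, mem_kids]; exact ⟨p4.trans hp, q4⟩)
        exact h2 ⟨m1.trans r1, r2.trans m2, m3.trans r3, r4.trans m4⟩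
  · refine ⟨1, 0, 1, 0, by norm_num, by norm_num, ?_⟩
    intro c'
    rw [p2_par_eq]
    unfold BoxMinus
    constructor
    · rintro ⟨h1, _⟩
      exact ⟨h1, by omega⟩
    · rintro ⟨h1, _⟩
      refine ⟨h1, ?_⟩
      have hp : par c' = c := p2_par_eq.2 h1
      rintro ⟨c1, _, _, _, ⟨p1, _⟩, ⟨q1, _⟩, _⟩
      exact hne ⟨c1, by rw [Finset.mem_filter, mem_kids]; exact ⟨p1.trans hp, q1⟩⟩

theorem p2_core_zero (b0 : ℕ × ℕ → Prop) (c x : ℕ × ℕ) : x ∈ core b0 0 c ↔ x = c := by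
  rw [core, Finset.mem_singleton]

theorem p2_core_succ (b0 : ℕ × ℕ → Prop) (k : ℕ) (c x : ℕ × ℕ) :
    x ∈ core b0 (k + 1) c ↔ ∃ c', par c' = c ∧ Clear b0 k c' ∧ x ∈ core b0 k c' := by
  rw [core, Finset.mem_biUnion]
  constructor
  · rintro ⟨c', h1, h2⟩
    rw [Finset.mem_filter, mem_kids] at h1
    exact ⟨c', h1.1, h1.2, h2⟩
  · rintro ⟨c', h1, h2, h3⟩
    exact ⟨c', by rw [Finset.mem_filter, mem_kids]; exact ⟨h1, h2⟩, h3⟩

theorem core_par (b0 : ℕ × ℕ → Prop) (k : ℕ) (c x : ℕ × ℕ) (hx : x ∈ core b0 k c) :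
    par^[k] x = c := by
  induction k generalizing c with
  | zero =>
    rw [p2_core_zero] at hx
    exact hx
  | succ k ih =>
    rw [p2_core_succ] at hx
    obtain ⟨c', h1, _, h2⟩ := hx
    rw [Function.iterate_succ_apply', ih c' h2]
    exact h1

theorem core_good (b0 : ℕ × ℕ → Prop) (k : ℕ) (c : ℕ × ℕ) (hc : ¬ bk b0 k c) :
    ∀ x ∈ core b0 k c, ¬ b0 x := by
  induction k generalizing c with
  | zero =>
    intro x hx
    rw [p2_core_zero] at hx
    rw [hx]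
    exact hc
  | succ k ih =>
    intro x hx
    rw [p2_core_succ] at hx
    obtain ⟨c', _, h1, h2⟩ := hx
    exact ih c' (clear_good b0 k c' h1) x h2

end EA42
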