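import Pool.Agent.Lib.MP_ea42c6_pr.Defs

/-!
# P2a — a `12 × 12` box minus a rectangle of sides at most 5 is connected

Cells `(X+i, Y+j)`, `i, j < 12`; removed: `x0 ≤ c.1 ≤ x0+a`, `y0 ≤ c.2 ≤ y0+b'` with `a, b' ≤ 4`.
At least one of the two outer columns of the box is free of removed cells (the rectangle is at most 5
wide, the box 12): say the column `F` (first or last), and one of the two outer rows, `G`.
Every remaining cell `(x,y)`: its row is free of removed cells, or its column is, or both are met by the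
rectangle; then move in the row away from the rectangle (to the side where
the cell lies) up to the outer column of that side...
A convenient route: a remaining cell has `c.1 < x0`, `c.1 > x0+a`, `c.2 < y0` or `c.2 > y0+b'`.  In the
first two cases its whole column in the box remains, in the last two its whole row.
A free column and a free row cross in a remaining cell.  Two free columns (or two free rows) are
joined through a free row (column); there is a free row in the box since `12 > 5`, and a free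
column.  So everything is joined to the crossing of a fixed free row with a fixed free column.
-/

namespace EA42

/-- The cell `c` is in the box with corner `(X,Y)` but not in the rectangle. -/
def BoxMinus (X Y x0 x1 y0 y1 : ℕ) (c : ℕ × ℕ) : Prop :=
  (X ≤ c.1 ∧ c.1 < X + 12 ∧ Y ≤ c.2 ∧ c.2 < Y + 12) ∧
    ¬ (x0 ≤ c.1 ∧ c.1 ≤ x1 ∧ y0 ≤ c.2 ∧ c.2 ≤ y1)

theorem p2a_adj_symm {a b : ℕ × ℕ} (h : Adj4 a b) : Adj4 b a := by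
  unfold Adj4 at h ⊢
  omega

theorem p2a_symm {X Y x0 x1 y0 y1 : ℕ} {a b : ℕ × ℕ}
    (h : Relation.ReflTransGen (fun a b => BoxMinus X Y x0 x1 y0 y1 a ∧ BoxMinus X Y x0 x1 y0 y1 b ∧
      Adj4 a b) a b) :
    Relation.ReflTransGen (fun a b => BoxMinus X Y x0 x1 y0 y1 a ∧ BoxMinus X Y x0 x1 y0 y1 b ∧
      Adj4 a b) b a := by
  induction h with
  | refl => exact Relation.ReflTransGen.refl
  | tail _ h2 ih => exact Relation.ReflTransGen.head ⟨h2.2.1, h2.1, p2a_adj_symm h2.2.2⟩ ih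

theorem p2a_col' {X Y x0 x1 y0 y1 x : ℕ} (hf : ¬ (x0 ≤ x ∧ x ≤ x1)) (hX : X ≤ x ∧ x < X + 12)
    {y y' : ℕ} (hy : Y ≤ y) (h : y ≤ y') (hy' : y' < Y + 12) :
    Relation.ReflTransGen (fun a b => BoxMinus X Y x0 x1 y0 y1 a ∧ BoxMinus X Y x0 x1 y0 y1 b ∧
      Adj4 a b) (x, y) (x, y') := by
  induction y', h using Nat.le_induction with
  | base => exact Relation.ReflTransGen.refl
  | succ z hz ih =>
    refine (ih (by omega)).tail ⟨⟨⟨hX.1, hX.2, ?_, ?_⟩, fun h => hf ⟨h.1, h.2.1⟩⟩,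
      ⟨⟨hX.1, hX.2, ?_, hy'⟩, fun h => hf ⟨h.1, h.2.1⟩⟩, Or.inl ⟨rfl, Or.inl rfl⟩⟩
    · show Y ≤ z
      omega
    · show z < Y + 12
      omega
    · show Y ≤ z + 1
      omega

theorem p2a_col {X Y x0 x1 y0 y1 x : ℕ} (hf : ¬ (x0 ≤ x ∧ x ≤ x1)) (hX : X ≤ x ∧ x < X + 12)
    {y y' : ℕ} (hy : Y ≤ y ∧ y < Y + 12) (hy' : Y ≤ y' ∧ y' < Y + 12) :
    Relation.ReflTransGen (fun a b => BoxMinus X Y x0 x1 y0 y1 a ∧ BoxMinus X Y x0 x1 y0 y1 b ∧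
      Adj4 a b) (x, y) (x, y') := by
  rcases le_total y y' with h | h
  · exact p2a_col' hf hX hy.1 h hy'.2
  · exact p2a_symm (p2a_col' hf hX hy'.1 h hy.2)

theorem p2a_row' {X Y x0 x1 y0 y1 y : ℕ} (hf : ¬ (y0 ≤ y ∧ y ≤ y1)) (hY : Y ≤ y ∧ y < Y + 12)
    {x x' : ℕ} (hx : X ≤ x) (h : x ≤ x') (hx' : x' < X + 12) :
    Relation.ReflTransGen (fun a b => BoxMinus X Y x0 x1 y0 y1 a ∧ BoxMinus X Y x0 x1 y0 y1 b ∧
      Adj4 a b) (x, y) (x', y) := by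
  induction x', h using Nat.le_induction with
  | base => exact Relation.ReflTransGen.refl
  | succ z hz ih =>
    refine (ih (by omega)).tail ⟨⟨⟨?_, ?_, hY.1, hY.2⟩, fun h => hf h.2.2⟩,
      ⟨⟨?_, hx', hY.1, hY.2⟩, fun h => hf h.2.2⟩, Or.inr ⟨rfl, Or.inl rfl⟩⟩
    · show X ≤ z
      omega
    · show z < X + 12
      omega
    · show X ≤ z + 1
      omega

theorem p2a_row {X Y x0 x1 y0 y1 y : ℕ} (hf : ¬ (y0 ≤ y ∧ y ≤ y1)) (hY : Y ≤ y ∧ y < Y + 12)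
    {x x' : ℕ} (hx : X ≤ x ∧ x < X + 12) (hx' : X ≤ x' ∧ x' < X + 12) :
    Relation.ReflTransGen (fun a b => BoxMinus X Y x0 x1 y0 y1 a ∧ BoxMinus X Y x0 x1 y0 y1 b ∧
      Adj4 a b) (x, y) (x', y) := by
  rcases le_total x x' with h | h
  · exact p2a_row' hf hY hx.1 h hx'.2
  · exact p2a_symm (p2a_row' hf hY hx'.1 h hx.2)

theorem p2a_free (X x0 x1 : ℕ) (hx : x1 ≤ x0 + 4) :
    ∃ F, (X ≤ F ∧ F < X + 12) ∧ ¬ (x0 ≤ F ∧ F ≤ x1) := by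
  by_cases h : x0 ≤ X ∧ X ≤ x1
  · exact ⟨X + 11, by omega, by omega⟩
  · exact ⟨X, by omega, h⟩

theorem p2a_hub {X Y x0 x1 y0 y1 F G : ℕ} (hF : X ≤ F ∧ F < X + 12) (hF' : ¬ (x0 ≤ F ∧ F ≤ x1))
    (hG : Y ≤ G ∧ G < Y + 12) (hG' : ¬ (y0 ≤ G ∧ G ≤ y1)) {c : ℕ × ℕ}
    (hc : BoxMinus X Y x0 x1 y0 y1 c) :
    Relation.ReflTransGen (fun a b => BoxMinus X Y x0 x1 y0 y1 a ∧ BoxMinus X Y x0 x1 y0 y1 b ∧
      Adj4 a b) c (F, G) := by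
  obtain ⟨x, y⟩ := c
  obtain ⟨⟨h1, h2, h3, h4⟩, h5⟩ := hc
  have h1' : X ≤ x := h1
  have h2' : x < X + 12 := h2
  have h3' : Y ≤ y := h3
  have h4' : y < Y + 12 := h4
  by_cases hx : x0 ≤ x ∧ x ≤ x1
  · have hy : ¬ (y0 ≤ y ∧ y ≤ y1) := fun h => h5 ⟨hx.1, hx.2, h.1, h.2⟩
    exact (p2a_row hy ⟨h3', h4'⟩ ⟨h1', h2'⟩ hF).trans (p2a_col hF' hF ⟨h3', h4'⟩ hG)
  · exact (p2a_col hx ⟨h1', h2'⟩ ⟨h3', h4'⟩ hG).trans (p2a_row hG' hG ⟨h1', h2'⟩ hF)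

theorem boxMinus_conn {X Y x0 x1 y0 y1 : ℕ} (hx : x1 ≤ x0 + 4) (hy : y1 ≤ y0 + 4)
    {c c' : ℕ × ℕ} (hc : BoxMinus X Y x0 x1 y0 y1 c) (hc' : BoxMinus X Y x0 x1 y0 y1 c') :
    Relation.ReflTransGen (fun a b => BoxMinus X Y x0 x1 y0 y1 a ∧ BoxMinus X Y x0 x1 y0 y1 b ∧
      Adj4 a b) c c' := by
  obtain ⟨F, hF, hF'⟩ := p2a_free X x0 x1 hx
  obtain ⟨G, hG, hG'⟩ := p2a_free Y y0 y1 hy
  exact (p2a_hub hF hF' hG hG' hc).trans (p2a_symm (p2a_hub hF hF' hG hG' hc'))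

theorem p2a_two (Y y0 y1 y0' y1' : ℕ) (hy : y1 ≤ y0 + 4) (hy' : y1' ≤ y0' + 4) :
    ∃ y, (Y ≤ y ∧ y < Y + 12) ∧ ¬ (y0 ≤ y ∧ y ≤ y1) ∧ ¬ (y0' ≤ y ∧ y ≤ y1') := by
  by_cases h1 : ¬ (y0 ≤ Y ∧ Y ≤ y1) ∧ ¬ (y0' ≤ Y ∧ Y ≤ y1')
  · exact ⟨Y, by omega, h1.1, h1.2⟩
  by_cases h2 : ¬ (y0 ≤ Y + 5 ∧ Y + 5 ≤ y1) ∧ ¬ (y0' ≤ Y + 5 ∧ Y + 5 ≤ y1')
  · exact ⟨Y + 5, by omega, h2.1, h2.2⟩
  exact ⟨Y + 10, by omega, by omega, by omega⟩

/-- Two horizontally adjacent boxes, each minus a rectangle, have adjacent remaining cells. -/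
theorem boxMinus_side {X Y x0 x1 y0 y1 x0' x1' y0' y1' : ℕ} (hx : x1 ≤ x0 + 4)
    (hy : y1 ≤ y0 + 4) (hx' : x1' ≤ x0' + 4) (hy' : y1' ≤ y0' + 4) :
    ∃ y, BoxMinus X Y x0 x1 y0 y1 (X + 11, y) ∧ BoxMinus (X + 12) Y x0' x1' y0' y1' (X + 12, y) := by
  obtain ⟨y, h1, h2, h3⟩ := p2a_two Y y0 y1 y0' y1' hy hy'
  refine ⟨y, ⟨⟨?_, ?_, h1.1, h1.2⟩, fun h => h2 h.2.2⟩, ⟨⟨?_, ?_, h1.1, h1.2⟩, fun h => h3 h.2.2⟩⟩
  · show X ≤ X + 11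
    omega
  · show X + 11 < X + 12
    omega
  · show X + 12 ≤ X + 12
    omega
  · show X + 12 < X + 12 + 12
    omega

/-- The same for vertically adjacent boxes. -/
theorem boxMinus_side' {X Y x0 x1 y0 y1 x0' x1' y0' y1' : ℕ} (hx : x1 ≤ x0 + 4)
    (hy : y1 ≤ y0 + 4) (hx' : x1' ≤ x0' + 4) (hy' : y1' ≤ y0' + 4) :
    ∃ x, BoxMinus X Y x0 x1 y0 y1 (x, Y + 11) ∧ BoxMinus X (Y + 12) x0' x1' y0' y1' (x, Y + 12) := by
  obtain ⟨x, h1, h2, h3⟩ := p2a_two X x0 x1 x0' x1' hx hx'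
  refine ⟨x, ⟨⟨h1.1, h1.2, ?_, ?_⟩, fun h => h2 ⟨h.1, h.2.1⟩⟩,
    ⟨⟨h1.1, h1.2, ?_, ?_⟩, fun h => h3 ⟨h.1, h.2.1⟩⟩⟩
  · show Y ≤ Y + 11
    omega
  · show Y + 11 < Y + 12
    omega
  · show Y + 12 ≤ Y + 12
    omega
  · show Y + 12 < Y + 12 + 12
    omega

end EA42
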