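import Pool.Agent.Lib.MP_ea42c6_pr.P2n

/-!
# P2c — the core of a good block is connected

`glue` (general): if the blocks of a set `D` are connected to each other by steps `Adj4` inside
`D`, each `K d` (`d ∈ D`) is connected, and adjacent `d, d' ∈ D` have adjacent members in `K d`, `K d'`, then
`D.biUnion K` is connected (induction on the `ReflTransGen` from `d` to `d'`; connections inside
`K d` are connections inside the union: `Relation.ReflTransGen.mono`).
`core_conn` at `k+1`: `D = (kids c).filter Clear`, connected by `clear_box` and `boxMinus_conn`; `core_adj`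
at `k` and `clear_good`.
-/

set_option linter.constructorNameAsVariable false

namespace EA42

open scoped Classical

theorem glue (D : Finset (ℕ × ℕ)) (hD : Conn D) (K : ℕ × ℕ → Finset (ℕ × ℕ))
    (hK : ∀ d ∈ D, Conn (K d)) (hne : ∀ d ∈ D, (K d).Nonempty)
    (hadj : ∀ d ∈ D, ∀ d' ∈ D, Adj4 d d' → ∃ x ∈ K d, ∃ y ∈ K d', Adj4 x y) :
    Conn (D.biUnion K) := by
  have hin : ∀ d ∈ D, ∀ x ∈ K d, ∀ y ∈ K d, Relation.ReflTransGen
      (fun a b => a ∈ D.biUnion K ∧ b ∈ D.biUnion K ∧ Adj4 a b) x y := by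
    intro d hd x hx y hy
    refine Relation.ReflTransGen.mono ?_ _ _ (hK d hd x hx y hy)
    rintro a b ⟨h1, h2, h3⟩
    exact ⟨Finset.mem_biUnion.2 ⟨d, hd, h1⟩, Finset.mem_biUnion.2 ⟨d, hd, h2⟩, h3⟩
  intro x hx y hy
  obtain ⟨d, hd, hxd⟩ := Finset.mem_biUnion.1 hx
  obtain ⟨d', hd', hyd⟩ := Finset.mem_biUnion.1 hy
  have key : ∀ e, Relation.ReflTransGen (fun a b => a ∈ D ∧ b ∈ D ∧ Adj4 a b) d e →
      e ∈ D ∧ ∀ y ∈ K e, Relation.ReflTransGen
        (fun a b => a ∈ D.biUnion K ∧ b ∈ D.biUnion K ∧ Adj4 a b) x y := by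
    intro e he
    induction he with
    | refl => exact ⟨hd, fun y hy => hin d hd x hxd y hy⟩
    | tail _ h ih =>
      obtain ⟨u, hu, v, hv, huv⟩ := hadj _ h.1 _ h.2.1 h.2.2
      refine ⟨h.2.1, fun y hy => ?_⟩
      refine ((ih.2 u hu).tail ⟨?_, ?_, huv⟩).trans (hin _ h.2.1 v hv y hy)
      · exact Finset.mem_biUnion.2 ⟨_, h.1, hu⟩
      · exact Finset.mem_biUnion.2 ⟨_, h.2.1, hv⟩
  exact (key d' (hD d hd d' hd')).2 y hyd

theorem core_conn (b0 : ℕ × ℕ → Prop) (k : ℕ) (c : ℕ × ℕ) (hc : ¬ bk b0 k c) :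
    Conn (core b0 k c) := by
  induction k generalizing c with
  | zero =>
    intro x hx y hy
    rw [p2_core_zero] at hx hy
    rw [hx, hy]
  | succ k ih =>
    rw [core]
    have hm : ∀ d, d ∈ (kids c).filter (Clear b0 k) ↔ par d = c ∧ Clear b0 k d := by
      intro d
      rw [Finset.mem_filter, mem_kids]
    refine glue _ ?_ _ ?_ ?_ ?_
    · obtain ⟨x0, x1, y0, y1, hx, hy, h⟩ := clear_box b0 k c hc
      intro d hd d' hd'
      have h1 := (h d).1 ((hm d).1 hd)
      have h2 := (h d').1 ((hm d').1 hd')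
      refine Relation.ReflTransGen.mono ?_ _ _ (boxMinus_conn hx hy h1 h2)
      rintro a b ⟨g1, g2, g3⟩
      exact ⟨(hm a).2 ((h a).2 g1), (hm b).2 ((h b).2 g2), g3⟩
    · intro d hd
      exact ih d (clear_good b0 k d ((hm d).1 hd).2)
    · intro d hd
      exact core_nonempty b0 k d (clear_good b0 k d ((hm d).1 hd).2)
    · intro d hd d' hd' h
      exact core_adj b0 k d d' (clear_good b0 k d ((hm d).1 hd).2)
        (clear_good b0 k d' ((hm d').1 hd').2) h

end EA42
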