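import Pool.Agent.Lib.MP_ea42c6_pr.P2

/-!
# P2n — cores are nonempty, adjacent good blocks have adjacent members in their cores

Induction on `k`.  `core_adj` at `k+1`: `c, c'` adjacent: four orientations; in each,
`clear_box` for both and `boxMinus_side` / `boxMinus_side'` give adjacent clear children, which are
not bad (`clear_good`); apply the case `k` to them.  `core_nonempty` at `k+1`: a box minus a
rectangle has a cell (`boxMinus_side` with any second box), clear, hence good; case `k`.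
-/

set_option linter.constructorNameAsVariable false

namespace EA42

open scoped Classical

theorem core_nonempty (b0 : ℕ × ℕ → Prop) (k : ℕ) (c : ℕ × ℕ) (hc : ¬ bk b0 k c) :
    (core b0 k c).Nonempty := by
  induction k generalizing c with
  | zero => exact ⟨c, by rw [p2_core_zero]⟩
  | succ k ih =>
    obtain ⟨x0, x1, y0, y1, hx, hy, h⟩ := clear_box b0 k c hc
    obtain ⟨y, h1, _⟩ := boxMinus_side (X := 12 * c.1) (Y := 12 * c.2) (x0' := 1) (x1' := 0)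
      (y0' := 1) (y1' := 0) hx hy (by norm_num) (by norm_num)
    obtain ⟨h2, h3⟩ := (h _).2 h1
    obtain ⟨z, hz⟩ := ih _ (clear_good b0 k _ h3)
    refine ⟨z, ?_⟩
    rw [p2_core_succ]
    exact ⟨_, h2, h3, hz⟩

theorem p2n_adj (b0 : ℕ × ℕ → Prop) (k : ℕ)
    (ih : ∀ c c' : ℕ × ℕ, ¬ bk b0 k c → ¬ bk b0 k c' → Adj4 c c' →
      ∃ x ∈ core b0 k c, ∃ y ∈ core b0 k c', Adj4 x y)
    {c c' d d' : ℕ × ℕ} (h1 : par d = c ∧ Clear b0 k d) (h2 : par d' = c' ∧ Clear b0 k d')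
    (h : Adj4 d d') : ∃ x ∈ core b0 (k + 1) c, ∃ y ∈ core b0 (k + 1) c', Adj4 x y := by
  obtain ⟨x, hx, y, hy, hxy⟩ := ih d d' (clear_good b0 k d h1.2) (clear_good b0 k d' h2.2) h
  refine ⟨x, ?_, y, ?_, hxy⟩
  · rw [p2_core_succ]
    exact ⟨d, h1.1, h1.2, hx⟩
  · rw [p2_core_succ]
    exact ⟨d', h2.1, h2.2, hy⟩

theorem p2n_right (b0 : ℕ × ℕ → Prop) (k : ℕ) {c c' : ℕ × ℕ} (hc : ¬ bk b0 (k + 1) c)
    (hc' : ¬ bk b0 (k + 1) c') (e1 : c.2 = c'.2) (e2 : c.1 + 1 = c'.1) :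
    ∃ d d', (par d = c ∧ Clear b0 k d) ∧ (par d' = c' ∧ Clear b0 k d') ∧ Adj4 d d' := by
  obtain ⟨x0, x1, y0, y1, hx, hy, h⟩ := clear_box b0 k c hc
  obtain ⟨x0', x1', y0', y1', hx', hy', h'⟩ := clear_box b0 k c' hc'
  obtain ⟨y, h1, h2⟩ := boxMinus_side (X := 12 * c.1) (Y := 12 * c.2) hx hy hx' hy'
  refine ⟨(12 * c.1 + 11, y), (12 * c.1 + 12, y), (h _).2 h1, (h' _).2 ?_,
    Or.inr ⟨rfl, Or.inl rfl⟩⟩
  have e3 : 12 * c'.1 = 12 * c.1 + 12 := by omega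
  rw [e3, ← e1]
  exact h2

theorem p2n_up (b0 : ℕ × ℕ → Prop) (k : ℕ) {c c' : ℕ × ℕ} (hc : ¬ bk b0 (k + 1) c)
    (hc' : ¬ bk b0 (k + 1) c') (e1 : c.1 = c'.1) (e2 : c.2 + 1 = c'.2) :
    ∃ d d', (par d = c ∧ Clear b0 k d) ∧ (par d' = c' ∧ Clear b0 k d') ∧ Adj4 d d' := by
  obtain ⟨x0, x1, y0, y1, hx, hy, h⟩ := clear_box b0 k c hc
  obtain ⟨x0', x1', y0', y1', hx', hy', h'⟩ := clear_box b0 k c' hc'
  obtain ⟨x, h1, h2⟩ := boxMinus_side' (X := 12 * c.1) (Y := 12 * c.2) hx hy hx' hy'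
  refine ⟨(x, 12 * c.2 + 11), (x, 12 * c.2 + 12), (h _).2 h1, (h' _).2 ?_,
    Or.inl ⟨rfl, Or.inl rfl⟩⟩
  have e3 : 12 * c'.2 = 12 * c.2 + 12 := by omega
  rw [e3, ← e1]
  exact h2

theorem core_adj (b0 : ℕ × ℕ → Prop) (k : ℕ) (c c' : ℕ × ℕ) (hc : ¬ bk b0 k c)
    (hc' : ¬ bk b0 k c') (h : Adj4 c c') :
    ∃ x ∈ core b0 k c, ∃ y ∈ core b0 k c', Adj4 x y := by
  induction k generalizing c c' with
  | zero => exact ⟨c, by rw [p2_core_zero], c', by rw [p2_core_zero], h⟩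
  | succ k ih =>
    rcases h with ⟨e1, e2 | e2⟩ | ⟨e1, e2 | e2⟩
    · obtain ⟨d, d', h1, h2, h3⟩ := p2n_up b0 k hc hc' e1 e2
      exact p2n_adj b0 k ih h1 h2 h3
    · obtain ⟨d, d', h1, h2, h3⟩ := p2n_up b0 k hc' hc e1.symm e2
      exact p2n_adj b0 k ih h2 h1 (p2a_adj_symm h3)
    · obtain ⟨d, d', h1, h2, h3⟩ := p2n_right b0 k hc hc' e1 e2
      exact p2n_adj b0 k ih h1 h2 h3
    · obtain ⟨d, d', h1, h2, h3⟩ := p2n_right b0 k hc' hc e1.symm e2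
      exact p2n_adj b0 k ih h2 h1 (p2a_adj_symm h3)

end EA42
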