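import Pool.Agent.Lib.MP_ea42c6_pr.S1a

/-!
# S1 — counting paths in the geometric graph

`reach_card_le`: `#{v | Reachable u v} ≤ ∑_{k<n} #{injective p : Fin (k+1) → Fin n, p 0 = u, chain}`
(a path is injective: `Walk.toPath`, `getVert`; the last vertex determines `v`).
`sum_reach_le`: there are at most `n^k` injective `p` with `p 0 = u`; so the expectation is at most
`∑_k (n · 16 r²)^k ≤ ∑ (1/4)^k ≤ 4/3` for each `u` (`chain_le`, `lintegral_finset_sum`,
measurability of the chain events from `measurable_tdist`).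
-/

namespace EA42

open MeasureTheory
open scoped Classical ENNReal

/-- The random geometric graph. -/
def geo {n : ℕ} (X : Fin n → Pt) (r : ℝ) : SimpleGraph (Fin n) :=
  SimpleGraph.fromRel fun u v => tdist (X u) (X v) < r

theorem S1_tdist_comm (x y : Pt) : tdist x y = tdist y x := by
  unfold tdist cdist
  rw [abs_sub_comm x.1, abs_sub_comm x.2]

theorem S1_path {n : ℕ} (G : SimpleGraph (Fin n)) (u v : Fin n) (h : G.Reachable u v) :
    ∃ k < n, ∃ p : Fin (k + 1) → Fin n, Function.Injective p ∧ p 0 = u ∧ p (Fin.last k) = v ∧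
      ∀ i : Fin k, G.Adj (p i.castSucc) (p i.succ) := by
  obtain ⟨w, hw⟩ := h.exists_isPath
  refine ⟨w.length, ?_, fun i => w.getVert i, ?_, ?_, ?_, ?_⟩
  · have := hw.length_lt
    simpa using this
  · intro i j hij
    have hi : (i : ℕ) ≤ w.length := Nat.lt_succ_iff.mp i.2
    have hj : (j : ℕ) ≤ w.length := Nat.lt_succ_iff.mp j.2
    exact Fin.ext (hw.getVert_injOn hi hj hij)
  · simp
  · simp
  · intro i
    exact w.adj_getVert_succ i.2

theorem reach_card_le {n : ℕ} (X : Fin n → Pt) (r : ℝ) (u : Fin n) :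
    (Finset.univ.filter fun v => (geo X r).Reachable u v).card ≤
      ∑ k ∈ Finset.range n, (Finset.univ.filter fun p : Fin (k + 1) → Fin n =>
        Function.Injective p ∧ p 0 = u ∧
          ∀ i : Fin k, tdist (X (p i.castSucc)) (X (p i.succ)) < r).card := by
  rw [← Finset.card_sigma]
  refine le_trans (Finset.card_le_card ?_) (Finset.card_image_le (f := fun z : (Σ k : ℕ, (Fin (k + 1) → Fin n)) =>
    z.2 (Fin.last z.1)))
  intro v hv
  obtain ⟨k, hk, p, h1, h2, h3, h4⟩ := S1_path _ _ _ (Finset.mem_filter.mp hv).2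
  refine Finset.mem_image.mpr ⟨⟨k, p⟩, ?_, h3⟩
  refine Finset.mem_sigma.mpr ⟨Finset.mem_range.mpr hk, ?_⟩
  refine Finset.mem_filter.mpr ⟨Finset.mem_univ _, h1, h2, fun i => ?_⟩
  have h5 := h4 i
  rw [geo, SimpleGraph.fromRel_adj] at h5
  rcases h5.2 with h | h
  · exact h
  · rw [S1_tdist_comm]
    exact h

theorem S1_count {n k : ℕ} (u : Fin n) :
    (Finset.univ.filter fun p : Fin (k + 1) → Fin n => Function.Injective p ∧ p 0 = u).card ≤
      n ^ k := by
  have h : (Finset.univ.filter fun p : Fin (k + 1) → Fin n => Function.Injective p ∧ p 0 = u).card ≤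
      (Finset.univ : Finset (Fin k → Fin n)).card := by
    refine Finset.card_le_card_of_injOn (fun p => fun i => p i.succ) (fun _ _ => Finset.mem_coe.mpr (Finset.mem_univ _)) ?_
    intro p hp q hq hpq
    have hp' := (Finset.mem_filter.mp (Finset.mem_coe.mp hp)).2.2
    have hq' := (Finset.mem_filter.mp (Finset.mem_coe.mp hq)).2.2
    funext i
    refine Fin.cases ?_ (fun j => ?_) i
    · rw [hp', hq']
    · exact congrFun hpq j
  refine h.trans (le_of_eq ?_)
  rw [Finset.card_univ, Fintype.card_fun, Fintype.card_fin, Fintype.card_fin]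

theorem S1_meas {n k : ℕ} (r : ℝ) (p : Fin (k + 1) → Fin n) :
    MeasurableSet {X : Fin n → Pt | ∀ i : Fin k, tdist (X (p i.castSucc)) (X (p i.succ)) < r} := by
  have e : {X : Fin n → Pt | ∀ i : Fin k, tdist (X (p i.castSucc)) (X (p i.succ)) < r} =
      ⋂ i : Fin k, {X : Fin n → Pt | tdist (X (p i.castSucc)) (X (p i.succ)) < r} := by
    ext X
    simp only [Set.mem_ofPred_eq, Set.mem_iInter]
  rw [e]
  refine MeasurableSet.iInter fun i => ?_
  have h3 : Measurable fun X : Fin n → Pt => (X (p i.castSucc), X (p i.succ)) :=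
    (measurable_pi_apply _).prodMk (measurable_pi_apply _)
  have h2 : Measurable fun X : Fin n → Pt => tdist (X (p i.castSucc)) (X (p i.succ)) :=
    measurable_tdist.comp h3
  exact measurableSet_lt h2 measurable_const

theorem S1_geom (n : ℕ) {a : ℝ} (ha : 0 ≤ a) (h : a ≤ 1 / 4) :
    ∑ k ∈ Finset.range n, a ^ k ≤ 4 / 3 := by
  have h1 : ∑ k ∈ Finset.range n, a ^ k ≤ ∑ k ∈ Finset.range n, (1 / 4 : ℝ) ^ k :=
    Finset.sum_le_sum fun k _ => pow_le_pow_left₀ ha h k
  refine h1.trans ?_
  rw [geom_sum_eq (by norm_num) n]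
  have h2 : (0 : ℝ) ≤ (1 / 4 : ℝ) ^ n := by positivity
  have h3 : ((1 / 4 : ℝ) ^ n - 1) / (1 / 4 - 1) = 4 / 3 * (1 - (1 / 4 : ℝ) ^ n) := by ring
  rw [h3]
  linarith

theorem sum_reach_le {n : ℕ} {r : ℝ} (hr : 0 ≤ r) (h : (n : ℝ) * (16 * r ^ 2) ≤ 1 / 4) :
    ∫⁻ X, (∑ u : Fin n, ((Finset.univ.filter fun v => (geo X r).Reachable u v).card : ℝ≥0∞))
      ∂(Measure.pi fun _ : Fin n => unif) ≤ 4 / 3 * (n : ℝ≥0∞) := by
  have h1 : ∀ X : Fin n → Pt,
      (∑ u : Fin n, ((Finset.univ.filter fun v => (geo X r).Reachable u v).card : ℝ≥0∞)) ≤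
      ∑ u : Fin n, ∑ k ∈ Finset.range n,
        ∑ p ∈ (Finset.univ.filter fun p : Fin (k + 1) → Fin n => Function.Injective p ∧ p 0 = u),
          Set.indicator {X : Fin n → Pt | ∀ i : Fin k,
            tdist (X (p i.castSucc)) (X (p i.succ)) < r} (fun _ => (1 : ℝ≥0∞)) X := by
    intro X
    refine Finset.sum_le_sum fun u _ => ?_
    refine (Nat.cast_le.mpr (reach_card_le X r u)).trans (le_of_eq ?_)
    rw [Nat.cast_sum]
    refine Finset.sum_congr rfl fun k _ => ?_
    have e : (Finset.univ.filter fun p : Fin (k + 1) → Fin n =>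
        Function.Injective p ∧ p 0 = u ∧
          ∀ i : Fin k, tdist (X (p i.castSucc)) (X (p i.succ)) < r) =
        (Finset.univ.filter fun p : Fin (k + 1) → Fin n =>
          Function.Injective p ∧ p 0 = u).filter (fun p =>
          ∀ i : Fin k, tdist (X (p i.castSucc)) (X (p i.succ)) < r) := by
      ext p
      simp only [Finset.mem_filter, Finset.mem_univ, true_and, and_assoc]
    rw [e, Finset.card_filter, Nat.cast_sum]
    refine Finset.sum_congr rfl fun p _ => ?_
    by_cases hp : ∀ i : Fin k, tdist (X (p i.castSucc)) (X (p i.succ)) < r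
    · rw [if_pos hp, Set.indicator_of_mem (by exact hp)]
      simp
    · rw [if_neg hp, Set.indicator_of_notMem (by exact hp)]
      simp
  refine (lintegral_mono h1).trans ?_
  have hm : ∀ (k : ℕ) (p : Fin (k + 1) → Fin n), Measurable (Set.indicator {X : Fin n → Pt | ∀ i : Fin k,
            tdist (X (p i.castSucc)) (X (p i.succ)) < r} (fun _ => (1 : ℝ≥0∞))) := fun k p =>
    measurable_const.indicator (S1_meas r p)
  rw [lintegral_finsetSum _ (fun u _ => Finset.measurable_sum _ fun k _ =>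
    Finset.measurable_sum _ fun p _ => hm k p)]
  have h2 : ∀ u : Fin n, ∫⁻ X, ∑ k ∈ Finset.range n,
        ∑ p ∈ (Finset.univ.filter fun p : Fin (k + 1) → Fin n => Function.Injective p ∧ p 0 = u),
          Set.indicator {X : Fin n → Pt | ∀ i : Fin k,
            tdist (X (p i.castSucc)) (X (p i.succ)) < r} (fun _ => (1 : ℝ≥0∞)) X
        ∂(Measure.pi fun _ : Fin n => unif) ≤ 4 / 3 := by
    intro u
    rw [lintegral_finsetSum _ (fun k _ => Finset.measurable_sum _ fun p _ => hm k p)]
    have h3 : ∀ k ∈ Finset.range n, ∫⁻ X, ∑ p ∈ (Finset.univ.filter fun p : Fin (k + 1) → Fin n =>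
        Function.Injective p ∧ p 0 = u),
          Set.indicator {X : Fin n → Pt | ∀ i : Fin k,
            tdist (X (p i.castSucc)) (X (p i.succ)) < r} (fun _ => (1 : ℝ≥0∞)) X
        ∂(Measure.pi fun _ : Fin n => unif) ≤ ENNReal.ofReal (((n : ℝ) * (16 * r ^ 2)) ^ k) := by
      intro k _
      rw [lintegral_finsetSum _ (fun p _ => hm k p)]
      have h4 : ∀ p ∈ (Finset.univ.filter fun p : Fin (k + 1) → Fin n =>
        Function.Injective p ∧ p 0 = u), ∫⁻ X, Set.indicator {X : Fin n → Pt | ∀ i : Fin k,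
            tdist (X (p i.castSucc)) (X (p i.succ)) < r} (fun _ => (1 : ℝ≥0∞)) X
        ∂(Measure.pi fun _ : Fin n => unif) ≤ ENNReal.ofReal (16 * r ^ 2) ^ k := by
        intro p hp
        rw [lintegral_indicator_const (S1_meas r p), one_mul]
        exact chain_le hr p (Finset.mem_filter.mp hp).2.1
      refine (Finset.sum_le_sum h4).trans ?_
      have h5 : ENNReal.ofReal (((n : ℝ) * (16 * r ^ 2)) ^ k) =
          (n : ℝ≥0∞) ^ k * ENNReal.ofReal (16 * r ^ 2) ^ k := by
        rw [ENNReal.ofReal_pow (by positivity), ENNReal.ofReal_mul (by positivity), mul_pow,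
          ENNReal.ofReal_natCast]
      rw [Finset.sum_const, nsmul_eq_mul, h5]
      gcongr
      exact_mod_cast S1_count u
    refine (Finset.sum_le_sum h3).trans ?_
    rw [← ENNReal.ofReal_sum_of_nonneg (fun k _ => by positivity)]
    refine (ENNReal.ofReal_le_ofReal (S1_geom n (by positivity) h)).trans (le_of_eq ?_)
    rw [ENNReal.ofReal_div_of_pos (by norm_num)]
    norm_num
  refine (Finset.sum_le_sum fun u _ => h2 u).trans (le_of_eq ?_)
  rw [Finset.sum_const, nsmul_eq_mul, Finset.card_univ, Fintype.card_fin, mul_comm]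

end EA42
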