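import Pool.Agent.Lib.MP_ea42c6_pr.S1
import Pool.Agent.Lib.MP_ea42c6_pr.M2

/-!
# S2 — no giant below `1/(8√n)`

`irr ω r ≤ geo ω.1 r`, so `largest (irr ω r) ≤ largest (geo ω.1 r)`.  If `largest G ≥ c n` then
`∑_u #{v | Reachable u v} ≥ (c n)²` (the members of the largest component each see the whole component).
Markov (`mul_meas_ge_le_lintegral₀` or with measurability from M1-style arguments; the
integrand takes finitely many values on measurable sets; for an upper bound of the
measure of a set contained in a measurable one, `measurableSet_irr`):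
`probGiant ξ n r c ≤ (4/3) n/(c n)²` when `r ≤ 1/(8 √n)` (for `r ≤ 0` the graph has no edge:
balls are empty; treat `r < 0` by `largest ≤ 1`, or replace `r` by `max r 0`: `tdist ≥ 0`).
So if `r n ≤ 1/(8√n)` for infinitely many `n`, `probGiant` is frequently at most
`(4/3)/(c² n)`, which is below `1/2` for large `n`; it cannot tend to `1`.
-/

namespace EA42

open MeasureTheory Filter
open scoped Classical ENNReal

theorem S2_irr_le {n : ℕ} (ω : Sample n) {r r' : ℝ} (h : r ≤ r') : irr ω r ≤ geo ω.1 r' := by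
  intro u v huv
  rw [irr, SimpleGraph.fromRel_adj] at huv
  rw [geo, SimpleGraph.fromRel_adj]
  refine ⟨huv.1, ?_⟩
  rcases huv.2 with h1 | h1
  · left
    have h2 := (Finset.mem_filter.mp (Finset.mem_filter.mp h1).1).2
    exact lt_of_lt_of_le h2 h
  · right
    have h2 := (Finset.mem_filter.mp (Finset.mem_filter.mp h1).1).2
    exact lt_of_lt_of_le h2 h

theorem S2_largest_mono {V : Type*} [Fintype V] {G H : SimpleGraph V} (h : G ≤ H) :
    largest G ≤ largest H := by
  unfold largest
  refine Finset.sup_mono_fun fun v _ => Finset.card_le_card ?_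
  intro w hw
  exact Finset.mem_filter.mpr ⟨Finset.mem_univ _, (Finset.mem_filter.mp hw).2.mono h⟩

theorem S2_largest_sq {V : Type*} [Fintype V] (G : SimpleGraph V) :
    largest G ^ 2 ≤ ∑ u : V, (Finset.univ.filter fun v => G.Reachable u v).card := by
  by_cases hV : (Finset.univ : Finset V).Nonempty
  · obtain ⟨v, _, hv⟩ := Finset.exists_mem_eq_sup Finset.univ hV
      (fun v => (Finset.univ.filter fun w => G.Reachable v w).card)
    have e : largest G = (Finset.univ.filter fun w => G.Reachable v w).card := hv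
    rw [e]
    have h1 : ∑ u ∈ (Finset.univ.filter fun w => G.Reachable v w),
        (Finset.univ.filter fun w => G.Reachable u w).card ≤
        ∑ u : V, (Finset.univ.filter fun w => G.Reachable u w).card :=
      Finset.sum_le_sum_of_subset (Finset.subset_univ _)
    refine le_trans (le_of_eq ?_) h1
    have h2 : ∀ u ∈ (Finset.univ.filter fun w => G.Reachable v w),
        (Finset.univ.filter fun w => G.Reachable u w).card =
          (Finset.univ.filter fun w => G.Reachable v w).card := by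
      intro u hu
      have hu' : G.Reachable v u := (Finset.mem_filter.mp hu).2
      congr 1
      ext w
      simp only [Finset.mem_filter, Finset.mem_univ, true_and]
      exact ⟨fun h => hu'.trans h, fun h => hu'.symm.trans h⟩
    rw [Finset.sum_congr rfl h2, Finset.sum_const, smul_eq_mul, pow_two]
  · have e : largest G = 0 := by
      unfold largest
      rw [Finset.not_nonempty_iff_eq_empty.mp hV]
      simp
    rw [e]
    simp

theorem S2_meas {n : ℕ} (r : ℝ) : Measurable fun X : Fin n → Pt =>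
    (∑ u : Fin n, ((Finset.univ.filter fun v => (geo X r).Reachable u v).card : ℝ≥0∞)) := by
  let _ : MeasurableSpace (Fin n → Finset (Fin n)) := ⊤
  have h1 : Measurable fun X : Fin n → Pt => ball X r := by
    refine measurable_to_countable' fun b => ?_
    exact measurableSet_ball n r b
  have h2 : Measurable fun b : Fin n → Finset (Fin n) =>
      (∑ u : Fin n, ((Finset.univ.filter fun v =>
        (SimpleGraph.fromRel fun u v => v ∈ b u).Reachable u v).card : ℝ≥0∞)) :=
    measurable_from_top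
  have h3 := h2.comp h1
  have h4 : (fun X : Fin n → Pt =>
    (∑ u : Fin n, ((Finset.univ.filter fun v => (geo X r).Reachable u v).card : ℝ≥0∞))) =
    (fun b : Fin n → Finset (Fin n) =>
      (∑ u : Fin n, ((Finset.univ.filter fun v =>
        (SimpleGraph.fromRel fun u v => v ∈ b u).Reachable u v).card : ℝ≥0∞))) ∘
      (fun X : Fin n → Pt => ball X r) := by
    funext X
    have e : (SimpleGraph.fromRel fun u v => v ∈ ball X r u) = geo X r := by
      unfold geo ball
      simp
    simp only [Function.comp_apply, e]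
  rw [h4]
  exact h3

theorem S2_rad {n : ℕ} (hn : 0 < n) {r : ℝ} (hr0 : 0 ≤ r) (hr : r ≤ (1 / 8) / Real.sqrt n) :
    (n : ℝ) * (16 * r ^ 2) ≤ 1 / 4 := by
  have hn' : (0 : ℝ) < n := by exact_mod_cast hn
  have h1 : r ^ 2 ≤ ((1 / 8) / Real.sqrt n) ^ 2 := pow_le_pow_left₀ hr0 hr 2
  rw [div_pow, Real.sq_sqrt hn'.le] at h1
  have h2 : (n : ℝ) * (16 * r ^ 2) ≤ n * (16 * ((1 / 8) ^ 2 / n)) := by gcongr
  refine h2.trans (le_of_eq ?_)
  field_simp
  norm_num

theorem probGiant_le (ξ : PMF ℕ) {n : ℕ} (hn : 0 < n) {r c : ℝ} (hc : 0 < c)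
    (hr : r ≤ (1 / 8) / Real.sqrt n) :
    probGiant ξ n r c ≤ ENNReal.ofReal (4 / 3 / (c ^ 2 * n)) := by
  have hn' : (0 : ℝ) < n := by exact_mod_cast hn
  have hr0 : 0 ≤ max r 0 := le_max_right _ _
  have hr1 : max r 0 ≤ (1 / 8) / Real.sqrt n := max_le hr (by positivity)
  have hrad := S2_rad hn hr0 hr1
  have hint := sum_reach_le hr0 hrad
  have hsub : {ω : Sample n | c * n ≤ (largest (irr ω r) : ℝ)} ⊆
      {X : Fin n → Pt | ENNReal.ofReal ((c * n) ^ 2) ≤
        (∑ u : Fin n, ((Finset.univ.filter fun v => (geo X (max r 0)).Reachable u v).card : ℝ≥0∞))}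
      ×ˢ Set.univ := by
    intro ω hω
    refine Set.mem_prod.mpr ⟨?_, Set.mem_univ _⟩
    have h1 : c * n ≤ (largest (irr ω r) : ℝ) := hω
    have h2 : (largest (irr ω r)) ≤ largest (geo ω.1 (max r 0)) :=
      S2_largest_mono (S2_irr_le ω (le_max_left _ _))
    have h3 := S2_largest_sq (geo ω.1 (max r 0))
    have h4 : (c * n) ^ 2 ≤ ((largest (geo ω.1 (max r 0)) ^ 2 : ℕ) : ℝ) := by
      push_cast
      refine pow_le_pow_left₀ (by positivity) (h1.trans ?_) 2
      exact_mod_cast h2
    show ENNReal.ofReal ((c * n) ^ 2) ≤ _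
    refine (ENNReal.ofReal_le_ofReal h4).trans ?_
    rw [ENNReal.ofReal_natCast]
    exact_mod_cast h3
  have hE := mul_meas_ge_le_lintegral₀ (μ := Measure.pi fun _ : Fin n => unif)
    (S2_meas (n := n) (max r 0)).aemeasurable (ENNReal.ofReal ((c * n) ^ 2))
  have hpos : ENNReal.ofReal ((c * n) ^ 2) ≠ 0 := by
    rw [Ne, ENNReal.ofReal_eq_zero, not_le]
    positivity
  have hE2 : (Measure.pi fun _ : Fin n => unif) {X : Fin n → Pt | ENNReal.ofReal ((c * n) ^ 2) ≤
        (∑ u : Fin n, ((Finset.univ.filter fun v => (geo X (max r 0)).Reachable u v).card : ℝ≥0∞))}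
        ≤ (4 / 3 * (n : ℝ≥0∞)) / ENNReal.ofReal ((c * n) ^ 2) := by
    rw [ENNReal.le_div_iff_mul_le (Or.inl hpos) (Or.inl ENNReal.ofReal_ne_top), mul_comm]
    exact hE.trans hint
  unfold probGiant law
  refine (measure_mono hsub).trans ?_
  rw [Measure.prod_prod]
  have h1 : ((Measure.pi fun _ : Fin n => ξ.toMeasure).prod
      (Measure.pi fun _ : Fin n => permLaw n)) Set.univ = 1 := measure_univ
  rw [h1, mul_one]
  refine hE2.trans (le_of_eq ?_)
  have h2 : (4 / 3 * (n : ℝ≥0∞)) = ENNReal.ofReal (4 / 3 * n) := by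
    rw [ENNReal.ofReal_mul (by norm_num), ENNReal.ofReal_natCast,
      ENNReal.ofReal_div_of_pos (by norm_num)]
    norm_num
  rw [h2, ← ENNReal.ofReal_div_of_pos (by positivity)]
  congr 1
  field_simp

theorem subcritical (ξ : PMF ℕ) (r : ℕ → ℝ)
    (hr : ∃ᶠ n : ℕ in atTop, r n ≤ (1 / 8) / Real.sqrt n) : ¬ GiantWhp ξ r := by
  rintro ⟨c, hc, ht⟩
  have h1 : ∀ᶠ n : ℕ in atTop, (1 / 2 : ℝ≥0∞) < probGiant ξ n (r n) c :=
    ht.eventually (lt_mem_nhds (by
      rw [ENNReal.div_lt_iff (Or.inl (by norm_num)) (Or.inl (by norm_num))]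
      norm_num))
  have h2 : ∀ᶠ n : ℕ in atTop, ⌈8 / 3 / c ^ 2⌉₊ + 1 ≤ n := eventually_ge_atTop _
  obtain ⟨n, hn1, hn2, hn3⟩ := (hr.and_eventually (h1.and h2)).exists
  have hn : 0 < n := by omega
  have hn' : (0 : ℝ) < n := by exact_mod_cast hn
  have h3 := probGiant_le ξ hn hc hn1
  have h4 : 8 / 3 / c ^ 2 ≤ (n : ℝ) := by
    refine (Nat.le_ceil _).trans ?_
    exact_mod_cast (by omega : ⌈8 / 3 / c ^ 2⌉₊ ≤ n)
  have h5 : 4 / 3 / (c ^ 2 * n) ≤ (1 / 2 : ℝ) := by
    rw [div_le_iff₀ (by positivity)] at h4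
    rw [div_le_iff₀ (by positivity)]
    linarith
  have h6 : probGiant ξ n (r n) c ≤ 1 / 2 := by
    refine h3.trans ((ENNReal.ofReal_le_ofReal h5).trans (le_of_eq ?_))
    rw [ENNReal.ofReal_div_of_pos (by norm_num)]
    norm_num
  exact absurd hn2 (not_lt.mpr h6)

end EA42
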