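import Pool.Agent.Lib.MP_ea42c6_pr.W0

/-!
# T1s — the law of the summary of one coordinate

`(a, if σ₁ then c₁ else c₂, σ₁ || σ₂)` has law `pairW ⊗ bern q`.  If `|B u| ≥ 2`: for `a ≠ s` in `B u`,
`P(a, s, true) = (q/20) pairW(a,s) + (1-q/20) p2 ∑_{c₁} pairW(a,c₁) condW a s`, with
`∑_{c₁} pairW(a,c₁) = 1/|B|`, so both terms are multiples of `1/(|B|(|B|-1))`:
total `(q/20 + (1-q/20) p2)/(|B|(|B|-1)) = q/(|B|(|B|-1))` (`p2_spec`);
`P(a, s, false) = (1-q/20)(1-p2) ...= (1-q)/(|B|(|B|-1))`.  Off `offDiag` everything is 0.
If `|B u| ≤ 1`: point mass at `(u,u)`.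
(In general: `∑_{c₁} pairW(a,c₁) · condW a s = pairW(a,s)`.)
-/

namespace EA42

open scoped Classical

theorem pairW_condW {V : Type*} [Fintype V] (B : Finset V) (u : V) (hu : u ∈ B) (a s : V) :
    (∑ c, pairW B u (a, c)) * condW B u a s = pairW B u (a, s) := by
  by_cases hB : 2 ≤ B.card
  · have hb : (2 : ℝ) ≤ (B.card : ℝ) := by exact_mod_cast hB
    have hb0 : (B.card : ℝ) ≠ 0 := by linarith
    have hb1 : (B.card : ℝ) - 1 ≠ 0 := by linarith
    by_cases ha : a ∈ B
    · have h1 : ∑ c, pairW B u (a, c) = 1 / (B.card : ℝ) := by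
        have h2 : ∀ c : V, pairW B u (a, c)
            = if c ∈ B.erase a then 1 / ((B.card : ℝ) * ((B.card : ℝ) - 1)) else 0 := by
          intro c
          unfold pairW
          rw [if_pos hB]
          by_cases hc : c ∈ B.erase a
          · rw [if_pos hc]
            rw [Finset.mem_erase] at hc
            exact if_pos ⟨ha, hc.2, fun h => hc.1 h.symm⟩
          · rw [if_neg hc]
            rw [Finset.mem_erase] at hc
            exact if_neg fun h => hc ⟨fun h' => h.2.2 h'.symm, h.2.1⟩
        rw [Finset.sum_congr rfl fun c _ => h2 c, Finset.sum_ite_mem, Finset.univ_inter,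
          Finset.sum_const, nsmul_eq_mul, Finset.card_erase_of_mem ha,
          Nat.cast_sub (by omega : 1 ≤ B.card), Nat.cast_one]
        field_simp
      rw [h1]
      unfold pairW condW
      rw [if_pos hB, if_pos (⟨hB, ha⟩ : 2 ≤ B.card ∧ a ∈ B)]
      by_cases hs : s ∈ B ∧ s ≠ a
      · rw [if_pos hs, if_pos (show a ∈ B ∧ s ∈ B ∧ a ≠ s from ⟨ha, hs.1, hs.2.symm⟩)]
        field_simp
      · rw [if_neg hs, if_neg (show ¬ (a ∈ B ∧ s ∈ B ∧ a ≠ s) from
          fun h => hs ⟨h.2.1, h.2.2.symm⟩), mul_zero]
    · have h1 : ∀ c : V, pairW B u (a, c) = 0 := by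
        intro c
        unfold pairW
        rw [if_pos hB]
        exact if_neg fun h => ha h.1
      rw [Finset.sum_congr rfl fun c _ => h1 c, h1 s, Finset.sum_const_zero, zero_mul]
  · have h1 : ∀ c : V, pairW B u (a, c) = if (a = u ∧ c = u) then 1 else 0 := by
      intro c
      unfold pairW
      rw [if_neg hB]
      simp only [Prod.mk.injEq]
    have h2 : ∀ c : V, condW B u a c = if c = u then 1 else 0 := by
      intro c
      unfold condW
      exact if_neg fun h => hB h.1
    rw [Finset.sum_congr rfl fun c _ => h1 c, h1 s, h2 s]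
    by_cases ha : a = u
    · simp [ha]
    · simp [ha]

theorem wt_summary {V : Type*} [Fintype V] {q : ℝ} (h0 : 0 ≤ q) (h1 : q ≤ 1)
    (B : V → Finset V) (u : V) (hself : u ∈ B u) (a s : V) (η : Bool) :
    pr (wt q B u) {z | (z.1.1, (if z.1.2.2 = true then z.1.2.1 else z.2.1),
        (z.1.2.2 || z.2.2)) = (a, s, η)} = pairW (B u) u (a, s) * bern q η := by
  have hspec := p2_spec h0 h1
  have hc := (isProb_condW (B u) u a).2
  have hpc := pairW_condW (B u) u hself a s
  unfold pr
  rw [Fintype.sum_prod_type, Fintype.sum_prod_type, Finset.sum_eq_single a]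
  · rw [Fintype.sum_prod_type]
    simp only [Fintype.sum_prod_type, Fintype.sum_bool, Set.mem_ofPred_eq, Prod.mk.injEq,
      true_and, if_true, Bool.true_or, Bool.false_or, Bool.false_eq_true, if_false, wt, wt1, wt2,
      bern]
    rw [Finset.sum_add_distrib]
    have e1 : ∀ x : V, (∑ c : V, ((if x = s ∧ true = η then
          pairW (B u) u (a, x) * (q / 20) * (condW (B u) u a c * p2 q) else 0)
        + (if x = s ∧ true = η then
          pairW (B u) u (a, x) * (q / 20) * (condW (B u) u a c * (1 - p2 q)) else 0)))
        = if x = s then (if true = η then pairW (B u) u (a, s) * (q / 20) else 0) else 0 := by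
      intro x
      by_cases hx : x = s
      · by_cases hη : true = η
        · simp only [hx, hη, and_self, if_true]
          have e3 : ∀ c : V, pairW (B u) u (a, s) * (q / 20) * (condW (B u) u a c * p2 q)
              + pairW (B u) u (a, s) * (q / 20) * (condW (B u) u a c * (1 - p2 q))
              = (pairW (B u) u (a, s) * (q / 20)) * condW (B u) u a c := by
            intro c; ring
          rw [Finset.sum_congr rfl fun c _ => e3 c, ← Finset.mul_sum, hc, mul_one]
        · simp [hη]
      · simp [hx]
    have e2 : ∀ x : V, (∑ c : V, ((if c = s ∧ true = η then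
          pairW (B u) u (a, x) * (1 - q / 20) * (condW (B u) u a c * p2 q) else 0)
        + (if c = s ∧ false = η then
          pairW (B u) u (a, x) * (1 - q / 20) * (condW (B u) u a c * (1 - p2 q)) else 0)))
        = pairW (B u) u (a, x) * (condW (B u) u a s * ((1 - q / 20) *
          (if η = true then p2 q else 1 - p2 q))) := by
      intro x
      rw [Finset.sum_eq_single s]
      · cases η
        · simp only [Bool.true_eq_false, and_false, if_false, and_self, if_true, zero_add,
            Bool.false_eq_true]
          ring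
        · simp only [Bool.false_eq_true, and_false, if_false, and_self, if_true, add_zero]
          ring
      · intro c _ hcs
        simp only [hcs, false_and, if_false, add_zero]
      · intro h
        exact absurd (Finset.mem_univ _) h
    rw [Finset.sum_congr rfl fun x _ => e1 x, Finset.sum_congr rfl fun x _ => e2 x,
      ← Finset.sum_mul, Finset.sum_ite_eq' Finset.univ s, if_pos (Finset.mem_univ _)]
    have e4 : (∑ x : V, pairW (B u) u (a, x)) * (condW (B u) u a s * ((1 - q / 20) *
          (if η = true then p2 q else 1 - p2 q)))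
        = pairW (B u) u (a, s) * ((1 - q / 20) * (if η = true then p2 q else 1 - p2 q)) := by
      rw [← mul_assoc, hpc]
    rw [e4]
    cases η
    · simp only [Bool.true_eq_false, Bool.false_eq_true, if_false, zero_add]
      rw [hspec]
    · simp only [if_true]
      have e5 : (1 - q / 20) * p2 q = q - q / 20 := by linarith
      rw [e5]
      ring
  · intro a' _ ha'
    refine Finset.sum_eq_zero fun x _ => Finset.sum_eq_zero fun y _ => if_neg ?_
    intro h
    simp only [Set.mem_ofPred_eq, Prod.mk.injEq] at h
    exact ha' h.1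
  · intro h
    exact absurd (Finset.mem_univ _) h

end EA42
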